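import Pool.Agent.P.MP_1206ce_ag.BO.Ch

/-! Descent of Weyl invariant classes; Thom classes of unitary modules. -/

open scoped Topology
open Filter Set

noncomputable section

namespace Pool.Agent.HK

variable {V Λ X ι : Type} [Fintype V] [DecidableEq V] [TopologicalSpace X] [Fintype ι]

/-- The action of a permutation on a torus quotient. -/
def wmap (act : Matrix V V ℂ → X → X) (w : Equiv.Perm V) : Bor (TT V) act → Bor (TT V) act :=
  bmp (TT V) act (bact act (pmat w))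

theorem TauK_hT {lab : V → Λ} {act : Matrix V V ℂ → X → X} (h : IsAct (KG lab) act) :
    IsAct (TT V) act := h.mono (isGrp_KG id) (TT_subset lab)

omit [Fintype V] in
theorem TauK_pmat_inv (w : Equiv.Perm V) : pmat w⁻¹ = star (pmat w) := by
  ext k l
  have : k = w⁻¹ l ↔ l = w k := by
    rw [Equiv.Perm.eq_inv_iff_eq, eq_comm]
  simp only [pmat, Matrix.of_apply, Matrix.star_apply, this]
  split_ifs <;> simp

theorem TauK_eqv {lab : V → Λ} {act : Matrix V V ℂ → X → X} (h : IsAct (KG lab) act)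
    {w : Equiv.Perm V} (hw : w ∈ Wl lab) (P : Set (X × Fr V)) :
    EqvOn (TT V) act (TT V) act P (bact act (pmat w)) := by
  intro u hu p _
  have hP := pmat_mem_KG hw
  have hu' := pmat_conj_mem_TT w hu
  refine ⟨_, hu', ?_⟩
  rw [← h.bact_mul hP (TT_subset lab hu), ← h.bact_mul (TT_subset lab hu') hP, mul_assoc,
    h.grp.star_mul hP, mul_one]

theorem TauK_cont_bact {L : Set (Matrix V V ℂ)} {act : Matrix V V ℂ → X → X} (h : IsAct L act)
    {u : Matrix V V ℂ} (hu : u ∈ L) : Continuous (bact act u) :=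
  ((h.continuous hu).comp continuous_fst).prodMk
    (continuous_frAct.comp (continuous_const.prodMk continuous_snd))

theorem wmap_bmk {lab : V → Λ} {act : Matrix V V ℂ → X → X} (h : IsAct (KG lab) act)
    {w : Equiv.Perm V} (hw : w ∈ Wl lab) (p : X × Fr V) :
    wmap act w (bmk (TT V) act p) = bmk (TT V) act (bact act (pmat w) p) :=
  (TauK_hT h).bmp_bmk (TauK_eqv h hw univ) (mem_univ p)

theorem homeoOn_wmap {lab : V → Λ} {act : Matrix V V ℂ → X → X} (h : IsAct (KG lab) act)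
    {w : Equiv.Perm V} (hw : w ∈ Wl lab) {P : Set (X × Fr V)} (hP : Inv (TT V) act P) :
    HomeoOn (wmap act w) (wmap act w⁻¹) (BI (TT V) act P)
      (BI (TT V) act (bact act (pmat w) '' P)) := by
  have hW := pmat_mem_KG hw
  have hW' := pmat_mem_KG (inv_mem_Wl hw)
  have hl : ∀ p, bact act (pmat w⁻¹) (bact act (pmat w) p) = p := fun p => by
    rw [TauK_pmat_inv]; exact (h.bact_star hW p).1
  have hr : ∀ p, bact act (pmat w) (bact act (pmat w⁻¹) p) = p := fun p => by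
    rw [TauK_pmat_inv]; exact (h.bact_star hW p).2
  refine (TauK_hT h).homeoOn_bmp (TauK_hT h) hP ?_ (TauK_eqv h hw _)
    (TauK_eqv h (inv_mem_Wl hw) _) ⟨(TauK_cont_bact h hW).continuousOn,
      (TauK_cont_bact h hW').continuousOn, mapsTo_image _ _, ?_, fun p _ => hl p, fun p _ => hr p⟩
  · rintro u hu _ ⟨q, hq, rfl⟩
    obtain ⟨u', hu', he⟩ := TauK_eqv h (inv_mem_Wl hw) univ u hu (bact act (pmat w) q) (mem_univ _)
    refine ⟨bact act u' q, hP u' hu' q hq, ?_⟩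
    rw [hl] at he
    rw [← he, hr]
  · rintro _ ⟨q, hq, rfl⟩
    rwa [hl]

theorem toK_wmap {lab : V → Λ} {act : Matrix V V ℂ → X → X} (h : IsAct (KG lab) act)
    {w : Equiv.Perm V} (hw : w ∈ Wl lab) :
    (bmap (KG lab) act id id : Bor (TT V) act → Bor (KG lab) act) ∘ wmap act w =
      bmap (KG lab) act id id := by
  funext q
  rw [← bmk_out q, Function.comp_apply, wmap_bmk h hw, h.toK_bmk (isGrp_KG id) (TT_subset lab),
    h.toK_bmk (isGrp_KG id) (TT_subset lab), bmk_bact (pmat_mem_KG hw)]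

theorem pb_wmap_polyX {lab : V → Λ} {act : Matrix V V ℂ → X → X} (h : IsAct (KG lab) act)
    {w : Equiv.Perm V} (hw : w ∈ Wl lab) {P : Set (X × Fr V)} {n : ℕ}
    (hn : ∀ p ∈ P, p.2 ∈ Inj (id : V → V) n) (p : MvPolynomial V ℂ) :
    pb (wmap act w) (polyX (TT V) act p) - polyX (TT V) act (MvPolynomial.rename w.symm p) ∈
      BB ⊥ (BI (TT V) act P) := by
  have hT := TauK_hT h
  have e : (bmap (TT V) ptAct (fun _ => ()) id : Bor (TT V) act → BT V) ∘ wmap act w =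
      (bmap (TT V) ptAct (fun _ => ()) (fun e j k => e j (w.symm k)) : BT V → BT V) ∘
        (bmap (TT V) ptAct (fun _ => ()) id : Bor (TT V) act → BT V) := by
    funext q
    rw [← bmk_out q, Function.comp_apply, Function.comp_apply, wmap_bmk h hw,
      hT.toPt_bmk subset_rfl, hT.toPt_bmk subset_rfl, restr_bmk]
    simp only [bact, frAct_pmat]
  unfold polyX
  rw [pb_pb, e, ← pb_pb, ← pb_sub]
  exact pb_mem_BB (hT.continuous_toPt subset_rfl).continuousOn (hT.mapsTo_toPt subset_rfl hn)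
    (pb_polyC w.symm p n)

omit [DecidableEq V] in
theorem TauK_xI_zero (lab : V → Λ) : xI lab (fun _ => 0) = 1 := by
  simp [xI]

theorem tw_toK_injective [Nice X] {lab : V → Λ} {act : Matrix V V ℂ → X → X}
    (h : IsAct (KG lab) act) {P : Set (X × Fr V)} (hP : Inv (KG lab) act P) (hl : LC P) {n : ℕ}
    (hn : ∀ p ∈ P, p.2 ∈ Inj lab n) : Function.Injective
      (tw (BI (KG lab) act P) (BI (TT V) act P) (bmap (KG lab) act id id) one) := by
  classical
  have := h.nice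
  have := (TauK_hT h).nice
  have hb := (lh_TK h hP hl hn).2.1
  have key : ∀ y, tw (BI (KG lab) act P) (BI (TT V) act P) (bmap (KG lab) act id id) one y =
      lhMap (BI (KG lab) act P) (BI (TT V) act P) (bmap (KG lab) act id id)
        (fun I : ArtI lab => polyX (TT V) act (xI lab I)) (Pi.single (fun _ => 0) y) := by
    intro y
    rw [lhMap_apply, Finset.sum_eq_single (fun _ => 0)]
    · rw [TauK_xI_zero, polyX_one, Pi.single_eq_same]
    · intro I _ hI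
      rw [Pi.single_eq_of_ne hI, map_zero]
    · intro hI
      exact absurd (Finset.mem_univ _) hI
  intro y y' hy
  rw [key, key] at hy
  simpa using congrFun (hb hy) fun _ => 0

theorem TauK_tw_sum {Y κ : Type} [TopologicalSpace Y] {act : Matrix V V ℂ → X → X}
    (hT : IsAct (TT V) act) {P : Set (X × Fr V)} {n : ℕ}
    (hn : ∀ p ∈ P, p.2 ∈ Inj (id : V → V) n) {A : Set Y} {π : Bor (TT V) act → Y}
    (hπ : ProperOn π (BI (TT V) act P) A) (s : Finset κ) (f : κ → MvPolynomial V ℂ) :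
    tw A (BI (TT V) act P) π (polyX (TT V) act (∑ i ∈ s, f i)) =
      ∑ i ∈ s, tw A (BI (TT V) act P) π (polyX (TT V) act (f i)) := by
  classical
  have hz := fun p => hπ.twOK (polyX_mem_ZZ hT subset_rfl hn p)
  induction s using Finset.induction_on with
  | empty =>
    have h1 := (tw_smul (hz 0) 0).2
    rw [← polyX_smul, zero_smul, zero_smul] at h1
    simpa using h1
  | insert a s ha ih =>
    rw [Finset.sum_insert ha, Finset.sum_insert ha, polyX_add, (tw_add (hz _) (hz _)).2, ih]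

theorem TauK_image_eq {L : Set (Matrix V V ℂ)} {act : Matrix V V ℂ → X → X} (h : IsAct L act)
    {P : Set (X × Fr V)} (hP : Inv L act P) {u : Matrix V V ℂ} (hu : u ∈ L) :
    bact act u '' P = P := by
  refine Subset.antisymm ?_ fun p hp => ?_
  · rintro _ ⟨q, hq, rfl⟩
    exact hP u hu q hq
  · exact ⟨_, hP _ (h.grp.star u hu) p hp, (h.bact_star hu p).2⟩

theorem TauK_proper_wmap {lab : V → Λ} {act : Matrix V V ℂ → X → X} (h : IsAct (KG lab) act)
    {w : Equiv.Perm V} (hw : w ∈ Wl lab) {P : Set (X × Fr V)} (hP : Inv (KG lab) act P) :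
    ProperOn (wmap act w) (BI (TT V) act P) (BI (TT V) act P) := by
  have h1 := (homeoOn_wmap h hw (hP.mono (TT_subset lab))).properOn
  rwa [TauK_image_eq h hP (pmat_mem_KG hw)] at h1

theorem TauK_nil {Y : Type} [TopologicalSpace Y] {F : Filter Y} {A : Set Y} {c : Coch Y}
    (hc : c ∈ ZZ F A) : c [] = 0 := (mem_CC.1 (mem_ZZ.1 hc).1).1.1

/-- Weyl invariant classes descend. -/
theorem descend_inv [Nice X] {lab : V → Λ} {act : Matrix V V ℂ → X → X}
    (h : IsAct (KG lab) act) {P : Set (X × Fr V)} (hP : Inv (KG lab) act P) (hl : LC P) {n : ℕ}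
    (hn : ∀ p ∈ P, p.2 ∈ Inj lab n) {x : Hc (BI (TT V) act P)}
    (hx : ∀ w ∈ Wl lab, tw (BI (TT V) act P) (BI (TT V) act P) (wmap act w) one x = x) :
    ∃ y, tw (BI (KG lab) act P) (BI (TT V) act P) (bmap (KG lab) act id id) one y = x := by
  have hT := TauK_hT h
  have := h.nice
  have := hT.nice
  obtain ⟨hπ, hb⟩ := lh_TK h hP hl hn
  have hn' : ∀ p ∈ P, p.2 ∈ Inj (id : V → V) n := fun p hp => Inj_subset_id lab n (hn p hp)
  have hz := fun p => polyX_mem_ZZ hT subset_rfl hn' p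
  obtain ⟨z, rfl⟩ := hb.2 x
  have h1 : ∀ w ∈ Wl lab, ∀ p : MvPolynomial V ℂ,
      tw (BI (TT V) act P) (BI (TT V) act P) (wmap act w⁻¹) one ∘ₗ
        tw (BI (KG lab) act P) (BI (TT V) act P) (bmap (KG lab) act id id) (polyX (TT V) act p) =
      tw (BI (KG lab) act P) (BI (TT V) act P) (bmap (KG lab) act id id)
        (polyX (TT V) act (MvPolynomial.rename w p)) := by
    intro w hw p
    have hw' := inv_mem_Wl hw
    have hp := TauK_proper_wmap h hw' hP
    have hz' := pb_mem_ZZ hp.1 hp.2.1 (hz p)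
    rw [tw_comp (hπ.twOK (hz p)) (hp.twOK (one_mem_ZZ _)), toK_wmap h hw', cup_one (TauK_nil hz')]
    exact tw_congr_proper hπ hz' (hz _) (pb_wmap_polyX h hw' hn' p)
  have h2 : ∀ q ∈ Rinv lab,
      tw (BI (KG lab) act P) (BI (TT V) act P) (bmap (KG lab) act id id) (polyX (TT V) act q) =
      tw (BI (KG lab) act P) (BI (TT V) act P) (bmap (KG lab) act id id) one ∘ₗ
        tw (BI (KG lab) act P) (BI (KG lab) act P) id (chX lab (KG lab) act q n) := by
    intro q hq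
    have hc := chX_mem_ZZ h subset_rfl hn hq
    have hc' := chX_mem_ZZ hT (TT_subset lab) hn hq
    rw [tw_comp ((ClosedIn.refl _).properOn.twOK hc) (hπ.twOK (one_mem_ZZ _)),
      pb_chX h subset_rfl, cup_one (TauK_nil hc'), Function.id_comp]
    exact (tw_congr_proper hπ hc' (hz q) (chX_sub_polyX hT subset_rfl hn hq)).symm
  refine ⟨((Wl lab).card : ℂ)⁻¹ • ∑ I : ArtI lab, tw (BI (KG lab) act P) (BI (KG lab) act P) id
    (chX lab (KG lab) act (Sym lab (xI lab I)) n) (z I), ?_⟩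
  rw [map_smul, inv_smul_eq_iff₀ (card_Wl_ne_zero lab), map_sum, Nat.cast_smul_eq_nsmul,
    ← Finset.sum_const, ← Finset.sum_congr rfl fun w hw => hx w⁻¹ (inv_mem_Wl hw)]
  simp only [lhMap_apply, map_sum]
  rw [Finset.sum_comm]
  refine Finset.sum_congr rfl fun I _ => ?_
  rw [← LinearMap.comp_apply, ← h2 _ (Sym_mem_Rinv lab _), Sym_apply, TauK_tw_sum hT hn' hπ,
    LinearMap.sum_apply]
  refine Finset.sum_congr rfl fun w hw => ?_
  rw [← h1 w hw, LinearMap.comp_apply]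

/-- A linear action of `KG lab` on `ℂ^ι` that the torus diagonalises. -/
structure IsMod (lab : V → Λ) (ρ : Matrix V V ℂ → (ι → ℂ) → ι → ℂ) (χ : ι → V → ℤ) : Prop where
  act : IsAct (KG lab) ρ
  lin : ∀ u ∈ KG lab, IsLinearMap ℂ (ρ u)
  wt : ∀ u ∈ TT V, ∀ v i, ρ u v i = chr (χ i) u * v i

omit [DecidableEq V] in
/-- Thom cocycles of modules, unfolded. -/
theorem TauK_thom_iff {L : Set (Matrix V V ℂ)} {ρ : Matrix V V ℂ → (ι → ℂ) → ι → ℂ}
    {E : Set (Fr V)} {t : Coch (Bor L ρ)} :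
    IsThomFor L ρ ptAct (univ ×ˢ E) (univ ×ˢ E) (fun _ => ()) id t ↔
      TwOK (BI L ptAct (univ ×ˢ E)) (BI L ρ (univ ×ˢ E)) (bmap L ptAct (fun _ => ()) id) t ∧
        HomC (2 * (Fintype.card ι : ℤ)) t ∧
        ∀ e ∈ E, pb (fun x => bmk L ρ (x, e)) t - genC ι ∈ BB (cc univ) univ := by
  have hs : ∀ p : Unit × Fr V, p.2 ∈ E →
      {x : ι → ℂ | (x, p.2) ∈ (univ ×ˢ E : Set ((ι → ℂ) × Fr V)) ∧ (fun _ => ()) x = p.1} = univ :=
    fun p hp => eq_univ_of_forall fun x => ⟨⟨mem_univ _, hp⟩, rfl⟩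
  refine and_congr_right fun _ => and_congr_right fun _ => ⟨fun h e he => ?_, fun h p hp => ?_⟩
  · have h1 := (h ((), e) ⟨mem_univ _, he⟩).2
    rwa [hs ((), e) he, pb_id] at h1
  · rw [hs p hp.2, pb_id]
    exact ⟨⟨id, continuousOn_id, continuousOn_id, mapsTo_id _, mapsTo_id _, fun _ _ => rfl,
      fun _ _ => rfl⟩, h p.2 hp.2⟩

theorem TauK_cc_of_twOK {Y Y' : Type} [TopologicalSpace Y] [TopologicalSpace Y'] {A : Set Y}
    {A' : Set Y'} (hA : IsCompact A) {π : Y' → Y} {t : Coch Y'} (h : TwOK A A' π t) :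
    t ∈ ZZ (cc A') A' ∧ tw A A' π t (clc A one) = clc A' t := by
  have h1 : (one : Coch Y) ∈ ZZ (cc A) A := by
    rw [ZZ_cc_eq_bot hA]; exact one_mem_ZZ A
  have h2 := h.mem_ZZ h1
  have h3 := tw_cls h h1
  rw [pb_one, one_cup (TauK_nil h.2.2.1)] at h2 h3
  exact ⟨h2, h3⟩

theorem TauK_twOK_of_cc {Y Y' : Type} [TopologicalSpace Y] [TopologicalSpace Y'] {A : Set Y}
    {A' : Set Y'} {π : Y' → Y} {t : Coch Y'} (hc : ContinuousOn π A') (hm : MapsTo π A' A)
    (ht : t ∈ ZZ (cc A') A') : TwOK A A' π t :=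
  ⟨hc, hm, ZZ_cc_le_bot A' ht, fun _ _ _ => ⟨supp A' t, (mem_CC_cc.1 (mem_ZZ.1 ht).1).2,
    supp_subset A' t, inter_subset_left⟩⟩

theorem TauK_inv {L : Set (Matrix V V ℂ)} (act : Matrix V V ℂ → X → X) {E : Set (Fr V)}
    (hE : InvF L E) : Inv L act (univ ×ˢ E) := Inv.prod (fun _ _ _ _ => mem_univ _) hE

theorem TauK_compact_base {lab : V → Λ} (L : Set (Matrix V V ℂ)) (n : ℕ) :
    IsCompact (BI L ptAct ((univ : Set Unit) ×ˢ St lab n)) :=
  isCompact_BI (isCompact_univ.prod (isCompact_St lab n))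

/-- Over the compact Stiefel base two Thom cocycles are cohomologous. -/
theorem TauK_uniq {lab : V → Λ} {L : Set (Matrix V V ℂ)} {ρ : Matrix V V ℂ → (ι → ℂ) → ι → ℂ}
    (h : IsAct L ρ) (hL : L ⊆ KG lab) {n : ℕ} {t t' : Coch (Bor L ρ)}
    (ht : IsThomFor L ρ ptAct (univ ×ˢ St lab n) (univ ×ˢ St lab n) (fun _ => ()) id t)
    (ht' : IsThomFor L ρ ptAct (univ ×ˢ St lab n) (univ ×ˢ St lab n) (fun _ => ()) id t') :
    clc (BI L ρ (univ ×ˢ St lab n)) t = clc (BI L ρ (univ ×ˢ St lab n)) t' := by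
  have hlc := LC.of_isCompact (isCompact_St lab n)
  have h1 := IsThomFor.tw_eq (isAct_pt h.grp) h (TauK_inv ρ (invF_St hL n))
    (TauK_inv ptAct (invF_St hL n)) (LC.univ.prod hlc) (LC.univ.prod hlc)
    (fun _ _ _ _ => rfl) continuousOn_const
    (fun p hp u hu e he => freeOn_Inj hL n u hu e (he ▸ St_subset_Inj lab n hp.2)) ht ht'
    (fun _ _ => ⟨LinearEquiv.refl ℂ _, 0, fun x _ _ => by simp⟩)
  rw [← (TauK_cc_of_twOK (TauK_compact_base L n) ht.1).2, h1,
    (TauK_cc_of_twOK (TauK_compact_base L n) ht'.1).2]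

theorem TauK_thomT {lab : V → Λ} {ρ : Matrix V V ℂ → (ι → ℂ) → ι → ℂ} {χ : ι → V → ℤ}
    (h : IsMod lab ρ χ) (n : ℕ) : IsThomFor (TT V) ρ ptAct (univ ×ˢ St lab n) (univ ×ˢ St lab n)
      (fun _ => ()) id (tauT (TT V) ρ id χ) :=
  isThomFor_tauT (isAct_pt (isGrp_KG id)) (TauK_hT h.act) subset_rfl (S' := univ)
    (fun _ _ _ _ => mem_univ _) ⟨continuousOn_id, fun u hu x _ i => h.wt u hu x i⟩ (S := univ)
    (fun _ _ _ _ => mem_univ _) (fun _ _ _ _ => rfl) (g := Prod.snd)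
    ⟨(continuous_const.prodMk continuous_id).continuousOn, continuous_snd.continuousOn,
      fun _ _ => ⟨mem_univ _, mem_univ _⟩, fun _ _ => mem_univ _, fun _ _ => rfl, fun _ _ => rfl⟩
    (invF_St (TT_subset lab) n) ((St_subset_Inj lab n).trans (Inj_subset_id lab n))

theorem TauK_gen_act {lab : V → Λ} {ρ : Matrix V V ℂ → (ι → ℂ) → ι → ℂ} {χ : ι → V → ℤ}
    (h : IsMod lab ρ χ) {u : Matrix V V ℂ} (hu : u ∈ KG lab) :
    ProperOn (ρ u) univ univ ∧ pb (ρ u) (genC ι) - genC ι ∈ BB (cc univ) univ := by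
  have hu' := h.act.grp.star u hu
  have hl : ∀ v, ρ (star u) (ρ u v) = v := fun v => congrArg Prod.fst (h.act.bact_star hu (v, 0)).1
  have hr : ∀ v, ρ u (ρ (star u) v) = v := fun v => congrArg Prod.fst (h.act.bact_star hu (v, 0)).2
  refine ⟨HomeoOn.properOn (g := ρ (star u)) ⟨(h.act.continuous hu).continuousOn,
    (h.act.continuous hu').continuousOn, mapsTo_univ _ _, mapsTo_univ _ _, fun v _ => hl v,
    fun v _ => hr v⟩, ?_⟩
  let A : (ι → ℂ) ≃ₗ[ℂ] (ι → ℂ) :=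
    { toFun := ρ u
      map_add' := (h.lin u hu).map_add
      map_smul' := (h.lin u hu).map_smul
      invFun := ρ (star u)
      left_inv := hl
      right_inv := hr }
  have h1 := genC_linear A 0
  simp only [add_zero] at h1
  exact h1

theorem TauK_thom_wmap {lab : V → Λ} {ρ : Matrix V V ℂ → (ι → ℂ) → ι → ℂ} {χ : ι → V → ℤ}
    (h : IsMod lab ρ χ) {n : ℕ} {w : Equiv.Perm V} (hw : w ∈ Wl lab) {t : Coch (Bor (TT V) ρ)}
    (ht : IsThomFor (TT V) ρ ptAct (univ ×ˢ St lab n) (univ ×ˢ St lab n) (fun _ => ()) id t) :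
    IsThomFor (TT V) ρ ptAct (univ ×ˢ St lab n) (univ ×ˢ St lab n) (fun _ => ()) id
      (pb (wmap ρ w) t) := by
  obtain ⟨h1, h2, h3⟩ := TauK_thom_iff.1 ht
  have hW := pmat_mem_KG hw
  refine TauK_thom_iff.2 ⟨TauK_twOK_of_cc h1.1 h1.2.1 (pb_mem_ZZ_cc
    (TauK_proper_wmap h.act hw (TauK_inv ρ (invF_St subset_rfl n)))
    (TauK_cc_of_twOK (TauK_compact_base _ n) h1).1), h2.pb _, fun e he => ?_⟩
  have e1 : wmap ρ w ∘ (fun x => bmk (TT V) ρ (x, e)) =
      (fun x => bmk (TT V) ρ (x, frAct (pmat w) e)) ∘ ρ (pmat w) := by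
    funext x
    exact wmap_bmk h.act hw (x, e)
  obtain ⟨hp, hg⟩ := TauK_gen_act h hW
  have h4 := pb_mem_BB_cc hp (h3 _ (invF_St subset_rfl n _ hW e he))
  rw [pb_pb, e1, ← pb_pb]
  have h5 := add_mem h4 hg
  rwa [pb_sub, sub_add_sub_cancel] at h5

omit [Fintype ι] in
theorem TauK_proper_fibre {L : Set (Matrix V V ℂ)} {ρ : Matrix V V ℂ → (ι → ℂ) → ι → ℂ}
    (h : IsAct L ρ) {E : Set (Fr V)} (hE : InvF L E) {e : Fr V} (he : e ∈ E) :
    ProperOn (fun x => bmk L ρ (x, e)) univ (BI L ρ (univ ×ˢ E)) := by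
  have h1 : ProperOn (fun x : ι → ℂ => (x, e)) univ (univ ×ˢ E) := by
    have hc : Continuous fun x : ι → ℂ => (x, e) := continuous_id.prodMk continuous_const
    refine ⟨hc.continuousOn, fun _ _ => ⟨mem_univ _, he⟩, fun C hC _ => ?_⟩
    rw [univ_inter]
    exact (hC.image continuous_fst).of_isClosed_subset (hC.isClosed.preimage hc)
      fun x hx => ⟨_, hx, rfl⟩
  exact (h.properOn_bmk (TauK_inv ρ hE) (ClosedIn.refl _)).comp h1

/-- The Thom cocycle over the Stiefel base. -/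
theorem TauK_St {lab : V → Λ} {ρ : Matrix V V ℂ → (ι → ℂ) → ι → ℂ} {χ : ι → V → ℤ}
    (h : IsMod lab ρ χ) (n : ℕ) :
    ∃ τ ∈ ZZ (cc (BI (KG lab) ρ (univ ×ˢ St lab n))) (BI (KG lab) ρ (univ ×ˢ St lab n)),
      HomC (2 * (Fintype.card ι : ℤ)) τ ∧ ∀ e ∈ St lab n,
        pb (fun x => bmk (KG lab) ρ (x, e)) τ - genC ι ∈ BB (cc univ) univ := by
  have ht := TauK_thomT h n
  obtain ⟨h1, h2, h3⟩ := TauK_thom_iff.1 ht
  have hz := (TauK_cc_of_twOK (TauK_compact_base _ n) h1).1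
  have hP := TauK_inv ρ (invF_St (subset_rfl (a := KG lab)) n)
  have hl : LC ((univ : Set (ι → ℂ)) ×ˢ St lab n) :=
    LC.univ.prod (LC.of_isCompact (isCompact_St lab n))
  have hn : ∀ p ∈ (univ : Set (ι → ℂ)) ×ˢ St lab n, p.2 ∈ Inj lab n :=
    fun p hp => St_subset_Inj lab n hp.2
  obtain ⟨y, hy⟩ := descend_inv h.act hP hl hn (x := clc _ (tauT (TT V) ρ id χ)) fun w hw => by
    have hp := TauK_proper_wmap h.act hw hP
    rw [tw_cls (hp.twOK (one_mem_ZZ _)) hz, cup_one (TauK_nil (pb_mem_ZZ_cc hp hz))]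
    exact TauK_uniq (TauK_hT h.act) (TT_subset lab) (TauK_thom_wmap h hw ht) ht
  obtain ⟨τ, hτ, rfl⟩ := cls_surj y
  have hπ := (lh_TK h.act hP hl hn).1
  have hτ' := pb_mem_ZZ_cc hπ hτ
  rw [tw_cls (hπ.twOK (one_mem_ZZ _)) hτ, cup_one (TauK_nil hτ'), cls_eq_iff hτ' hz] at hy
  have h4 := prC_mem_BB (2 * (Fintype.card ι : ℤ)) hy
  rw [Basic_prC_sub, prC_pb, h2.prC_self] at h4
  refine ⟨_, prC_mem_ZZ _ hτ, HomC.prC _ _, fun e he => ?_⟩
  have h5 := pb_mem_BB_cc (TauK_proper_fibre (TauK_hT h.act) (invF_St (TT_subset lab) n) he) h4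
  have e1 : (bmap (KG lab) ρ id id : Bor (TT V) ρ → Bor (KG lab) ρ) ∘
      (fun x => bmk (TT V) ρ (x, e)) = fun x => bmk (KG lab) ρ (x, e) := by
    funext x
    exact h.act.toK_bmk (isGrp_KG id) (TT_subset lab) (x, e)
  have h6 := add_mem h5 (h3 e he)
  rwa [pb_sub, sub_add_sub_cancel, pb_pb, e1] at h6

/-- Existence of Thom cocycles. -/
theorem exists_tauK {lab : V → Λ} {ρ : Matrix V V ℂ → (ι → ℂ) → ι → ℂ} {χ : ι → V → ℤ}
    (h : IsMod lab ρ χ) (n : ℕ) : ∃ τ : Coch (Bor (KG lab) ρ),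
    IsThomFor (KG lab) ρ ptAct (univ ×ˢ Inj lab n) (univ ×ˢ Inj lab n) (fun _ => ()) id τ := by
  obtain ⟨τ, hτ, hh, hf⟩ := TauK_St h n
  obtain ⟨H, hc, -, h01, -, heq⟩ := exists_polar lab n
  have ha := h.act
  have hpt := isAct_pt ha.grp
  have hI := invF_Inj (subset_rfl (a := KG lab)) n
  have hP := TauK_inv ρ hI
  let R : (ι → ℂ) × Fr V → (ι → ℂ) × Fr V := fun p => (p.1, H (p.2, 1))
  have hR : EqvOn (KG lab) ρ (KG lab) ρ (univ ×ˢ Inj lab n) R := fun u hu p hp =>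
    ⟨u, hu, Prod.ext rfl (heq u hu p.2 hp.2 1 (right_mem_Icc.2 zero_le_one))⟩
  have hRc : ContinuousOn R (univ ×ˢ Inj lab n) :=
    continuousOn_fst.prodMk (hc.comp (continuousOn_snd.prodMk continuousOn_const)
      fun p hp => ⟨hp.2, right_mem_Icc.2 zero_le_one⟩)
  have hRm : MapsTo R (univ ×ˢ Inj lab n) (univ ×ˢ St lab n) := fun p hp =>
    ⟨mem_univ _, (h01 p.2 hp.2).2⟩
  have hc' := ha.continuousOn_bmp hP hR hRc
  have hm' := ha.mapsTo_bmp hR hRm
  refine ⟨pb (bmp (KG lab) ρ R) τ, TauK_thom_iff.2 ⟨⟨(ha.continuous_toPt subset_rfl).continuousOn,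
    ?_, pb_mem_ZZ hc' hm' (ZZ_cc_le_bot _ hτ), fun C hC hCA => ?_⟩, hh.pb _, fun e he => ?_⟩⟩
  · rw [← BS_eq (act := ptAct)]
    exact ha.mapsTo_toPt subset_rfl fun p hp => hp.2
  · have hD := ha.isCompact_preimage (mem_CC_cc.1 (mem_ZZ.1 hτ).1).2
    have hC' := hpt.isCompact_preimage hC
    refine ⟨_, isCompact_BI ((hD.image continuous_fst).prod (hC'.image continuous_snd)),
      BI_mono ?_, ?_⟩
    · rintro p ⟨-, q, hq, hqp⟩
      exact ⟨mem_univ _, hqp ▸ ((hpt.mem_BI (TauK_inv ptAct hI)).1 (hCA hq)).2⟩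
    · rintro q ⟨hq, hqC⟩
      obtain ⟨p, hp, rfl⟩ := supp_subset _ _ hq
      have h1 := supp_pb hc' hm' τ hq
      rw [mem_preimage, ha.bmp_bmk hR hp] at h1
      rw [mem_preimage, ha.toPt_bmk subset_rfl] at hqC
      exact ⟨p, ⟨⟨R p, h1, rfl⟩, ⟨((), p.2), hqC, rfl⟩⟩, rfl⟩
  · have e1 : (bmp (KG lab) ρ R : Bor (KG lab) ρ → Bor (KG lab) ρ) ∘
        (fun x => bmk (KG lab) ρ (x, e)) = fun x => bmk (KG lab) ρ (x, H (e, 1)) := by
      funext x
      exact ha.bmp_bmk hR (p := (x, e)) ⟨mem_univ _, he⟩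
    rw [pb_pb, e1]
    exact hf _ (h01 e he).2

theorem TauK_iso_toPt {lab : V → Λ} {ρ : Matrix V V ℂ → (ι → ℂ) → ι → ℂ} {χ : ι → V → ℤ}
    (h : IsMod lab ρ χ) {L : Set (Matrix V V ℂ)} (hG : IsGrp L) (hL : L ⊆ KG lab) (n : ℕ) (c : ℤ) :
    IsoBelow c (bmap L ptAct (fun _ => ()) id) (BS L ρ univ (St lab n))
      (BS L ptAct univ (St lab n)) :=
  isoBelow_toPt (h.act.mono hG hL) (fun _ _ _ _ => mem_univ _) LC.univ (invF_St hL n)
    (LC.of_isCompact (isCompact_St lab n)) (mem_univ 0) (fun u hu => (h.lin u (hL hu)).map_zero)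
    (H := fun p => ((1 - p.2 : ℝ) : ℂ) • p.1) (by fun_prop) (fun _ _ => mem_univ _)
    (fun x _ => by simp) (fun u hu x _ s _ => ((h.lin u (hL hu)).map_smul _ _).symm) c

/-- A Thom cocycle restricts to the Euler class. -/
theorem TauK_euler {lab : V → Λ} {ρ : Matrix V V ℂ → (ι → ℂ) → ι → ℂ} {χ : ι → V → ℤ}
    (h : IsMod lab ρ χ) {q : MvPolynomial V ℂ} (hq : q ∈ Rinv lab)
    (hd : q.IsHomogeneous (Fintype.card ι)) (he : ∏ i, linF (χ i) = q) (n : ℕ)
    {τ : Coch (Bor (KG lab) ρ)} (hτ : IsThomFor (KG lab) ρ ptAct (univ ×ˢ Inj lab n)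
      (univ ×ˢ Inj lab n) (fun _ => ()) id τ) :
    τ - chX lab (KG lab) ρ q n ∈ BB ⊥ (BI (KG lab) ρ (univ ×ˢ Inj lab n)) := by
  have ha := h.act
  have hT := TauK_hT ha
  have hpt := isAct_pt ha.grp
  have hz : τ - chX lab (KG lab) ρ q n ∈ ZZ ⊥ (BI (KG lab) ρ (univ ×ˢ Inj lab n)) :=
    sub_mem hτ.1.2.2.1 (chX_mem_ZZ ha subset_rfl (fun p hp => hp.2) hq)
  have hh : HomC (2 * (Fintype.card ι : ℤ)) (τ - chX lab (KG lab) ρ q n) := by
    rw [sub_eq_add_neg, ← neg_one_smul ℂ (chX lab (KG lab) ρ q n)]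
    exact hτ.2.1.add ((chX_homC hd n).smul _)
  have hlt : 2 * (Fintype.card ι : ℤ) < 2 * (Fintype.card ι : ℤ) + 1 := lt_add_one _
  have i1 := isoBelow_St_Inj ha subset_rfl (S := univ) (fun _ _ _ _ => mem_univ _) LC.univ n
    (2 * (Fintype.card ι : ℤ) + 1)
  rw [← BS_eq] at hz ⊢
  refine i1.2.2.2 _ hlt _ hz hh ?_
  have hz1 := pb_mem_ZZ i1.1 i1.2.1 hz
  rw [pb_id] at hz1 ⊢
  have i2 := TauK_iso_toPt h ha.grp subset_rfl n (2 * (Fintype.card ι : ℤ) + 1)
  have i3 := TauK_iso_toPt h (isGrp_KG id) (TT_subset lab) n (2 * (Fintype.card ι : ℤ) + 1)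
  obtain ⟨w, hw, hwh, hww⟩ := i2.2.2.1 _ hlt _ hz1 hh
  have hPK := TauK_inv ρ (invF_St (subset_rfl (a := KG lab)) n)
  have hn : ∀ p ∈ (univ : Set (ι → ℂ)) ×ˢ St lab n, p.2 ∈ Inj lab n :=
    fun p hp => St_subset_Inj lab n hp.2
  have hπ := (lh_TK ha hPK (LC.univ.prod (LC.of_isCompact (isCompact_St lab n))) hn).1
  have hτ1 : IsThomFor (KG lab) ρ ptAct (univ ×ˢ St lab n) (univ ×ˢ St lab n) (fun _ => ()) id
      τ := by
    have h1 := IsThomFor.restrict hpt ha (TauK_inv ptAct (invF_St subset_rfl n))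
      (prod_mono subset_rfl (St_subset_Inj lab n)) (fun _ _ _ _ => rfl) hτ
    have e1 : {p : (ι → ℂ) × Fr V | p ∈ univ ×ˢ Inj lab n ∧
        ((fun _ => ()) p.1, p.2) ∈ (univ : Set Unit) ×ˢ St lab n} = univ ×ˢ St lab n :=
      Set.ext fun p => ⟨fun hp => ⟨mem_univ _, hp.2.2⟩,
        fun hp => ⟨⟨mem_univ _, hn p hp⟩, mem_univ _, hp.2⟩⟩
    rwa [e1] at h1
  have hτ2 := hτ1.subgroup hpt ha (isGrp_KG id) (TT_subset lab) hPK
    (TauK_inv ptAct (invF_St subset_rfl n)) (fun _ _ _ _ => rfl) continuousOn_const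
  have ht := TauK_thomT h n
  have b1 := BB_cc_le_bot _ ((cls_eq_iff (TauK_cc_of_twOK (TauK_compact_base _ n) hτ2.1).1
    (TauK_cc_of_twOK (TauK_compact_base _ n) ht.1).1).1 (TauK_uniq hT (TT_subset lab) hτ2 ht))
  have b2 := tauT_sub_euler hT subset_rfl (S := univ) (co := id) (χ := χ)
    ⟨continuousOn_id, fun u hu x _ i => h.wt u hu x i⟩ (hPK.mono (TT_subset lab))
    (prod_mono subset_rfl ((St_subset_Inj lab n).trans (Inj_subset_id lab n)))
  have b3 := chX_sub_polyX hT subset_rfl hn hq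
  rw [he] at b2
  have b4 : pb (bmap (KG lab) ρ id id : Bor (TT V) ρ → Bor (KG lab) ρ)
      (τ - chX lab (KG lab) ρ q n) ∈ BB ⊥ (BI (TT V) ρ (univ ×ˢ St lab n)) := by
    have := sub_mem (add_mem b1 b2) b3
    rwa [sub_add_sub_cancel, sub_sub_sub_cancel_right, ← pb_chX ha subset_rfl id, ← pb_sub] at this
  rw [BS_eq] at hww
  have b5 := sub_mem b4 (pb_mem_BB hπ.1 hπ.2.1 hww)
  have e2 : (bmap (KG lab) ptAct (fun _ => ()) id : Bor (KG lab) ρ → Bor (KG lab) ptAct) ∘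
      (bmap (KG lab) ρ id id : Bor (TT V) ρ → Bor (KG lab) ρ) =
      (bmap (KG lab) ptAct (fun _ => ()) id : BT V → Bor (KG lab) ptAct) ∘
        (bmap (TT V) ptAct (fun _ => ()) id : Bor (TT V) ρ → BT V) := by
    funext y
    rw [← bmk_out y, Function.comp_apply, Function.comp_apply,
      ha.toK_bmk (isGrp_KG id) (TT_subset lab), ha.toPt_bmk subset_rfl, hT.toPt_bmk subset_rfl,
      (isAct_pt (isGrp_KG id)).toPt_bmk (TT_subset lab)]
  rw [← pb_sub, sub_sub_cancel, pb_pb, e2, ← pb_pb, ← BS_eq] at b5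
  have hptT := isAct_pt (isGrp_KG (id : V → V))
  have hw' : pb (bmap (KG lab) ptAct (fun _ => ()) id : BT V → Bor (KG lab) ptAct) w ∈
      ZZ ⊥ (BS (TT V) ptAct univ (St lab n)) := by
    refine pb_mem_ZZ (hptT.continuous_toPt (TT_subset lab)).continuousOn ?_ hw
    rw [BS_eq]
    exact hptT.mapsTo_toPt (TT_subset lab) fun p hp => hp.2
  have b6 := (pb_toK_inj (lab := lab) (lab₀ := lab) (fun _ _ hkl => hkl) n).1 hw
    (i3.2.2.2 _ hlt _ hw' (hwh.pb _) b5)
  have b7 := add_mem hww (BS_eq (L := KG lab) (act := ρ) univ (St lab n) ▸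
    pb_mem_BB i2.1 i2.2.1 b6)
  rw [BS_eq]
  rwa [sub_add_cancel] at b7

theorem TauK_isMod_line {lab : V → Λ} {k : V} (h1 : ∀ l, lab l = lab k → l = k) :
    IsMod lab (fun (u : Matrix V V ℂ) (v : Unit → ℂ) => u k k • v) fun _ => Pi.single k 1 where
  act :=
    { grp := isGrp_KG lab
      one := fun x => by simp
      mul := fun u hu v _ x => by
        have : (u * v) k k = u k k * v k k := by
          rw [Matrix.mul_apply, Finset.sum_eq_single k]
          · intro l _ hl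
            rw [hu.2 k l fun hkl => hl (h1 l hkl.symm), zero_mul]
          · intro hk
            exact absurd (Finset.mem_univ k) hk
        simp only [this, mul_smul]
      cont := by fun_prop }
  lin := fun u _ => ⟨fun x y => smul_add _ x y, fun c x => smul_comm _ c x⟩
  wt := fun u _ v i => by rw [chr_single]; rfl

/-- The Thom cocycle of a line on which `KG lab` acts through a singleton block restricts to the
first Chern class. -/
theorem tauK_line_euler {lab : V → Λ} {k : V} (h1 : ∀ l, lab l = lab k → l = k) (n : ℕ)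
    {τ : Coch (Bor (KG lab) (fun (u : Matrix V V ℂ) (v : Unit → ℂ) => u k k • v))}
    (hτ : IsThomFor (KG lab) (fun (u : Matrix V V ℂ) (v : Unit → ℂ) => u k k • v) ptAct
      (univ ×ˢ Inj lab n) (univ ×ˢ Inj lab n) (fun _ => ()) id τ) :
    τ - chX lab (KG lab) (fun (u : Matrix V V ℂ) (v : Unit → ℂ) => u k k • v)
      (MvPolynomial.X k) n ∈
      BB ⊥ (BI (KG lab) (fun (u : Matrix V V ℂ) (v : Unit → ℂ) => u k k • v)
        (univ ×ˢ Inj lab n)) :=
  TauK_euler (TauK_isMod_line h1) (X_mem_Rinv h1)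
    (by simpa using MvPolynomial.isHomogeneous_X ℂ k) (by simp [linF_single]) n hτ

theorem isMod_line {lab : V → Λ} {k : V} (h1 : ∀ l, lab l = lab k → l = k) :
    IsMod lab (fun (u : Matrix V V ℂ) (v : Unit → ℂ) => u k k • v) fun _ => Pi.single k 1 :=
  TauK_isMod_line h1

end Pool.Agent.HK
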