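import Pool.Agent.P.MP_1206ce_ag.BO.Fund

/-! The ambient computation (AMB). -/

open scoped Topology
open Filter Set

noncomputable section

namespace Pool.Agent.HK

variable {V Λ Λ₀ X Pos : Type} [Fintype V] [DecidableEq V] [TopologicalSpace X] [Fintype Pos]
  [DecidableEq Pos]
variable {act : Matrix V V ℂ → X → X} {co : X → Pos → ℂ} {χ : Pos → V → ℤ}

theorem Amb_locEucLE (h : Amb act co χ) (J : Finset Pos) : LocEucLE (2 * J.card) (LinS co J) :=
  fun _ hy => ⟨_, le_rfl, _, OpenIn.refl _, hy, h.convChart J⟩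

/-- Coordinate subspaces contract equivariantly to the origin. -/
theorem Amb_isoPt (h : Amb act co χ) (lab₀ : V → Λ₀) (J : Finset Pos) (n : ℕ) (c : ℤ) :
    IsoBelow c (bmap (TT V) ptAct (fun _ => ()) id) (BS (TT V) act (LinS co J) (Inj lab₀ n))
      (BS (TT V) ptAct univ (Inj lab₀ n)) := by
  have := h.nice
  obtain ⟨g, hco, hg, -, -, hgc, hcg⟩ := h.homeo
  have hgc' : ∀ x, g (co x) = x := fun x => hgc x (mem_univ x)
  have hcg' : ∀ v, co (g v) = v := fun v => hcg v (mem_univ v)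
  have hw : ∀ u ∈ TT V, ∀ x i, co (act u x) i = chr (χ i) u * co x i :=
    fun u hu x i => h.coord.2 u hu x (mem_univ x) i
  have hco' : Continuous co := continuousOn_univ.1 hco
  have hg' : Continuous g := continuousOn_univ.1 hg
  refine isoBelow_toPt h.isAct (h.invX J) (h.lc J) (invF_Inj (TT_subset lab₀) n) (lc_Inj lab₀ n)
    (x₀ := g 0) (H := fun p => g fun i => ((1 - p.2 : ℝ) : ℂ) * co p.1 i) ?_ ?_ ?_ ?_ ?_ ?_ c
  · intro i _
    rw [hcg']
    rfl
  · intro u hu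
    rw [← hgc' (act u (g 0))]
    congr 1
    funext i
    rw [hw u hu, hcg', Pi.zero_apply, mul_zero]
  · refine (hg'.comp (continuous_pi fun i => ?_)).continuousOn
    exact (Complex.continuous_ofReal.comp (continuous_const.sub continuous_snd)).mul
      ((continuous_apply i).comp (hco'.comp continuous_fst))
  · intro p hp i hi
    rw [hcg', hp.1 i hi, mul_zero]
  · intro x _
    refine ⟨?_, ?_⟩
    · simp only [sub_zero, Complex.ofReal_one, one_mul]
      exact hgc' x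
    · simp only [sub_self, Complex.ofReal_zero, zero_mul]
      rfl
  · intro u hu x _ s _
    refine Eq.trans (congrArg g (funext fun i => ?_)) (hgc' _)
    rw [hw u hu, hw u hu, hcg']
    ring

theorem Amb_polyC_ZZ (lab₀ : V → Λ₀) (n : ℕ) (p : MvPolynomial V ℂ) :
    polyC p ∈ ZZ ⊥ (BS (TT V) ptAct univ (Inj lab₀ n)) := by
  rw [← polyX_pt, BS_eq]
  exact polyX_mem_ZZ (isAct_pt (isGrp_KG id)) subset_rfl
    (fun p hp => Inj_subset_id lab₀ n hp.2) p

omit [Fintype Pos] [DecidableEq Pos] in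
theorem Amb_polyX_ZZ (h : Amb act co χ) (lab₀ : V → Λ₀) (J : Finset Pos) (n : ℕ)
    (p : MvPolynomial V ℂ) :
    polyX (TT V) act p ∈ ZZ ⊥ (BS (TT V) act (LinS co J) (Inj lab₀ n)) := by
  rw [BS_eq]
  exact polyX_mem_ZZ h.isAct subset_rfl (fun p hp => Inj_subset_id lab₀ n hp.2) p

theorem Amb_isoSt (lab₀ : V → Λ₀) (n : ℕ) (c : ℤ) :
    IsoBelow c id (BS (TT V) ptAct univ (St lab₀ n)) (BS (TT V) ptAct univ (Inj lab₀ n)) :=
  isoBelow_St_Inj (isAct_pt (isGrp_KG id)) (TT_subset lab₀) (fun _ _ _ _ => mem_univ _)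
    LC.univ n c

/-- Torus level: the Borel-Moore homology is free on the fundamental class. -/
theorem ambT_surj (h : Amb act co χ) (lab₀ : V → Λ₀) (J : Finset Pos) (n : ℕ) {j : ℤ}
    {ψ : EE (BS (TT V) act (LinS co J) (Inj lab₀ n))} (hψ : EDeg _ j ψ) :
    ∃ p : MvPolynomial V ℂ, (p = 0 ∨ ∃ d : ℕ, p.IsHomogeneous d ∧ j = D0 V n + 2 * J.card - 2 * d) ∧
      ψ = fundT act co χ lab₀ J n ∘ₗ tw (BS (TT V) act (LinS co J) (Inj lab₀ n))
        (BS (TT V) act (LinS co J) (Inj lab₀ n)) id (polyX (TT V) act p) := by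
  have := h.nice
  have := h.isAct.nice
  have hE : LocEuc (BS (TT V) act (LinS co J) (Inj lab₀ n)) :=
    locEuc_BS_KG h.isAct (h.invX J) (Amb_locEucLE h J).locEuc (invF_Inj (TT_subset lab₀) n)
      (openIn_Inj lab₀ n) (Inj_subset_id lab₀ n)
  obtain ⟨w, hw, hk, rfl⟩ := pd_surj hE (fundT_deg h lab₀ J n) (fundT_ln h lab₀ J n) hψ
  obtain ⟨i1, i2, i3, -⟩ := Amb_isoPt h lab₀ J n (D0 V n + 2 * J.card - j + 1)
  obtain ⟨s1, s2, -, s4⟩ := Amb_isoSt lab₀ n (D0 V n + 2 * J.card - j + 1)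
  obtain ⟨w₀, hw₀, hk₀, hb⟩ := i3 _ (lt_add_one _) w hw hk
  have h1 := pb_mem_ZZ s1 s2 hw₀
  rw [pb_id] at h1
  obtain ⟨p, hp, hb₁⟩ := polyC_surj lab₀ n h1 hk₀
  have h2 : HomC (D0 V n + 2 * J.card - j) (polyC p) := by
    rcases hp with rfl | ⟨d, hd, hp⟩
    · rw [map_zero]
      exact HomC.zero _
    · rw [hd]
      exact polyC_homC hp
  have h3 : w₀ - polyC p ∈ BB ⊥ (BS (TT V) ptAct univ (Inj lab₀ n)) := by
    refine s4 _ (lt_add_one _) _ (sub_mem hw₀ (Amb_polyC_ZZ lab₀ n p)) ?_ (by rwa [pb_id])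
    intro l hl
    rw [Pi.sub_apply, hk₀ l hl, h2 l hl, sub_zero]
  have h4 := pb_mem_BB i1 i2 h3
  rw [pb_sub] at h4
  have h5 : w - polyX (TT V) act p ∈ BB ⊥ (BS (TT V) act (LinS co J) (Inj lab₀ n)) := by
    have := add_mem hb h4
    rwa [sub_add_sub_cancel] at this
  refine ⟨p, hp.imp_right ?_, ?_⟩
  · rintro ⟨d, hd, hp⟩
    exact ⟨d, hp, by rw [← hd]; ring⟩
  · rw [tw_congr_proper (ClosedIn.refl _).properOn hw (Amb_polyX_ZZ h lab₀ J n p) h5]

section amb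
variable {lab : V → Λ} {lab₀ : V → Λ₀}

omit [Fintype Pos] [DecidableEq Pos] in
theorem Amb_inv (hr : Refines lab lab₀) {J : Finset Pos} (hJ : InvX (KG lab) act (LinS co J))
    (n : ℕ) : Inv (KG lab) act (LinS co J ×ˢ Inj lab₀ n) :=
  Inv.prod hJ (invF_Inj (KG_mono hr) n)

theorem Amb_proper (hr : Refines lab lab₀) (h : Amb act co χ) (hK : IsAct (KG lab) act)
    {J : Finset Pos} (hJ : InvX (KG lab) act (LinS co J)) (n : ℕ) :
    ProperOn (bmap (KG lab) act id id : Bor (TT V) act → Bor (KG lab) act)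
      (BS (TT V) act (LinS co J) (Inj lab₀ n)) (BS (KG lab) act (LinS co J) (Inj lab₀ n)) := by
  have := h.nice
  rw [BS_eq, BS_eq]
  exact (lh_TK hK (Amb_inv hr hJ n) ((h.lc J).prod (lc_Inj lab₀ n))
    fun p hp => Inj_anti hr n hp.2).1

theorem Amb_fcl_zero (hr : Refines lab lab₀) (h : Amb act co χ) (hK : IsAct (KG lab) act)
    {J : Finset Pos} (hJ : InvX (KG lab) act (LinS co J)) (n : ℕ) :
    fcl (KG lab) act co χ lab₀ J 0 n = 0 := by
  have := fcl_smul h hK (TT_subset lab) (KG_mono hr) hJ 0 0 n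
  rwa [zero_smul, zero_smul] at this

theorem Amb_fcl_sum (hr : Refines lab lab₀) (h : Amb act co χ) (hK : IsAct (KG lab) act)
    {J : Finset Pos} (hJ : InvX (KG lab) act (LinS co J)) (n : ℕ) {ι : Type} (s : Finset ι)
    (p : ι → MvPolynomial V ℂ) :
    fcl (KG lab) act co χ lab₀ J (∑ i ∈ s, p i) n =
      ∑ i ∈ s, fcl (KG lab) act co χ lab₀ J (p i) n := by
  classical
  induction s using Finset.induction_on with
  | empty => rw [Finset.sum_empty, Finset.sum_empty, Amb_fcl_zero hr h hK hJ n]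
  | insert i s hi ih =>
    rw [Finset.sum_insert hi, Finset.sum_insert hi,
      fcl_add h hK (TT_subset lab) (KG_mono hr) hJ, ih]

/-- Artin monomials below the top degree push forward to zero. -/
theorem Amb_fcl_xI (hr : Refines lab lab₀) (h : Amb act co χ) (hK : IsAct (KG lab) act)
    {J : Finset Pos} (hJ : InvX (KG lab) act (LinS co J)) (n : ℕ) {I : ArtI lab}
    (hI : I ≠ topI lab) : fcl (KG lab) act co χ lab₀ J (xI lab I) n = 0 := by
  have := h.nice
  refine (fcl_deg h hK (TT_subset lab) (KG_mono hr) hJ (xI_isHomogeneous lab I) n).eq_zero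
    (prH_BS_eq_zero hK hJ (Amb_locEucLE h J) (invF_Inj (KG_mono hr) n) (openIn_Inj lab₀ n)
      (Inj_anti hr n) ?_)
  have h1 : (degI lab I : ℤ) < npos lab := by exact_mod_cast degI_lt hI
  rw [D0]
  push_cast
  linarith

/-- Only the top Artin coefficient matters. -/
theorem Amb_fcl_span (hr : Refines lab lab₀) (h : Amb act co χ) (hK : IsAct (KG lab) act)
    {J : Finset Pos} (hJ : InvX (KG lab) act (LinS co J)) (n : ℕ)
    {c : ArtI lab → MvPolynomial V ℂ} (hc : ∀ I, c I ∈ Rinv lab) :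
    fcl (KG lab) act co χ lab₀ J (∑ I, c I * xI lab I) n =
      fcl (KG lab) act co χ lab₀ J (c (topI lab) * xI lab (topI lab)) n := by
  rw [Amb_fcl_sum hr h hK hJ n]
  refine Finset.sum_eq_single _ (fun I _ hI => ?_) fun hI => absurd (Finset.mem_univ _) hI
  rw [fcl_mul hr h hK (TT_subset lab) subset_rfl hJ (hc I), Amb_fcl_xI hr h hK hJ n hI,
    LinearMap.zero_comp]

theorem Amb_Alt_span {c : ArtI lab → MvPolynomial V ℂ} (hc : ∀ I, c I ∈ Rinv lab) :
    Alt lab (∑ I, c I * xI lab I) = c (topI lab) * Alt lab (xI lab (topI lab)) := by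
  rw [map_sum, ← Alt_mul (hc _)]
  refine Finset.sum_eq_single _ (fun I _ hI => ?_) fun hI => absurd (Finset.mem_univ _) hI
  rw [Alt_mul (hc I), Alt_xI_ne hI, mul_zero]

theorem Amb_Alt_top_ne (lab : V → Λ) : Alt lab (xI lab (topI lab)) ≠ 0 := by
  obtain ⟨ε, hε, he⟩ := Alt_xI_top lab
  rw [he]
  refine smul_ne_zero ?_ (Dl_ne_zero lab)
  rcases hε with rfl | rfl
  · exact one_ne_zero
  · exact neg_ne_zero.2 one_ne_zero

theorem Amb_lh (hr : Refines lab lab₀) (h : Amb act co χ) (hK : IsAct (KG lab) act)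
    {J : Finset Pos} (hJ : InvX (KG lab) act (LinS co J)) (n : ℕ)
    {O : Set (Bor (KG lab) act)} (hO : OpenIn O (BS (KG lab) act (LinS co J) (Inj lab₀ n))) :
    Function.Surjective (lhMap O (BS (TT V) act (LinS co J) (Inj lab₀ n) ∩
      (bmap (KG lab) act id id : Bor (TT V) act → Bor (KG lab) act) ⁻¹' O)
      (bmap (KG lab) act id id) fun I : ArtI lab => polyX (TT V) act (xI lab I)) := by
  have := h.nice
  rw [BS_eq] at hO
  obtain ⟨h1, h2⟩ := hK.eq_BI_preimage (Amb_inv hr hJ n) hO.subset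
  have h3 : OpenIn (LinS co J ×ˢ Inj lab₀ n ∩ bmk (KG lab) act ⁻¹' O) (LinS co J ×ˢ Inj lab₀ n) :=
    hO.preimage continuous_bmk.continuousOn fun p hp => ⟨p, hp, rfl⟩
  have h4 : BS (TT V) act (LinS co J) (Inj lab₀ n) ∩
      (bmap (KG lab) act id id : Bor (TT V) act → Bor (KG lab) act) ⁻¹' O =
      BI (TT V) act (LinS co J ×ˢ Inj lab₀ n ∩ bmk (KG lab) act ⁻¹' O) := by
    rw [BS_eq]
    ext q
    constructor
    · rintro ⟨⟨p, hp, rfl⟩, hq⟩
      rw [mem_preimage, hK.toK_bmk (isGrp_KG id) (TT_subset lab)] at hq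
      exact ⟨p, ⟨hp, hq⟩, rfl⟩
    · rintro ⟨p, ⟨hp, hq⟩, rfl⟩
      refine ⟨⟨p, hp, rfl⟩, ?_⟩
      rw [mem_preimage, hK.toK_bmk (isGrp_KG id) (TT_subset lab)]
      exact hq
  have h5 := (lh_TK hK h2 (((h.lc J).prod (lc_Inj lab₀ n)).openIn h3)
    fun p hp => Inj_anti hr n hp.1.2).2.2
  rw [← h1, ← h4] at h5
  exact h5

theorem amb_ln (hr : Refines lab lab₀) (h : Amb act co χ) (hK : IsAct (KG lab) act)
    {J : Finset Pos} (hJ : InvX (KG lab) act (LinS co J)) (n : ℕ) :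
    LN _ (fcl (KG lab) act co χ lab₀ J (xI lab (topI lab)) n) := by
  have := h.nice
  have := h.isAct.nice
  have := hK.nice
  refine LN.of_lh (w := fun I : ArtI lab => polyX (TT V) act (xI lab I))
    (fun I => (Amb_proper hr h hK hJ n).twOK (Amb_polyX_ZZ h lab₀ J n _)) ?_
    (fun O hO => Amb_lh hr h hK hJ n hO) (fundT_ln h lab₀ J n) (topI lab)
    fun I hI => Amb_fcl_xI hr h hK hJ n hI
  rintro q ⟨x, hx, e, he, rfl⟩
  exact ⟨bmk (TT V) act (x, e), ⟨x, hx, e, he, rfl⟩,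
    hK.toK_bmk (isGrp_KG id) (TT_subset lab) (x, e)⟩
theorem amb_surj (hr : Refines lab lab₀) (h : Amb act co χ) (hK : IsAct (KG lab) act)
    {J : Finset Pos} (hJ : InvX (KG lab) act (LinS co J)) (n : ℕ) {j : ℤ}
    {ψ : EE (BS (KG lab) act (LinS co J) (Inj lab₀ n))} (hψ : EDeg _ j ψ) :
    ∃ p : MvPolynomial V ℂ, (p = 0 ∨ ∃ d : ℕ, p.IsHomogeneous d ∧ j = D0 V n + 2 * J.card - 2 * d) ∧
      ψ = fcl (KG lab) act co χ lab₀ J p n := by
  have := h.nice
  have hT := (Amb_proper hr h hK hJ n).twOK (one_mem_ZZ _)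
  have hinj : Function.Injective (tw (BS (KG lab) act (LinS co J) (Inj lab₀ n))
      (BS (TT V) act (LinS co J) (Inj lab₀ n)) (bmap (KG lab) act id id) one) := by
    rw [BS_eq, BS_eq]
    exact tw_toK_injective hK (Amb_inv hr hJ n) ((h.lc J).prod (lc_Inj lab₀ n))
      fun p hp => Inj_anti hr n hp.2
  obtain ⟨ψ', hψ'⟩ := exists_comp_of_injective hinj ψ
  obtain ⟨p, hp, he⟩ := ambT_surj h lab₀ J n (EDeg.comp_prH _ j ψ')
  refine ⟨p, hp, ?_⟩
  have hZ := Amb_polyX_ZZ h lab₀ J n p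
  have h1 := tw_comp hT ((ClosedIn.refl _).properOn.twOK hZ)
  rw [pb_id, one_cup hZ.1.1.1, Function.comp_id] at h1
  rw [fcl, ← h1, ← LinearMap.comp_assoc, ← he]
  refine LinearMap.ext fun x => ?_
  have h2 := tw_prH hT HomC.one j x
  rw [add_zero] at h2
  simp only [LinearMap.comp_apply]
  rw [h2, ← Dual_apply hψ x]
  exact (LinearMap.congr_fun hψ' _).symm
theorem amb_zero_of_Alt (hr : Refines lab lab₀) (h : Amb act co χ) (hK : IsAct (KG lab) act)
    {J : Finset Pos} (hJ : InvX (KG lab) act (LinS co J)) (n : ℕ) {p : MvPolynomial V ℂ}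
    (hp : Alt lab p = 0) : fcl (KG lab) act co χ lab₀ J p n = 0 := by
  obtain ⟨c, hc, rfl⟩ := artin_span lab p
  rw [Amb_Alt_span hc] at hp
  rw [Amb_fcl_span hr h hK hJ n hc, (mul_eq_zero.1 hp).resolve_right (Amb_Alt_top_ne lab), zero_mul,
    Amb_fcl_zero hr h hK hJ n]
theorem amb_inj (hr : Refines lab lab₀) (h : Amb act co χ) (hK : IsAct (KG lab) act)
    {J : Finset Pos} (hJ : InvX (KG lab) act (LinS co J)) (n : ℕ) {p : MvPolynomial V ℂ} {d : ℕ}
    (hp : p.IsHomogeneous d) (hd : 2 * (d : ℤ) ≤ rng V n)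
    (h0 : fcl (KG lab) act co χ lab₀ J p n = 0) : Alt lab p = 0 := by
  have := h.nice
  have := hK.nice
  obtain ⟨c, hc, rfl⟩ := artin_span_hom lab hp
  have hc' : ∀ I, c I ∈ Rinv lab := fun I => (hc I).1
  have hh := (hc (topI lab)).2.1
  have hn : ∀ p ∈ LinS co J ×ˢ Inj lab₀ n, p.2 ∈ Inj lab n := fun p hp => Inj_anti hr n hp.2
  rw [Amb_fcl_span hr h hK hJ n hc', fcl_mul hr h hK (TT_subset lab) subset_rfl hJ (hc' _)] at h0
  have hE : LocEuc (BS (KG lab) act (LinS co J) (Inj lab₀ n)) :=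
    locEuc_BS_KG hK hJ (Amb_locEucLE h J).locEuc (invF_Inj (KG_mono hr) n)
      (openIn_Inj lab₀ n) (Inj_anti hr n)
  have h1 : chX lab (KG lab) act (c (topI lab)) n ∈
      ZZ ⊥ (BS (KG lab) act (LinS co J) (Inj lab₀ n)) := by
    rw [BS_eq]
    exact chX_mem_ZZ hK subset_rfl hn (hc' _)
  have h2 := pd_inj hE (fcl_deg h hK (TT_subset lab) (KG_mono hr) hJ (xI_isHomogeneous lab _) n)
    (amb_ln hr h hK hJ n) h1 h0
  have h3 := pb_mem_BB (Amb_proper hr h hK hJ n).1 (Amb_proper hr h hK hJ n).2.1 h2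
  rw [pb_chX hK subset_rfl] at h3
  have h4 : chX lab (TT V) act (c (topI lab)) n - polyX (TT V) act (c (topI lab)) ∈
      BB ⊥ (BS (TT V) act (LinS co J) (Inj lab₀ n)) := by
    rw [BS_eq]
    exact chX_sub_polyX h.isAct subset_rfl hn (hc' _)
  have h5 := sub_mem h3 h4
  rw [sub_sub_cancel] at h5
  have h6 := (Amb_isoPt h lab₀ J n _).2.2.2 _ (lt_add_one _) _ (Amb_polyC_ZZ lab₀ n _)
    (polyC_homC hh) h5
  have h7 := pb_mem_BB (Amb_isoSt lab₀ n 0).1 (Amb_isoSt lab₀ n 0).2.1 h6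
  rw [pb_id] at h7
  have h8 := polyC_inj lab₀ n hh
    (le_trans (by have := Nat.sub_le d (degI lab (topI lab)); omega) hd) h7
  rw [Amb_Alt_span hc', h8, zero_mul]

end amb

end Pool.Agent.HK
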