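import Pool.Agent.P.MP_1206ce_ag.BO.Proj

/-! Leray-Hirsch for `T ⊆ K`, characteristic classes of invariant polynomials. -/

open scoped Topology
open Filter Set

noncomputable section

namespace Pool.Agent.HK

variable {V V' Λ Λ' Λ₀ X : Type} [Fintype V] [DecidableEq V] [Fintype V'] [DecidableEq V']
variable [TopologicalSpace X]

/-! ### General helpers -/

theorem Ch_ZZ_mono {Y : Type} [TopologicalSpace Y] {A B : Set Y} (h : B ⊆ A) {a : Coch Y}
    (ha : a ∈ ZZ ⊥ A) : a ∈ ZZ ⊥ B :=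
  mem_ZZ.2 ⟨mem_CC_bot.2 (mem_CC_bot.1 (mem_ZZ.1 ha).1), Tw_N0_mono h (mem_ZZ.1 ha).2⟩

theorem Ch_bdd {Y : Type} [TopologicalSpace Y] {A : Set Y} {a : Coch Y} (ha : a ∈ ZZ ⊥ A) :
    Bdd a := mem_CC_bot.1 (mem_ZZ.1 ha).1

theorem Ch_iso_inj {Y : Type} [TopologicalSpace Y] {A A' : Set Y}
    (h : ∀ c, IsoBelow c id A' A) {w : Coch Y} (hw : w ∈ ZZ ⊥ A) (hb : w ∈ BB ⊥ A') :
    w ∈ BB ⊥ A :=
  VB_BB_of_prC (Ch_bdd hw) fun k => (h (k + 1)).2.2.2 k (by omega) _ (prC_mem_ZZ k hw)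
    (HomC.prC k w) (by rw [pb_id]; exact prC_mem_BB k hb)

theorem Ch_homC_sum {Y ι : Type} {k : ℤ} (s : Finset ι) {a : ι → Coch Y}
    (ha : ∀ i ∈ s, HomC k (a i)) : HomC k (∑ i ∈ s, a i) := by
  intro l hl
  rw [Finset.sum_apply]
  exact Finset.sum_eq_zero fun i hi => ha i hi l hl

theorem Ch_prC_sum {Y ι : Type} (k : ℤ) (s : Finset ι) (a : ι → Coch Y) :
    prC k (∑ i ∈ s, a i) = ∑ i ∈ s, prC k (a i) := map_sum (Basic_prL Y k) a s

theorem Ch_sum_range {Y : Type} {a : Coch Y} (h0 : a [] = 0) {N : ℕ}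
    (hN : ∀ l : List Y, N < l.length → a l = 0) :
    a = ∑ k ∈ Finset.range N, prC (k : ℤ) a := by
  funext l
  rw [Finset.sum_apply]
  simp only [prC]
  rcases l with _ | ⟨y, l⟩
  · rw [h0]
    simp
  · by_cases h : l.length < N
    · rw [Finset.sum_eq_single l.length]
      · simp
      · intro k _ hk
        rw [if_neg]
        simp only [List.length_cons]
        push_cast
        omega
      · intro hn
        exact absurd (Finset.mem_range.2 h) hn
    · rw [hN (y :: l) (by simp only [List.length_cons]; omega)]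
      simp

theorem Ch_refl (lab : V → Λ) : Refines lab lab := fun _ _ h => h

omit [DecidableEq V] in
theorem Ch_BS_mono {L : Set (Matrix V V ℂ)} {act : Matrix V V ℂ → X → X} {S : Set X}
    {E E' : Set (Fr V)} (h : E ⊆ E') : BS L act S E ⊆ BS L act S E' :=
  fun _ ⟨x, hx, e, he, hq⟩ => ⟨x, hx, e, h he, hq⟩

theorem Ch_surj {L : Set (Matrix V V ℂ)} {act : Matrix V V ℂ → X → X} (q : Bor L act) :
    ∃ p, q = bmk L act p := ⟨Quot.out q, (bmk_out q).symm⟩

theorem Ch_actT : IsAct (TT V) (ptAct (V := V)) := isAct_pt (isGrp_KG id)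

theorem Ch_actK (lab : V → Λ) : IsAct (KG lab) (ptAct (V := V)) := isAct_pt (isGrp_KG lab)

/-- The projection from the torus quotient to the quotient by `KG lab`. -/
abbrev Ch_pi (lab : V → Λ) : BT V → Bor (KG lab) (ptAct (V := V)) :=
  bmap (KG lab) ptAct (fun _ => ()) id

theorem Ch_pi_bmk (lab : V → Λ) (e : Fr V) :
    Ch_pi lab (bmk (TT V) ptAct ((), e)) = bmk (KG lab) ptAct ((), e) :=
  Ch_actT.toPt_bmk (TT_subset lab) ((), e)

theorem Ch_pi_cont (lab : V → Λ) : Continuous (Ch_pi lab) :=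
  Ch_actT.continuous_toPt (TT_subset lab)

theorem Ch_pi_maps (lab : V → Λ) (E : Set (Fr V)) :
    MapsTo (Ch_pi lab) (BS (TT V) ptAct univ E) (BS (KG lab) ptAct univ E) := by
  rintro _ ⟨⟨⟩, -, e, he, rfl⟩
  exact ⟨(), mem_univ _, e, he, Ch_pi_bmk lab e⟩

theorem Ch_pi_ZZ (lab : V → Λ) {E : Set (Fr V)} {a : Coch (Bor (KG lab) (ptAct (V := V)))}
    (ha : a ∈ ZZ ⊥ (BS (KG lab) ptAct univ E)) :
    pb (Ch_pi lab) a ∈ ZZ ⊥ (BS (TT V) ptAct univ E) :=
  pb_mem_ZZ (Ch_pi_cont lab).continuousOn (Ch_pi_maps lab E) ha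

theorem Ch_pi_BB (lab : V → Λ) {E : Set (Fr V)} {a : Coch (Bor (KG lab) (ptAct (V := V)))}
    (ha : a ∈ BB ⊥ (BS (KG lab) ptAct univ E)) :
    pb (Ch_pi lab) a ∈ BB ⊥ (BS (TT V) ptAct univ E) :=
  pb_mem_BB (Ch_pi_cont lab).continuousOn (Ch_pi_maps lab E) ha

theorem Ch_polyC_ZZ {n : ℕ} {E : Set (Fr V)} (hE : E ⊆ Inj (id : V → V) n)
    (p : MvPolynomial V ℂ) : polyC p ∈ ZZ ⊥ (BS (TT V) ptAct univ E) :=
  Ch_ZZ_mono (Ch_BS_mono hE) (polyC_mem_ZZ p n)

theorem Ch_compact_BS {L : Set (Matrix V V ℂ)} {E : Set (Fr V)} (hE : IsCompact E) :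
    IsCompact (BS L (ptAct (V := V)) univ E) := by
  rw [BS_eq]
  exact isCompact_BI (isCompact_univ.prod hE)

theorem Ch_St_sub {lab : V → Λ} {lab₀ : V → Λ₀} (hr : Refines lab lab₀) (n : ℕ) :
    St lab₀ n ⊆ Inj lab n := (St_subset_Inj lab₀ n).trans (Inj_anti hr n)

theorem Ch_iso {lab₀ : V → Λ₀} {L : Set (Matrix V V ℂ)} (h : IsGrp L) (hL : L ⊆ KG lab₀) (n : ℕ)
    (c : ℤ) : IsoBelow c id (BS L (ptAct (V := V)) univ (St lab₀ n))
      (BS L ptAct univ (Inj lab₀ n)) :=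
  isoBelow_St_Inj (isAct_pt h) hL (fun _ _ _ _ => mem_univ _) LC.univ n c

/-! ### Leray-Hirsch -/

theorem lh_TK [Nice X] {lab : V → Λ} {act : Matrix V V ℂ → X → X} (h : IsAct (KG lab) act)
    {P : Set (X × Fr V)} (hP : Inv (KG lab) act P) (hl : LC P) {n : ℕ}
    (hn : ∀ p ∈ P, p.2 ∈ Inj lab n) :
    ProperOn (bmap (KG lab) act id id : Bor (TT V) act → Bor (KG lab) act) (BI (TT V) act P)
      (BI (KG lab) act P) ∧
    Function.Bijective (lhMap (BI (KG lab) act P) (BI (TT V) act P) (bmap (KG lab) act id id)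
      fun I : ArtI lab => polyX (TT V) act (xI lab I)) := by
  have hT : IsAct (TT V) act := h.mono (isGrp_KG id) (TT_subset lab)
  have hPT : Inv (TT V) act P := hP.mono (TT_subset lab)
  have hpr := h.ind_proper (isGrp_KG id) (TT_subset lab) hP hPT (ClosedIn.refl P)
  have hn' : ∀ p ∈ P, p.2 ∈ Inj (id : V → V) n := fun p hp => Inj_subset_id lab n (hn p hp)
  have := h.nice
  have := hT.nice
  have := (Ch_actT (V := V)).nice
  refine ⟨hpr, leray_hirsch (h.lc_BI hP hl) (hT.lc_BI hPT hl)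
    (fun I => hpr.twOK (polyX_mem_ZZ hT subset_rfl hn' _))
    (fun I => ⟨_, polyX_homC (xI_isHomogeneous lab I)⟩) ?_⟩
  rintro _ ⟨p, hp, rfl⟩
  have hK := isGrp_KG lab
  have hc : IsCompact (BI (TT V) act P ∩ (bmap (KG lab) act id id : Bor (TT V) act →
      Bor (KG lab) act) ⁻¹' {bmk (KG lab) act p}) :=
    hpr.2.2 _ isCompact_singleton (singleton_subset_iff.2 ⟨p, hp, rfl⟩)
  have hmem : ∀ q, q ∈ BI (TT V) act P ∩ (bmap (KG lab) act id id : Bor (TT V) act →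
      Bor (KG lab) act) ⁻¹' {bmk (KG lab) act p} ↔
      ∃ u ∈ KG lab, q = bmk (TT V) act (bact act u p) := by
    intro q
    constructor
    · rintro ⟨⟨p', hp', rfl⟩, hq⟩
      rw [mem_preimage, mem_singleton_iff, h.toK_bmk (isGrp_KG id) (TT_subset lab)] at hq
      obtain ⟨u, hu, rfl⟩ := h.bmk_eq_iff.1 hq.symm
      exact ⟨u, hu, rfl⟩
    · rintro ⟨u, hu, rfl⟩
      refine ⟨⟨_, hP u hu p hp, rfl⟩, ?_⟩
      rw [mem_preimage, mem_singleton_iff, h.toK_bmk (isGrp_KG id) (TT_subset lab), bmk_bact hu]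
  have hbij : BijOn (bmap (TT V) ptAct (fun _ => ()) id : Bor (TT V) act → BT V)
      (BI (TT V) act P ∩ (bmap (KG lab) act id id : Bor (TT V) act →
        Bor (KG lab) act) ⁻¹' {bmk (KG lab) act p})
      (BS (TT V) ptAct univ {e' | ∃ u ∈ KG lab, e' = frAct u p.2}) := by
    refine ⟨fun q hq => ?_, fun q hq q' hq' he => ?_, ?_⟩
    · obtain ⟨u, hu, rfl⟩ := (hmem q).1 hq
      exact ⟨(), mem_univ _, _, ⟨u, hu, rfl⟩, hT.toPt_bmk subset_rfl _⟩
    · obtain ⟨u, hu, rfl⟩ := (hmem q).1 hq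
      obtain ⟨u', hu', rfl⟩ := (hmem q').1 hq'
      rw [hT.toPt_bmk subset_rfl, hT.toPt_bmk subset_rfl] at he
      obtain ⟨t, ht, he⟩ := Ch_actT.bmk_eq_iff.1 he
      have he2 : frAct u' p.2 = frAct t (frAct u p.2) := congrArg Prod.snd he
      have htK := TT_subset lab ht
      have h1 : star u' * (t * u) = 1 := by
        refine freeOn_Inj subset_rfl n _ (hK.mul _ (hK.star _ hu') _ (hK.mul _ htK _ hu)) _
          (hn p hp) ?_
        rw [frAct_mul, frAct_mul, ← he2, ← frAct_mul, hK.star_mul hu', frAct_one]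
      have h2 : u' = t * u := by
        calc u' = u' * (star u' * (t * u)) := by rw [h1, mul_one]
          _ = t * u := by rw [← mul_assoc, hK.mul_star hu', one_mul]
      rw [h2, h.bact_mul htK hu, bmk_bact ht]
    · rintro _ ⟨⟨⟩, -, _, ⟨u, hu, rfl⟩, rfl⟩
      exact ⟨_, (hmem _).2 ⟨u, hu, rfl⟩, hT.toPt_bmk subset_rfl _⟩
  have hcont := (hT.continuous_toPt (L₁ := TT V) subset_rfl)
  have hc' : IsCompact (BS (TT V) ptAct univ {e' | ∃ u ∈ KG lab, e' = frAct u p.2}) := by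
    rw [← hbij.image_eq]
    exact hc.image hcont
  have : Nonempty (Bor (TT V) act) := ⟨bmk _ _ p⟩
  obtain ⟨g, hg⟩ := (ProperOn.of_isCompact hc hcont.continuousOn hbij.mapsTo).exists_homeoOn
    (LC.of_isCompact hc') hbij
  refine IsBasisOn.of_homeoOn hg (isBasisOn_orbit lab (hn p hp)) (fun I => ?_) fun I => ?_
  · rw [ZZ_cc_eq_bot hc]
    exact Ch_ZZ_mono inter_subset_left (polyX_mem_ZZ hT subset_rfl hn' _)
  · have : polyX (TT V) act (xI lab I) - pb (bmap (TT V) ptAct (fun _ => ()) id :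
        Bor (TT V) act → BT V) (polyC (xI lab I)) = 0 := sub_self _
    rw [this]
    exact zero_mem _

/-- The Leray-Hirsch map for a point and a compact invariant set of frames. -/
theorem Ch_lh {lab : V → Λ} {n : ℕ} {E : Set (Fr V)} (hE : InvF (KG lab) E) (hc : IsCompact E)
    (hn : E ⊆ Inj lab n) :
    ProperOn (Ch_pi lab) (BS (TT V) ptAct univ E) (BS (KG lab) ptAct univ E) ∧
    Function.Bijective (lhMap (BS (KG lab) ptAct univ E) (BS (TT V) ptAct univ E) (Ch_pi lab)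
      fun I : ArtI lab => polyC (xI lab I)) := by
  have := lh_TK (Ch_actK lab) (P := univ ×ˢ E) (Inv.prod (fun _ _ _ _ => mem_univ _) hE)
    (LC.of_isCompact (isCompact_univ.prod hc)) (n := n) fun p hp => hn hp.2
  simp only [polyX_pt] at this
  rw [BS_eq, BS_eq]
  exact this

theorem Ch_lh_surj {lab : V → Λ} {n : ℕ} {E : Set (Fr V)} (hE : InvF (KG lab) E)
    (hc : IsCompact E) (hn : E ⊆ Inj lab n) {k : ℤ} {w : Coch (BT V)}
    (hw : w ∈ ZZ ⊥ (BS (TT V) ptAct univ E)) (hk : HomC k w) :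
    ∃ b : ArtI lab → Coch (Bor (KG lab) (ptAct (V := V))),
      (∀ I, b I ∈ ZZ ⊥ (BS (KG lab) ptAct univ E) ∧ HomC (k - 2 * (degI lab I : ℤ)) (b I)) ∧
      w - ∑ I, cup (pb (Ch_pi lab) (b I)) (polyC (xI lab I)) ∈ BB ⊥ (BS (TT V) ptAct univ E) := by
  obtain ⟨hpr, hb⟩ := Ch_lh hE hc hn
  have hA := Ch_compact_BS (L := KG lab) hc
  have hA' := Ch_compact_BS (L := TT V) hc
  have hn' := hn.trans (Inj_subset_id lab n)
  have := (Ch_actK lab).nice
  have := (Ch_actT (V := V)).nice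
  obtain ⟨x, hx⟩ := hb.2 (clc _ w)
  choose c hcZ hcx using fun I => cls_surj (x I)
  have htw : ∀ I, TwOK _ _ (Ch_pi lab) (polyC (xI lab I)) := fun I =>
    hpr.twOK (Ch_polyC_ZZ hn' _)
  have hw' : w ∈ ZZ (cc (BS (TT V) ptAct univ E)) (BS (TT V) ptAct univ E) := by
    rwa [ZZ_cc_eq_bot hA']
  have h1 : w - ∑ I, cup (pb (Ch_pi lab) (c I)) (polyC (xI lab I)) ∈
      BB ⊥ (BS (TT V) ptAct univ E) := by
    rw [← BB_cc_eq_bot hA', ← cls_eq_iff hw' (sum_mem fun I _ => (htw I).mem_ZZ (hcZ I)),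
      cls_sum _ fun I _ => (htw I).mem_ZZ (hcZ I)]
    refine hx.symm.trans ?_
    rw [lhMap_apply]
    refine Finset.sum_congr rfl fun I _ => ?_
    rw [← hcx I]
    exact tw_cls (htw I) (hcZ I)
  refine ⟨fun I => prC (k - 2 * (degI lab I : ℤ)) (c I), fun I =>
    ⟨prC_mem_ZZ _ (ZZ_cc_le_bot _ (hcZ I)), HomC.prC _ _⟩, ?_⟩
  have h2 := prC_mem_BB k h1
  rw [Basic_prC_sub, hk.prC_self, Ch_prC_sum] at h2
  convert h2 using 3 with I _
  have := prC_cup_right (k - 2 * (degI lab I : ℤ)) (pb (Ch_pi lab) (c I))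
    (polyC_homC (xI_isHomogeneous lab I))
  rw [sub_add_cancel] at this
  rw [this, prC_pb]

theorem Ch_lh_inj {lab : V → Λ} {n : ℕ} {E : Set (Fr V)} (hE : InvF (KG lab) E)
    (hc : IsCompact E) (hn : E ⊆ Inj lab n) {w : Coch (Bor (KG lab) (ptAct (V := V)))}
    (hw : w ∈ ZZ ⊥ (BS (KG lab) ptAct univ E))
    (h0 : pb (Ch_pi lab) w ∈ BB ⊥ (BS (TT V) ptAct univ E)) :
    w ∈ BB ⊥ (BS (KG lab) ptAct univ E) := by
  classical
  obtain ⟨hpr, hb⟩ := Ch_lh hE hc hn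
  have hA := Ch_compact_BS (L := KG lab) hc
  have hA' := Ch_compact_BS (L := TT V) hc
  have := (Ch_actK lab).nice
  have := (Ch_actT (V := V)).nice
  have hw' : w ∈ ZZ (cc (BS (KG lab) ptAct univ E)) (BS (KG lab) ptAct univ E) := by
    rwa [ZZ_cc_eq_bot hA]
  have hx : xI lab (fun _ => 0) = 1 := by simp [xI]
  have h1 : lhMap (BS (KG lab) ptAct univ E) (BS (TT V) ptAct univ E) (Ch_pi lab)
      (fun I : ArtI lab => polyC (xI lab I)) (Pi.single (fun _ => 0) (clc _ w)) = 0 := by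
    rw [lhMap_apply, Finset.sum_eq_single (fun _ => 0)]
    · rw [Pi.single_eq_same, hx, polyC_one, tw_cls (hpr.twOK (one_mem_ZZ _)) hw',
        cup_one ((Ch_bdd hw).pb _).1, cls_eq_zero_iff (pb_mem_ZZ_cc hpr hw'), BB_cc_eq_bot hA']
      exact h0
    · intro I _ hI
      rw [Pi.single_eq_of_ne hI, map_zero]
    · intro hI
      exact absurd (Finset.mem_univ _) hI
  have h2 := congrFun (hb.1 (h1.trans (map_zero _).symm)) (fun _ => 0)
  rw [Pi.single_eq_same, Pi.zero_apply, cls_eq_zero_iff hw', BB_cc_eq_bot hA] at h2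
  exact h2

/-! ### The action of the Weyl group and averaging -/

/-- The action of a permutation on the torus quotient. -/
abbrev Ch_sig (w : Equiv.Perm V) : BT V → BT V :=
  bmap (TT V) ptAct (fun _ => ()) (fun e j k => e j (w k))

theorem Ch_frAct (w : Equiv.Perm V) (e : Fr V) :
    frAct (pmat w⁻¹) e = fun j k => e j (w k) := frAct_pmat w⁻¹ e

theorem Ch_sig_maps {lab : V → Λ} {E : Set (Fr V)} (hE : InvF (KG lab) E) {w : Equiv.Perm V}
    (hw : w ∈ Wl lab) : MapsTo (Ch_sig w) (BS (TT V) ptAct univ E) (BS (TT V) ptAct univ E) := by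
  rintro _ ⟨⟨⟩, -, e, he, rfl⟩
  refine ⟨(), mem_univ _, _, hE _ (pmat_mem_KG (inv_mem_Wl hw)) e he, ?_⟩
  rw [Ch_frAct]
  exact restr_bmk w e

theorem Ch_pi_sig {lab : V → Λ} {w : Equiv.Perm V} (hw : w ∈ Wl lab) :
    Ch_pi lab ∘ Ch_sig w = Ch_pi lab := by
  funext q
  obtain ⟨⟨⟨⟩, e⟩, rfl⟩ := Ch_surj q
  have h1 : Ch_sig w (bmk (TT V) ptAct ((), e)) = bmk (TT V) ptAct ((), fun j k => e j (w k)) :=
    restr_bmk w e
  rw [Function.comp_apply, h1, Ch_pi_bmk, Ch_pi_bmk, ← Ch_frAct]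
  exact bmk_bact (act := ptAct) (pmat_mem_KG (inv_mem_Wl hw)) ((), e)

theorem Ch_avg {ι : Type} {lab : V → Λ} {n : ℕ} {E : Set (Fr V)} (hE : InvF (KG lab) E)
    (hn : E ⊆ Inj (id : V → V) n) (s : Finset ι)
    {b : ι → Coch (Bor (KG lab) (ptAct (V := V)))}
    (hb : ∀ i ∈ s, b i ∈ ZZ ⊥ (BS (KG lab) ptAct univ E)) (p : ι → MvPolynomial V ℂ)
    {a : Coch (Bor (KG lab) (ptAct (V := V)))} {h : MvPolynomial V ℂ}
    (h0 : pb (Ch_pi lab) a + polyC h - ∑ i ∈ s, cup (pb (Ch_pi lab) (b i)) (polyC (p i)) ∈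
      BB ⊥ (BS (TT V) ptAct univ E)) :
    ((Wl lab).card : ℂ) • pb (Ch_pi lab) a + polyC (Sym lab h) -
      ∑ i ∈ s, cup (pb (Ch_pi lab) (b i)) (polyC (Sym lab (p i))) ∈
      BB ⊥ (BS (TT V) ptAct univ E) := by
  have key : ∀ w ∈ Wl lab, pb (Ch_pi lab) a + polyC (MvPolynomial.rename w h) -
      ∑ i ∈ s, cup (pb (Ch_pi lab) (b i)) (polyC (MvPolynomial.rename w (p i))) ∈
      BB ⊥ (BS (TT V) ptAct univ E) := by
    intro w hw
    have hc : ContinuousOn (Ch_sig w) (BS (TT V) ptAct univ E) :=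
      (continuous_restr w).continuousOn
    have hm := Ch_sig_maps hE hw
    have hp : ∀ q : MvPolynomial V ℂ, pb (Ch_sig w) (polyC q) -
        polyC (MvPolynomial.rename w q) ∈ BB ⊥ (BS (TT V) ptAct univ E) := fun q =>
      VB_BB_mono (Ch_BS_mono hn) (pb_polyC w q n)
    have h1 := pb_mem_BB hc hm h0
    rw [pb_sub, pb_add, pb_pb, Ch_pi_sig hw, pb_sum] at h1
    have h2 : ∑ i ∈ s, (pb (Ch_sig w) (cup (pb (Ch_pi lab) (b i)) (polyC (p i))) -
        cup (pb (Ch_pi lab) (b i)) (polyC (MvPolynomial.rename w (p i)))) ∈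
        BB ⊥ (BS (TT V) ptAct univ E) := by
      refine sum_mem fun i hi => ?_
      rw [pb_cup, pb_pb, Ch_pi_sig hw]
      exact cup_congr (Ch_pi_ZZ lab (hb i hi)) (Ch_pi_ZZ lab (hb i hi))
        (pb_mem_ZZ hc hm (Ch_polyC_ZZ hn _)) (Ch_polyC_ZZ hn _)
        (by rw [sub_self]; exact zero_mem _) (hp _)
    rw [Finset.sum_sub_distrib] at h2
    have h3 := add_mem (sub_mem h1 (hp h)) h2
    convert h3 using 1
    abel
  have h4 := sum_mem key
  rw [Finset.sum_sub_distrib, Finset.sum_add_distrib, Finset.sum_const, Finset.sum_comm] at h4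
  simp only [Sym_apply, map_sum, cup_sum, Nat.cast_smul_eq_nsmul]
  exact h4

/-! ### Existence of characteristic classes -/

theorem Ch_fibre {lab : V → Λ} {n : ℕ} {E : Set (Fr V)} (hE : InvF (KG lab) E)
    (hn : E ⊆ Inj lab n) {b : ArtI lab → Coch (Bor (KG lab) (ptAct (V := V)))}
    (hb : ∀ I, b I ∈ ZZ ⊥ (BS (KG lab) ptAct univ E)) {h : MvPolynomial V ℂ} (hh : h ∈ Rinv lab)
    {d : ℕ} (hd : h.IsHomogeneous d) (h0 : 0 < d)
    (hs : polyC h - ∑ I, cup (pb (Ch_pi lab) (b I)) (polyC (xI lab I)) ∈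
      BB ⊥ (BS (TT V) ptAct univ E)) (I : ArtI lab) :
    ∀ y ∈ BS (KG lab) ptAct univ E, b I [y] = 0 := by
  rintro _ ⟨⟨⟩, -, e, he, rfl⟩
  have hO : {e' | ∃ u ∈ KG lab, e' = frAct u e} ⊆ E := by
    rintro _ ⟨u, hu, rfl⟩
    exact hE u hu e he
  have hOi := (hO.trans hn).trans (Inj_subset_id lab n)
  have hOc : IsCompact {e' | ∃ u ∈ KG lab, e' = frAct u e} := by
    have : {e' | ∃ u ∈ KG lab, e' = frAct u e} = (fun u => frAct u e) '' KG lab := by
      ext e'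
      exact ⟨fun ⟨u, hu, h⟩ => ⟨u, hu, h.symm⟩, fun ⟨u, hu, h⟩ => ⟨u, hu, h.symm⟩⟩
    rw [this]
    exact (isGrp_KG lab).isCompact.image
      (continuous_frAct.comp (continuous_id.prodMk continuous_const))
  have hc := Ch_compact_BS (L := TT V) hOc
  have hm : MapsTo (Ch_pi lab) (BS (TT V) ptAct univ {e' | ∃ u ∈ KG lab, e' = frAct u e})
      {bmk (KG lab) ptAct ((), e)} := by
    rintro _ ⟨⟨⟩, -, _, ⟨u, hu, rfl⟩, rfl⟩
    rw [mem_singleton_iff, Ch_pi_bmk]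
    exact bmk_bact (act := ptAct) hu ((), e)
  have hy : ({bmk (KG lab) ptAct ((), e)} : Set (Bor (KG lab) (ptAct (V := V)))) ⊆
      BS (KG lab) ptAct univ E := singleton_subset_iff.2 ⟨(), mem_univ _, e, he, rfl⟩
  have h1 : ∑ J, (cup (pb (Ch_pi lab) (b J)) (polyC (xI lab J)) -
      b J [bmk (KG lab) ptAct ((), e)] • polyC (xI lab J)) ∈
      BB ⊥ (BS (TT V) ptAct univ {e' | ∃ u ∈ KG lab, e' = frAct u e}) := by
    refine sum_mem fun J _ => ?_
    have h2 := pb_mem_BB (Ch_pi_cont lab).continuousOn hm (point_ZZ (Ch_ZZ_mono hy (hb J)))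
    rw [pb_sub, pb_smul, pb_one] at h2
    have h3 := cup_congr (Ch_ZZ_mono (Ch_BS_mono hO) (Ch_pi_ZZ lab (hb J)))
      (Submodule.smul_mem _ _ (one_mem_ZZ _)) (Ch_polyC_ZZ hOi (xI lab J))
      (Ch_polyC_ZZ hOi (xI lab J)) h2 (by rw [sub_self]; exact zero_mem _)
    rwa [smul_cup, one_cup (polyC_bdd _).1] at h3
  rw [Finset.sum_sub_distrib] at h1
  have h4 := sub_mem (sub_mem (polyC_orbit_inv lab (hn he) hh hd h0)
    (VB_BB_mono (Ch_BS_mono hO) hs)) h1
  rw [sub_sub_cancel, sub_sub_cancel, ← BB_cc_eq_bot hc] at h4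
  obtain ⟨hZ, hbij⟩ := isBasisOn_orbit lab (hn he)
  have h5 : (fun J => b J [bmk (KG lab) ptAct ((), e)]) = 0 := by
    refine hbij.1 ?_
    simp only [Pi.zero_apply, zero_smul, Finset.sum_const_zero]
    rw [← (cls_eq_zero_iff (sum_mem fun J _ => Submodule.smul_mem _ _ (hZ J))).2 h4,
      cls_sum _ fun J _ => Submodule.smul_mem _ _ (hZ J)]
    exact Finset.sum_congr rfl fun J _ => (cls_smul _ (hZ J)).symm
  exact congrFun h5 I

theorem Ch_exists_St (lab : V → Λ) (n d : ℕ) : ∀ h ∈ Rinv lab, h.IsHomogeneous d →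
    ∃ a ∈ ZZ ⊥ (BS (KG lab) ptAct univ (St lab n)),
      pb (Ch_pi lab) a - polyC h ∈ BB ⊥ (BS (TT V) ptAct univ (St lab n)) := by
  induction d using Nat.strong_induction_on with
  | _ d ih =>
  intro h hh hd
  have hE : InvF (KG lab) (St lab n) := invF_St subset_rfl n
  have hn := St_subset_Inj lab n
  have hn' := hn.trans (Inj_subset_id lab n)
  rcases Nat.eq_zero_or_pos d with rfl | h0
  · refine ⟨h.coeff 0 • one, Submodule.smul_mem _ _ (one_mem_ZZ _), ?_⟩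
    have h1 : h = h.coeff 0 • (1 : MvPolynomial V ℂ) := by
      rw [MvPolynomial.smul_eq_C_mul, mul_one]
      exact MvPolynomial.totalDegree_eq_zero_iff_eq_C.1
        (Nat.le_zero.1 (MvPolynomial.IsHomogeneous.totalDegree_le hd))
    rw [pb_smul, pb_one, ← polyC_one, ← map_smul, ← h1, sub_self]
    exact zero_mem _
  obtain ⟨b, hb, hs⟩ := Ch_lh_surj hE (isCompact_St lab n) hn (Ch_polyC_ZZ hn' h) (polyC_homC hd)
  have hf := Ch_fibre hE hn (fun I => (hb I).1) hh hd h0 hs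
  have hc : ∀ I : ArtI lab, ∃ c ∈ ZZ ⊥ (BS (KG lab) ptAct univ (St lab n)),
      pb (Ch_pi lab) c - cup (pb (Ch_pi lab) (b I)) (polyC (Sym lab (xI lab I))) ∈
        BB ⊥ (BS (TT V) ptAct univ (St lab n)) := by
    intro I
    by_cases hI : degI lab I < d
    · obtain ⟨a, ha, ha'⟩ := ih _ hI _ (Sym_mem_Rinv lab (xI lab I))
        (Sym_isHomogeneous lab (xI_isHomogeneous lab I))
      refine ⟨cup (b I) a, cup_mem_ZZ (hb I).1 ha, ?_⟩
      rw [pb_cup]
      exact cup_congr (Ch_pi_ZZ lab (hb I).1) (Ch_pi_ZZ lab (hb I).1) (Ch_pi_ZZ lab ha)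
        (Ch_polyC_ZZ hn' _) (by rw [sub_self]; exact zero_mem _) ha'
    · refine ⟨0, zero_mem _, ?_⟩
      have hN : b I ∈ N0 (BS (KG lab) ptAct univ (St lab n)) := by
        rcases (not_lt.1 hI).eq_or_lt with he | hlt
        · refine deg_zero_mem_N0 ?_ (hf I)
          have := (hb I).2
          rwa [← he, sub_self] at this
        · rw [(hb I).2.eq_zero (Ch_bdd (hb I).1).1 (by omega)]
          exact zero_mem _
      rw [pb_zero, zero_sub]
      exact neg_mem (N0_le_BB _ _ (Tw_cup_N0_left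
        (Tw_pb_N0 (Ch_pi_cont lab).continuousOn (Ch_pi_maps lab _) hN) _))
  choose c hcZ hcB using hc
  have h1 := Ch_avg hE hn' Finset.univ (fun I _ => (hb I).1) (xI lab) (a := 0) (h := h)
    (by rw [pb_zero, zero_add]; exact hs)
  rw [pb_zero, smul_zero, zero_add, Sym_of_mem hh, map_smul] at h1
  refine ⟨((Wl lab).card : ℂ)⁻¹ • ∑ I, c I,
    Submodule.smul_mem _ _ (sum_mem fun I _ => hcZ I), ?_⟩
  have h2 := sum_mem (t := Finset.univ) fun I _ => hcB I
  rw [Finset.sum_sub_distrib] at h2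
  have h3 := Submodule.smul_mem _ ((Wl lab).card : ℂ)⁻¹ (sub_mem h2 h1)
  rw [pb_smul, pb_sum]
  convert h3 using 1
  rw [sub_sub_sub_cancel_right, smul_sub, smul_smul, inv_mul_cancel₀ (card_Wl_ne_zero lab),
    one_smul]

theorem Ch_exists_hom {lab : V → Λ} (n : ℕ) {d : ℕ} {h : MvPolynomial V ℂ} (hh : h ∈ Rinv lab)
    (hd : h.IsHomogeneous d) : ∃ a ∈ ZZ ⊥ (BS (KG lab) ptAct univ (Inj lab n)),
      pb (Ch_pi lab) a - polyC h ∈ BB ⊥ (BS (TT V) ptAct univ (Inj lab n)) := by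
  obtain ⟨a, ha, hb⟩ := Ch_exists_St lab n d h hh hd
  obtain ⟨a', ha', -, hb'⟩ := (Ch_iso (isGrp_KG lab) subset_rfl n (2 * (d : ℤ) + 1)).2.2.1
    (2 * (d : ℤ)) (by omega) _ (prC_mem_ZZ _ ha) (HomC.prC _ a)
  rw [pb_id] at hb'
  refine ⟨a', ha', Ch_iso_inj (Ch_iso (isGrp_KG id) (TT_subset lab) n)
    (sub_mem (Ch_pi_ZZ lab ha') (Ch_polyC_ZZ (Inj_subset_id lab n) h)) ?_⟩
  have h1 := prC_mem_BB (2 * (d : ℤ)) hb
  rw [Basic_prC_sub, (polyC_homC hd).prC_self, prC_pb] at h1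
  have h2 := Ch_pi_BB lab hb'
  rw [pb_sub] at h2
  have h3 := sub_mem h1 h2
  rwa [sub_sub_sub_cancel_left] at h3

theorem Ch_exists {lab : V → Λ} {h : MvPolynomial V ℂ} (hh : h ∈ Rinv lab) (n : ℕ) :
    ∃ a ∈ ZZ ⊥ (BS (KG lab) ptAct univ (Inj lab n)),
      pb (bmap (KG lab) ptAct (fun _ => ()) id) a - polyC h ∈
        BB ⊥ (BS (TT V) ptAct univ (Inj lab n)) := by
  choose a ha hb using fun d => Ch_exists_hom n (homogeneousComponent_mem_Rinv hh d)
    (MvPolynomial.homogeneousComponent_isHomogeneous d h)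
  refine ⟨∑ d ∈ Finset.range (h.totalDegree + 1), a d, sum_mem fun d _ => ha d, ?_⟩
  have h1 := sum_mem (t := Finset.range (h.totalDegree + 1)) fun d _ => hb d
  rw [Finset.sum_sub_distrib, ← map_sum, MvPolynomial.sum_homogeneousComponent, ← pb_sum] at h1
  exact h1

omit [Fintype V] in
theorem Ch_sum_comp (h : MvPolynomial V ℂ) :
    ∑ d ∈ h.support.image (fun m => m.degree), MvPolynomial.homogeneousComponent d h = h := by
  ext m
  rw [MvPolynomial.coeff_sum]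
  simp only [MvPolynomial.coeff_homogeneousComponent]
  rw [Finset.sum_ite_eq]
  split_ifs with hm
  · rfl
  · by_contra hne
    exact hm (Finset.mem_image.2 ⟨m, MvPolynomial.mem_support_iff.2 (Ne.symm hne), rfl⟩)

omit [Fintype V] [DecidableEq V] in
theorem Ch_sum_cast {M : Type} [AddCommMonoid M] (h : MvPolynomial V ℂ) (f : ℤ → M) :
    ∑ d ∈ h.support.image (fun m => ((m.degree : ℕ) : ℤ)), f d =
      ∑ d ∈ h.support.image (fun m => (m.degree : ℕ)), f (d : ℤ) := by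
  rw [← Finset.sum_image (g := fun d : ℕ => (d : ℤ)) fun _ _ _ _ h => Nat.cast_injective h,
    Finset.image_image]
  rfl

theorem chC_spec {lab : V → Λ} {h : MvPolynomial V ℂ} (hh : h ∈ Rinv lab) (n : ℕ) :
    chC lab h n ∈ ZZ ⊥ (BS (KG lab) ptAct univ (Inj lab n)) ∧
      pb (bmap (KG lab) ptAct (fun _ => ()) id) (chC lab h n) - polyC h ∈
        BB ⊥ (BS (TT V) ptAct univ (Inj lab n)) := by
  have H := Ch_exists hh n
  obtain ⟨h1, h2⟩ := Classical.choose_spec H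
  unfold chC
  rw [dif_pos H, Ch_sum_cast h fun d => prC (2 * d) (Classical.choose H)]
  refine ⟨sum_mem fun d _ => prC_mem_ZZ _ h1, ?_⟩
  have h3 := sum_mem (t := h.support.image (fun m => (m.degree : ℕ)))
    fun (d : ℕ) _ => prC_mem_BB (2 * (d : ℤ)) h2
  simp only [Basic_prC_sub, prC_polyC, prC_pb] at h3
  rw [Finset.sum_sub_distrib, ← map_sum, Ch_sum_comp, ← pb_sum] at h3
  exact h3
theorem chC_homC (lab : V → Λ) {h : MvPolynomial V ℂ} {d : ℕ} (hd : h.IsHomogeneous d) (n : ℕ) :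
    HomC (2 * (d : ℤ)) (chC lab h n) := by
  unfold chC
  split_ifs with H
  · refine Ch_homC_sum _ fun d' hd' => ?_
    obtain ⟨m, hm, rfl⟩ := Finset.mem_image.1 hd'
    have : m.degree = d := by
      rw [Finsupp.degree_eq_weight_one]
      exact hd (MvPolynomial.mem_support_iff.1 hm)
    rw [this]
    exact HomC.prC _ _
  · exact HomC.zero _
theorem chC_bdd (lab : V → Λ) (h : MvPolynomial V ℂ) :
    ∃ N : ℕ, ∀ (n : ℕ) (l : List (Bor (KG lab) (ptAct (V := V)))), N < l.length →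
      chC lab h n l = 0 := by
  refine ⟨2 * (h.support.image (fun m => (m.degree : ℕ))).sup id + 1, fun n l hl => ?_⟩
  unfold chC
  split_ifs with H
  · rw [Ch_sum_cast h fun d => prC (2 * d) (Classical.choose H), Finset.sum_apply]
    refine Finset.sum_eq_zero fun d hd => HomC.prC _ _ l ?_
    have : d ≤ (h.support.image (fun m => (m.degree : ℕ))).sup id := Finset.le_sup (f := id) hd
    omega
  · rfl
/-- Pull-back to the torus quotient is injective. -/
theorem pb_toK_inj {lab : V → Λ} {lab₀ : V → Λ₀} (hr : Refines lab lab₀) (n : ℕ)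
    {w : Coch (Bor (KG lab) (ptAct (V := V)))} :
    (w ∈ ZZ ⊥ (BS (KG lab) ptAct univ (St lab₀ n)) →
      pb (bmap (KG lab) ptAct (fun _ => ()) id) w ∈ BB ⊥ (BS (TT V) ptAct univ (St lab₀ n)) →
      w ∈ BB ⊥ (BS (KG lab) ptAct univ (St lab₀ n))) ∧
    (w ∈ ZZ ⊥ (BS (KG lab) ptAct univ (Inj lab₀ n)) →
      pb (bmap (KG lab) ptAct (fun _ => ()) id) w ∈ BB ⊥ (BS (TT V) ptAct univ (Inj lab₀ n)) →
      w ∈ BB ⊥ (BS (KG lab) ptAct univ (Inj lab₀ n))) := by
  have h1 : w ∈ ZZ ⊥ (BS (KG lab) ptAct univ (St lab₀ n)) →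
      pb (bmap (KG lab) ptAct (fun _ => ()) id) w ∈ BB ⊥ (BS (TT V) ptAct univ (St lab₀ n)) →
      w ∈ BB ⊥ (BS (KG lab) ptAct univ (St lab₀ n)) :=
    Ch_lh_inj (invF_St (KG_mono hr) n) (isCompact_St lab₀ n) (Ch_St_sub hr n)
  refine ⟨h1, fun hw h0 => Ch_iso_inj (Ch_iso (isGrp_KG lab) (KG_mono hr) n) hw (h1 ?_ ?_)⟩
  · exact Ch_ZZ_mono (Ch_BS_mono (St_subset_Inj lab₀ n)) hw
  · exact VB_BB_mono (Ch_BS_mono (St_subset_Inj lab₀ n)) h0

/-- Characterisation of the characteristic class. -/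
theorem Ch_unique {lab : V → Λ} {h : MvPolynomial V ℂ} (hh : h ∈ Rinv lab) {n : ℕ}
    {a : Coch (Bor (KG lab) (ptAct (V := V)))} (ha : a ∈ ZZ ⊥ (BS (KG lab) ptAct univ (Inj lab n)))
    (hb : pb (Ch_pi lab) a - polyC h ∈ BB ⊥ (BS (TT V) ptAct univ (Inj lab n))) :
    a - chC lab h n ∈ BB ⊥ (BS (KG lab) ptAct univ (Inj lab n)) := by
  refine (pb_toK_inj (Ch_refl lab) n).2 (sub_mem ha (chC_spec hh n).1) ?_
  have := sub_mem hb (chC_spec hh n).2
  rwa [sub_sub_sub_cancel_right, ← pb_sub] at this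

theorem Ch_unique' {lab : V → Λ} {h : MvPolynomial V ℂ} (hh : h ∈ Rinv lab) {n : ℕ}
    {a : Coch (Bor (KG lab) (ptAct (V := V)))} (ha : a ∈ ZZ ⊥ (BS (KG lab) ptAct univ (Inj lab n)))
    (hb : pb (Ch_pi lab) a - polyC h ∈ BB ⊥ (BS (TT V) ptAct univ (Inj lab n))) :
    chC lab h n - a ∈ BB ⊥ (BS (KG lab) ptAct univ (Inj lab n)) := by
  have := neg_mem (Ch_unique hh ha hb)
  rwa [neg_sub] at this

theorem chC_add {lab : V → Λ} {h h' : MvPolynomial V ℂ} (hh : h ∈ Rinv lab) (hh' : h' ∈ Rinv lab)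
    (n : ℕ) : chC lab (h + h') n - (chC lab h n + chC lab h' n) ∈
      BB ⊥ (BS (KG lab) ptAct univ (Inj lab n)) := by
  refine Ch_unique' (add_mem hh hh') (add_mem (chC_spec hh n).1 (chC_spec hh' n).1) ?_
  rw [pb_add, map_add, add_sub_add_comm]
  exact add_mem (chC_spec hh n).2 (chC_spec hh' n).2
theorem chC_smul {lab : V → Λ} (z : ℂ) {h : MvPolynomial V ℂ} (hh : h ∈ Rinv lab) (n : ℕ) :
    chC lab (z • h) n - z • chC lab h n ∈ BB ⊥ (BS (KG lab) ptAct univ (Inj lab n)) := by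
  refine Ch_unique' (Subalgebra.smul_mem _ hh z) (Submodule.smul_mem _ z (chC_spec hh n).1) ?_
  rw [pb_smul, map_smul, ← smul_sub]
  exact Submodule.smul_mem _ z (chC_spec hh n).2
theorem chC_mul {lab : V → Λ} {h h' : MvPolynomial V ℂ} (hh : h ∈ Rinv lab) (hh' : h' ∈ Rinv lab)
    (n : ℕ) : chC lab (h * h') n - cup (chC lab h n) (chC lab h' n) ∈
      BB ⊥ (BS (KG lab) ptAct univ (Inj lab n)) := by
  refine Ch_unique' (mul_mem hh hh') (cup_mem_ZZ (chC_spec hh n).1 (chC_spec hh' n).1) ?_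
  rw [pb_cup]
  have h1 := cup_congr (Ch_pi_ZZ lab (chC_spec hh n).1) (Ch_polyC_ZZ (Inj_subset_id lab n) h)
    (Ch_pi_ZZ lab (chC_spec hh' n).1) (Ch_polyC_ZZ (Inj_subset_id lab n) h')
    (chC_spec hh n).2 (chC_spec hh' n).2
  have h2 := sub_mem h1 (VB_BB_mono (Ch_BS_mono (Inj_subset_id lab n)) (polyC_mul h h' n))
  rwa [sub_sub_sub_cancel_right] at h2
theorem chC_one (lab : V → Λ) (n : ℕ) :
    chC lab 1 n - one ∈ BB ⊥ (BS (KG lab) ptAct univ (Inj lab n)) := by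
  refine Ch_unique' (one_mem _) (one_mem_ZZ _) ?_
  rw [pb_one, polyC_one, sub_self]
  exact zero_mem _
theorem chC_zero (lab : V → Λ) (n : ℕ) : chC lab 0 n = 0 := by
  unfold chC
  split_ifs with H
  · simp
  · rfl
theorem prC_chC {lab : V → Λ} {h : MvPolynomial V ℂ} (hh : h ∈ Rinv lab) (d n : ℕ) :
    prC (2 * (d : ℤ)) (chC lab h n) - chC lab (MvPolynomial.homogeneousComponent d h) n ∈
      BB ⊥ (BS (KG lab) ptAct univ (Inj lab n)) := by
  refine Ch_unique (homogeneousComponent_mem_Rinv hh d) (prC_mem_ZZ _ (chC_spec hh n).1) ?_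
  have := prC_mem_BB (2 * (d : ℤ)) (chC_spec hh n).2
  rwa [Basic_prC_sub, prC_polyC, prC_pb] at this
theorem prC_chC_odd (lab : V → Λ) (h : MvPolynomial V ℂ) (n : ℕ) {k : ℤ} (hk : Odd k) :
    prC k (chC lab h n) = 0 := by
  unfold chC
  split_ifs with H
  · rw [Ch_prC_sum]
    refine Finset.sum_eq_zero fun d _ => (HomC.prC _ _).prC_ne ?_
    obtain ⟨j, rfl⟩ := hk
    omega
  · exact (HomC.zero k).prC_self
theorem chC_compat {lab : V → Λ} {h : MvPolynomial V ℂ} (hh : h ∈ Rinv lab) {n n' : ℕ}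
    (hn : n ≤ n') : chC lab h n' - chC lab h n ∈ BB ⊥ (BS (KG lab) ptAct univ (Inj lab n)) :=
  Ch_unique hh (Ch_ZZ_mono (Ch_BS_mono (Inj_mono lab hn)) (chC_spec hh n').1)
    (VB_BB_mono (Ch_BS_mono (Inj_mono lab hn)) (chC_spec hh n').2)
theorem chC_id (p : MvPolynomial V ℂ) (n : ℕ) :
    chC (id : V → V) p n - polyC p ∈ BB ⊥ (Y0 V n) := by
  have h1 := (chC_spec (mem_Rinv_id p) n).2
  have h2 : (bmap (KG (id : V → V)) ptAct (fun _ => ()) id : BT V → BT V) = id :=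
    funext fun q => bmk_out q
  rwa [h2, pb_id] at h1

/-- Two-step factorisation of the map to the classifying space. -/
theorem Ch_toPt_comp {L L₁ L₂ : Set (Matrix V V ℂ)} {act : Matrix V V ℂ → X → X}
    (h₁ : IsGrp L₁) (h : L₁ ⊆ L₂) :
    (bmap L₂ ptAct (fun _ => ()) id : Bor L₁ (ptAct (V := V)) → Bor L₂ ptAct) ∘
      (bmap L₁ ptAct (fun _ => ()) id : Bor L act → Bor L₁ ptAct) =
      bmap L₂ ptAct (fun _ => ()) id :=
  funext fun q => (isAct_pt h₁).toPt_bmk h ((), (Quot.out q).2)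

theorem Ch_toPt_ZZ {L L₁ : Set (Matrix V V ℂ)} {act : Matrix V V ℂ → X → X} (ha : IsAct L act)
    (hL : L ⊆ L₁) {P : Set (X × Fr V)} {E : Set (Fr V)} (hn : ∀ p ∈ P, p.2 ∈ E)
    {w : Coch (Bor L₁ (ptAct (V := V)))} (hw : w ∈ ZZ ⊥ (BS L₁ ptAct univ E)) :
    pb (bmap L₁ ptAct (fun _ => ()) id : Bor L act → _) w ∈ ZZ ⊥ (BI L act P) :=
  pb_mem_ZZ (ha.continuous_toPt hL).continuousOn (ha.mapsTo_toPt hL hn) hw

theorem Ch_toPt_BB {L L₁ : Set (Matrix V V ℂ)} {act : Matrix V V ℂ → X → X} (ha : IsAct L act)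
    (hL : L ⊆ L₁) {P : Set (X × Fr V)} {E : Set (Fr V)} (hn : ∀ p ∈ P, p.2 ∈ E)
    {w : Coch (Bor L₁ (ptAct (V := V)))} (hw : w ∈ BB ⊥ (BS L₁ ptAct univ E)) :
    pb (bmap L₁ ptAct (fun _ => ()) id : Bor L act → _) w ∈ BB ⊥ (BI L act P) :=
  pb_mem_BB (ha.continuous_toPt hL).continuousOn (ha.mapsTo_toPt hL hn) hw

theorem chC_refine {lab : V → Λ} {lab₀ : V → Λ₀} (hr : Refines lab lab₀) {h : MvPolynomial V ℂ}
    (hh : h ∈ Rinv lab₀) (n : ℕ) :
    chX lab₀ (KG lab) ptAct h n - chC lab h n ∈ BB ⊥ (BS (KG lab) ptAct univ (Inj lab₀ n)) := by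
  have hh' : h ∈ Rinv lab := Rinv_anti hr hh
  have hs := Inj_anti hr n
  have hZ : chX lab₀ (KG lab) ptAct h n ∈ ZZ ⊥ (BS (KG lab) ptAct univ (Inj lab₀ n)) := by
    rw [BS_eq]
    exact Ch_toPt_ZZ (Ch_actK lab) (KG_mono hr) (fun p hp => hp.2) (chC_spec hh n).1
  refine (pb_toK_inj hr n).2 (sub_mem hZ (Ch_ZZ_mono (Ch_BS_mono hs) (chC_spec hh' n).1)) ?_
  have h1 := sub_mem (chC_spec hh n).2 (VB_BB_mono (Ch_BS_mono hs) (chC_spec hh' n).2)
  rw [sub_sub_sub_cancel_right] at h1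
  unfold chX
  rw [pb_sub, pb_pb, Ch_toPt_comp (isGrp_KG lab) (KG_mono hr)]
  exact h1

/-! ### Restriction to a union of blocks -/

omit [DecidableEq V] [DecidableEq V'] in
theorem Ch_sum_inj {ι : V' → V} (hι : Function.Injective ι) (f : V → ℂ)
    (hf : ∀ x, x ∉ Set.range ι → f x = 0) : ∑ x, f x = ∑ m, f (ι m) :=
  (Fintype.sum_of_injective ι hι (fun m => f (ι m)) f hf fun _ => rfl).symm

theorem Ch_sub_mem {lab : V → Λ} {lab' : V' → Λ'} {ι : V' → V} (hι : Function.Injective ι)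
    (hl : ∀ k l, lab (ι k) = lab (ι l) ↔ lab' k = lab' l)
    (hs : ∀ k x, lab x = lab (ι k) → x ∈ Set.range ι) {u : Matrix V V ℂ} (hu : u ∈ KG lab) :
    u.submatrix ι ι ∈ KG lab' ∧
      ∀ e : Fr V, (fun j k => frAct u e j (ι k)) = frAct (u.submatrix ι ι) fun j k => e j (ι k) := by
  have h0 : ∀ k x, x ∉ Set.range ι → u (ι k) x = 0 := fun k x hx =>
    hu.2 _ _ fun h => hx (hs k x h.symm)
  refine ⟨⟨Matrix.mem_unitaryGroup_iff.2 ?_, fun k l hkl => hu.2 _ _ fun h => hkl ((hl k l).1 h)⟩,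
    fun e => ?_⟩
  · ext k l
    have h1 := congrFun (congrFun ((isGrp_KG lab).mul_star hu) (ι k)) (ι l)
    rw [Matrix.mul_apply, Ch_sum_inj hι _ fun x hx => by rw [h0 k x hx, zero_mul]] at h1
    rw [Matrix.mul_apply]
    refine h1.trans ?_
    simp only [Matrix.one_apply, hι.eq_iff]
  · funext j k
    simp only [frAct, Matrix.vecMul, dotProduct]
    rw [Ch_sum_inj hι]
    · rfl
    · intro x hx
      rw [Matrix.star_apply, h0 k x hx, star_zero, mul_zero]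

omit [DecidableEq V] [DecidableEq V'] in
theorem Ch_restr_Inj {lab : V → Λ} {lab' : V' → Λ'} {ι : V' → V} (hι : Function.Injective ι)
    (hl : ∀ k l, lab (ι k) = lab (ι l) ↔ lab' k = lab' l) {n : ℕ} {e : Fr V}
    (he : e ∈ Inj lab n) : (fun j k => e j (ι k)) ∈ Inj lab' n := by
  refine ⟨fun j hj => ?_, fun i c hc h0 => ?_⟩
  · funext k
    exact congrFun (he.1 j hj) (ι k)
  · funext k₀
    by_contra hk
    have hi : lab' k₀ = i := by
      by_contra h
      exact hk (hc k₀ h)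
    have h1 : Function.extend ι c 0 = 0 := by
      refine he.2 (lab (ι k₀)) _ (fun x hx => ?_) fun j => ?_
      · by_cases hx' : ∃ k, ι k = x
        · obtain ⟨k, rfl⟩ := hx'
          rw [hι.extend_apply]
          exact hc k fun h => hx ((hl k k₀).2 (h.trans hi.symm))
        · rw [Function.extend_apply' _ _ _ hx']
          rfl
      · rw [Ch_sum_inj hι]
        · simp only [hι.extend_apply]
          exact h0 j
        · intro x hx
          rw [Function.extend_apply' _ _ _ hx, Pi.zero_apply, mul_zero]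
    have h2 := congrFun h1 (ι k₀)
    rw [hι.extend_apply] at h2
    exact hk h2

omit [Fintype V] [DecidableEq V] [Fintype V'] [DecidableEq V'] [TopologicalSpace X] in
theorem Ch_cont_restr [TopologicalSpace X] (ι : V' → V) :
    Continuous (Prod.map (fun _ : X => ()) (fun (e : Fr V) j k => e j (ι k)) :
      X × Fr V → Unit × Fr V') :=
  continuous_const.prodMap (continuous_pi fun j => continuous_pi fun k =>
    (continuous_apply (ι k)).comp (continuous_apply j))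

theorem Ch_BI_univ {L : Set (Matrix V V ℂ)} {act : Matrix V V ℂ → X → X} :
    BI L act univ = univ :=
  eq_univ_of_forall fun q => ⟨Quot.out q, mem_univ _, bmk_out q⟩

/-- Restriction to a union of blocks. -/
theorem chC_restr {lab : V → Λ} {lab' : V' → Λ'} {ι : V' → V} (hι : Function.Injective ι)
    (hl : ∀ k l, lab (ι k) = lab (ι l) ↔ lab' k = lab' l)
    (hs : ∀ k x, lab x = lab (ι k) → x ∈ Set.range ι) {h : MvPolynomial V' ℂ}
    (hh : h ∈ Rinv lab') (n : ℕ) :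
    Continuous (bmap (KG lab') ptAct (fun _ => ()) (fun e j k => e j (ι k)) :
      Bor (KG lab) (ptAct (V := V)) → Bor (KG lab') (ptAct (V := V'))) ∧
    (∀ e, (bmap (KG lab') ptAct (fun _ => ()) (fun e j k => e j (ι k)) :
      Bor (KG lab) (ptAct (V := V)) → Bor (KG lab') (ptAct (V := V')))
        (bmk (KG lab) ptAct ((), e)) = bmk (KG lab') ptAct ((), fun j k => e j (ι k))) ∧
    pb (bmap (KG lab') ptAct (fun _ => ()) (fun e j k => e j (ι k)) :
      Bor (KG lab) (ptAct (V := V)) → Bor (KG lab') (ptAct (V := V'))) (chC lab' h n) -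
      chC lab (MvPolynomial.rename ι h) n ∈ BB ⊥ (BS (KG lab) ptAct univ (Inj lab n)) := by
  have hF : EqvOn (KG lab) (ptAct (V := V)) (KG lab') (ptAct (V := V')) univ
      (Prod.map (fun _ => ()) fun e j k => e j (ι k)) := fun u hu p _ =>
    ⟨_, (Ch_sub_mem hι hl hs hu).1, Prod.ext rfl ((Ch_sub_mem hι hl hs hu).2 p.2)⟩
  have hc : Continuous (bmap (KG lab') ptAct (fun _ => ()) (fun e j k => e j (ι k)) :
      Bor (KG lab) (ptAct (V := V)) → Bor (KG lab') (ptAct (V := V'))) := by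
    have := (Ch_actK lab).continuousOn_bmp (P := univ) (fun _ _ _ _ => mem_univ _) hF
      (Ch_cont_restr ι).continuousOn
    rwa [Ch_BI_univ, continuousOn_univ] at this
  have hb : ∀ e, (bmap (KG lab') ptAct (fun _ => ()) (fun e j k => e j (ι k)) :
      Bor (KG lab) (ptAct (V := V)) → Bor (KG lab') (ptAct (V := V')))
        (bmk (KG lab) ptAct ((), e)) = bmk (KG lab') ptAct ((), fun j k => e j (ι k)) :=
    fun e => (Ch_actK lab).bmp_bmk hF (mem_univ ((), e))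
  refine ⟨hc, hb, Ch_unique (rename_mem_Rinv hι (fun k l => (hl k l).1) hs hh)
    (pb_mem_ZZ hc.continuousOn ?_ (chC_spec hh n).1) ?_⟩
  · rintro _ ⟨⟨⟩, -, e, he, rfl⟩
    exact ⟨(), mem_univ _, _, Ch_restr_Inj hι hl he, hb e⟩
  · have h1 : (bmap (KG lab') ptAct (fun _ => ()) (fun e j k => e j (ι k)) :
        Bor (KG lab) (ptAct (V := V)) → Bor (KG lab') (ptAct (V := V'))) ∘ Ch_pi lab =
        Ch_pi lab' ∘ (bmap (TT V') ptAct (fun _ => ()) (fun e j k => e j (ι k)) :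
          BT V → BT V') := by
      funext q
      obtain ⟨⟨⟨⟩, e⟩, rfl⟩ := Ch_surj q
      rw [Function.comp_apply, Function.comp_apply, Ch_pi_bmk, hb, restr_bmk, Ch_pi_bmk]
    have hm : MapsTo (bmap (TT V') ptAct (fun _ => ()) (fun e j k => e j (ι k)) : BT V → BT V')
        (BS (TT V) ptAct univ (Inj lab n)) (BS (TT V') ptAct univ (Inj lab' n)) := by
      rintro _ ⟨⟨⟩, -, e, he, rfl⟩
      exact ⟨(), mem_univ _, _, Ch_restr_Inj hι hl he, restr_bmk ι e⟩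
    have h2 := pb_mem_BB (continuous_restr ι).continuousOn hm (chC_spec hh n).2
    rw [pb_sub, pb_pb] at h2
    have h3 := add_mem h2 (VB_BB_mono (Ch_BS_mono (Inj_subset_id lab n)) (pb_polyC ι h n))
    rw [sub_add_sub_cancel] at h3
    rw [pb_pb, h1]
    exact h3

theorem ch_surj {lab : V → Λ} {lab₀ : V → Λ₀} (hr : Refines lab lab₀) (n : ℕ) {k : ℤ}
    {w : Coch (Bor (KG lab) (ptAct (V := V)))} (hk : HomC k w) :
    (w ∈ ZZ ⊥ (BS (KG lab) ptAct univ (St lab₀ n)) →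
      ∃ h ∈ Rinv lab, (h = 0 ∨ ∃ d : ℕ, k = 2 * (d : ℤ) ∧ h.IsHomogeneous d) ∧
        w - chC lab h n ∈ BB ⊥ (BS (KG lab) ptAct univ (St lab₀ n))) ∧
    (w ∈ ZZ ⊥ (BS (KG lab) ptAct univ (Inj lab₀ n)) →
      ∃ h ∈ Rinv lab, (h = 0 ∨ ∃ d : ℕ, k = 2 * (d : ℤ) ∧ h.IsHomogeneous d) ∧
        w - chC lab h n ∈ BB ⊥ (BS (KG lab) ptAct univ (Inj lab₀ n))) := by
  have h1 : w ∈ ZZ ⊥ (BS (KG lab) ptAct univ (St lab₀ n)) →
      ∃ h ∈ Rinv lab, (h = 0 ∨ ∃ d : ℕ, k = 2 * (d : ℤ) ∧ h.IsHomogeneous d) ∧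
        w - chC lab h n ∈ BB ⊥ (BS (KG lab) ptAct univ (St lab₀ n)) := by
    intro hw
    have hs := Ch_St_sub hr n
    obtain ⟨p, hp, hb⟩ := polyC_surj lab₀ n (Ch_pi_ZZ lab hw) (hk.pb _)
    have h2 := Ch_avg (ι := Unit) (invF_St (KG_mono hr) n) (hs.trans (Inj_subset_id lab n)) ∅
      (b := fun _ => 0) (fun _ _ => zero_mem _) (fun _ => 0) (a := w) (h := -p)
      (by rw [Finset.sum_empty, sub_zero, map_neg, ← sub_eq_add_neg]; exact hb)
    rw [Finset.sum_empty, sub_zero, map_neg, map_neg, ← sub_eq_add_neg] at h2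
    have h3 := Submodule.smul_mem _ ((Wl lab).card : ℂ)⁻¹ h2
    rw [smul_sub, smul_smul, inv_mul_cancel₀ (card_Wl_ne_zero lab), one_smul, ← map_smul] at h3
    have hh : ((Wl lab).card : ℂ)⁻¹ • Sym lab p ∈ Rinv lab :=
      Subalgebra.smul_mem _ (Sym_mem_Rinv lab p) _
    refine ⟨_, hh, ?_, (pb_toK_inj hr n).1
      (sub_mem hw (Ch_ZZ_mono (Ch_BS_mono hs) (chC_spec hh n).1)) ?_⟩
    · rcases hp with rfl | ⟨d, hd, hp⟩
      · left
        rw [map_zero, smul_zero]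
      · right
        refine ⟨d, hd, ?_⟩
        rw [MvPolynomial.smul_eq_C_mul]
        exact (Sym_isHomogeneous lab hp).C_mul _
    · have h4 := sub_mem h3 (VB_BB_mono (Ch_BS_mono hs) (chC_spec hh n).2)
      rwa [sub_sub_sub_cancel_right, ← pb_sub] at h4
  refine ⟨h1, fun hw => ?_⟩
  obtain ⟨h, hh, hd, hb⟩ := h1 (Ch_ZZ_mono (Ch_BS_mono (St_subset_Inj lab₀ n)) hw)
  exact ⟨h, hh, hd, Ch_iso_inj (Ch_iso (isGrp_KG lab) (KG_mono hr) n)
    (sub_mem hw (Ch_ZZ_mono (Ch_BS_mono (Inj_anti hr n)) (chC_spec hh n).1)) hb⟩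
theorem ch_inj {lab : V → Λ} {lab₀ : V → Λ₀} (hr : Refines lab lab₀) (n : ℕ)
    {h : MvPolynomial V ℂ} (hh : h ∈ Rinv lab) {d : ℕ} (hp : h.IsHomogeneous d)
    (hd : 2 * (d : ℤ) ≤ rng V n)
    (h0 : chC lab h n ∈ BB ⊥ (BS (KG lab) ptAct univ (St lab₀ n))) : h = 0 := by
  refine polyC_inj lab₀ n hp hd ?_
  have := sub_mem (Ch_pi_BB lab h0) (VB_BB_mono (Ch_BS_mono (Ch_St_sub hr n)) (chC_spec hh n).2)
  rwa [sub_sub_cancel] at this

section chX
variable {lab : V → Λ} {L : Set (Matrix V V ℂ)} {act : Matrix V V ℂ → X → X}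

theorem chX_mem_ZZ (ha : IsAct L act) (hL : L ⊆ KG lab) {P : Set (X × Fr V)} {n : ℕ}
    (hn : ∀ p ∈ P, p.2 ∈ Inj lab n) {h : MvPolynomial V ℂ} (hh : h ∈ Rinv lab) :
    chX lab L act h n ∈ ZZ ⊥ (BI L act P) := Ch_toPt_ZZ ha hL hn (chC_spec hh n).1
/-- Relations between characteristic cocycles pull back. -/
theorem pb_toPt_BB (ha : IsAct L act) (hL : L ⊆ KG lab) {P : Set (X × Fr V)} {E : Set (Fr V)}
    (hn : ∀ p ∈ P, p.2 ∈ E) {w : Coch (Bor (KG lab) (ptAct (V := V)))}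
    (hw : w ∈ BB ⊥ (BS (KG lab) ptAct univ E)) :
    pb (bmap (KG lab) ptAct (fun _ => ()) id : Bor L act → _) w ∈ BB ⊥ (BI L act P) :=
  Ch_toPt_BB ha hL hn hw
theorem chX_homC {h : MvPolynomial V ℂ} {d : ℕ} (hd : h.IsHomogeneous d) (n : ℕ) :
    HomC (2 * (d : ℤ)) (chX lab L act h n) := (chC_homC lab hd n).pb _
theorem chX_sub_polyX (ha : IsAct L act) (hL : L ⊆ TT V) {P : Set (X × Fr V)} {n : ℕ}
    (hn : ∀ p ∈ P, p.2 ∈ Inj lab n) {h : MvPolynomial V ℂ} (hh : h ∈ Rinv lab) :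
    chX lab L act h n - polyX L act h ∈ BB ⊥ (BI L act P) := by
  have h1 := Ch_toPt_BB ha hL hn (chC_spec hh n).2
  rw [pb_sub, pb_pb, Ch_toPt_comp (isGrp_KG id) (TT_subset lab)] at h1
  exact h1
theorem chX_refine {lab₀ : V → Λ₀} (hr : Refines lab lab₀) (ha : IsAct L act) (hL : L ⊆ KG lab)
    {P : Set (X × Fr V)} {n : ℕ} (hn : ∀ p ∈ P, p.2 ∈ Inj lab₀ n) {h : MvPolynomial V ℂ}
    (hh : h ∈ Rinv lab₀) : chX lab₀ L act h n - chX lab L act h n ∈ BB ⊥ (BI L act P) := by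
  have h1 := Ch_toPt_BB ha hL hn (chC_refine hr hh n)
  unfold chX at h1 ⊢
  rw [pb_sub, pb_pb, Ch_toPt_comp (isGrp_KG lab) (KG_mono hr)] at h1
  exact h1
theorem pb_chX {X' : Type} [TopologicalSpace X'] {L' : Set (Matrix V V ℂ)}
    {act' : Matrix V V ℂ → X' → X'} (ha : IsAct L act) (hL : L ⊆ KG lab) (f : X' → X)
    (h : MvPolynomial V ℂ) (n : ℕ) :
    pb (bmap L act f id : Bor L' act' → Bor L act) (chX lab L act h n) = chX lab L' act' h n := by
  unfold chX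
  rw [pb_pb]
  congr 1
  funext q
  exact ha.toPt_bmk hL (f (Quot.out q).1, (Quot.out q).2)
/-- The first Chern class of a frozen variable vanishes. -/
theorem chX_frozen {fr : Set V} (ha : IsAct (KF lab fr) act) {P : Set (X × Fr V)} {n : ℕ}
    (hn : ∀ p ∈ P, p.2 ∈ Inj lab n) {k : V} (hk : k ∈ fr) (h1 : ∀ l, lab l = lab k → l = k) :
    chX lab (KF lab fr) act (MvPolynomial.X k) n ∈ BB ⊥ (BI (KF lab fr) act P) := by
  have hι : Function.Injective fun _ : Unit => k := fun _ _ _ => rfl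
  have hl : ∀ a b : Unit, lab k = lab k ↔ id a = id b := fun _ _ => ⟨fun _ => rfl, fun _ => rfl⟩
  obtain ⟨hc, hb, hr⟩ := chC_restr (lab := lab) (lab' := (id : Unit → Unit))
    (ι := fun _ : Unit => k) hι hl (fun _ x hx => ⟨(), (h1 x hx).symm⟩)
    (mem_Rinv_id (MvPolynomial.X ())) n
  rw [MvPolynomial.rename_X] at hr
  have hm : MapsTo (bmap (KG (id : Unit → Unit)) ptAct (fun _ => ()) (fun e j (_ : Unit) => e j k) :
      Bor (KG lab) (ptAct (V := V)) → BT Unit) (BS (KG lab) ptAct univ (Inj lab n))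
      (Y0 Unit n) := by
    rintro _ ⟨⟨⟩, -, e, he, rfl⟩
    exact ⟨(), mem_univ _, _, Ch_restr_Inj hι hl he, hb e⟩
  have h2 := pb_mem_BB hc.continuousOn hm (chC_id (MvPolynomial.X ()) n)
  rw [pb_sub] at h2
  have h3 := sub_mem h2 hr
  rw [sub_sub_sub_cancel_left] at h3
  have h4 := Ch_toPt_BB ha (KF_subset lab fr) hn h3
  rw [pb_sub, pb_pb] at h4
  -- the trivial group on one variable
  have hG : IsAct (KF (id : Unit → Unit) univ) (ptAct (V := Unit)) := isAct_pt (isGrp_KF _ _)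
  have hGT : KF (id : Unit → Unit) univ ⊆ TT Unit := KF_subset _ _
  have hG1 : ∀ u ∈ KF (id : Unit → Unit) univ, u = 1 := fun u hu =>
    Matrix.ext fun a b => hu.2 a (mem_univ _) b
  have h5 := euler_vanish (ι := Unit) hG hGT (P := univ ×ˢ Inj (id : Unit → Unit) n)
    (Inv.prod (fun _ _ _ _ => mem_univ _) (invF_Inj hGT n)) (fun p hp => hp.2)
    (fun _ => Pi.single () 1) (fun _ _ => 1) continuousOn_const
    (fun u hu p _ i => by rw [hG1 u hu, chr_one, one_mul])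
    (fun _ _ h => one_ne_zero (congrFun h ()))
  rw [Fintype.prod_unique, linF_single] at h5
  have hF : EqvOn (KF lab fr) act (KF (id : Unit → Unit) univ) (ptAct (V := Unit)) univ
      (Prod.map (fun _ => ()) fun e j (_ : Unit) => e j k) := by
    intro u hu p _
    refine ⟨1, hG.grp.one, ?_⟩
    rw [hG.bact_one]
    refine Prod.ext rfl ?_
    funext j a
    change frAct u p.2 j k = p.2 j k
    simp only [frAct, Matrix.vecMul, dotProduct, Matrix.star_apply, hu.2 k hk, Matrix.one_apply]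
    rw [Finset.sum_eq_single k]
    · simp
    · intro x _ hx
      simp [Ne.symm hx]
    · intro h
      exact absurd (Finset.mem_univ _) h
  have hsc := ha.continuousOn_bmp (P := univ) (fun _ _ _ _ => mem_univ _) hF
    (Ch_cont_restr fun _ : Unit => k).continuousOn
  have hsm := ha.mapsTo_bmp (P := P) (P' := univ ×ˢ Inj (id : Unit → Unit) n)
    (hF.mono (subset_univ P)) fun p hp => ⟨mem_univ _, Ch_restr_Inj hι hl (hn p hp)⟩
  have h6 := pb_mem_BB (hsc.mono (BI_mono (subset_univ P))) hsm h5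
  unfold polyX at h6
  rw [pb_pb] at h6
  have h7 : (bmap (TT Unit) ptAct (fun _ => ()) id :
      Bor (KF (id : Unit → Unit) univ) (ptAct (V := Unit)) → BT Unit) ∘
      (bmp (KF (id : Unit → Unit) univ) ptAct
        (Prod.map (fun _ => ()) fun e j (_ : Unit) => e j k) : Bor (KF lab fr) act → _) =
      (bmap (KG (id : Unit → Unit)) ptAct (fun _ => ()) (fun e j (_ : Unit) => e j k) :
        Bor (KG lab) (ptAct (V := V)) → BT Unit) ∘
      (bmap (KG lab) ptAct (fun _ => ()) id : Bor (KF lab fr) act → _) := by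
    funext q
    exact (hG.toPt_bmk hGT _).trans (hb (Quot.out q).2).symm
  rw [h7] at h6
  have h8 := add_mem h4 h6
  rw [sub_add_cancel] at h8
  exact h8

end chX

/-! ### Families -/

theorem Ch_chC_sub {lab : V → Λ} {h h' : MvPolynomial V ℂ} (hh : h ∈ Rinv lab)
    (hh' : h' ∈ Rinv lab) (n : ℕ) : chC lab (h - h') n - (chC lab h n - chC lab h' n) ∈
      BB ⊥ (BS (KG lab) ptAct univ (Inj lab n)) := by
  refine Ch_unique' (sub_mem hh hh') (sub_mem (chC_spec hh n).1 (chC_spec hh' n).1) ?_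
  rw [pb_sub, map_sub, sub_sub_sub_comm]
  exact sub_mem (chC_spec hh n).2 (chC_spec hh' n).2

theorem Ch_chC_sum {ι : Type} {lab : V → Λ} (s : Finset ι) {h : ι → MvPolynomial V ℂ}
    (hh : ∀ i ∈ s, h i ∈ Rinv lab) (n : ℕ) :
    ∑ i ∈ s, chC lab (h i) n - chC lab (∑ i ∈ s, h i) n ∈
      BB ⊥ (BS (KG lab) ptAct univ (Inj lab n)) := by
  refine Ch_unique (sum_mem hh) (sum_mem fun i hi => (chC_spec (hh i hi) n).1) ?_
  rw [pb_sum, map_sum, ← Finset.sum_sub_distrib]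
  exact sum_mem fun i hi => (chC_spec (hh i hi) n).2

theorem Ch_uniq_deg {lab : V → Λ} {lab₀ : V → Λ₀} (hr : Refines lab lab₀) {n : ℕ} {k : ℤ}
    (hk : k ≤ rng V n) {h h' : MvPolynomial V ℂ} (hh : h ∈ Rinv lab) (hh' : h' ∈ Rinv lab)
    (hd : h = 0 ∨ ∃ d : ℕ, k = 2 * (d : ℤ) ∧ h.IsHomogeneous d)
    (hd' : h' = 0 ∨ ∃ d : ℕ, k = 2 * (d : ℤ) ∧ h'.IsHomogeneous d)
    (h0 : chC lab h n - chC lab h' n ∈ BB ⊥ (BS (KG lab) ptAct univ (St lab₀ n))) : h = h' := by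
  have key : ∀ d : ℕ, k = 2 * (d : ℤ) → h.IsHomogeneous d → h'.IsHomogeneous d → h = h' := by
    intro d hkd h1 h2
    refine sub_eq_zero.1 (ch_inj hr n (sub_mem hh hh') (h1.sub h2) (hkd ▸ hk) ?_)
    have := add_mem (VB_BB_mono (Ch_BS_mono (Ch_St_sub hr n)) (Ch_chC_sub hh hh' n)) h0
    rwa [sub_add_cancel] at this
  rcases hd with rfl | ⟨d, hkd, h1⟩
  · rcases hd' with rfl | ⟨d, hkd, h2⟩
    · rfl
    · exact key d hkd (MvPolynomial.isHomogeneous_zero _ _ _) h2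
  · rcases hd' with rfl | ⟨d', hkd', h2⟩
    · exact key d hkd h1 (MvPolynomial.isHomogeneous_zero _ _ _)
    · have : d' = d := by omega
      exact key d hkd h1 (this ▸ h2)

omit [DecidableEq V] in
theorem Ch_rng (k : ℕ) : (k : ℤ) ≤ rng V (k + Fintype.card V) := by
  unfold rng
  push_cast
  omega

theorem Ch_fam_compat {lab : V → Λ} {lab₀ : V → Λ₀} {a : Fam (Bor (KG lab) (ptAct (V := V)))}
    (ha : IsFam False (fun n => BS (KG lab) ptAct univ (St lab₀ n)) a) {n n' : ℕ} (hn : n ≤ n') :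
    a n' - a n ∈ BB ⊥ (BS (KG lab) ptAct univ (St lab₀ n)) := by
  induction n', hn using Nat.le_induction with
  | base =>
    rw [sub_self]
    exact zero_mem _
  | succ m hm ih =>
    have := add_mem (VB_BB_mono (Ch_BS_mono (St_mono lab₀ hm)) (cohom_false.1 (ha.2.1 m))) ih
    rwa [sub_add_sub_cancel] at this

/-- Families: the equivariant cohomology of a point. -/
theorem isFam_chC {lab : V → Λ} {lab₀ : V → Λ₀} (hr : Refines lab lab₀) {h : MvPolynomial V ℂ}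
    (hh : h ∈ Rinv lab) : IsFam False (fun n => BS (KG lab) ptAct univ (St lab₀ n)) (chC lab h) :=
  ⟨fun n => cocycle_false.2 (Ch_ZZ_mono (Ch_BS_mono (Ch_St_sub hr n)) (chC_spec hh n).1),
    fun n => cohom_false.2 (VB_BB_mono (Ch_BS_mono (Ch_St_sub hr n))
      (chC_compat hh (Nat.le_succ n))), chC_bdd lab h⟩
theorem fam_ch_surj {lab : V → Λ} {lab₀ : V → Λ₀} (hr : Refines lab lab₀)
    {a : Fam (Bor (KG lab) (ptAct (V := V)))}
    (ha : IsFam False (fun n => BS (KG lab) ptAct univ (St lab₀ n)) a) :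
    ∃ h ∈ Rinv lab, FamEq False (fun n => BS (KG lab) ptAct univ (St lab₀ n)) a (chC lab h) ∧
      ∀ k, Homog k a → h = 0 ∨ ∃ d : ℕ, k = 2 * (d : ℤ) ∧ h.IsHomogeneous d := by
  obtain ⟨N, hN⟩ := ha.2.2
  have hZ : ∀ n, a n ∈ ZZ ⊥ (BS (KG lab) ptAct univ (St lab₀ n)) := fun n =>
    cocycle_false.1 (ha.1 n)
  choose g hg hgd hgb using fun (n k : ℕ) =>
    (ch_surj hr n (HomC.prC (k : ℤ) (a n))).1 (prC_mem_ZZ _ (hZ n))
  -- downward compatibility
  have hdown : ∀ (k : ℕ) {n n' : ℕ}, n ≤ n' → prC (k : ℤ) (a n) - chC lab (g n' k) n ∈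
      BB ⊥ (BS (KG lab) ptAct univ (St lab₀ n)) := by
    intro k n n' hn
    have h1 := prC_mem_BB (k : ℤ) (Ch_fam_compat ha hn)
    rw [Basic_prC_sub] at h1
    have h2 := VB_BB_mono (Ch_BS_mono (St_mono lab₀ hn)) (hgb n' k)
    have h3 := VB_BB_mono (Ch_BS_mono (Ch_St_sub hr n)) (chC_compat (hg n' k) hn)
    have h4 := add_mem (sub_mem h2 h1) h3
    rwa [sub_sub_sub_cancel_left, sub_add_sub_cancel] at h4
  have hall : ∀ k n : ℕ, prC (k : ℤ) (a n) - chC lab (g (k + Fintype.card V) k) n ∈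
      BB ⊥ (BS (KG lab) ptAct univ (St lab₀ n)) := by
    intro k n
    rcases le_total n (k + Fintype.card V) with hn | hn
    · exact hdown k hn
    · have h1 := sub_mem (hdown k hn) (hgb (k + Fintype.card V) k)
      rw [sub_sub_sub_cancel_left] at h1
      rw [Ch_uniq_deg hr (Ch_rng k) (hg _ k) (hg n k) (hgd _ k) (hgd n k) h1]
      exact hgb n k
  refine ⟨∑ k ∈ Finset.range N, g (k + Fintype.card V) k, sum_mem fun k _ => hg _ k,
    fun n => cohom_false.2 ?_, fun k hk => ?_⟩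
  · have h1 := sum_mem (t := Finset.range N) fun k _ => hall k n
    rw [Finset.sum_sub_distrib, ← Ch_sum_range (Ch_bdd (hZ n)).1 (hN n)] at h1
    have h2 := add_mem h1 (VB_BB_mono (Ch_BS_mono (Ch_St_sub hr n))
      (Ch_chC_sum (Finset.range N) (fun k _ => hg (k + Fintype.card V) k) n))
    rwa [sub_add_sub_cancel] at h2
  · have h0 : ∀ j : ℕ, (j : ℤ) ≠ k → g (j + Fintype.card V) j = 0 := by
      intro j hj
      refine (Ch_uniq_deg hr (Ch_rng j) (zero_mem _) (hg _ j) (Or.inl rfl) (hgd _ j) ?_).symm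
      have h1 := hgb (j + Fintype.card V) j
      rw [HomC.prC_ne (hk (j + Fintype.card V)) hj] at h1
      rwa [chC_zero]
    by_cases hex : ∃ j ∈ Finset.range N, (j : ℤ) = k
    · obtain ⟨j, hj, rfl⟩ := hex
      rw [Finset.sum_eq_single_of_mem j hj fun i _ hi => h0 i fun h => hi (Nat.cast_injective h)]
      exact hgd _ j
    · exact Or.inl (Finset.sum_eq_zero fun j hj => h0 j fun h => hex ⟨j, hj, h⟩)
theorem fam_ch_inj {lab : V → Λ} {lab₀ : V → Λ₀} (hr : Refines lab lab₀) {h h' : MvPolynomial V ℂ}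
    (hh : h ∈ Rinv lab) (hh' : h' ∈ Rinv lab)
    (he : FamEq False (fun n => BS (KG lab) ptAct univ (St lab₀ n)) (chC lab h) (chC lab h')) :
    h = h' := by
  have key : ∀ d : ℕ, MvPolynomial.homogeneousComponent d h =
      MvPolynomial.homogeneousComponent d h' := by
    intro d
    refine Ch_uniq_deg hr (Ch_rng (2 * d)) (homogeneousComponent_mem_Rinv hh d)
      (homogeneousComponent_mem_Rinv hh' d)
      (Or.inr ⟨d, by push_cast; rfl, MvPolynomial.homogeneousComponent_isHomogeneous d h⟩)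
      (Or.inr ⟨d, by push_cast; rfl, MvPolynomial.homogeneousComponent_isHomogeneous d h'⟩) ?_
    have hs := Ch_BS_mono (L := KG lab) (act := ptAct) (S := univ)
      (Ch_St_sub hr (2 * d + Fintype.card V))
    have h1 := prC_mem_BB (2 * (d : ℤ)) (cohom_false.1 (he (2 * d + Fintype.card V)))
    rw [Basic_prC_sub] at h1
    have h2 := add_mem (sub_mem h1 (VB_BB_mono hs (prC_chC hh d _))) (VB_BB_mono hs (prC_chC hh' d _))
    rwa [sub_sub_sub_cancel_left, sub_add_sub_cancel] at h2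
  ext m
  have := congrArg (MvPolynomial.coeff m) (key m.degree)
  simpa only [MvPolynomial.coeff_homogeneousComponent, if_true] using this

end Pool.Agent.HK
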