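import Pool.Agent.P.MP_1206ce_ag.AS.Basic
import Pool.Agent.P.MP_1206ce_ag.Alg.SymDefs

/-! Borel quotients, frames and characteristic cochains: definitions. -/

open scoped Topology
open Filter Set

noncomputable section

namespace Pool.Agent.HK

variable {V V' Λ X X' Z : Type} [Fintype V] [DecidableEq V] [Fintype V'] [DecidableEq V']

/-- Closed subgroups of the unitary group. -/
structure IsGrp (L : Set (Matrix V V ℂ)) : Prop where
  unit : ∀ u ∈ L, u ∈ Matrix.unitaryGroup V ℂ
  one : (1 : Matrix V V ℂ) ∈ L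
  mul : ∀ u ∈ L, ∀ v ∈ L, u * v ∈ L
  star : ∀ u ∈ L, star u ∈ L
  closed : IsClosed L

/-- Continuous actions. -/
structure IsAct [TopologicalSpace X] (L : Set (Matrix V V ℂ)) (act : Matrix V V ℂ → X → X) :
    Prop where
  grp : IsGrp L
  one : ∀ x, act 1 x = x
  mul : ∀ u ∈ L, ∀ v ∈ L, ∀ x, act (u * v) x = act u (act v x)
  cont : ContinuousOn (fun p : Matrix V V ℂ × X => act p.1 p.2) (L ×ˢ univ)

/-- The diagonal action on pairs. -/
def bact (act : Matrix V V ℂ → X → X) (u : Matrix V V ℂ) (p : X × Fr V) : X × Fr V :=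
  (act u p.1, frAct u p.2)

/-- Invariant sets of pairs. -/
def Inv (L : Set (Matrix V V ℂ)) (act : Matrix V V ℂ → X → X) (P : Set (X × Fr V)) : Prop :=
  ∀ u ∈ L, ∀ p ∈ P, bact act u p ∈ P

/-- Invariant sets of points. -/
def InvX (L : Set (Matrix V V ℂ)) (act : Matrix V V ℂ → X → X) (S : Set X) : Prop :=
  ∀ u ∈ L, ∀ x ∈ S, act u x ∈ S

/-- Invariant sets of frames. -/
def InvF (L : Set (Matrix V V ℂ)) (E : Set (Fr V)) : Prop := ∀ u ∈ L, ∀ e ∈ E, frAct u e ∈ E

/-- The action on `E` is free. -/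
def FreeOn (L : Set (Matrix V V ℂ)) (E : Set (Fr V)) : Prop :=
  ∀ u ∈ L, ∀ e ∈ E, frAct u e = e → u = 1

/-- The image of a set of pairs in the Borel quotient. -/
def BI (L : Set (Matrix V V ℂ)) (act : Matrix V V ℂ → X → X) (P : Set (X × Fr V)) :
    Set (Bor L act) := bmk L act '' P

/-- The function on the quotient given by an invariant function. -/
def blift {L : Set (Matrix V V ℂ)} {act : Matrix V V ℂ → X → X} (F : X × Fr V → Z)
    (q : Bor L act) : Z := F (Quot.out q)

/-- `F` is invariant on `P`. -/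
def Desc (L : Set (Matrix V V ℂ)) (act : Matrix V V ℂ → X → X) (P : Set (X × Fr V))
    (F : X × Fr V → Z) : Prop := ∀ u ∈ L, ∀ p ∈ P, F (bact act u p) = F p

/-- The map of quotients given by an equivariant map of pairs. -/
def bmp {L : Set (Matrix V V ℂ)} {act : Matrix V V ℂ → X → X} (L' : Set (Matrix V' V' ℂ))
    (act' : Matrix V' V' ℂ → X' → X') (F : X × Fr V → X' × Fr V') (q : Bor L act) : Bor L' act' :=
  bmk L' act' (F (Quot.out q))

/-- `F` maps orbits in `P` to orbits. -/
def EqvOn (L : Set (Matrix V V ℂ)) (act : Matrix V V ℂ → X → X) (L' : Set (Matrix V' V' ℂ))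
    (act' : Matrix V' V' ℂ → X' → X') (P : Set (X × Fr V)) (F : X × Fr V → X' × Fr V') : Prop :=
  ∀ u ∈ L, ∀ p ∈ P, ∃ u' ∈ L', F (bact act u p) = bact act' u' (F p)

/-- Block unitary matrices that fix the basis vectors in `fr`. -/
def KF (lab : V → Λ) (fr : Set V) : Set (Matrix V V ℂ) :=
  {u | u ∈ KG lab ∧ ∀ k ∈ fr, ∀ l, u k l = (1 : Matrix V V ℂ) k l}

/-- The diagonal torus. -/
abbrev TT (V : Type) [Fintype V] [DecidableEq V] : Set (Matrix V V ℂ) := KG (id : V → V)

/-- Frames with entries in `ℂ^n`. -/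
def FrN (V : Type) (n : ℕ) : Set (Fr V) := {e | ∀ j, n ≤ j → e j = 0}

/-- Frames in `ℂ^n` whose columns are linearly independent within each block. -/
def Inj (lab : V → Λ) (n : ℕ) : Set (Fr V) :=
  {e | (∀ j, n ≤ j → e j = 0) ∧ ∀ (i : Λ) (c : V → ℂ), (∀ k, lab k ≠ i → c k = 0) →
    (∀ j, ∑ k, e j k * c k = 0) → c = 0}

/-- Orthonormal frames with columns in prescribed subspaces. -/
def StE (lab : V → Λ) (n : ℕ) (E : Λ → Submodule ℂ (ℕ → ℂ)) : Set (Fr V) :=
  {e | e ∈ St lab n ∧ ∀ k, (fun j => e j k) ∈ E (lab k)}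

/-- The permutation matrix of `w`; it sends the basis vector `k` to `w k`. -/
def pmat (w : Equiv.Perm V) : Matrix V V ℂ := Matrix.of fun k l => if k = w l then 1 else 0

/-- Ambient space of the classifying space of the diagonal torus. -/
abbrev BT (V : Type) [Fintype V] [DecidableEq V] : Type := Bor (TT V) (ptAct (V := V))

/-- Inner product of the `k`-th columns. -/
def ipF (e e' : Fr V) (k : V) : ℂ := ∑' j, star (e j k) * e' j k

/-- The argument divided by `2 π`. -/
def argC (z : ℂ) : ℂ := ((Complex.arg z / (2 * Real.pi) : ℝ) : ℂ)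

/-- The first Chern cocycle of the `k`-th line. -/
def cw (k : V) : Coch (BT V) := fun l =>
  match l with
  | [a, b, c] => argC (ipF (Quot.out a).2 (Quot.out b).2 k * ipF (Quot.out b).2 (Quot.out c).2 k *
      star (ipF (Quot.out a).2 (Quot.out c).2 k))
  | _ => 0

/-- The cocycle of a polynomial in the first Chern classes. -/
def polyC : MvPolynomial V ℂ →ₗ[ℂ] Coch (BT V) :=
  (MvPolynomial.basisMonomials V ℂ).constr ℂ fun m => cupL (m.toMultiset.toList.map cw)

/-- Its pull-back to a Borel quotient by a subgroup of the torus. -/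
def polyX (L : Set (Matrix V V ℂ)) (act : Matrix V V ℂ → X → X) (p : MvPolynomial V ℂ) :
    Coch (Bor L act) := pb (bmap (TT V) ptAct (fun _ => ()) id) (polyC p)

/-- The value of the character `χ` on a diagonal matrix. -/
def chr (χ : V → ℤ) (u : Matrix V V ℂ) : ℂ := ∏ k, u k k ^ χ k

/-- The line of weight `χ`. -/
def act1 (χ : V → ℤ) (u : Matrix V V ℂ) (z : ℂ) : ℂ := chr χ u * z

/-- The phase cochain of the line of weight `χ`. -/
def phs (χ : V → ℤ) : Coch (Bor (TT V) (act1 χ)) := fun l =>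
  match l with
  | [a, b] => argC ((∏ k, ipF (Quot.out a).2 (Quot.out b).2 k ^ χ k) *
      (star (Quot.out a).1 * (Quot.out b).1))
  | _ => 0

/-- The Thom cocycle of the line of weight `χ`. -/
def tauL (χ : V → ℤ) : Coch (Bor (TT V) (act1 χ)) :=
  polyX (TT V) (act1 χ) (linF χ) - dd (ext0 {q | 1 < ‖(Quot.out q).1‖} (phs χ))

/-- The orientation cocycle of `ℂ`. -/
def genC1 : Coch ℂ := -dd (ext0 {z | 1 < ‖z‖} fun l =>
  match l with
  | [a, b] => argC (star a * b)
  | _ => 0)

/-- The orientation cocycle of `ℂ^ι`. -/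
def genC (ι : Type) [Fintype ι] : Coch (ι → ℂ) :=
  cupL ((Finset.univ : Finset ι).toList.map fun i => pb (fun v => v i) genC1)

/-- The product Thom cocycle of weight coordinates. -/
def tauT {ι : Type} [Fintype ι] (L : Set (Matrix V V ℂ)) (act : Matrix V V ℂ → X → X)
    (co : X → ι → ℂ) (χ : ι → V → ℤ) : Coch (Bor L act) :=
  cupL ((Finset.univ : Finset ι).toList.map fun i =>
    pb (bmap (TT V) (act1 (χ i)) (fun x => co x i) id) (tauL (χ i)))

/-- `co` are continuous functions of weights `χ` on `S`. -/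
def IsCoord {ι : Type} [TopologicalSpace X] (L : Set (Matrix V V ℂ)) (act : Matrix V V ℂ → X → X)
    (S : Set X) (co : X → ι → ℂ) (χ : ι → V → ℤ) : Prop :=
  ContinuousOn co S ∧ ∀ u ∈ L, ∀ x ∈ S, ∀ i, co (act u x) i = chr (χ i) u * co x i

/-- `t` is a complex oriented Thom cocycle of `f : P' → P` with fibre coordinates `co`. -/
def IsThomFor {ι : Type} [Fintype ι] [TopologicalSpace X] [TopologicalSpace X']
    (L : Set (Matrix V V ℂ)) (act' : Matrix V V ℂ → X' → X') (act : Matrix V V ℂ → X → X)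
    (P' : Set (X' × Fr V)) (P : Set (X × Fr V)) (f : X' → X) (co : X' → ι → ℂ)
    (t : Coch (Bor L act')) : Prop :=
  TwOK (BI L act P) (BI L act' P') (bmap L act f id) t ∧ HomC (2 * (Fintype.card ι : ℤ)) t ∧
    ∀ p ∈ P, (∃ g, HomeoOn co g {x | (x, p.2) ∈ P' ∧ f x = p.1} univ) ∧
      pb (fun x => bmk L act' (x, p.2)) t - pb co (genC ι) ∈
        BB (cc {x | (x, p.2) ∈ P' ∧ f x = p.1}) {x | (x, p.2) ∈ P' ∧ f x = p.1}

open Classical in
/-- The characteristic cocycle of an invariant polynomial. -/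
def chC (lab : V → Λ) (h : MvPolynomial V ℂ) (n : ℕ) : Coch (Bor (KG lab) (ptAct (V := V))) :=
  if H : ∃ a ∈ ZZ ⊥ (BS (KG lab) ptAct univ (Inj lab n)),
      pb (bmap (KG lab) ptAct (fun _ => ()) id) a - polyC h ∈ BB ⊥ (BS (TT V) ptAct univ (Inj lab n)) then
    ∑ d ∈ h.support.image (fun m => m.degree), prC (2 * (d : ℤ)) (Classical.choose H)
  else 0

/-- Its pull-back to a Borel quotient by a subgroup of `KG lab`. -/
def chX (lab : V → Λ) (L : Set (Matrix V V ℂ)) (act : Matrix V V ℂ → X → X)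
    (h : MvPolynomial V ℂ) (n : ℕ) : Coch (Bor L act) :=
  pb (bmap (KG lab) ptAct (fun _ => ()) id) (chC lab h n)

/-- The stable range. -/
def rng (V : Type) [Fintype V] (n : ℕ) : ℤ := 2 * ((n : ℤ) - Fintype.card V)

end Pool.Agent.HK
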