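import Pool.Agent.P.MP_1206ce_ag.BO.Top
import Pool.Agent.P.MP_1206ce_ag.AS.Chart

/-! Spaces of frames: basic topology, polar retraction, Stiefel completions. -/

open scoped Topology
open Filter Set

noncomputable section

namespace Pool.Agent.HK

variable {V Λ Λ₀ X : Type} [Fintype V] [DecidableEq V] [TopologicalSpace X]

/-- Right multiplication of a frame by a matrix. -/
def Frames_rm (e : Fr V) (m : Matrix V V ℂ) : Fr V := fun j => Matrix.vecMul (e j) m

/-- Block diagonal matrices. -/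
def Frames_Blk (lab : V → Λ) (m : Matrix V V ℂ) : Prop := ∀ k l, lab k ≠ lab l → m k l = 0

open Classical in
/-- The block diagonal part of the Gram matrix. -/
def Frames_gr (lab : V → Λ) (n : ℕ) (e : Fr V) : Matrix V V ℂ :=
  Matrix.of fun k l => if lab k = lab l then ∑ j ∈ Finset.range n, star (e j k) * e j l else 0

omit [Fintype V] [DecidableEq V] in
theorem Frames_gr_pos {lab : V → Λ} {k l : V} (h : lab k = lab l) (n : ℕ) (e : Fr V) :
    Frames_gr lab n e k l = ∑ j ∈ Finset.range n, star (e j k) * e j l := by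
  simp only [Frames_gr, Matrix.of_apply, if_pos h]

omit [Fintype V] [DecidableEq V] in
theorem Frames_gr_blk (lab : V → Λ) (n : ℕ) (e : Fr V) : Frames_Blk lab (Frames_gr lab n e) :=
  fun k l h => by simp only [Frames_gr, Matrix.of_apply, if_neg h]

omit [Fintype V] in
theorem Frames_mem_St {lab : V → Λ} {n : ℕ} {e : Fr V} :
    e ∈ St lab n ↔ e ∈ FrN V n ∧ Frames_gr lab n e = 1 := by
  refine and_congr_right fun _ => ⟨fun h => ?_, fun h k l hkl => ?_⟩
  · ext k l
    by_cases hkl : lab k = lab l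
    · rw [Frames_gr_pos hkl, h k l hkl, Matrix.one_apply]
    · rw [Frames_gr_blk lab n e k l hkl, Matrix.one_apply, if_neg]
      rintro rfl
      exact hkl rfl
  · rw [← Frames_gr_pos hkl, h, Matrix.one_apply]

omit [DecidableEq V] in
theorem Frames_gr_rm {lab : V → Λ} {m : Matrix V V ℂ} (hm : Frames_Blk lab m) (n : ℕ) (e : Fr V) :
    Frames_gr lab n (Frames_rm e m) = star m * Frames_gr lab n e * m := by
  ext k l
  simp only [Matrix.mul_apply, Matrix.star_apply, Finset.sum_mul]
  by_cases hkl : lab k = lab l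
  · rw [Frames_gr_pos hkl]
    have h1 : ∀ a b, star (m a k) * Frames_gr lab n e a b * m b l =
        ∑ j ∈ Finset.range n, star (e j a * m a k) * (e j b * m b l) := by
      intro a b
      by_cases hab : lab a = lab b
      · rw [Frames_gr_pos hab, Finset.mul_sum, Finset.sum_mul]
        refine Finset.sum_congr rfl fun j _ => ?_
        rw [star_mul']
        ring
      · rw [Frames_gr_blk lab n e a b hab]
        by_cases hak : lab a = lab k
        · have : m b l = 0 := hm b l fun h => hab (hak.trans (hkl.trans h.symm))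
          simp [this]
        · simp [hm a k hak]
    simp only [h1, Frames_rm, Matrix.vecMul, dotProduct, star_sum, Finset.sum_mul, Finset.mul_sum]
    rw [Finset.sum_comm]
    refine Finset.sum_congr rfl fun b _ => ?_
    rw [Finset.sum_comm]
  · rw [Frames_gr_blk lab n _ k l hkl]
    refine (Finset.sum_eq_zero fun b _ => Finset.sum_eq_zero fun a _ => ?_).symm
    by_cases hak : lab a = lab k
    · by_cases hab : lab a = lab b
      · have : m b l = 0 := hm b l fun h => hkl (hak.symm.trans (hab.trans h))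
        simp [this]
      · simp [Frames_gr_blk lab n e a b hab]
    · simp [hm a k hak]

omit [DecidableEq V] in
open Classical in
theorem Frames_dot_gr (lab : V → Λ) (n : ℕ) (e : Fr V) (c : V → ℂ) (l : V) :
    (Frames_gr lab n e).mulVec c l =
      ∑ j ∈ Finset.range n, star (e j l) * ∑ k, e j k * (if lab k = lab l then c k else 0) := by
  simp only [Matrix.mulVec, dotProduct, Finset.mul_sum]
  rw [Finset.sum_comm]
  refine Finset.sum_congr rfl fun k _ => ?_
  by_cases h : lab k = lab l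
  · rw [Frames_gr_pos h.symm, Finset.sum_mul]
    refine Finset.sum_congr rfl fun j _ => ?_
    rw [if_pos h, mul_assoc]
  · rw [Frames_gr_blk lab n e l k (Ne.symm h)]
    simp [h]

omit [DecidableEq V] in
open scoped ComplexOrder in
theorem Frames_gr_psd (lab : V → Λ) (n : ℕ) (e : Fr V) : (Frames_gr lab n e).PosSemidef := by
  classical
  have h : Frames_gr lab n e = ∑ i ∈ Finset.univ.image lab, ∑ j ∈ Finset.range n,
      Matrix.vecMulVec (star fun k => if lab k = i then e j k else 0)
        (fun k => if lab k = i then e j k else 0) := by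
    ext k l
    simp only [Matrix.sum_apply, Matrix.vecMulVec_apply, Pi.star_apply]
    rw [Finset.sum_eq_single (lab k)]
    · by_cases hkl : lab k = lab l
      · rw [Frames_gr_pos hkl]
        simp [hkl]
      · rw [Frames_gr_blk lab n e k l hkl]
        simp [Ne.symm hkl]
    · intro i _ hi
      simp [Ne.symm hi]
    · intro h
      exact absurd (Finset.mem_image_of_mem lab (Finset.mem_univ k)) h
  rw [h]
  exact Matrix.posSemidef_sum _ fun i _ => Matrix.posSemidef_sum _ fun j _ =>
    Matrix.posSemidef_vecMulVec_star_self _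

theorem Frames_mem_Inj {lab : V → Λ} {n : ℕ} {e : Fr V} :
    e ∈ Inj lab n ↔ e ∈ FrN V n ∧ (Frames_gr lab n e).det ≠ 0 := by
  classical
  refine and_congr_right fun h0 => ⟨fun h hd => ?_, fun h i c hc hs => ?_⟩
  · obtain ⟨c, hc, hz⟩ := Matrix.exists_mulVec_eq_zero_iff.2 hd
    obtain ⟨l₀, hl₀⟩ := Function.ne_iff.1 hc
    set c' : V → ℂ := fun k => if lab k = lab l₀ then c k else 0 with hc'
    have h1 : ∑ j ∈ Finset.range n, Complex.normSq (∑ k, e j k * c' k) = 0 := by
      have h2 : ∑ l, star (c' l) * (Frames_gr lab n e).mulVec c l = 0 := by simp [hz]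
      have h3 : ∀ l, star (c' l) * (Frames_gr lab n e).mulVec c l =
          ∑ j ∈ Finset.range n, star (e j l * c' l) * ∑ k, e j k * c' k := by
        intro l
        by_cases hl : lab l = lab l₀
        · rw [Frames_dot_gr, Finset.mul_sum]
          refine Finset.sum_congr rfl fun j _ => ?_
          rw [hl, star_mul']
          ring
        · simp [hc', hl]
      simp only [h3] at h2
      rw [Finset.sum_comm] at h2
      simp only [← Finset.sum_mul, ← star_sum] at h2
      have h4 : ∀ z : ℂ, star z * z = (Complex.normSq z : ℂ) := fun z => by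
        rw [Complex.normSq_eq_conj_mul_self]; rfl
      simp only [h4] at h2
      exact_mod_cast h2
    have h5 := (Finset.sum_eq_zero_iff_of_nonneg fun j _ => Complex.normSq_nonneg _).1 h1
    have h6 := h (lab l₀) c' (fun k hk => if_neg hk) fun j => by
      by_cases hj : j < n
      · exact Complex.normSq_eq_zero.1 (h5 j (Finset.mem_range.2 hj))
      · simp [h0 j (not_lt.1 hj)]
    have h7 := congrFun h6 l₀
    simp only [hc', if_true] at h7
    exact hl₀ h7
  · refine Matrix.eq_zero_of_mulVec_eq_zero h ?_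
    funext l
    rw [Frames_dot_gr]
    refine Finset.sum_eq_zero fun j _ => ?_
    by_cases hl : lab l = i
    · have : ∀ k, (if lab k = lab l then c k else 0) = c k := fun k => by
        split_ifs with hk
        · rfl
        · exact (hc k (hl ▸ hk)).symm
      simp only [this, hs, mul_zero]
    · have : ∀ k, (if lab k = lab l then c k else 0) = 0 := fun k => by
        split_ifs with hk
        · exact hc k (hk ▸ hl)
        · rfl
      simp [this]

omit [Fintype V] [DecidableEq V] in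
theorem Frames_cont_gr (lab : V → Λ) (n : ℕ) : Continuous (Frames_gr lab n) := by
  refine continuous_matrix fun k l => ?_
  by_cases h : lab k = lab l
  · simp only [Frames_gr_pos h]
    fun_prop
  · simp only [Frames_gr_blk lab n _ k l h]
    exact continuous_const

omit [DecidableEq V] in
theorem Frames_rm_FrN {n : ℕ} {e : Fr V} (he : e ∈ FrN V n) (m : Matrix V V ℂ) :
    Frames_rm e m ∈ FrN V n := fun j hj => by
  simp only [Frames_rm, he j hj, Matrix.zero_vecMul]

omit [DecidableEq V] in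
theorem Frames_rm_rm (e : Fr V) (m m' : Matrix V V ℂ) :
    Frames_rm (Frames_rm e m) m' = Frames_rm e (m * m') := by
  funext j
  simp only [Frames_rm, Matrix.vecMul_vecMul]

theorem Frames_rm_one (e : Fr V) : Frames_rm e 1 = e := by
  funext j
  simp only [Frames_rm, Matrix.vecMul_one]

omit [DecidableEq V] in
theorem Frames_cont_rm : Continuous fun p : Fr V × Matrix V V ℂ => Frames_rm p.1 p.2 := by
  refine continuous_pi fun j => continuous_pi fun k => ?_
  simp only [Frames_rm, Matrix.vecMul, dotProduct]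
  fun_prop

omit [DecidableEq V] in
theorem Frames_contOn_rm {f : X → Fr V} {m : X → Matrix V V ℂ} {A : Set X}
    (hf : ContinuousOn f A) (hm : ContinuousOn m A) :
    ContinuousOn (fun x => Frames_rm (f x) (m x)) A :=
  Frames_cont_rm.comp_continuousOn (hf.prodMk hm)

omit [DecidableEq V] in
theorem Frames_frAct (u : Matrix V V ℂ) (e : Fr V) : frAct u e = Frames_rm e (star u) := rfl

omit [Fintype V] [DecidableEq V] in
theorem Frames_Blk.star {lab : V → Λ} {m : Matrix V V ℂ} (h : Frames_Blk lab m) :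
    Frames_Blk lab (star m) := fun k l hkl => by
  rw [Matrix.star_apply, h l k (Ne.symm hkl), star_zero]

theorem Frames_rm_Inj {lab : V → Λ} {n : ℕ} {e : Fr V} (he : e ∈ Inj lab n) {m : Matrix V V ℂ}
    (hm : Frames_Blk lab m) (hd : m.det ≠ 0) : Frames_rm e m ∈ Inj lab n := by
  rw [Frames_mem_Inj] at he ⊢
  refine ⟨Frames_rm_FrN he.1 m, ?_⟩
  rw [Frames_gr_rm hm, Matrix.det_mul, Matrix.det_mul, Matrix.star_eq_conjTranspose,
    Matrix.det_conjTranspose]
  exact mul_ne_zero (mul_ne_zero (star_ne_zero.2 hd) he.2) hd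

theorem Frames_gr_frAct {lab : V → Λ} {u : Matrix V V ℂ} (hu : u ∈ KG lab) (n : ℕ) (e : Fr V) :
    Frames_gr lab n (frAct u e) = u * Frames_gr lab n e * star u := by
  rw [Frames_frAct, Frames_gr_rm (Frames_Blk.star hu.2), star_star]

theorem St_subset_Inj (lab : V → Λ) (n : ℕ) : St lab n ⊆ Inj lab n := fun e he => by
  rw [Frames_mem_St] at he
  rw [Frames_mem_Inj, he.2, Matrix.det_one]
  exact ⟨he.1, one_ne_zero⟩
theorem Inj_subset_FrN (lab : V → Λ) (n : ℕ) : Inj lab n ⊆ FrN V n := fun _ he => he.1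
theorem Inj_anti {lab : V → Λ} {lab₀ : V → Λ₀} (h : Refines lab lab₀) (n : ℕ) :
    Inj lab₀ n ⊆ Inj lab n := by
  refine fun e he => ⟨he.1, fun i c hc hs => ?_⟩
  by_contra hne
  obtain ⟨k₀, hk₀⟩ := Function.ne_iff.1 hne
  have hi : lab k₀ = i := by
    by_contra h'
    exact hk₀ (hc k₀ h')
  exact hne (he.2 (lab₀ k₀) c (fun k hk => hc k fun h' => hk (h k k₀ (h'.trans hi.symm))) hs)
theorem St_anti {lab : V → Λ} {lab₀ : V → Λ₀} (h : Refines lab lab₀) (n : ℕ) :
    St lab₀ n ⊆ St lab n := fun _ he => ⟨he.1, fun k l hkl => he.2 k l (h k l hkl)⟩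
theorem Inj_subset_id (lab : V → Λ) (n : ℕ) : Inj lab n ⊆ Inj (id : V → V) n :=
  Inj_anti (fun _ _ h => congrArg lab h) n
theorem mem_Inj_id {n : ℕ} {e : Fr V} :
    e ∈ Inj (id : V → V) n ↔ e ∈ FrN V n ∧ ∀ k, ∃ j, e j k ≠ 0 := by
  refine and_congr_right fun _ => ⟨fun h k => ?_, fun h i c hc hs => ?_⟩
  · by_contra hne
    push Not at hne
    have h1 := h k (Pi.single k 1) (fun l hl => Pi.single_eq_of_ne hl _) fun j => by
      rw [Finset.sum_eq_single k (fun l _ hl => by rw [Pi.single_eq_of_ne hl, mul_zero])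
        (fun h' => absurd (Finset.mem_univ k) h'), hne j, zero_mul]
    have h2 := congrFun h1 k
    simp at h2
  · obtain ⟨j, hj⟩ := h i
    have h1 := hs j
    rw [Finset.sum_eq_single i (fun l _ hl => by rw [hc l hl, mul_zero])
      (fun h' => absurd (Finset.mem_univ i) h')] at h1
    funext k
    by_cases hk : k = i
    · rw [hk]
      exact (mul_eq_zero.1 h1).resolve_left hj
    · exact hc k hk
theorem Inj_mono (lab : V → Λ) {n n' : ℕ} (h : n ≤ n') : Inj lab n ⊆ Inj lab n' :=
  fun _ he => ⟨fun j hj => he.1 j (h.trans hj), he.2⟩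
theorem St_mono (lab : V → Λ) {n n' : ℕ} (h : n ≤ n') : St lab n ⊆ St lab n' := by
  refine fun e he => ⟨fun j hj => he.1 j (h.trans hj), fun k l hkl => ?_⟩
  rw [← he.2 k l hkl]
  refine (Finset.sum_subset (Finset.range_mono h) fun j _ hj => ?_).symm
  rw [he.1 j (not_lt.1 (mt Finset.mem_range.2 hj))]
  simp
theorem invF_FrN (L : Set (Matrix V V ℂ)) (n : ℕ) : InvF L (FrN V n) :=
  fun u _ _ he => Frames_rm_FrN he (star u)
theorem invF_Inj {lab : V → Λ} {L : Set (Matrix V V ℂ)} (h : L ⊆ KG lab) (n : ℕ) :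
    InvF L (Inj lab n) := by
  intro u hu e he
  refine Frames_rm_Inj he (Frames_Blk.star (h hu).2) ?_
  have h1 := congrArg Matrix.det ((isGrp_KG lab).mul_star (h hu))
  rw [Matrix.det_mul, Matrix.det_one] at h1
  exact right_ne_zero_of_mul_eq_one h1
theorem invF_St {lab : V → Λ} {L : Set (Matrix V V ℂ)} (h : L ⊆ KG lab) (n : ℕ) :
    InvF L (St lab n) := by
  intro u hu e he
  rw [Frames_mem_St] at he ⊢
  refine ⟨Frames_rm_FrN he.1 (star u), ?_⟩
  rw [Frames_gr_frAct (h hu), he.2, mul_one, (isGrp_KG lab).mul_star (h hu)]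
theorem freeOn_Inj {lab : V → Λ} {L : Set (Matrix V V ℂ)} (h : L ⊆ KG lab) (n : ℕ) :
    FreeOn L (Inj lab n) := by
  intro u hu e he hfix
  have h1 : star u = 1 := by
    ext k l
    have h2 := he.2 (lab l) (fun a => star u a l - (1 : Matrix V V ℂ) a l) (fun a ha => by
      rw [Frames_Blk.star (h hu).2 a l ha, Matrix.one_apply_ne, sub_zero]
      rintro rfl
      exact ha rfl) fun j => by
        have h3 := congrFun (congrFun hfix j) l
        have h4 := congrFun (Matrix.vecMul_one (e j)) l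
        simp only [frAct, Matrix.vecMul, dotProduct] at h3 h4
        simp only [mul_sub, Finset.sum_sub_distrib]
        rw [h3, h4, sub_self]
    exact sub_eq_zero.1 (congrFun h2 k)
  rw [← star_star u, h1, star_one]
theorem isClosed_FrN (n : ℕ) : IsClosed (FrN V n) := by
  have : FrN V n = ⋂ j, ⋂ (_ : n ≤ j), {e : Fr V | e j = 0} := by
    ext e
    simp [FrN]
  rw [this]
  exact isClosed_iInter fun j => isClosed_iInter fun _ =>
    isClosed_eq (continuous_apply j) continuous_const

omit [Fintype V] [DecidableEq V] in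
theorem Frames_homeo (n : ℕ) : HomeoOn (fun (e : Fr V) (j : Fin n) => e j)
    (fun (x : Fin n → V → ℂ) (j : ℕ) => if h : j < n then x ⟨j, h⟩ else 0) (FrN V n) univ := by
  refine ⟨Continuous.continuousOn (by fun_prop), Continuous.continuousOn ?_, mapsTo_univ _ _,
    fun x _ j hj => dif_neg (not_lt.2 hj), fun e he => ?_, fun x _ => ?_⟩
  · refine continuous_pi fun j => ?_
    split_ifs
    · exact continuous_apply _
    · exact continuous_const
  · funext j
    by_cases hj : j < n
    · exact dif_pos hj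
    · exact (dif_neg hj).trans (he j (not_lt.1 hj)).symm
  · funext j
    exact dif_pos j.2

theorem lc_FrN (n : ℕ) : LC (FrN V n) := LC.of_homeoOn (Frames_homeo n) LC.univ
theorem convChart_FrN (n : ℕ) : ConvChart (2 * n * Fintype.card V) (FrN V n) := by
  have h := ConvChart.of_homeoOn convex_univ isOpen_univ (Frames_homeo (V := V) n)
  have e : Module.finrank ℝ (Fin n → V → ℂ) = 2 * n * Fintype.card V := by
    simp only [Module.finrank_pi_fintype, Complex.finrank_real_complex, Finset.sum_const,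
      Finset.card_univ, Fintype.card_fin, smul_eq_mul]
    ring
  rwa [e] at h
theorem openIn_Inj (lab : V → Λ) (n : ℕ) : OpenIn (Inj lab n) (FrN V n) :=
  ⟨{e | (Frames_gr lab n e).det ≠ 0},
    isOpen_ne_fun (Frames_cont_gr lab n).matrix_det continuous_const,
    Set.ext fun _ => Frames_mem_Inj⟩
theorem lc_Inj (lab : V → Λ) (n : ℕ) : LC (Inj lab n) := (lc_FrN n).openIn (openIn_Inj lab n)

theorem Frames_isClosed_St (lab : V → Λ) (n : ℕ) : IsClosed (St lab n) := by
  have : St lab n = FrN V n ∩ {e | Frames_gr lab n e = 1} := Set.ext fun _ => Frames_mem_St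
  rw [this]
  exact (isClosed_FrN n).inter (isClosed_eq (Frames_cont_gr lab n) continuous_const)

theorem isCompact_St (lab : V → Λ) (n : ℕ) : IsCompact (St lab n) := by
  have hK : IsCompact (Set.pi univ fun _ : ℕ => Set.pi univ fun _ : V =>
      Metric.closedBall (0 : ℂ) 1) :=
    isCompact_univ_pi fun _ => isCompact_univ_pi fun _ => isCompact_closedBall _ _
  refine hK.of_isClosed_subset (Frames_isClosed_St lab n) fun e he j _ k _ => ?_
  rw [mem_closedBall_zero_iff]
  by_cases hj : j < n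
  · have h1 := he.2 k k rfl
    have h4 : ∀ z : ℂ, star z * z = ((‖z‖ ^ 2 : ℝ) : ℂ) := fun z => by
      rw [← Complex.normSq_eq_norm_sq, Complex.normSq_eq_conj_mul_self]; rfl
    simp only [h4, if_true] at h1
    have h2 : ∑ j ∈ Finset.range n, ‖e j k‖ ^ 2 = 1 := by exact_mod_cast h1
    have h3 := Finset.single_le_sum (f := fun j => ‖e j k‖ ^ 2) (fun j _ => sq_nonneg _)
      (Finset.mem_range.2 hj)
    rw [h2] at h3
    exact (sq_le_one_iff₀ (norm_nonneg _)).1 h3
  · rw [he.1 j (not_lt.1 hj)]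
    simp
theorem St_nonempty (lab : V → Λ) {n : ℕ} (h : Fintype.card V ≤ n) : (St lab n).Nonempty := by
  let φ := Fintype.equivFin V
  refine ⟨fun j k => if j = (φ k : ℕ) then 1 else 0, fun j hj => ?_, fun k l _ => ?_⟩
  · funext k
    exact if_neg ((φ k).2.trans_le (h.trans hj)).ne'
  · rw [Finset.sum_eq_single (φ k : ℕ)]
    · by_cases hkl : k = l
      · simp [hkl]
      · have : (φ k : ℕ) ≠ φ l := fun h' => hkl (φ.injective (Fin.ext h'))
        simp [hkl, this]
    · intro j _ hj
      simp [hj]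
    · intro h'
      exact absurd (Finset.mem_range.2 ((φ k).2.trans_le h)) h'
theorem ipF_eq {n : ℕ} {e : Fr V} (he : e ∈ FrN V n) (e' : Fr V) (k : V) :
    ipF e e' k = ∑ j ∈ Finset.range n, star (e j k) * e' j k := by
  refine tsum_eq_sum fun j hj => ?_
  rw [he j (not_lt.1 (mt Finset.mem_range.2 hj))]
  simp

open scoped ComplexOrder MatrixOrder Matrix.Norms.L2Operator in
theorem Frames_exists_sqrt : ∃ sq : Matrix V V ℂ → Matrix V V ℂ,
    ContinuousOn sq {a | a.PosSemidef} ∧
    (∀ a : Matrix V V ℂ, a.PosSemidef → (sq a).PosSemidef ∧ sq a * sq a = a) ∧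
    ∀ a b : Matrix V V ℂ, b.PosSemidef → b * b = a → sq a = b := by
  refine ⟨CFC.sqrt, ?_, fun a ha => ⟨?_, ?_⟩, fun a b hb h => ?_⟩
  · have h := CFC.continuousOn_sqrt (A := Matrix V V ℂ)
    have e : {a : Matrix V V ℂ | a.PosSemidef} = {a | 0 ≤ a} := by
      ext a
      exact Matrix.nonneg_iff_posSemidef.symm
    rw [e]
    exact h
  · exact Matrix.nonneg_iff_posSemidef.1 (CFC.sqrt_nonneg a)
  · exact CFC.sqrt_mul_sqrt_self a (Matrix.nonneg_iff_posSemidef.2 ha)
  · exact CFC.sqrt_unique h (Matrix.nonneg_iff_posSemidef.2 hb)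

open scoped ComplexOrder in
/-- The inverse square root of positive definite matrices. -/
theorem Frames_exists_isqrt : ∃ r : Matrix V V ℂ → Matrix V V ℂ,
    ContinuousOn r {a | a.PosDef} ∧
    (∀ a : Matrix V V ℂ, a.PosDef → (r a).PosDef ∧ star (r a) * a * r a = 1) ∧ r 1 = 1 ∧
    ∀ a u : Matrix V V ℂ, a.PosDef → star u * u = 1 → r (u * a * star u) = u * r a * star u := by
  obtain ⟨sq, hc, h1, h2⟩ := Frames_exists_sqrt (V := V)
  have hpd : ∀ a : Matrix V V ℂ, a.PosDef → (sq a).PosDef := fun a ha => by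
    obtain ⟨p1, p2⟩ := h1 a ha.posSemidef
    refine (p1.posDef_iff_det_ne_zero).2 fun h0 => ?_
    have := congrArg Matrix.det p2
    rw [Matrix.det_mul, h0, zero_mul] at this
    exact ha.det_pos.ne this
  refine ⟨fun a => (sq a)⁻¹, fun a ha => ?_, fun a ha => ⟨(hpd a ha).inv, ?_⟩, ?_,
    fun a u ha hu => ?_⟩
  · have h3 : ContinuousAt (fun b : Matrix V V ℂ => b⁻¹) (sq a) := by
      refine continuousAt_matrix_inv _ ?_
      have hu : IsUnit (sq a).det := (hpd a ha).det_pos.ne'.isUnit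
      obtain ⟨v, hv⟩ := hu
      rw [← hv]
      exact NormedRing.inverse_continuousAt v
    exact h3.comp_continuousWithinAt
      ((hc a ha.posSemidef).mono fun b (hb : b.PosDef) => hb.posSemidef)
  · have hu : IsUnit (sq a).det := (hpd a ha).det_pos.ne'.isUnit
    have h4 : star (sq a)⁻¹ = (sq a)⁻¹ := (hpd a ha).inv.isHermitian
    have h5 := (h1 a ha.posSemidef).2
    calc star (sq a)⁻¹ * a * (sq a)⁻¹ = (sq a)⁻¹ * (sq a * sq a) * (sq a)⁻¹ := by rw [h4, h5]
      _ = ((sq a)⁻¹ * sq a) * (sq a * (sq a)⁻¹) := by simp only [mul_assoc]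
      _ = 1 := by rw [Matrix.nonsing_inv_mul _ hu, Matrix.mul_nonsing_inv _ hu, mul_one]
  · show (sq 1)⁻¹ = 1
    rw [h2 1 1 Matrix.PosSemidef.one (mul_one 1), inv_one]
  · have hu' : u * star u = 1 := mul_eq_one_comm.1 hu
    have h6 : sq (u * a * star u) = u * sq a * star u := by
      refine h2 _ _ ((h1 a ha.posSemidef).1.mul_mul_conjTranspose_same u) ?_
      calc u * sq a * star u * (u * sq a * star u)
          = u * (sq a * (star u * u) * sq a) * star u := by simp only [mul_assoc]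
        _ = u * a * star u := by rw [hu, mul_one, (h1 a ha.posSemidef).2]
    have hd : IsUnit (sq a).det := (hpd a ha).det_pos.ne'.isUnit
    show (sq (u * a * star u))⁻¹ = u * (sq a)⁻¹ * star u
    rw [h6]
    refine Matrix.inv_eq_right_inv ?_
    calc u * sq a * star u * (u * (sq a)⁻¹ * star u)
        = u * (sq a * (star u * u) * (sq a)⁻¹) * star u := by simp only [mul_assoc]
      _ = 1 := by rw [hu, mul_one, Matrix.mul_nonsing_inv _ hd, mul_one, hu']

/-- A function that commutes with unitary conjugation keeps block diagonal matrices. -/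
theorem Frames_blk_of_conj {lab : V → Λ} {a b : Matrix V V ℂ} (ha : Frames_Blk lab a)
    (h : ∀ u : Matrix V V ℂ, star u * u = 1 → u * a * star u = a → u * b * star u = b) :
    Frames_Blk lab b := by
  classical
  intro k l hkl
  let d : V → ℂ := fun x => if lab x = lab k then 1 else -1
  have hd : star (Matrix.diagonal d) = Matrix.diagonal d := by
    rw [Matrix.star_eq_conjTranspose, Matrix.diagonal_conjTranspose]
    congr 1
    funext x
    simp only [d, Pi.star_apply]
    split_ifs <;> simp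
  have h1 := h (Matrix.diagonal d) (by
    rw [hd, Matrix.diagonal_mul_diagonal, ← Matrix.diagonal_one]
    congr 1
    funext x
    simp only [d]
    split_ifs <;> simp) (by
    rw [hd]
    ext x y
    rw [Matrix.mul_diagonal, Matrix.diagonal_mul]
    by_cases hxy : lab x = lab y
    · simp only [d, hxy]
      split_ifs <;> simp
    · simp [ha x y hxy])
  have h2 := congrFun (congrFun h1 k) l
  rw [hd, Matrix.mul_diagonal, Matrix.diagonal_mul] at h2
  simp only [d, if_true, if_neg (Ne.symm hkl)] at h2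
  linear_combination (-1 / 2 : ℂ) * h2

open scoped ComplexOrder in
theorem Frames_gr_pd {lab : V → Λ} {n : ℕ} {e : Fr V} (he : e ∈ Inj lab n) :
    (Frames_gr lab n e).PosDef :=
  ((Frames_gr_psd lab n e).posDef_iff_det_ne_zero).2 (Frames_mem_Inj.1 he).2

open scoped ComplexOrder in
theorem Frames_seg_det {b : Matrix V V ℂ} (hb : b.PosDef) {s : ℝ} (hs : s ∈ Icc (0 : ℝ) 1) :
    ((1 - s) • (1 : Matrix V V ℂ) + s • b).det ≠ 0 := by
  rcases hs.1.eq_or_lt with h0 | h0
  · rw [← h0]
    simp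
  · exact (Matrix.PosDef.posSemidef_add (Matrix.PosSemidef.one.smul (sub_nonneg.2 hs.2))
      (hb.smul h0)).det_pos.ne'

/-- Polar deformation retraction of `Inj` onto `St`. -/
theorem exists_polar (lab : V → Λ) (n : ℕ) : ∃ H : Fr V × ℝ → Fr V,
    ContinuousOn H (Inj lab n ×ˢ Icc 0 1) ∧ MapsTo H (Inj lab n ×ˢ Icc 0 1) (Inj lab n) ∧
    (∀ e ∈ Inj lab n, H (e, 0) = e ∧ H (e, 1) ∈ St lab n) ∧
    (∀ e ∈ St lab n, ∀ s ∈ Icc (0 : ℝ) 1, H (e, s) = e) ∧
    ∀ u ∈ KG lab, ∀ e ∈ Inj lab n, ∀ s ∈ Icc (0 : ℝ) 1, H (frAct u e, s) = frAct u (H (e, s)) := by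
  obtain ⟨r, hc, h1, h2, h3⟩ := Frames_exists_isqrt (V := V)
  have hb : ∀ e ∈ Inj lab n, Frames_Blk lab (r (Frames_gr lab n e)) := fun e he =>
    Frames_blk_of_conj (Frames_gr_blk lab n e) fun u hu h => by
      rw [← h3 _ u (Frames_gr_pd he) hu, h]
  refine ⟨fun p => Frames_rm p.1 ((1 - p.2) • (1 : Matrix V V ℂ) + p.2 • r (Frames_gr lab n p.1)),
    ?_, fun p hp => ?_, fun e he => ⟨?_, ?_⟩, fun e he s _ => ?_, fun u hu e he s _ => ?_⟩
  · have a1 : ContinuousOn (fun p : Fr V × ℝ => r (Frames_gr lab n p.1))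
        (Inj lab n ×ˢ Icc 0 1) :=
      hc.comp ((Frames_cont_gr lab n).comp continuous_fst).continuousOn
        fun p hp => Frames_gr_pd hp.1
    have a2 : Continuous fun p : Fr V × ℝ => (1 - p.2) • (1 : Matrix V V ℂ) :=
      (continuous_const.sub continuous_snd).smul continuous_const
    exact Frames_contOn_rm continuousOn_fst (a2.continuousOn.add (continuousOn_snd.smul a1))
  · refine Frames_rm_Inj hp.1 (fun k l hkl => ?_)
      (Frames_seg_det (h1 _ (Frames_gr_pd hp.1)).1 hp.2)
    rw [Matrix.add_apply, Matrix.smul_apply, Matrix.smul_apply, hb _ hp.1 k l hkl,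
      Matrix.one_apply_ne (fun h => hkl (congrArg lab h)), smul_zero, smul_zero, add_zero]
  · simp only [sub_zero, one_smul, zero_smul, add_zero, Frames_rm_one]
  · simp only [sub_self, one_smul, zero_smul, zero_add]
    rw [Frames_mem_St, Frames_gr_rm (hb e he)]
    exact ⟨Frames_rm_FrN he.1 _, (h1 _ (Frames_gr_pd he)).2⟩
  · simp only
    rw [(Frames_mem_St.1 he).2, h2, ← add_smul, sub_add_cancel, one_smul, Frames_rm_one]
  · have hs := (isGrp_KG lab).star_mul hu
    simp only
    rw [Frames_gr_frAct hu, h3 _ u (Frames_gr_pd he) hs, Frames_frAct, Frames_frAct,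
      Frames_rm_rm, Frames_rm_rm]
    congr 1
    rw [mul_add, add_mul, mul_smul_comm, mul_smul_comm, smul_mul_assoc, smul_mul_assoc, mul_one,
      one_mul, ← mul_assoc, ← mul_assoc, hs, one_mul]

/-- The section of a deformation retraction is an isomorphism on cohomology. -/
theorem Frames_iso_section {Y Y' : Type} [TopologicalSpace Y] [TopologicalSpace Y'] [Nice Y']
    (c : ℤ) {A : Set Y} {A' : Set Y'} (hA' : LC A')
    {f : Y' → Y} {s : Y → Y'} (hf : ContinuousOn f A') (hfm : MapsTo f A' A)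
    (hs : ContinuousOn s A) (hsm : MapsTo s A A') (hfs : ∀ y ∈ A, f (s y) = y)
    {h : Y' × ℝ → Y'} (hc : ContinuousOn h (A' ×ˢ Icc 0 1)) (hm : MapsTo h (A' ×ˢ Icc 0 1) A')
    (h0 : ∀ y ∈ A', h (y, 0) = y) (h1 : ∀ y ∈ A', h (y, 1) = s (f y)) : IsoBelow c s A A' := by
  obtain ⟨-, -, f3, f4⟩ := isoBelow_of_section c hA' hf hfm hs hsm hfs hc hm h0 h1
  have e : ∀ w, pb s (pb f w) - w ∈ BB ⊥ A := fun w => by
    rw [pb_pb]
    exact N0_le_BB ⊥ A (VB_pb_inv (f := f ∘ s) hfs w)
  refine ⟨hs, hsm, fun k _ w hw hom => ⟨pb f w, pb_mem_ZZ hf hfm hw, hom.pb f, ?_⟩,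
    fun k hk w hw hom hb => ?_⟩
  · have a1 := neg_mem (e w)
    rwa [neg_sub] at a1
  · obtain ⟨w₀, -, -, a3⟩ := f3 k hk w hw hom
    have a4 := pb_mem_BB hs hsm a3
    rw [pb_sub] at a4
    have a5 := sub_mem (sub_mem hb a4) (e w₀)
    rw [sub_sub_cancel, sub_sub_cancel] at a5
    have a6 := add_mem a3 (pb_mem_BB hf hfm a5)
    rwa [sub_add_cancel] at a6

/-- Equivariant homotopies descend to the Borel quotient. -/
theorem Frames_hty {L : Set (Matrix V V ℂ)} {act : Matrix V V ℂ → X → X} (h : IsAct L act)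
    {P : Set (X × Fr V)} (hP : Inv L act P) {G : (X × Fr V) × ℝ → X × Fr V}
    (hc : ContinuousOn G (P ×ˢ Icc 0 1)) (hm : MapsTo G (P ×ˢ Icc 0 1) P)
    (he : ∀ u ∈ L, ∀ p ∈ P, ∀ s ∈ Icc (0 : ℝ) 1, G (bact act u p, s) = bact act u (G (p, s))) :
    ∃ K : Bor L act × ℝ → Bor L act, ContinuousOn K (BI L act P ×ˢ Icc 0 1) ∧
      MapsTo K (BI L act P ×ˢ Icc 0 1) (BI L act P) ∧
      ∀ p ∈ P, ∀ s ∈ Icc (0 : ℝ) 1, K (bmk L act p, s) = bmk L act (G (p, s)) := by
  have hD : ∀ s ∈ Icc (0 : ℝ) 1, Desc L act P fun p => bmk L act (G (p, s)) :=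
    fun s hs u hu p hp => by
      show bmk L act (G (bact act u p, s)) = bmk L act (G (p, s))
      rw [he u hu p hp s hs, bmk_bact hu]
  refine ⟨fun q => bmk L act (G (Quot.out q.1, q.2)), ?_, fun q hq => ?_, fun p hp s hs => ?_⟩
  · exact h.continuousOn_blift_param hP (F := fun z => bmk L act (G z)) hD
      (continuous_bmk.comp_continuousOn hc)
  · exact mem_image_of_mem _ (hm ⟨(h.out_mem hP).1 hq.1, hq.2⟩)
  · exact h.blift_bmk (hD s hs) hp

theorem isoBelow_St_Inj [Nice X] {lab : V → Λ} {L : Set (Matrix V V ℂ)}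
    {act : Matrix V V ℂ → X → X} (h : IsAct L act) (hL : L ⊆ KG lab) {S : Set X}
    (hS : InvX L act S) (hl : LC S) (n : ℕ) (c : ℤ) :
    IsoBelow c id (BS L act S (St lab n)) (BS L act S (Inj lab n)) := by
  obtain ⟨H, a1, a2, a3, a4, a5⟩ := exists_polar lab n
  have := h.nice
  have hP : Inv L act (S ×ˢ Inj lab n) := Inv.prod hS (invF_Inj hL n)
  have b0 : MapsTo (fun z : (X × Fr V) × ℝ => (z.1.2, z.2)) ((S ×ˢ Inj lab n) ×ˢ Icc 0 1)
      (Inj lab n ×ˢ Icc 0 1) := fun z hz => ⟨hz.1.2, hz.2⟩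
  obtain ⟨K, k1, k2, k3⟩ := Frames_hty h hP (G := fun z => (z.1.1, H (z.1.2, z.2)))
    ((continuous_fst.comp continuous_fst).continuousOn.prodMk
      (a1.comp (Continuous.continuousOn (by fun_prop)) b0))
    (fun z hz => ⟨hz.1.1, a2 (b0 hz)⟩)
    (fun u hu p hp s hs => Prod.ext rfl (a5 u (hL hu) p.2 hp.2 s hs))
  have h1 : (1 : ℝ) ∈ Icc (0 : ℝ) 1 := right_mem_Icc.2 zero_le_one
  have h0 : (0 : ℝ) ∈ Icc (0 : ℝ) 1 := left_mem_Icc.2 zero_le_one
  rw [BS_eq, BS_eq]
  refine Frames_iso_section c (h.lc_BI hP (hl.prod (lc_Inj lab n))) (f := fun q => K (q, 1))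
    (k1.comp (Continuous.continuousOn (by fun_prop)) fun q hq => ⟨hq, h1⟩) ?_ continuousOn_id
    (BI_mono (prod_mono Subset.rfl (St_subset_Inj lab n))) ?_ k1 k2 ?_ (fun _ _ => rfl)
  · rintro _ ⟨p, hp, rfl⟩
    show K (bmk L act p, 1) ∈ _
    rw [k3 p hp 1 h1]
    exact mem_image_of_mem _ ⟨hp.1, (a3 p.2 hp.2).2⟩
  · rintro _ ⟨p, hp, rfl⟩
    show K (bmk L act p, 1) = _
    rw [k3 p ⟨hp.1, St_subset_Inj lab n hp.2⟩ 1 h1]
    simp only [a4 p.2 hp.2 1 h1]
  · rintro _ ⟨p, hp, rfl⟩
    rw [k3 p hp 0 h0]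
    simp only [(a3 p.2 hp.2).1]

/-- An invariant set that contracts equivariantly to a fixed point. -/
theorem isoBelow_toPt [Nice X] {L : Set (Matrix V V ℂ)} {act : Matrix V V ℂ → X → X}
    (h : IsAct L act) {S : Set X} (hS : InvX L act S) (hl : LC S) {E : Set (Fr V)} (hE : InvF L E)
    (hlE : LC E) {x₀ : X} (hx : x₀ ∈ S) (hfix : ∀ u ∈ L, act u x₀ = x₀) {H : X × ℝ → X}
    (hc : ContinuousOn H (S ×ˢ Icc 0 1)) (hm : MapsTo H (S ×ˢ Icc 0 1) S)
    (h0 : ∀ x ∈ S, H (x, 0) = x ∧ H (x, 1) = x₀)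
    (he : ∀ u ∈ L, ∀ x ∈ S, ∀ s ∈ Icc (0 : ℝ) 1, H (act u x, s) = act u (H (x, s))) (c : ℤ) :
    IsoBelow c (bmap L ptAct (fun _ => ()) id) (BS L act S E) (BS L ptAct univ E) := by
  have := h.nice
  have hP : Inv L act (S ×ˢ E) := Inv.prod hS hE
  have b0 : MapsTo (fun z : (X × Fr V) × ℝ => (z.1.1, z.2)) ((S ×ˢ E) ×ˢ Icc 0 1)
      (S ×ˢ Icc 0 1) := fun z hz => ⟨hz.1.1, hz.2⟩
  obtain ⟨K, k1, k2, k3⟩ := Frames_hty h hP (G := fun z => (H (z.1.1, z.2), z.1.2))
    ((hc.comp (Continuous.continuousOn (by fun_prop)) b0).prodMk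
      (continuous_snd.comp continuous_fst).continuousOn)
    (fun z hz => ⟨hm (b0 hz), hz.1.2⟩)
    (fun u hu p hp s hs => Prod.ext (he u hu p.1 hp.1 s hs) rfl)
  have i1 : (1 : ℝ) ∈ Icc (0 : ℝ) 1 := right_mem_Icc.2 zero_le_one
  have i0 : (0 : ℝ) ∈ Icc (0 : ℝ) 1 := left_mem_Icc.2 zero_le_one
  have hpt := isAct_pt h.grp
  have hP' : Inv L ptAct ((univ : Set Unit) ×ˢ E) := Inv.prod (fun _ _ _ _ => mem_univ _) hE
  have hF : EqvOn L ptAct L act ((univ : Set Unit) ×ˢ E) fun p => (x₀, p.2) :=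
    fun u hu p _ => ⟨u, hu, Prod.ext (hfix u hu).symm rfl⟩
  have hm' : MapsTo (bmap L ptAct (fun _ => ()) id : Bor L act → Bor L ptAct)
      (BI L act (S ×ˢ E)) (BS L ptAct univ E) := h.mapsTo_toPt Subset.rfl fun p hp => hp.2
  rw [BS_eq] at hm'
  rw [BS_eq, BS_eq]
  refine isoBelow_of_section c (h.lc_BI hP (hl.prod hlE))
    (s := bmp L act fun p : Unit × Fr V => (x₀, p.2))
    (h.continuous_toPt Subset.rfl).continuousOn hm'
    (hpt.continuousOn_bmp hP' hF (Continuous.continuousOn (by fun_prop)))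
    (hpt.mapsTo_bmp hF fun p hp => ⟨hx, hp.2⟩) ?_ k1 k2 ?_ ?_
  · rintro _ ⟨p, hp, rfl⟩
    rw [hpt.bmp_bmk hF hp, h.toPt_bmk Subset.rfl]
  · rintro _ ⟨p, hp, rfl⟩
    rw [k3 p hp 0 i0]
    simp only [(h0 p.1 hp.1).1]
  · rintro _ ⟨p, hp, rfl⟩
    rw [k3 p hp 1 i1, h.toPt_bmk Subset.rfl, hpt.bmp_bmk hF ⟨mem_univ _, hp.2⟩]
    simp only [(h0 p.1 hp.1).2]

/-- The `k`-th column as a vector of Euclidean space. -/
def Frames_col (n : ℕ) (e : Fr V) (k : V) : EuclideanSpace ℂ (Fin n) :=
  WithLp.toLp 2 fun j => e j k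

/-- Frames that are orthonormal on the columns in `S`. -/
def Frames_PO (lab : V → Λ) (n : ℕ) (S : Set V) (e : Fr V) : Prop :=
  (∀ k ∈ S, ∀ j, n ≤ j → e j k = 0) ∧ ∀ k ∈ S, ∀ l ∈ S, lab k = lab l →
    inner ℂ (Frames_col n e k) (Frames_col n e l) = if k = l then 1 else 0

/-- The vectors orthogonal to the columns in `S` that lie in the block of `k`. -/
def Frames_W (lab : V → Λ) (n : ℕ) (S : Set V) (e : Fr V) (k : V) :
    Submodule ℂ (EuclideanSpace ℂ (Fin n)) :=
  (Submodule.span ℂ (Frames_col n e '' {l | l ∈ S ∧ lab k = lab l}))ᗮ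

/-- Replace the `k`-th column. -/
def Frames_set (n : ℕ) (e : Fr V) (k : V) (v : EuclideanSpace ℂ (Fin n)) : Fr V :=
  fun j l => if l = k then (if h : j < n then v ⟨j, h⟩ else 0) else e j l

omit [Fintype V] [DecidableEq V] in
theorem Frames_inner (n : ℕ) (e : Fr V) (k l : V) :
    inner ℂ (Frames_col n e k) (Frames_col n e l) =
      ∑ j ∈ Finset.range n, star (e j k) * e j l := by
  rw [Finset.sum_range fun j => star (e j k) * e j l]
  simp only [Frames_col, EuclideanSpace.inner_toLp_toLp, dotProduct, Pi.star_apply]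
  exact Finset.sum_congr rfl fun j _ => mul_comm _ _

omit [Fintype V] in
theorem Frames_PO_of_St {lab : V → Λ} {n : ℕ} (S : Set V) {e : Fr V} (he : e ∈ St lab n) :
    Frames_PO lab n S e :=
  ⟨fun k _ j hj => congrFun (he.1 j hj) k, fun k _ l _ h => by rw [Frames_inner, he.2 k l h]⟩

omit [Fintype V] [DecidableEq V] in
theorem Frames_mem_W {lab : V → Λ} {n : ℕ} {S : Set V} {e : Fr V} {k : V}
    {v : EuclideanSpace ℂ (Fin n)} : v ∈ Frames_W lab n S e k ↔
      ∀ l ∈ S, lab k = lab l → inner ℂ (Frames_col n e l) v = 0 := by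
  rw [Frames_W, Submodule.mem_orthogonal]
  refine ⟨fun h l hl hkl => h _ (Submodule.subset_span ⟨l, ⟨hl, hkl⟩, rfl⟩), fun h u hu => ?_⟩
  induction hu using Submodule.span_induction with
  | mem x hx =>
    obtain ⟨l, hl, rfl⟩ := hx
    exact h l hl.1 hl.2
  | zero => exact inner_zero_left _
  | add x y _ _ hx hy => rw [inner_add_left, hx, hy, add_zero]
  | smul a x _ hx => rw [inner_smul_left, hx, mul_zero]

theorem Frames_finrank_W (lab : V → Λ) (n : ℕ) {S : Set V} (e : Fr V) {k : V} (hk : k ∉ S) :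
    n + 1 ≤ Module.finrank ℂ (Frames_W lab n S e k) + Fintype.card V := by
  classical
  have h1 := (Submodule.span ℂ
    (Frames_col n e '' {l | l ∈ S ∧ lab k = lab l})).finrank_add_finrank_orthogonal
  rw [finrank_euclideanSpace_fin] at h1
  have h2 : Submodule.span ℂ (Frames_col n e '' {l | l ∈ S ∧ lab k = lab l}) ≤
      Submodule.span ℂ (((Finset.univ.erase k).image (Frames_col n e) : Finset _) : Set _) := by
    refine Submodule.span_mono ?_
    rintro _ ⟨l, hl, rfl⟩
    refine Finset.mem_coe.2 (Finset.mem_image_of_mem _ (Finset.mem_erase.2 ⟨?_, Finset.mem_univ _⟩))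
    rintro rfl
    exact hk hl.1
  have h3 := Submodule.finrank_mono h2
  have h4 := finrank_span_finset_le_card (R := ℂ) ((Finset.univ.erase k).image (Frames_col n e))
  have h5 := Finset.card_image_le (s := Finset.univ.erase k) (f := Frames_col n e)
  have h6 := Finset.card_erase_add_one (Finset.mem_univ k)
  rw [Finset.card_univ] at h6
  unfold Set.finrank at h4
  unfold Frames_W
  omega

omit [Fintype V] in
theorem Frames_col_set (n : ℕ) (e : Fr V) (k : V) (v : EuclideanSpace ℂ (Fin n)) :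
    Frames_col n (Frames_set n e k v) k = v := by
  ext j
  simp [Frames_col, Frames_set]

omit [Fintype V] in
theorem Frames_set_ne (n : ℕ) (e : Fr V) {k l : V} (h : l ≠ k) (v : EuclideanSpace ℂ (Fin n))
    (j : ℕ) : Frames_set n e k v j l = e j l := if_neg h

omit [Fintype V] [DecidableEq V] in
theorem Frames_col_congr (n : ℕ) {e e' : Fr V} {l : V} (h : ∀ j, e j l = e' j l) :
    Frames_col n e l = Frames_col n e' l := by
  simp only [Frames_col, h]

omit [Fintype V] in
theorem Frames_PO_set {lab : V → Λ} {n : ℕ} {S S' : Set V} {e : Fr V} (he : Frames_PO lab n S e)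
    {k : V} (hS : ∀ l ∈ S', l ≠ k → l ∈ S) {v : EuclideanSpace ℂ (Fin n)}
    (hv : v ∈ Frames_W lab n S e k) (h1 : ‖v‖ = 1) :
    Frames_PO lab n S' (Frames_set n e k v) := by
  have hc : ∀ l, l ≠ k → Frames_col n (Frames_set n e k v) l = Frames_col n e l :=
    fun l hl => Frames_col_congr n (Frames_set_ne n e hl v)
  refine ⟨fun l hl j hj => ?_, fun a ha b hb hab => ?_⟩
  · by_cases h : l = k
    · simp only [Frames_set, if_pos h, dif_neg (not_lt.2 hj)]
    · rw [Frames_set_ne n e h, he.1 l (hS l hl h) j hj]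
  · by_cases h : a = k <;> by_cases h' : b = k
    · rw [h, h', Frames_col_set, inner_self_eq_norm_sq_to_K, h1, if_pos rfl]
      simp
    · rw [if_neg (fun q : a = b => h' (q.symm.trans h)), h, Frames_col_set, hc b h', inner_eq_zero_symm]
      exact Frames_mem_W.1 hv b (hS b hb h') (h ▸ hab)
    · rw [if_neg (fun q : a = b => h (q.trans h')), h', Frames_col_set, hc a h]
      exact Frames_mem_W.1 hv a (hS a ha h) (h' ▸ hab.symm)
    · rw [hc a h, hc b h']
      exact he.2 a (hS a ha h) b (hS b hb h') hab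

theorem Frames_complete (lab : V → Λ) {n : ℕ} (hn : Fintype.card V ≤ n) (T : Finset V) :
    ∀ e₁ : Fr V, Frames_PO lab n {k | k ∉ T} e₁ →
      ∃ e₀ ∈ St lab n, ∀ k ∉ T, ∀ j, e₀ j k = e₁ j k := by
  induction T using Finset.induction_on with
  | empty =>
    refine fun e₁ h => ⟨e₁, ⟨fun j hj => funext fun k => h.1 k (Finset.notMem_empty k) j hj,
      fun k l hkl => ?_⟩, fun _ _ _ => rfl⟩
    rw [← Frames_inner]
    exact h.2 k (Finset.notMem_empty k) l (Finset.notMem_empty l) hkl
  | insert k T _ ih =>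
    intro e₁ h
    have h1 := Frames_finrank_W lab n (S := {l | l ∉ insert k T}) e₁ (k := k)
      fun h' => h' (Finset.mem_insert_self k T)
    have : Nontrivial (Frames_W lab n {l | l ∉ insert k T} e₁ k) :=
      Module.finrank_pos_iff.1 (show 0 < Module.finrank ℂ _ by omega)
    obtain ⟨v, hv⟩ := exists_norm_eq (Frames_W lab n {l | l ∉ insert k T} e₁ k) zero_le_one
    obtain ⟨e₀, a1, a2⟩ := ih _ (Frames_PO_set h (S' := {l | l ∉ T})
      (fun l hl hlk h' => (Finset.mem_insert.1 h').elim hlk hl) v.2 hv)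
    refine ⟨e₀, a1, fun l hl j => ?_⟩
    rw [a2 l (fun h' => hl (Finset.mem_insert_of_mem h')) j, Frames_set_ne]
    rintro rfl
    exact hl (Finset.mem_insert_self l T)

theorem Frames_compact_C (lab : V → Λ) (n : ℕ) (T : Finset V) (e₀ : Fr V) :
    IsCompact {e | e ∈ St lab n ∧ ∀ k ∉ T, ∀ j, e j k = e₀ j k} := by
  refine (isCompact_St lab n).inter_right (t := {e : Fr V | ∀ k ∉ T, ∀ j, e j k = e₀ j k}) ?_
  simp only [Set.ofPred_forall]
  exact isClosed_iInter fun k => isClosed_iInter fun _ => isClosed_iInter fun j =>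
    isClosed_eq (by fun_prop) continuous_const

theorem Frames_acyc (lab : V → Λ) {n : ℕ} (hn : Fintype.card V ≤ n) (T : Finset V) :
    ∀ e₀ ∈ St lab n, AcycBelow (rng V n) {e | e ∈ St lab n ∧ ∀ k ∉ T, ∀ j, e j k = e₀ j k} := by
  induction T using Finset.induction_on with
  | empty =>
    intro e₀ he
    have : {e | e ∈ St lab n ∧ ∀ k ∉ (∅ : Finset V), ∀ j, e j k = e₀ j k} = {e₀} := by
      ext e
      refine ⟨fun h => funext fun j => funext fun k => h.2 k (Finset.notMem_empty k) j, ?_⟩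
      rintro rfl
      exact ⟨he, fun _ _ _ => rfl⟩
    rw [this]
    exact acycBelow_point _ _
  | insert k T hk ih =>
    intro e₀ he
    have hne : ∀ l ∉ insert k T, l ≠ k := by
      rintro l hl rfl
      exact hl (Finset.mem_insert_self l T)
    have h1 := Frames_finrank_W lab n (S := {l | l ∉ insert k T}) e₀ (k := k)
      fun h' => h' (Finset.mem_insert_self k T)
    set W := Frames_W lab n {l | l ∉ insert k T} e₀ k with hW
    have : Nice W := Nice.normed W
    have h2 : Module.finrank ℝ W = 2 * Module.finrank ℂ W := finrank_real_of_complex W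
    have h3 : AcycBelow (rng V n) (Metric.sphere (0 : W) 1) := by
      refine ((acycBelow_sphere (F := W)).resolve_right (by omega)).mono ?_
      unfold rng
      omega
    have hmem : ∀ e ∈ St lab n, (∀ l ∉ insert k T, ∀ j, e j l = e₀ j l) →
        Frames_col n e k ∈ W := fun e h h' => Frames_mem_W.2 fun l hl hkl => by
      rw [← Frames_col_congr n (h' l hl), Frames_inner, h.2 l k hkl.symm, if_neg (hne l hl)]
    have hpr : ∀ v ∈ W, (W.orthogonalProjectionOnto v : EuclideanSpace ℂ (Fin n)) = v :=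
      fun v hv => congrArg Subtype.val (W.orthogonalProjectionOnto_mem_subspace_eq_self ⟨v, hv⟩)
    have hcont : Continuous fun e : Fr V => W.orthogonalProjectionOnto (Frames_col n e k) := by
      refine W.orthogonalProjectionOnto.continuous.comp ?_
      unfold Frames_col
      fun_prop
    refine AcycBelow.of_fibres (LC.of_isCompact (isCompact_sphere _ _))
      (LC.of_isCompact (Frames_compact_C lab n _ e₀))
      (ProperOn.of_isCompact (Frames_compact_C lab n _ e₀) hcont.continuousOn fun e h => ?_)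
      (fun y hy => ?_) h3
    · rw [mem_sphere_zero_iff_norm, Submodule.coe_norm, hpr _ (hmem e h.1 h.2)]
      have h4 := h.1.2 k k rfl
      rw [← Frames_inner, if_pos rfl, inner_self_eq_norm_sq_to_K] at h4
      have h5 : ‖Frames_col n e k‖ ^ 2 = 1 := by
        have h6 := congrArg norm h4
        rwa [norm_pow, RCLike.norm_ofReal, abs_norm, norm_one] at h6
      exact (pow_eq_one_iff_of_nonneg (norm_nonneg _) two_ne_zero).1 h5
    · obtain ⟨e₃, a1, a2⟩ := Frames_complete lab hn T _
        (Frames_PO_set (Frames_PO_of_St {l | l ∉ insert k T} he) (S' := {l | l ∉ T})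
          (fun l hl hlk h' => (Finset.mem_insert.1 h').elim hlk hl) y.2
          (mem_sphere_zero_iff_norm.1 hy))
      convert ih e₃ a1 using 1
      ext e
      constructor
      · rintro ⟨⟨b1, b2⟩, b3⟩
        refine ⟨b1, fun l hl j => ?_⟩
        rw [a2 l hl j]
        by_cases hlk : l = k
        · have b4 : Frames_col n e k = y := by
            rw [← hpr _ (hmem e b1 b2)]
            exact congrArg Subtype.val b3
          rw [hlk, ← b4]
          by_cases hj : j < n
          · simp only [Frames_set, if_true, dif_pos hj, Frames_col]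
          · simp only [Frames_set, if_true, dif_neg hj]
            exact congrFun (b1.1 j (not_lt.1 hj)) k
        · rw [Frames_set_ne n e₀ hlk]
          exact b2 l (fun h' => (Finset.mem_insert.1 h').elim hlk hl) j
      · rintro ⟨b1, b2⟩
        refine ⟨⟨b1, fun l hl j => ?_⟩, Subtype.ext ?_⟩
        · have hl' : l ∉ T := fun h' => hl (Finset.mem_insert_of_mem h')
          rw [b2 l hl' j, a2 l hl' j, Frames_set_ne n e₀ (hne l hl)]
        · have b4 : Frames_col n e k = y := by
            rw [Frames_col_congr n (b2 k hk), Frames_col_congr n (a2 k hk), Frames_col_set]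
          show (W.orthogonalProjectionOnto (Frames_col n e k) : EuclideanSpace ℂ (Fin n)) = y
          rw [b4, hpr _ y.2]

/-- Stiefel completions are highly connected. -/
theorem acyc_completion (lab : V → Λ) (n : ℕ) (S : Set V) {e₀ : Fr V} (he : e₀ ∈ St lab n) :
    AcycBelow (rng V n) {e | e ∈ St lab n ∧ ∀ k ∈ S, ∀ j, e j k = e₀ j k} := by
  classical
  by_cases hn : Fintype.card V ≤ n
  · have h := Frames_acyc lab hn (Finset.univ.filter fun k => k ∉ S) e₀ he
    simpa only [Finset.mem_filter, Finset.mem_univ, true_and, not_not] using h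
  · refine ⟨⟨e₀, he, fun _ _ _ => rfl⟩, fun k hk w _ hom => ⟨0, ?_⟩⟩
    have h : w = 0 := funext fun l => hom l (by unfold rng at hk; omega)
    rw [h, zero_smul, sub_zero]
    exact zero_mem _

/-- Partial orthonormal frames extend. -/
theorem exists_completion (lab : V → Λ) {n : ℕ} (hn : Fintype.card V ≤ n) (S : Set V) {e₁ : Fr V}
    (h0 : ∀ k ∈ S, ∀ j, n ≤ j → e₁ j k = 0)
    (h1 : ∀ k ∈ S, ∀ l ∈ S, lab k = lab l →
      ∑ j ∈ Finset.range n, star (e₁ j k) * e₁ j l = if k = l then 1 else 0) :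
    ∃ e₀ ∈ St lab n, ∀ k ∈ S, ∀ j, e₀ j k = e₁ j k := by
  classical
  have e : {k | k ∉ Finset.univ.filter fun k => k ∉ S} = S := by
    ext k
    simp
  obtain ⟨e₀, a1, a2⟩ := Frames_complete lab hn (Finset.univ.filter fun k => k ∉ S) e₁ (by
    rw [e]
    exact ⟨h0, fun k hk l hl hkl => by rw [Frames_inner, h1 k hk l hl hkl]⟩)
  exact ⟨e₀, a1, fun k hk => a2 k (by simpa using hk)⟩

end Pool.Agent.HK
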