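import Pool.Agent.P.MP_1206ce_ag.BO.Frames
import Pool.Agent.P.MP_1206ce_ag.AS.Comm
import Pool.Agent.P.MP_1206ce_ag.Alg.Sym

/-! First Chern cocycles, polynomial cocycles and Thom cocycles of lines. -/

open scoped Topology
open Filter Set

noncomputable section

namespace Pool.Agent.HK

variable {V V' Λ X : Type} [Fintype V] [DecidableEq V] [Fintype V'] [DecidableEq V']
variable [TopologicalSpace X]

/-- Products of projective spaces. -/
abbrev Y0 (V : Type) [Fintype V] [DecidableEq V] (n : ℕ) : Set (BT V) :=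
  BS (TT V) ptAct univ (Inj (id : V → V) n)

/-! ### Polar form -/

/-- `z` is a positive multiple of `exp (i θ)`. -/
def Line_Pol (z : ℂ) (θ : ℝ) : Prop := ∃ r : ℝ, 0 < r ∧ z = r * Complex.exp (θ * Complex.I)

theorem Line_Pol.of_ne {z : ℂ} (h : z ≠ 0) : Line_Pol z (Complex.arg z) :=
  ⟨‖z‖, norm_pos_iff.2 h, (Complex.norm_mul_exp_arg_mul_I z).symm⟩

theorem Line_Pol.ne {z : ℂ} {θ : ℝ} (h : Line_Pol z θ) : z ≠ 0 := by
  obtain ⟨r, hr, rfl⟩ := h
  exact mul_ne_zero (Complex.ofReal_ne_zero.2 hr.ne') (Complex.exp_ne_zero _)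

theorem Line_Pol.one : Line_Pol 1 0 := ⟨1, one_pos, by simp⟩

theorem Line_Pol.mul {z w : ℂ} {θ φ : ℝ} (h : Line_Pol z θ) (h' : Line_Pol w φ) :
    Line_Pol (z * w) (θ + φ) := by
  obtain ⟨r, hr, rfl⟩ := h
  obtain ⟨s, hs, rfl⟩ := h'
  refine ⟨r * s, mul_pos hr hs, ?_⟩
  push_cast
  rw [add_mul, Complex.exp_add]
  ring

theorem Line_Pol.star {z : ℂ} {θ : ℝ} (h : Line_Pol z θ) : Line_Pol (star z) (-θ) := by
  obtain ⟨r, hr, rfl⟩ := h
  refine ⟨r, hr, ?_⟩
  change (starRingEnd ℂ) _ = _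
  rw [map_mul, Complex.conj_ofReal, ← Complex.exp_conj, map_mul, Complex.conj_ofReal,
    Complex.conj_I]
  push_cast
  ring_nf

theorem Line_Pol.zpow {z : ℂ} {θ : ℝ} (h : Line_Pol z θ) (m : ℤ) : Line_Pol (z ^ m) (m * θ) := by
  obtain ⟨r, hr, rfl⟩ := h
  refine ⟨r ^ m, zpow_pos hr m, ?_⟩
  push_cast
  rw [mul_zpow, mul_assoc (m : ℂ), Complex.exp_int_mul]

theorem Line_Pol.prod {ι : Type} (s : Finset ι) {z : ι → ℂ} {θ : ι → ℝ}
    (h : ∀ i, Line_Pol (z i) (θ i)) : Line_Pol (∏ i ∈ s, z i) (∑ i ∈ s, θ i) := by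
  classical
  induction s using Finset.induction_on with
  | empty => simpa using Line_Pol.one
  | insert a s ha ih =>
    rw [Finset.prod_insert ha, Finset.sum_insert ha]
    exact (h a).mul ih

theorem Line_Pol.arg {z : ℂ} {θ : ℝ} (h : Line_Pol z θ) (hθ : |θ| < Real.pi) :
    Complex.arg z = θ := by
  obtain ⟨r, hr, rfl⟩ := h
  rw [Complex.exp_mul_I]
  exact Complex.arg_mul_cos_add_sin_mul_I hr ⟨(abs_lt.1 hθ).1, (abs_lt.1 hθ).2.le⟩

theorem Line_Pol.arg_mul {z : ℂ} (h : Line_Pol z 0) (w : ℂ) :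
    Complex.arg (z * w) = Complex.arg w := by
  obtain ⟨r, hr, rfl⟩ := h
  simpa using Complex.arg_real_mul w hr

theorem Line_Pol.star_mul_self {z : ℂ} (h : z ≠ 0) : Line_Pol (Star.star z * z) 0 := by
  simpa using (Line_Pol.of_ne h).star.mul (Line_Pol.of_ne h)

/-- Nonzero with argument smaller than `ε`. -/
def Line_Sm (ε : ℝ) (z : ℂ) : Prop := z ≠ 0 ∧ |Complex.arg z| < ε

theorem Line_small {Z : Type} [TopologicalSpace Z] {f : Z → ℂ} {z : Z} (hf : Continuous f)
    (h0 : Line_Pol (f z) 0) {ε : ℝ} (hε : 0 < ε) : ∀ᶠ x in 𝓝 z, Line_Sm ε (f x) := by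
  have h1 : f z ∈ Complex.slitPlane := by
    obtain ⟨r, hr, e⟩ := h0
    rw [e]
    simpa using hr
  have h2 : Complex.arg (f z) = 0 := h0.arg (by simpa using Real.pi_pos)
  have h3 : ContinuousAt (fun x => |Complex.arg (f x)|) z :=
    ((Complex.continuousAt_arg h1).comp hf.continuousAt).abs
  exact (hf.continuousAt.eventually_ne h0.ne).and
    (h3.eventually_lt continuousAt_const (by simpa [h2] using hε))

theorem Line_arg3 {ε : ℝ} (hε : 3 * ε ≤ Real.pi) {x y z : ℂ} (hx : Line_Sm ε x) (hy : Line_Sm ε y)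
    (hz : Line_Sm ε z) :
    Complex.arg (x * y * star z) = Complex.arg x + Complex.arg y - Complex.arg z := by
  refine (((Line_Pol.of_ne hx.1).mul (.of_ne hy.1)).mul (Line_Pol.of_ne hz.1).star).arg ?_
  have h1 := abs_lt.1 hx.2
  have h2 := abs_lt.1 hy.2
  have h3 := abs_lt.1 hz.2
  rw [abs_lt]
  constructor <;> linarith

theorem Line_nhds_pair {Z : Type} [TopologicalSpace Z] {z : Z} {r : Z × Z → Prop}
    (h : ∀ᶠ x in 𝓝 (z, z), r x) : ∃ W ∈ 𝓝 z, ∀ a ∈ W, ∀ b ∈ W, r (a, b) := by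
  rw [nhds_prod_eq] at h
  exact (eventually_prod_self_iff (r := fun a b => r (a, b))).1 h

/-! ### Cochains on short lists -/

theorem Line_dd3 {Y : Type} (c : Coch Y) (x y z : Y) :
    dd c [x, y, z] = c [y, z] - c [x, z] + c [x, y] := by
  simp [dd, Finset.sum_range_succ]
  ring

theorem Line_dd4 {Y : Type} (c : Coch Y) (x y z w : Y) :
    dd c [x, y, z, w] = c [y, z, w] - c [x, z, w] + c [x, y, w] - c [x, y, z] := by
  simp [dd, Finset.sum_range_succ]
  ring

theorem Line_homC_sum {Y ι : Type} (s : Finset ι) {k : ℤ} {a : ι → Coch Y}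
    (h : ∀ i ∈ s, HomC k (a i)) : HomC k (∑ i ∈ s, a i) := fun l hl => by
  rw [Finset.sum_apply]
  exact Finset.sum_eq_zero fun i hi => h i hi l hl

theorem Line_homC_sub {Y : Type} {k : ℤ} {a b : Coch Y} (ha : HomC k a) (hb : HomC k b) :
    HomC k (a - b) := fun l hl => by
  rw [Pi.sub_apply, ha l hl, hb l hl, sub_zero]

theorem Line_dd_BB {Y : Type} [TopologicalSpace Y] (A : Set Y) {e : Coch Y} (he : Bdd e) :
    dd e ∈ BB ⊥ A := mem_BB.2 ⟨e, mem_CC_bot.2 he, by rw [sub_self]; exact zero_mem _⟩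

theorem Line_dd_ZZ {Y : Type} [TopologicalSpace Y] (A : Set Y) {e : Coch Y} (he : Bdd e) :
    dd e ∈ ZZ ⊥ A := mem_ZZ.2 ⟨mem_CC_bot.2 he.dd, by rw [dd_dd]; exact zero_mem _⟩

theorem Line_cupL_perm {Y : Type} [TopologicalSpace Y] {A : Set Y} {L L' : List (Coch Y)}
    (hp : L.Perm L') (hL : ∀ w ∈ L, w ∈ ZZ ⊥ A ∧ HomC 2 w) : cupL L - cupL L' ∈ BB ⊥ A := by
  obtain ⟨e, h1, -, h2⟩ := cupL_perm hp fun w hw => ⟨(hL w hw).1, 2, (hL w hw).2, even_two⟩
  exact mem_BB.2 ⟨e, mem_CC_bot.2 h1, h2⟩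

theorem Line_trans {M : Type} [AddCommGroup M] [Module ℂ M] {S : Submodule ℂ M} {a b c : M}
    (h : a - b ∈ S) (h' : b - c ∈ S) : a - c ∈ S := by
  simpa using add_mem h h'

theorem Line_symm {M : Type} [AddCommGroup M] [Module ℂ M] {S : Submodule ℂ M} {a b : M}
    (h : a - b ∈ S) : b - a ∈ S := by
  simpa using neg_mem h

/-- Local vanishing can be tested on representatives. -/
theorem Line_local {L : Set (Matrix V V ℂ)} {act : Matrix V V ℂ → X → X} (h : IsAct L act)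
    {P : Set (X × Fr V)} (hP : Inv L act P) {p₀ : X × Fr V} (h₀ : p₀ ∈ P) {W : Set (X × Fr V)}
    (hW : W ∈ 𝓝 p₀) {c : Coch (Bor L act)}
    (hc : ∀ l : List (X × Fr V), (∀ p ∈ l, p ∈ P ∧ p ∈ W) → c (l.map (bmk L act)) = 0) :
    bmk L act p₀ ∉ supp (BI L act P) c := by
  refine (not_mem_supp (mem_image_of_mem (bmk L act) h₀)).2 ⟨_, h.isOpenMap_bmk.image_mem_nhds hW, fun l hl => ?_⟩
  have : ∃ l' : List (X × Fr V), (∀ p ∈ l', p ∈ P ∧ p ∈ W) ∧ l'.map (bmk L act) = l := by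
    induction l with
    | nil => exact ⟨[], by simp, rfl⟩
    | cons a l ih =>
      obtain ⟨l', h1, h2⟩ := ih fun z hz => hl z (List.mem_cons_of_mem _ hz)
      obtain ⟨h3, p, h4, rfl⟩ := hl a List.mem_cons_self
      refine ⟨p :: l', fun q hq => ?_, by rw [List.map_cons, h2]⟩
      rcases List.mem_cons.1 hq with rfl | hq
      · exact ⟨(h.mem_BI hP).1 h3, h4⟩
      · exact h1 q hq
  obtain ⟨l', h1, rfl⟩ := this
  exact hc l' h1

/-! ### The torus action on frames -/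

theorem Line_norm_diag {u : Matrix V V ℂ} (hu : u ∈ TT V) (k : V) : ‖u k k‖ = 1 := by
  rw [← chr_single k u]
  exact norm_chr _ hu

theorem Line_mul_star {z : ℂ} (h : ‖z‖ = 1) : z * star z = 1 := by
  change z * (starRingEnd ℂ) z = 1
  rw [Complex.mul_conj', h]
  simp

theorem Line_frAct {u : Matrix V V ℂ} (hu : u ∈ TT V) (e : Fr V) (j : ℕ) (k : V) :
    frAct u e j k = e j k * star (u k k) := by
  change ∑ l, e j l * star (u k l) = _
  refine Finset.sum_eq_single k (fun l _ hl => ?_) fun h => absurd (Finset.mem_univ k) h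
  rw [hu.2 k l hl.symm, star_zero, mul_zero]

theorem Line_ipF {u v : Matrix V V ℂ} (hu : u ∈ TT V) (hv : v ∈ TT V) (e e' : Fr V) (k : V) :
    ipF (frAct u e) (frAct v e') k = (u k k * star (v k k)) * ipF e e' k := by
  rw [ipF, ipF, ← tsum_mul_left]
  refine tsum_congr fun j => ?_
  rw [Line_frAct hu, Line_frAct hv, star_mul, star_star]
  ring

theorem Line_diag_mem {d : V → ℂ} (h : ∀ k, ‖d k‖ = 1) : Matrix.diagonal d ∈ TT V := by
  refine ⟨Matrix.mem_unitaryGroup_iff.2 ?_, fun k l hkl => Matrix.diagonal_apply_ne _ hkl⟩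
  rw [Matrix.star_eq_conjTranspose, Matrix.diagonal_conjTranspose, Matrix.diagonal_mul_diagonal,
    ← Matrix.diagonal_one]
  exact congrArg _ (funext fun k => Line_mul_star (h k))

theorem Line_actPt : IsAct (TT V) (ptAct (V := V)) := isAct_pt (isGrp_KG _)

theorem Line_cw_bmk (k : V) (a b c : Unit × Fr V) :
    cw k [bmk (TT V) ptAct a, bmk (TT V) ptAct b, bmk (TT V) ptAct c] =
      argC (ipF a.2 b.2 k * ipF b.2 c.2 k * star (ipF a.2 c.2 k)) := by
  obtain ⟨u, hu, e1⟩ := Line_actPt.exists_out a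
  obtain ⟨v, hv, e2⟩ := Line_actPt.exists_out b
  obtain ⟨w, hw, e3⟩ := Line_actPt.exists_out c
  change argC (ipF (Quot.out (bmk (TT V) ptAct a)).2 (Quot.out (bmk (TT V) ptAct b)).2 k *
    ipF (Quot.out (bmk (TT V) ptAct b)).2 (Quot.out (bmk (TT V) ptAct c)).2 k *
    star (ipF (Quot.out (bmk (TT V) ptAct a)).2 (Quot.out (bmk (TT V) ptAct c)).2 k)) = _
  rw [e1, e2, e3]
  congr 1
  change ipF (frAct u a.2) (frAct v b.2) k * ipF (frAct v b.2) (frAct w c.2) k *
    star (ipF (frAct u a.2) (frAct w c.2) k) = _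
  rw [Line_ipF hu hv, Line_ipF hv hw, Line_ipF hu hw, star_mul, star_mul, star_star]
  have h1 := Line_mul_star (Line_norm_diag hu k)
  have h2 := Line_mul_star (Line_norm_diag hv k)
  have h3 := Line_mul_star (Line_norm_diag hw k)
  calc _ = (u k k * star (u k k)) * (v k k * star (v k k)) * (w k k * star (w k k)) *
        (ipF a.2 b.2 k * ipF b.2 c.2 k * star (ipF a.2 c.2 k)) := by ring
    _ = _ := by rw [h1, h2, h3]; ring

theorem Line_ip_self {n : ℕ} {e : Fr V} (he : e ∈ Inj (id : V → V) n) (k : V) :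
    Line_Pol (∑ j ∈ Finset.range n, star (e j k) * e j k) 0 := by
  obtain ⟨h1, h2⟩ := mem_Inj_id.1 he
  obtain ⟨j, hj⟩ := h2 k
  refine ⟨∑ j ∈ Finset.range n, ‖e j k‖ ^ 2, Finset.sum_pos' (fun _ _ => by positivity)
    ⟨j, Finset.mem_range.2 (not_le.1 fun h => hj (congrFun (h1 j h) k)), by positivity⟩, ?_⟩
  push_cast
  rw [zero_mul, Complex.exp_zero, mul_one]
  exact Finset.sum_congr rfl fun j _ => Complex.conj_mul' _

theorem Line_ev_ip {Z : Type} [TopologicalSpace Z] {n : ℕ} {p₀ : Z × Fr V}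
    (he : p₀.2 ∈ Inj (id : V → V) n) {ε : ℝ} (hε : 0 < ε) :
    ∀ᶠ x : (Z × Fr V) × Z × Fr V in 𝓝 (p₀, p₀), x.1.2 ∈ Inj (id : V → V) n →
      ∀ k, Line_Sm ε (ipF x.1.2 x.2.2 k) := by
  have : ∀ᶠ x : (Z × Fr V) × Z × Fr V in 𝓝 (p₀, p₀), ∀ k,
      Line_Sm ε (∑ j ∈ Finset.range n, star (x.1.2 j k) * x.2.2 j k) :=
    eventually_all.2 fun k => Line_small (z := (p₀, p₀))
      (f := fun x : (Z × Fr V) × Z × Fr V => ∑ j ∈ Finset.range n, star (x.1.2 j k) * x.2.2 j k)
      (by fun_prop) (Line_ip_self he k) hε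
  refine this.mono fun x hx h k => ?_
  rw [ipF_eq (Inj_subset_FrN _ n h)]
  exact hx k

theorem Line_inv {L : Set (Matrix V V ℂ)} {act : Matrix V V ℂ → X → X} (hL : L ⊆ TT V) (n : ℕ) :
    Inv L act (univ ×ˢ Inj (id : V → V) n) :=
  Inv.prod (fun _ _ _ _ => trivial) (invF_Inj hL n)

theorem Line_polyC_monomial (m : V →₀ ℕ) (c : ℂ) :
    polyC (MvPolynomial.monomial m c) = c • cupL (m.toMultiset.toList.map cw) := by
  have : (MvPolynomial.monomial m c : MvPolynomial V ℂ) = c • MvPolynomial.basisMonomials V ℂ m := by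
    rw [MvPolynomial.coe_basisMonomials, MvPolynomial.smul_monomial, smul_eq_mul, mul_one]
  rw [this, map_smul, polyC, Module.Basis.constr_basis]

theorem cw_homC (k : V) : HomC 2 (cw k) := fun l hl => by
  match l, hl with
  | [], _ => rfl
  | [_], _ => rfl
  | [_, _], _ => rfl
  | [_, _, _], hl => exact absurd rfl hl
  | _ :: _ :: _ :: _ :: _, _ => rfl

theorem cw_mem_ZZ (k : V) (n : ℕ) : cw k ∈ ZZ ⊥ (Y0 V n) := by
  refine mem_ZZ.2 ⟨mem_CC_bot.2 ((cw_homC k).bdd (by norm_num)), mem_N0.2 ?_⟩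
  rw [Y0, BS_eq, eq_empty_iff_forall_notMem]
  intro y hy
  obtain ⟨p₀, h₀, rfl⟩ := supp_subset _ _ hy
  have hε : 0 < Real.pi / 3 := by positivity
  obtain ⟨W, hW, hs⟩ := Line_nhds_pair (Line_ev_ip h₀.2 hε)
  refine Line_local Line_actPt (Line_inv subset_rfl n) h₀ hW (fun l hl => ?_) hy
  by_cases h4 : l.length = 4
  · obtain ⟨a, b, c, d, rfl⟩ := List.length_eq_four.1 h4
    have ha := hl a (by simp)
    have hb := hl b (by simp)
    have hc := hl c (by simp)
    have hd := hl d (by simp)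
    have h3 : 3 * (Real.pi / 3) ≤ Real.pi := by linarith
    have hab := hs a ha.2 b hb.2 ha.1.2 k
    have hac := hs a ha.2 c hc.2 ha.1.2 k
    have had := hs a ha.2 d hd.2 ha.1.2 k
    have hbc := hs b hb.2 c hc.2 hb.1.2 k
    have hbd := hs b hb.2 d hd.2 hb.1.2 k
    have hcd := hs c hc.2 d hd.2 hc.1.2 k
    simp only [List.map_cons, List.map_nil, Line_dd4, Line_cw_bmk, argC]
    rw [Line_arg3 h3 hbc hcd hbd, Line_arg3 h3 hac hcd had, Line_arg3 h3 hab hbd had,
      Line_arg3 h3 hab hbc hac]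
    push_cast
    ring
  · exact (cw_homC k).dd _ (by rw [List.length_map]; omega)

theorem Line_polyC_mem_ZZ (p : MvPolynomial V ℂ) (n : ℕ) : polyC p ∈ ZZ ⊥ (Y0 V n) := by
  induction p using MvPolynomial.induction_on' with
  | monomial m c =>
    rw [Line_polyC_monomial]
    refine Submodule.smul_mem _ _ (cupL_mem_ZZ fun w hw => ?_)
    obtain ⟨k, -, rfl⟩ := List.mem_map.1 hw
    exact cw_mem_ZZ k n
  | add p q hp hq => rw [map_add]; exact add_mem hp hq

theorem Line_homC_monomial (m : V →₀ ℕ) (c : ℂ) :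
    HomC (2 * (m.degree : ℤ)) (polyC (MvPolynomial.monomial m c)) := by
  rw [Line_polyC_monomial]
  have h := HomC.cupL m.toMultiset.toList cw 2 fun k _ => cw_homC k
  rw [Multiset.length_toList, Finsupp.card_toMultiset] at h
  exact h.smul c

theorem polyC_bdd (p : MvPolynomial V ℂ) : Bdd (polyC p) :=
  mem_CC_bot.1 (mem_ZZ.1 (Line_polyC_mem_ZZ p 0)).1
theorem polyC_mem_ZZ (p : MvPolynomial V ℂ) (n : ℕ) : polyC p ∈ ZZ ⊥ (Y0 V n) :=
  Line_polyC_mem_ZZ p n
theorem polyC_homC {p : MvPolynomial V ℂ} {d : ℕ} (h : p.IsHomogeneous d) :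
    HomC (2 * (d : ℤ)) (polyC p) := by
  rw [p.as_sum, map_sum]
  refine Line_homC_sum _ fun m hm => ?_
  have : m.degree = d := by
    by_contra e
    exact MvPolynomial.mem_support_iff.1 hm (h.coeff_eq_zero e)
  exact this ▸ Line_homC_monomial m _
theorem Line_prC_add {Y : Type} (k : ℤ) (a b : Coch Y) : prC k (a + b) = prC k a + prC k b := by
  funext l
  simp only [prC, Pi.add_apply]
  split_ifs <;> simp
theorem prC_polyC (p : MvPolynomial V ℂ) (d : ℕ) :
    prC (2 * (d : ℤ)) (polyC p) = polyC (MvPolynomial.homogeneousComponent d p) := by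
  induction p using MvPolynomial.induction_on' with
  | monomial m c =>
    rw [MvPolynomial.homogeneousComponent_of_mem (MvPolynomial.isHomogeneous_monomial c rfl)]
    split_ifs with e
    · rw [e]; exact (Line_homC_monomial m c).prC_self
    · rw [map_zero]; exact (Line_homC_monomial m c).prC_ne (by omega)
  | add p q hp hq => rw [map_add, map_add, map_add, Line_prC_add, hp, hq]
theorem prC_polyC_odd (p : MvPolynomial V ℂ) {k : ℤ} (hk : Odd k) : prC k (polyC p) = 0 := by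
  induction p using MvPolynomial.induction_on' with
  | monomial m c =>
    obtain ⟨j, rfl⟩ := hk
    exact (Line_homC_monomial m c).prC_ne (by omega)
  | add p q hp hq => rw [map_add, Line_prC_add, hp, hq, add_zero]
theorem polyC_one : polyC (1 : MvPolynomial V ℂ) = one := by
  rw [show (1 : MvPolynomial V ℂ) = MvPolynomial.monomial 0 1 from rfl, Line_polyC_monomial,
    one_smul, Finsupp.toMultiset_zero,
    Multiset.toList_zero]
  rfl
theorem polyC_X (k : V) : polyC (MvPolynomial.X k) = cw k := by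
  rw [MvPolynomial.X, Line_polyC_monomial, one_smul, Finsupp.toMultiset_single, one_nsmul,
    Multiset.toList_singleton]
  exact cup_one rfl
theorem Line_cw_list (n : ℕ) (l : List V) :
    ∀ w ∈ l.map (cw (V := V)), w ∈ ZZ ⊥ (Y0 V n) ∧ HomC 2 w := fun w hw => by
  obtain ⟨k, -, rfl⟩ := List.mem_map.1 hw
  exact ⟨cw_mem_ZZ k n, cw_homC k⟩
theorem polyC_mul (p q : MvPolynomial V ℂ) (n : ℕ) :
    polyC (p * q) - cup (polyC p) (polyC q) ∈ BB ⊥ (Y0 V n) := by
  induction p using MvPolynomial.induction_on' with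
  | add p p' hp hp' =>
    rw [add_mul, map_add, map_add, add_cup, add_sub_add_comm]
    exact add_mem hp hp'
  | monomial m c =>
    induction q using MvPolynomial.induction_on' with
    | add q q' hq hq' =>
      rw [mul_add, map_add, map_add, cup_add, add_sub_add_comm]
      exact add_mem hq hq'
    | monomial m' c' =>
      rw [MvPolynomial.monomial_mul, Line_polyC_monomial, Line_polyC_monomial,
        Line_polyC_monomial, smul_cup, cup_smul, smul_smul, ← smul_sub, ← cupL_append,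
        ← List.map_append]
      refine Submodule.smul_mem _ _ (Line_cupL_perm (List.Perm.map _ ?_) (Line_cw_list n _))
      rw [← Multiset.coe_eq_coe, ← Multiset.coe_add, Multiset.coe_toList, Multiset.coe_toList,
        Multiset.coe_toList, map_add]
theorem polyX_pt (p : MvPolynomial V ℂ) : polyX (TT V) ptAct p = polyC p := by
  have : (bmap (TT V) ptAct (fun _ => ()) id : BT V → BT V) = id := funext fun q => bmk_out q
  rw [polyX, this, pb_id]
theorem Line_eqv_restr (ι : V' → V) : EqvOn (TT V) ptAct (TT V') ptAct univ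
    (Prod.map (fun _ => ()) (fun (e : Fr V) j k => e j (ι k))) := by
  intro u hu p _
  have hd := Line_diag_mem (d := fun k => u (ι k) (ι k)) fun k => Line_norm_diag hu (ι k)
  refine ⟨_, hd, Prod.ext rfl (funext fun j => funext fun k => ?_)⟩
  change frAct u p.2 j (ι k) = frAct _ (fun j k => p.2 j (ι k)) j k
  rw [Line_frAct hu, Line_frAct hd, Matrix.diagonal_apply_eq]
theorem Line_restr_bmk (ι : V' → V) (e : Fr V) :
    (bmap (TT V') ptAct (fun _ => ()) (fun e j k => e j (ι k)) : BT V → BT V')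
      (bmk (TT V) ptAct ((), e)) = bmk (TT V') ptAct ((), fun j k => e j (ι k)) :=
  Line_actPt.bmp_bmk (Line_eqv_restr ι) (mem_univ _)
theorem Line_pb_cw (ι : V' → V) (k : V') :
    pb (bmap (TT V') ptAct (fun _ => ()) (fun e j k => e j (ι k)) : BT V → BT V') (cw k) =
      cw (ι k) := by
  funext l
  by_cases h3 : l.length = 3
  · obtain ⟨a, b, c, rfl⟩ := List.length_eq_three.1 h3
    exact Line_cw_bmk k _ _ _
  · rw [((cw_homC k).pb _) l (by omega), cw_homC (ι k) l (by omega)]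
/-- Naturality in the set of variables. -/
theorem pb_polyC (ι : V' → V) (p : MvPolynomial V' ℂ) (n : ℕ) :
    pb (bmap (TT V') ptAct (fun _ => ()) (fun e j k => e j (ι k)) : BT V → BT V') (polyC p) -
      polyC (MvPolynomial.rename ι p) ∈ BB ⊥ (Y0 V n) := by
  induction p using MvPolynomial.induction_on' with
  | add p p' hp hp' =>
    rw [map_add, map_add, map_add, pb_add, add_sub_add_comm]
    exact add_mem hp hp'
  | monomial m c =>
    rw [MvPolynomial.rename_monomial, Line_polyC_monomial, Line_polyC_monomial, pb_smul, pb_cupL,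
      ← smul_sub, List.map_map,
      show pb (bmap (TT V') ptAct (fun _ => ()) (fun e j k => e j (ι k)) : BT V → BT V') ∘ cw =
        cw ∘ ι from funext (Line_pb_cw ι), ← List.map_map]
    refine Submodule.smul_mem _ _ (Line_cupL_perm (List.Perm.map _ ?_) (Line_cw_list n _))
    rw [← Multiset.coe_eq_coe, ← Multiset.map_coe, Multiset.coe_toList, Multiset.coe_toList,
      Finsupp.toMultiset_map]
theorem continuous_restr (ι : V' → V) :
    Continuous (bmap (TT V') ptAct (fun _ => ()) (fun e j k => e j (ι k)) : BT V → BT V') := by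
  have h := (Line_actPt (V := V)).continuousOn_bmp (P := univ) (fun _ _ _ _ => trivial)
    (Line_eqv_restr ι) (Continuous.continuousOn (by fun_prop))
  have h1 : BI (TT V) (ptAct (V := V)) univ = univ :=
    eq_univ_of_forall fun q => ⟨_, trivial, bmk_out q⟩
  rw [h1] at h
  exact continuousOn_univ.1 h
theorem restr_bmk (ι : V' → V) (e : Fr V) :
    (bmap (TT V') ptAct (fun _ => ()) (fun e j k => e j (ι k)) : BT V → BT V')
      (bmk (TT V) ptAct ((), e)) = bmk (TT V') ptAct ((), fun j k => e j (ι k)) :=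
  Line_restr_bmk ι e

section sub
variable {L : Set (Matrix V V ℂ)} {act : Matrix V V ℂ → X → X}

theorem polyX_mem_ZZ (h : IsAct L act) (hL : L ⊆ TT V) {P : Set (X × Fr V)} {n : ℕ}
    (hn : ∀ p ∈ P, p.2 ∈ Inj (id : V → V) n) (p : MvPolynomial V ℂ) :
    polyX L act p ∈ ZZ ⊥ (BI L act P) :=
  pb_mem_ZZ (h.continuous_toPt hL).continuousOn (h.mapsTo_toPt hL hn) (polyC_mem_ZZ p n)
theorem polyX_mul (h : IsAct L act) (hL : L ⊆ TT V) {P : Set (X × Fr V)} {n : ℕ}
    (hn : ∀ p ∈ P, p.2 ∈ Inj (id : V → V) n) (p q : MvPolynomial V ℂ) :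
    polyX L act (p * q) - cup (polyX L act p) (polyX L act q) ∈ BB ⊥ (BI L act P) := by
  rw [polyX, polyX, polyX, ← pb_cup, ← pb_sub]
  exact pb_mem_BB (h.continuous_toPt hL).continuousOn (h.mapsTo_toPt hL hn) (polyC_mul p q n)
theorem polyX_homC {p : MvPolynomial V ℂ} {d : ℕ} (h : p.IsHomogeneous d) :
    HomC (2 * (d : ℤ)) (polyX L act p) := (polyC_homC h).pb _
theorem polyX_add (p q : MvPolynomial V ℂ) :
    polyX L act (p + q) = polyX L act p + polyX L act q := by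
  rw [polyX, map_add, pb_add]; rfl
theorem polyX_smul (z : ℂ) (p : MvPolynomial V ℂ) : polyX L act (z • p) = z • polyX L act p := by
  rw [polyX, map_smul, pb_smul]; rfl
theorem polyX_one : polyX L act 1 = one := by rw [polyX, polyC_one, pb_one]
theorem Line_pb_polyX {X' : Type} {L' : Set (Matrix V V ℂ)} {act' : Matrix V V ℂ → X' → X'}
    (h : IsAct L act) (hL : L ⊆ TT V) (G : X' × Fr V → X) (p : MvPolynomial V ℂ) :
    pb (bmp L act (fun p => (G p, p.2)) : Bor L' act' → Bor L act) (polyX L act p) =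
      polyX L' act' p := by
  rw [polyX, pb_pb, polyX]
  congr 1
  funext q
  exact h.toPt_bmk hL _
/-- Pull-back along a map that keeps the frame. -/
theorem pb_polyX {X' : Type} [TopologicalSpace X'] {L' : Set (Matrix V V ℂ)}
    {act' : Matrix V V ℂ → X' → X'} (h : IsAct L act) (hL : L ⊆ TT V) (f : X' → X)
    (p : MvPolynomial V ℂ) :
    pb (bmap L act f id : Bor L' act' → Bor L act) (polyX L act p) = polyX L' act' p :=
  Line_pb_polyX h hL (fun p => f p.1) p

theorem Line_polyX_linF (h : IsAct L act) (hL : L ⊆ TT V) (χ : V → ℤ) (a b c : X × Fr V) :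
    polyX L act (linF χ) [bmk L act a, bmk L act b, bmk L act c] =
      ∑ k, (χ k : ℂ) * argC (ipF a.2 b.2 k * ipF b.2 c.2 k * star (ipF a.2 c.2 k)) := by
  rw [polyX, pb, List.map_cons, List.map_cons, List.map_cons, List.map_nil, h.toPt_bmk hL,
    h.toPt_bmk hL, h.toPt_bmk hL, linF, map_sum, Finset.sum_apply]
  refine Finset.sum_congr rfl fun k _ => ?_
  rw [MvPolynomial.C_mul', map_smul, polyC_X, Pi.smul_apply, Line_cw_bmk, smul_eq_mul]

end sub

theorem Line_phs_homC (χ : V → ℤ) : HomC 1 (phs χ) := fun l hl => by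
  match l, hl with
  | [], _ => rfl
  | [_], _ => rfl
  | [_, _], hl => exact absurd rfl hl
  | _ :: _ :: _ :: _, _ => rfl

theorem Line_phs_bmk (χ : V → ℤ) (a b : ℂ × Fr V) :
    phs χ [bmk (TT V) (act1 χ) a, bmk (TT V) (act1 χ) b] =
      argC ((∏ k, ipF a.2 b.2 k ^ χ k) * (star a.1 * b.1)) := by
  obtain ⟨u, hu, e1⟩ := (isAct_act1 χ).exists_out a
  obtain ⟨v, hv, e2⟩ := (isAct_act1 χ).exists_out b
  change argC ((∏ k, ipF (Quot.out (bmk (TT V) (act1 χ) a)).2
    (Quot.out (bmk (TT V) (act1 χ) b)).2 k ^ χ k) *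
    (star (Quot.out (bmk (TT V) (act1 χ) a)).1 * (Quot.out (bmk (TT V) (act1 χ) b)).1)) = _
  rw [e1, e2]
  congr 1
  change (∏ k, ipF (frAct u a.2) (frAct v b.2) k ^ χ k) *
    (star (chr χ u * a.1) * (chr χ v * b.1)) = _
  have h0 : ∏ k, ipF (frAct u a.2) (frAct v b.2) k ^ χ k =
      chr χ u * star (chr χ v) * ∏ k, ipF a.2 b.2 k ^ χ k := by
    rw [chr, chr, star_prod, ← Finset.prod_mul_distrib, ← Finset.prod_mul_distrib]
    refine Finset.prod_congr rfl fun k _ => ?_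
    rw [Line_ipF hu hv, mul_zpow, mul_zpow, star_zpow₀]
  have h1 := Line_mul_star (norm_chr χ hu)
  have h2 := Line_mul_star (norm_chr χ hv)
  rw [h0, star_mul]
  calc _ = (chr χ u * star (chr χ u)) * (chr χ v * star (chr χ v)) *
        ((∏ k, ipF a.2 b.2 k ^ χ k) * (star a.1 * b.1)) := by ring
    _ = _ := by rw [h1, h2]; ring

theorem Line_norm_out (χ : V → ℤ) (a : ℂ × Fr V) :
    ‖(Quot.out (bmk (TT V) (act1 χ) a)).1‖ = ‖a.1‖ := by
  obtain ⟨u, hu, e1⟩ := (isAct_act1 χ).exists_out a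
  rw [e1]
  change ‖chr χ u * a.1‖ = _
  rw [norm_mul, norm_chr χ hu, one_mul]

theorem Line_ext0_two {Y : Type} {U : Set Y} (c : Coch Y) {x y : Y} (hx : x ∈ U) (hy : y ∈ U) :
    ext0 U c [x, y] = c [x, y] := if_pos (by simp [hx, hy])

theorem Line_bdd_phs (χ : V → ℤ) (U : Set (Bor (TT V) (act1 χ))) : Bdd (ext0 U (phs χ)) :=
  ((Line_phs_homC χ).bdd (by norm_num)).ext0 U

theorem tauL_homC (χ : V → ℤ) : HomC 2 (tauL χ) :=
  Line_homC_sub (polyX_homC (linF_isHomogeneous χ)) ((Line_phs_homC χ).ext0 _).dd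
theorem tauL_mem_ZZ (χ : V → ℤ) (n : ℕ) :
    tauL χ ∈ ZZ ⊥ (BS (TT V) (act1 χ) univ (Inj (id : V → V) n)) := by
  rw [BS_eq]
  exact sub_mem (polyX_mem_ZZ (isAct_act1 χ) subset_rfl (fun _ hp => hp.2) _)
    (Line_dd_ZZ _ (Line_bdd_phs χ _))
theorem Line_arg_phs (χ : V → ℤ) {ε : ℝ} (hε : (∑ k, |(χ k : ℝ)| + 1) * ε ≤ Real.pi) {x : V → ℂ}
    {z : ℂ} (hx : ∀ k, Line_Sm ε (x k)) (hz : Line_Sm ε z) :
    Complex.arg ((∏ k, x k ^ χ k) * z) = ∑ k, χ k * Complex.arg (x k) + Complex.arg z := by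
  refine ((Line_Pol.prod _ fun k => (Line_Pol.of_ne (hx k).1).zpow (χ k)).mul
    (Line_Pol.of_ne hz.1)).arg ?_
  have h1 : |∑ k, χ k * Complex.arg (x k)| ≤ (∑ k, |(χ k : ℝ)|) * ε := by
    rw [Finset.sum_mul]
    refine (Finset.abs_sum_le_sum_abs _ _).trans (Finset.sum_le_sum fun k _ => ?_)
    rw [abs_mul]
    exact mul_le_mul_of_nonneg_left (hx k).2.le (abs_nonneg _)
  have h2 := abs_add_le (∑ k, χ k * Complex.arg (x k)) (Complex.arg z)
  have h3 := hz.2
  linarith
theorem supp_tauL (χ : V → ℤ) (n : ℕ) :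
    supp (BS (TT V) (act1 χ) univ (Inj (id : V → V) n)) (tauL χ) ⊆
      BS (TT V) (act1 χ) {z | ‖z‖ ≤ 1} (Inj (id : V → V) n) := by
  rw [BS_eq, BS_eq]
  intro y hy
  obtain ⟨p₀, h₀, rfl⟩ := supp_subset _ _ hy
  by_contra hn
  have h1 : 1 < ‖p₀.1‖ := not_le.1 fun h => hn ⟨p₀, ⟨h, h₀.2⟩, rfl⟩
  have hS : 0 ≤ ∑ k, |(χ k : ℝ)| := Finset.sum_nonneg fun _ _ => abs_nonneg _
  obtain ⟨ε, hε, hε1⟩ : ∃ ε : ℝ, 0 < ε ∧ (∑ k, |(χ k : ℝ)| + 3) * ε = Real.pi :=
    ⟨Real.pi / (∑ k, |(χ k : ℝ)| + 3), by positivity, mul_div_cancel₀ _ (by positivity)⟩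
  have h3 : 3 * ε ≤ Real.pi := by nlinarith [mul_nonneg hS hε.le]
  have h4 : (∑ k, |(χ k : ℝ)| + 1) * ε ≤ Real.pi := by nlinarith
  have hev1 : ∀ᶠ x : (ℂ × Fr V) × ℂ × Fr V in 𝓝 (p₀, p₀), Line_Sm ε (star x.1.1 * x.2.1) :=
    Line_small (z := (p₀, p₀)) (f := fun x : (ℂ × Fr V) × ℂ × Fr V => star x.1.1 * x.2.1)
      (by fun_prop) (Line_Pol.star_mul_self (norm_pos_iff.1 (lt_trans one_pos h1))) hε
  have hev2 : ∀ᶠ x : (ℂ × Fr V) × ℂ × Fr V in 𝓝 (p₀, p₀), 1 < ‖x.1.1‖ :=
    ContinuousAt.eventually_lt continuousAt_const (by fun_prop) h1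
  obtain ⟨W, hW, hs⟩ := Line_nhds_pair (((Line_ev_ip h₀.2 hε).and hev1).and hev2)
  refine Line_local (isAct_act1 χ) (Line_inv subset_rfl n) h₀ hW (fun l hl => ?_) hy
  by_cases h5 : l.length = 3
  · obtain ⟨a, b, c, rfl⟩ := List.length_eq_three.1 h5
    have ha := hl a (by simp)
    have hb := hl b (by simp)
    have hc := hl c (by simp)
    have hab := (hs a ha.2 b hb.2).1
    have hac := (hs a ha.2 c hc.2).1
    have hbc := (hs b hb.2 c hc.2).1
    have ho : ∀ p ∈ W, bmk (TT V) (act1 χ) p ∈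
        {q : Bor (TT V) (act1 χ) | 1 < ‖(Quot.out q).1‖} := fun p hp => by
      rw [mem_ofPred_eq, Line_norm_out]
      exact (hs p hp p hp).2
    have h0 : ∀ p ∈ W, p.1 ≠ 0 := fun p hp =>
      norm_pos_iff.1 (lt_trans one_pos (hs p hp p hp).2)
    have hz : Complex.arg (star a.1 * b.1) + Complex.arg (star b.1 * c.1) -
        Complex.arg (star a.1 * c.1) = 0 := by
      rw [← Line_arg3 h3 hab.2 hbc.2 hac.2]
      have := ((Line_Pol.star_mul_self (h0 a ha.2)).mul (.star_mul_self (h0 b hb.2))).mul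
        (.star_mul_self (h0 c hc.2))
      rw [add_zero, add_zero] at this
      convert this.arg (by simpa using Real.pi_pos) using 2
      rw [star_mul, star_star]
      ring
    have hk : ∀ k, Complex.arg (ipF a.2 b.2 k * ipF b.2 c.2 k * star (ipF a.2 c.2 k)) = _ :=
      fun k => Line_arg3 h3 (hab.1 ha.1.2 k) (hbc.1 hb.1.2 k) (hac.1 ha.1.2 k)
    rw [List.map_cons, List.map_cons, List.map_cons, List.map_nil, tauL, Pi.sub_apply,
      Line_polyX_linF (isAct_act1 χ) subset_rfl, Line_dd3,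
      Line_ext0_two _ (ho b hb.2) (ho c hc.2), Line_ext0_two _ (ho a ha.2) (ho c hc.2),
      Line_ext0_two _ (ho a ha.2) (ho b hb.2), Line_phs_bmk, Line_phs_bmk, Line_phs_bmk]
    simp only [argC, hk]
    rw [Line_arg_phs χ h4 (hbc.1 hb.1.2) hbc.2, Line_arg_phs χ h4 (hac.1 ha.1.2) hac.2,
      Line_arg_phs χ h4 (hab.1 ha.1.2) hab.2]
    have hz' := congrArg (fun t : ℝ => (t : ℂ)) hz
    push_cast at hz' ⊢
    simp only [← mul_div_assoc, ← Finset.sum_div, mul_sub, mul_add, Finset.sum_sub_distrib,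
      Finset.sum_add_distrib]
    linear_combination (-1 / (2 * (Real.pi : ℂ))) * hz'
  · exact tauL_homC χ _ (by rw [List.length_map]; omega)
theorem tauL_sub (χ : V → ℤ) (A : Set (Bor (TT V) (act1 χ))) :
    tauL χ - polyX (TT V) (act1 χ) (linF χ) ∈ BB ⊥ A := by
  rw [tauL, sub_sub_cancel_left]
  exact neg_mem (Line_dd_BB A (Line_bdd_phs χ _))
theorem tauL_fibre (χ : V → ℤ) {n : ℕ} {e : Fr V} (he : e ∈ Inj (id : V → V) n) :
    pb (fun z => bmk (TT V) (act1 χ) (z, e)) (tauL χ) = genC1 := by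
  have hp : ∀ k, Line_Pol (ipF e e k) 0 := fun k => by
    rw [ipF_eq (Inj_subset_FrN _ n he)]
    exact Line_ip_self he k
  have h1 : pb (fun z => bmk (TT V) (act1 χ) (z, e)) (polyX (TT V) (act1 χ) (linF χ)) = 0 := by
    funext l
    by_cases h3 : l.length = 3
    · obtain ⟨a, b, c, rfl⟩ := List.length_eq_three.1 h3
      refine (Line_polyX_linF (isAct_act1 χ) subset_rfl χ _ _ _).trans
        (Finset.sum_eq_zero fun k _ => ?_)
      have := (((hp k).mul (hp k)).mul (hp k).star).arg (by simpa using Real.pi_pos)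
      simp only [argC]
      rw [this]
      simp
    · exact ((polyX_homC (linF_isHomogeneous χ)).pb _) l (by omega)
  rw [tauL, pb_sub, h1, zero_sub, pb_dd, genC1]
  congr 2
  funext l
  simp only [pb, ext0, List.forall_mem_map, mem_ofPred_eq, Line_norm_out]
  congr 1
  match l with
  | [] => rfl
  | [_] => rfl
  | [a, b] =>
    refine (Line_phs_bmk χ _ _).trans ?_
    have := Line_Pol.prod Finset.univ fun k => (hp k).zpow (χ k)
    simp only [mul_zero, Finset.sum_const_zero] at this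
    simp only [argC]
    rw [this.arg_mul]
  | _ :: _ :: _ :: _ => rfl

theorem Line_polyX_list {ι : Type} {L : Set (Matrix V V ℂ)} {act : Matrix V V ℂ → X → X}
    (h : IsAct L act) (hL : L ⊆ TT V) {P : Set (X × Fr V)} {n : ℕ}
    (hn : ∀ p ∈ P, p.2 ∈ Inj (id : V → V) n) {f : ι → MvPolynomial V ℂ}
    {t : ι → Coch (Bor L act)} (ht : ∀ i, t i ∈ ZZ ⊥ (BI L act P))
    (hf : ∀ i, polyX L act (f i) - t i ∈ BB ⊥ (BI L act P)) (l : List ι) :
    polyX L act (l.map f).prod - cupL (l.map t) ∈ BB ⊥ (BI L act P) := by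
  induction l with
  | nil =>
    rw [List.map_nil, List.prod_nil, polyX_one]
    exact sub_self (one : Coch (Bor L act)) ▸ zero_mem _
  | cons a l ih =>
    rw [List.map_cons, List.prod_cons]
    refine Line_trans (polyX_mul h hL hn _ _) (cup_congr (polyX_mem_ZZ h hL hn _) (ht a)
      (polyX_mem_ZZ h hL hn _) (cupL_mem_ZZ fun w hw => ?_) (hf a) ih)
    obtain ⟨i, -, rfl⟩ := List.mem_map.1 hw
    exact ht i

/-- The product of the first Chern classes of lines with sections without common zero vanishes. -/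
theorem euler_vanish {ι : Type} [Fintype ι] {L : Set (Matrix V V ℂ)} {act : Matrix V V ℂ → X → X}
    (h : IsAct L act) (hL : L ⊆ TT V) {P : Set (X × Fr V)} (hP : Inv L act P) {n : ℕ}
    (hn : ∀ p ∈ P, p.2 ∈ Inj (id : V → V) n) (χ : ι → V → ℤ) (F : X × Fr V → ι → ℂ)
    (hc : ContinuousOn F P) (he : ∀ u ∈ L, ∀ p ∈ P, ∀ i, F (bact act u p) i = chr (χ i) u * F p i)
    (h0 : ∀ p ∈ P, F p ≠ 0) : polyX L act (∏ i, linF (χ i)) ∈ BB ⊥ (BI L act P) := by
  have hnorm : ∀ u ∈ L, ∀ p ∈ P, ‖F (bact act u p)‖ = ‖F p‖ := fun u hu p hp => by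
    have : ∀ i, ‖F (bact act u p) i‖ = ‖F p i‖ := fun i => by
      rw [he u hu p hp, norm_mul, norm_chr _ (hL hu), one_mul]
    exact le_antisymm
      ((pi_norm_le_iff_of_nonneg (norm_nonneg _)).2 fun i => this i ▸ norm_le_pi_norm _ i)
      ((pi_norm_le_iff_of_nonneg (norm_nonneg _)).2 fun i => this i ▸ norm_le_pi_norm _ i)
  let G : ι → X × Fr V → ℂ × Fr V := fun i p => ((2 / ‖F p‖ : ℝ) • F p i, p.2)
  have hG : ∀ i, EqvOn L act (TT V) (act1 (χ i)) P (G i) := fun i u hu p hp =>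
    ⟨u, hL hu, Prod.ext (by
      change (2 / ‖F (bact act u p)‖ : ℝ) • F (bact act u p) i =
        chr (χ i) u * ((2 / ‖F p‖ : ℝ) • F p i)
      rw [hnorm u hu p hp, he u hu p hp, mul_smul_comm]) rfl⟩
  have hGc : ∀ i, ContinuousOn (G i) P := fun i =>
    ((continuousOn_const.div hc.norm fun p hp => norm_ne_zero_iff.2 (h0 p hp)).smul
      ((continuous_apply i).comp_continuousOn hc)).prodMk continuousOn_snd
  have hc' := fun i => h.continuousOn_bmp hP (hG i) (hGc i)
  have hm' : ∀ i, MapsTo (bmp (TT V) (act1 (χ i)) (G i) : Bor L act → _) (BI L act P)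
      (BS (TT V) (act1 (χ i)) univ (Inj (id : V → V) n)) := fun i => by
    rw [BS_eq]
    exact h.mapsTo_bmp (hG i) fun p hp => ⟨trivial, hn p hp⟩
  have h1 := Line_polyX_list h hL hn (f := fun i => linF (χ i))
    (t := fun i => pb (bmp (TT V) (act1 (χ i)) (G i)) (tauL (χ i)))
    (fun i => pb_mem_ZZ (hc' i) (hm' i) (tauL_mem_ZZ _ n))
    (fun i => by
      have := pb_mem_BB (hc' i) (hm' i) (tauL_sub (χ i) _)
      rw [pb_sub, Line_pb_polyX (isAct_act1 (χ i)) subset_rfl] at this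
      exact Line_symm this) (Finset.univ : Finset ι).toList
  rw [Finset.prod_map_toList] at h1
  refine (Submodule.sub_mem_iff_left _ (N0_le_BB _ _ (mem_N0.2 ?_))).1 h1
  rw [eq_empty_iff_forall_notMem]
  intro y hy
  obtain ⟨p, hp, rfl⟩ := supp_subset _ _ hy
  have hpos : 0 < ‖F p‖ := norm_pos_iff.2 (h0 p hp)
  have h2 : ‖(2 / ‖F p‖ : ℝ) • F p‖ ≤ 1 := by
    refine (pi_norm_le_iff_of_nonneg zero_le_one).2 fun i => ?_
    have h3 := supp_tauL (χ i) n (supp_pb (hc' i) (hm' i) _ (Comm_supp_cupL _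
      (List.mem_map.2 ⟨i, Finset.mem_toList.2 (Finset.mem_univ i), rfl⟩) hy))
    rw [h.bmp_bmk (hG i) hp, BS_eq, (isAct_act1 (χ i)).mem_BI
      (Inv.prod (S := {z | ‖z‖ ≤ 1}) (fun u hu z (hz : ‖z‖ ≤ 1) => by
        change ‖chr (χ i) u * z‖ ≤ 1
        rwa [norm_mul, norm_chr _ hu, one_mul]) (invF_Inj subset_rfl n))] at h3
    exact h3.1
  rw [norm_smul, Real.norm_of_nonneg (by positivity), div_mul_cancel₀ _ hpos.ne'] at h2
  norm_num at h2

/-- Substituting linear forms that define the same characters of `L` does not change the class. -/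
theorem polyX_aeval {L : Set (Matrix V V ℂ)} {act : Matrix V V ℂ → X → X}
    (h : IsAct L act) (hL : L ⊆ TT V) {P : Set (X × Fr V)} (hP : Inv L act P) {n : ℕ}
    (hn : ∀ p ∈ P, p.2 ∈ Inj (id : V → V) n) (χ : V → V → ℤ)
    (hχ : ∀ u ∈ L, ∀ k, chr (χ k) u = u k k) (p : MvPolynomial V ℂ) :
    polyX L act (MvPolynomial.aeval (fun k => linF (χ k)) p) - polyX L act p ∈
      BB ⊥ (BI L act P) := by
  have hX : ∀ k, polyX L act (linF (χ k)) - polyX L act (MvPolynomial.X k) ∈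
      BB ⊥ (BI L act P) := fun k => by
    have := euler_vanish (ι := Unit) h hL hP hn (fun _ => χ k + -Pi.single k 1) (fun _ _ => 1)
      continuousOn_const (fun u hu p _ _ => by
        rw [chr_add _ _ (hL hu), chr_neg _ (hL hu), chr_single, hχ u hu,
          Line_mul_star (Line_norm_diag (hL hu) k), mul_one])
      (fun _ _ e => one_ne_zero (congrFun e ()))
    rwa [Fintype.prod_unique, linF_add, linF_neg, linF_single, polyX_add, ← neg_one_smul ℂ,
      polyX_smul, neg_one_smul, ← sub_eq_add_neg] at this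
  induction p using MvPolynomial.induction_on with
  | C a =>
    rw [MvPolynomial.aeval_C, MvPolynomial.algebraMap_eq, sub_self]
    exact zero_mem _
  | add p q hp hq =>
    rw [map_add, polyX_add, polyX_add, add_sub_add_comm]
    exact add_mem hp hq
  | mul_X p k hp =>
    rw [map_mul, MvPolynomial.aeval_X]
    exact Line_trans (Line_trans (polyX_mul h hL hn _ _)
      (cup_congr (polyX_mem_ZZ h hL hn _) (polyX_mem_ZZ h hL hn _) (polyX_mem_ZZ h hL hn _)
        (polyX_mem_ZZ h hL hn _) hp (hX k))) (Line_symm (polyX_mul h hL hn _ _))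

end Pool.Agent.HK
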