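import Pool.Agent.P.MP_1206ce_ag.BO.Slice
import Pool.Agent.P.MP_1206ce_ag.BO.Line
import Pool.Agent.P.MP_1206ce_ag.AS.Dual

/-! The fundamental class of a product of punctured spaces modulo the torus. -/

open scoped Topology
open Filter Set

noncomputable section

namespace Pool.Agent.HK

/-- The real dimension of `Y0 V n`. -/
def D0 (V : Type) [Fintype V] (n : ℕ) : ℤ := 2 * n * Fintype.card V - Fintype.card V

section general
variable {Y : Type} [TopologicalSpace Y] [Nice Y]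

/-- Vanishing for a finite union of closed subsets. -/
theorem Phi0_van_union {ι : Type} {d : ℤ} {A : Set Y} (hA : LC A) (Z : ι → Set Y)
    (hZ : ∀ i, ClosedIn (Z i) A) (hv : ∀ i U, OpenIn U (Z i) → Chart_Van d U) (s : Finset ι) :
    ClosedIn (⋃ i ∈ s, Z i) A ∧ Chart_Van d (⋃ i ∈ s, Z i) := by
  classical
  induction s using Finset.induction_on with
  | empty =>
    have e : (⋃ i ∈ (∅ : Finset ι), Z i) = ∅ := by simp
    rw [e]
    exact ⟨⟨∅, isClosed_empty, by simp⟩, Chart_van_empty d⟩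
  | insert a s _ ih =>
    rw [Finset.set_biUnion_insert]
    obtain ⟨⟨F, hF, e⟩, h2⟩ := ih
    obtain ⟨F', hF', e'⟩ := hZ a
    have hB : ClosedIn (Z a ∪ ⋃ i ∈ s, Z i) A :=
      ⟨F' ∪ F, hF'.union hF, by rw [e, e', inter_union_distrib_left]⟩
    refine ⟨hB, fun k hk x => ?_⟩
    have hR : ClosedIn (⋃ i ∈ s, Z i) (Z a ∪ ⋃ i ∈ s, Z i) :=
      ClosedIn.of_subset ⟨F, hF, e⟩ subset_union_right hB.subset
    have hU : OpenIn ((Z a ∪ ⋃ i ∈ s, Z i) \ ⋃ i ∈ s, Z i) (Z a) := by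
      refine ⟨Fᶜ, hF.isOpen_compl, ?_⟩
      rw [e, e']
      ext z
      simp only [Set.mem_sdiff, mem_union, mem_inter_iff, mem_compl_iff]
      tauto
    rw [prH_eq_zero_total (k := k) (hA.closedIn hB) hR rfl (LinearMap.ext (hv a _ hU k hk))
      (LinearMap.ext (h2 k hk)), LinearMap.zero_apply]

/-- A space covered by convex charts whose complements have codimension two has a fundamental
class. -/
theorem Phi0_of_charts {A : Set Y} (hA : LC A) {d : ℤ}
    (h : ∀ y ∈ A, ∃ (D : ℕ) (O : Set Y), OpenIn O A ∧ y ∈ O ∧ ConvChart D O ∧ (D : ℤ) = d ∧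
      Chart_Van (d - 2) (A \ O)) : ∃ φ : EE A, EDeg A d φ ∧ LN A φ := by
  rcases A.eq_empty_or_nonempty with rfl | ⟨y₀, hy₀⟩
  · exact ⟨0, EDeg.zero _ _, fun O hO ⟨y, hy⟩ => (hO.subset hy).elim⟩
  obtain ⟨D₀, O₀, hO₀, hy, hc₀, hD₀, hv₀⟩ := h y₀ hy₀
  obtain ⟨w, hw, hw1, hw2, -⟩ := hc₀.exists_gen ⟨y₀, hy⟩
  obtain ⟨ψ, hψ⟩ : ∃ ψ : EE O₀, ψ (clc O₀ w) ≠ 0 := by
    by_contra hn
    push Not at hn
    exact hw2 ((Module.forall_dual_apply_eq_zero_iff ℂ _).mp hn)
  obtain ⟨φ, hφ, hφ'⟩ := E_surj_of_inj hA hO₀.diff (sdiff_sdiff_cancel_left hO₀.subset).symm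
    (j := d) (fun χ hχ _ => hχ.eq_zero (LinearMap.ext (hv₀ _ (by omega)))) _
    (EDeg.comp_prH O₀ d ψ)
  have hne : φ ≠ 0 := by
    rintro rfl
    have h1 := LinearMap.congr_fun hφ' (clc O₀ w)
    rw [LinearMap.zero_comp, LinearMap.zero_apply, LinearMap.comp_apply, prH_cls d hw1, ← hD₀,
      hw.prC_self] at h1
    exact hψ h1.symm
  refine ⟨φ, hφ, ln_of_charts fun y hy => ?_⟩
  obtain ⟨D, O, hO, hyO, hc, -, hv⟩ := h y hy
  refine ⟨D, O, hO, hyO, hc, fun h0 => hne ?_⟩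
  obtain ⟨χ, hχ, e⟩ := E_exact_mid hA hO.diff (sdiff_sdiff_cancel_left hO.subset).symm hφ h0
  rw [e, hχ.eq_zero (LinearMap.ext (hv _ (by omega))), LinearMap.zero_comp]

end general

section charts
variable {V : Type} [Fintype V] [DecidableEq V]

theorem Phi0_act : IsAct (TT V) (ptAct (V := V)) := isAct_pt (isGrp_KG id)

theorem Phi0_frAct {u : Matrix V V ℂ} (hu : u ∈ TT V) (e : Fr V) (j : ℕ) (k : V) :
    frAct u e j k = e j k * star (u k k) := by
  change ∑ l, e j l * (star u) l k = _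
  rw [Finset.sum_eq_single k (fun l _ hl => ?_) (fun h => (h (Finset.mem_univ k)).elim)]
  · rfl
  · rw [Matrix.star_apply, hu.2 k l (Ne.symm hl), star_zero, mul_zero]

theorem Phi0_norm {u : Matrix V V ℂ} (hu : u ∈ TT V) (k : V) : ‖star (u k k)‖ = 1 := by
  rw [norm_star, ← chr_single k u]
  exact norm_chr _ hu

theorem Phi0_ne {u : Matrix V V ℂ} (hu : u ∈ TT V) (k : V) : star (u k k) ≠ 0 :=
  norm_ne_zero_iff.mp (by rw [Phi0_norm hu]; exact one_ne_zero)

theorem Phi0_diag {c : V → ℂ} (hc : ∀ k, ‖c k‖ = 1) : Matrix.diagonal c ∈ TT V := by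
  refine ⟨Matrix.mem_unitaryGroup_iff.mpr ?_, fun k l h => Matrix.diagonal_apply_ne c h⟩
  rw [Matrix.star_eq_conjTranspose, Matrix.diagonal_conjTranspose, Matrix.diagonal_mul_diagonal,
    ← Matrix.diagonal_one]
  congr 1
  funext k
  rw [Pi.star_apply, Complex.star_def, Complex.mul_conj', hc k]
  norm_num

/-- Frames with nonzero columns and entries in the positions `A`. -/
def Phi0_W (A : Finset (ℕ × V)) : Set (Unit × Fr V) :=
  {p | (∀ j k, (j, k) ∉ A → p.2 j k = 0) ∧ ∀ k, ∃ j, p.2 j k ≠ 0}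

/-- Those with nonzero entries in the rows `J`. -/
def Phi0_U (A : Finset (ℕ × V)) (J : V → ℕ) : Set (Unit × Fr V) :=
  {p | (∀ j k, (j, k) ∉ A → p.2 j k = 0) ∧ ∀ k, p.2 (J k) k ≠ 0}

theorem Phi0_inv_W (A : Finset (ℕ × V)) : Inv (TT V) ptAct (Phi0_W A) := by
  intro u hu p hp
  refine ⟨fun j k h => ?_, fun k => ?_⟩
  · change frAct u p.2 j k = 0
    rw [Phi0_frAct hu, hp.1 j k h, zero_mul]
  · obtain ⟨j, hj⟩ := hp.2 k
    refine ⟨j, ?_⟩
    change frAct u p.2 j k ≠ 0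
    rw [Phi0_frAct hu]
    exact mul_ne_zero hj (Phi0_ne hu k)

theorem Phi0_inv_U (A : Finset (ℕ × V)) (J : V → ℕ) : Inv (TT V) ptAct (Phi0_U A J) := by
  intro u hu p hp
  refine ⟨fun j k h => ?_, fun k => ?_⟩
  · change frAct u p.2 j k = 0
    rw [Phi0_frAct hu, hp.1 j k h, zero_mul]
  · change frAct u p.2 (J k) k ≠ 0
    rw [Phi0_frAct hu]
    exact mul_ne_zero (hp.2 k) (Phi0_ne hu k)

omit [DecidableEq V] in
theorem Phi0_open (A : Finset (ℕ × V)) (J : V → ℕ) : OpenIn (Phi0_U A J) (Phi0_W A) := by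
  refine ⟨⋂ k, {p | p.2 (J k) k ≠ 0}, isOpen_iInter_of_finite fun k =>
    isOpen_ne_fun (by fun_prop) continuous_const, ?_⟩
  ext p
  simp only [mem_inter_iff, mem_iInter, mem_ofPred_eq]
  exact ⟨fun h => ⟨⟨h.1, fun k => ⟨J k, h.2 k⟩⟩, h.2⟩, fun h => ⟨h.1.1, h.2⟩⟩

omit [Fintype V] in
theorem Phi0_closed (A : Finset (ℕ × V)) (x : ℕ × V) : ClosedIn (Phi0_W (A.erase x)) (Phi0_W A) := by
  refine ⟨{p | p.2 x.1 x.2 = 0}, isClosed_eq (by fun_prop) continuous_const, ?_⟩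
  ext p
  constructor
  · intro h
    exact ⟨⟨fun j k hn => h.1 j k fun hm => hn (Finset.mem_of_mem_erase hm), h.2⟩,
      h.1 _ _ (Finset.notMem_erase x A)⟩
  · rintro ⟨h, h'⟩
    refine ⟨fun j k hn => ?_, h.2⟩
    by_cases e : (j, k) = x
    · subst e
      exact h'
    · exact h.1 j k fun hm => hn (Finset.mem_erase.mpr ⟨e, hm⟩)

/-- Coordinates on a chart. -/
def Phi0_f (P : Finset (ℕ × V)) (J : V → ℕ) (p : Unit × Fr V) : (P → ℂ) × (V → ℝ) :=
  (fun x => p.2 x.1.1 x.1.2 / p.2 (J x.1.2) x.1.2, fun k => ‖p.2 (J k) k‖)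

/-- The frame with given coordinates. -/
def Phi0_g (P : Finset (ℕ × V)) (J : V → ℕ) (x : (P → ℂ) × (V → ℝ)) : Unit × Fr V :=
  ((), fun j k => if j = J k then (x.2 k : ℂ) else
    if h : (j, k) ∈ P then x.1 ⟨(j, k), h⟩ * x.2 k else 0)

theorem Phi0_chart {A P : Finset (ℕ × V)} {J : V → ℕ}
    (hP : ∀ j k, (j, k) ∈ P ↔ (j, k) ∈ A ∧ j ≠ J k) (hJ : ∀ k, (J k, k) ∈ A) :
    ConvChart (2 * P.card + Fintype.card V) (BI (TT V) ptAct (Phi0_U A J)) := by
  have hdesc : Desc (TT V) ptAct (Phi0_U A J) (Phi0_f P J) := by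
    intro u hu p _
    refine Prod.ext (funext fun x => ?_) (funext fun k => ?_)
    · change frAct u p.2 _ _ / frAct u p.2 _ _ = _
      rw [Phi0_frAct hu, Phi0_frAct hu, mul_div_mul_right _ _ (Phi0_ne hu _)]
      rfl
    · change ‖frAct u p.2 _ _‖ = _
      rw [Phi0_frAct hu, norm_mul, Phi0_norm hu, mul_one]
      rfl
  have hf : ContinuousOn (Phi0_f P J) (Phi0_U A J) := by
    refine ContinuousOn.prodMk (continuousOn_pi.mpr fun x => ?_) (Continuous.continuousOn ?_)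
    · exact ContinuousOn.div (by fun_prop) (by fun_prop) fun p hp => hp.2 _
    · fun_prop
  have hg : Continuous (Phi0_g P J) := by
    refine continuous_const.prodMk (continuous_pi fun j => continuous_pi fun k => ?_)
    split_ifs <;> fun_prop
  have hgJ : ∀ x k, (Phi0_g P J x).2 (J k) k = x.2 k := fun x k => if_pos rfl
  have hgP : ∀ x j k (h : (j, k) ∈ P), (Phi0_g P J x).2 j k = x.1 ⟨(j, k), h⟩ * x.2 k :=
    fun x j k h => (if_neg ((hP j k).mp h).2).trans (dif_pos h)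
  have hg0 : ∀ x j k, j ≠ J k → (j, k) ∉ P → (Phi0_g P J x).2 j k = 0 :=
    fun x j k h h' => (if_neg h).trans (dif_neg h')
  have hgm : ∀ x : (P → ℂ) × (V → ℝ), (∀ k, 0 < x.2 k) → Phi0_g P J x ∈ Phi0_U A J := by
    intro x hx
    refine ⟨fun j k h => hg0 x j k (fun e => h (e ▸ hJ k)) fun h' => h ((hP j k).mp h').1,
      fun k => ?_⟩
    rw [hgJ]
    exact Complex.ofReal_ne_zero.mpr (hx k).ne'
  have hh : HomeoOn (blift (Phi0_f P J)) (bmk (TT V) ptAct ∘ Phi0_g P J)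
      (BI (TT V) ptAct (Phi0_U A J)) {x | ∀ k, 0 < x.2 k} := by
    refine ⟨Phi0_act.continuousOn_blift (Phi0_inv_U A J) hdesc hf,
      (continuous_bmk.comp hg).continuousOn, ?_, fun x hx => ⟨_, hgm x hx, rfl⟩, ?_, ?_⟩
    · rintro _ ⟨p, hp, rfl⟩ k
      rw [Phi0_act.blift_bmk hdesc hp]
      exact norm_pos_iff.mpr (hp.2 k)
    · rintro _ ⟨p, hp, rfl⟩
      rw [Phi0_act.blift_bmk hdesc hp]
      have hu : Matrix.diagonal (fun k => star ((‖p.2 (J k) k‖ : ℂ) / p.2 (J k) k)) ∈ TT V :=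
        Phi0_diag fun k => by
          rw [norm_star, norm_div, Complex.norm_real, norm_norm,
            div_self (norm_ne_zero_iff.mpr (hp.2 k))]
      rw [← bmk_bact hu p, Function.comp_apply]
      congr 1
      refine Prod.ext rfl (funext fun j => funext fun k => ?_)
      change _ = frAct _ p.2 j k
      rw [Phi0_frAct hu, Matrix.diagonal_apply_eq, star_star]
      have h0 := hp.2 k
      by_cases e : j = J k
      · subst e
        rw [hgJ]
        change (‖p.2 (J k) k‖ : ℂ) = _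
        field_simp
      · by_cases h : (j, k) ∈ P
        · rw [hgP _ j k h]
          change p.2 j k / p.2 (J k) k * (‖p.2 (J k) k‖ : ℂ) = _
          field_simp
        · rw [hg0 _ j k e h, hp.1 j k fun h' => h ((hP j k).mpr ⟨h', e⟩), zero_mul]
    · intro x hx
      rw [Function.comp_apply, Phi0_act.blift_bmk hdesc (hgm x hx)]
      refine Prod.ext (funext fun y => ?_) (funext fun k => ?_)
      · change (Phi0_g P J x).2 y.1.1 y.1.2 / (Phi0_g P J x).2 (J y.1.2) y.1.2 = _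
        rw [hgP x _ _ y.2, hgJ, mul_div_assoc,
          div_self (Complex.ofReal_ne_zero.mpr (hx y.1.2).ne'), mul_one]
      · change ‖(Phi0_g P J x).2 (J k) k‖ = _
        rw [hgJ, Complex.norm_real, Real.norm_of_nonneg (hx k).le]
  have hC : Convex ℝ {x : (P → ℂ) × (V → ℝ) | ∀ k, 0 < x.2 k} := by
    intro x hx y hy a b ha hb hab k
    exact (convex_Ioi (0 : ℝ)) (hx k) (hy k) ha hb hab
  have ho : IsOpen {x : (P → ℂ) × (V → ℝ) | ∀ k, 0 < x.2 k} := by
    rw [Set.ofPred_forall]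
    exact isOpen_iInter_of_finite fun k => isOpen_lt continuous_const (by fun_prop)
  have hd : Module.finrank ℝ ((P → ℂ) × (V → ℝ)) = 2 * P.card + Fintype.card V := by
    rw [Module.finrank_prod, Module.finrank_pi_fintype, Module.finrank_pi_fintype]
    simp [mul_comm]
  rw [← hd]
  exact ConvChart.of_homeoOn hC ho hh

theorem Phi0_cover {A : Finset (ℕ × V)} {y : BT V} (hy : y ∈ BI (TT V) ptAct (Phi0_W A)) :
    ∃ (J : V → ℕ) (D : ℕ), (∀ k, (J k, k) ∈ A) ∧ y ∈ BI (TT V) ptAct (Phi0_U A J) ∧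
      D + Fintype.card V = 2 * A.card ∧ ConvChart D (BI (TT V) ptAct (Phi0_U A J)) := by
  obtain ⟨p, hp, rfl⟩ := hy
  choose J hJ using hp.2
  have hA : ∀ k, (J k, k) ∈ A := fun k => by
    by_contra h
    exact hJ k (hp.1 _ _ h)
  have hsub : Finset.univ.image (fun k => (J k, k)) ⊆ A := by
    intro x hx
    obtain ⟨k, -, rfl⟩ := Finset.mem_image.mp hx
    exact hA k
  have hcard : (Finset.univ.image fun k => (J k, k)).card = Fintype.card V :=
    Finset.card_image_of_injective _ fun k l h => congrArg Prod.snd h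
  refine ⟨J, _, hA, ⟨p, ⟨hp.1, hJ⟩, rfl⟩, ?_,
    Phi0_chart (P := A \ Finset.univ.image fun k => (J k, k)) (fun j k => ?_) hA⟩
  · have := Finset.card_sdiff_add_card_eq_card hsub
    omega
  · simp only [Finset.mem_sdiff, Finset.mem_image, Finset.mem_univ, true_and, Prod.mk.injEq]
    refine and_congr_right fun _ => not_congr ⟨?_, fun e => ⟨k, e.symm, rfl⟩⟩
    rintro ⟨l, h1, rfl⟩
    exact h1.symm

theorem Phi0_locEuc (A : Finset (ℕ × V)) :
    LocEucLE (2 * A.card - Fintype.card V) (BI (TT V) ptAct (Phi0_W A)) := by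
  intro y hy
  obtain ⟨J, D, -, h1, h2, h3⟩ := Phi0_cover hy
  exact ⟨D, by omega, _, Phi0_act.openIn_BI (Phi0_inv_W A) (Phi0_open A J), h1, h3⟩

theorem Phi0_van (A : Finset (ℕ × V)) (U : Set (BT V))
    (hU : OpenIn U (BI (TT V) ptAct (Phi0_W A))) :
    Chart_Van (2 * A.card - Fintype.card V) U := by
  have := (Phi0_act (V := V)).nice
  rcases U.eq_empty_or_nonempty with rfl | ⟨y, hy⟩
  · exact Chart_van_empty _
  obtain ⟨J, D, -, -, h2, -⟩ := Phi0_cover (hU.subset hy)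
  intro k hk x
  rw [((Phi0_locEuc A).openIn hU).prH_eq_zero (by omega), LinearMap.zero_apply]

theorem Phi0_diff (A : Finset (ℕ × V)) (J : V → ℕ) :
    BI (TT V) ptAct (Phi0_W A) \ BI (TT V) ptAct (Phi0_U A J) =
      ⋃ k ∈ (Finset.univ : Finset V), BI (TT V) ptAct (Phi0_W (A.erase (J k, k))) := by
  rw [← Phi0_act.BI_diff _ (Phi0_inv_U A J)]
  ext q
  simp only [mem_iUnion, Finset.mem_univ, exists_const]
  constructor
  · rintro ⟨p, ⟨hp, hp'⟩, rfl⟩
    obtain ⟨k, hk⟩ : ∃ k, p.2 (J k) k = 0 := by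
      by_contra h
      push Not at h
      exact hp' ⟨hp.1, h⟩
    refine ⟨k, p, ⟨fun j l hn => ?_, hp.2⟩, rfl⟩
    by_cases e : (j, l) = (J k, k)
    · obtain ⟨rfl, rfl⟩ := Prod.mk.inj e
      exact hk
    · exact hp.1 j l fun hm => hn (Finset.mem_erase.mpr ⟨e, hm⟩)
  · rintro ⟨k, p, hp, rfl⟩
    exact ⟨p, ⟨(Phi0_closed A _).subset hp, fun h =>
      h.2 k (hp.1 _ _ (Finset.notMem_erase _ A))⟩, rfl⟩

theorem Phi0_exists (A : Finset (ℕ × V)) : ∃ φ : EE (BI (TT V) ptAct (Phi0_W A)),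
    EDeg _ (2 * A.card - Fintype.card V) φ ∧ LN _ φ := by
  have := (Phi0_act (V := V)).nice
  have hlc := (Phi0_locEuc A).locEuc.lc
  refine Phi0_of_charts hlc fun y hy => ?_
  obtain ⟨J, D, hJ, h1, h2, h3⟩ := Phi0_cover hy
  refine ⟨D, _, Phi0_act.openIn_BI (Phi0_inv_W A) (Phi0_open A J), h1, h3, by omega, ?_⟩
  rw [Phi0_diff]
  refine (Phi0_van_union hlc _ (fun k => Phi0_act.closedIn_BI (Phi0_inv_W A) (Phi0_closed A _))
    (fun k U hU => ?_) _).2
  have h4 := Finset.card_erase_add_one (hJ k)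
  have h5 := Phi0_van _ U hU
  exact fun i hi => h5 i (by omega)

theorem Phi0_Y0 (n : ℕ) :
    Y0 V n = BI (TT V) ptAct (Phi0_W (Finset.range n ×ˢ (Finset.univ : Finset V))) := by
  rw [Y0, BS_eq]
  congr 1
  ext p
  simp only [mem_prod, mem_univ, true_and, mem_Inj_id]
  refine and_congr_left fun _ => ⟨fun h j k hn => ?_, fun h j hj => funext fun k => ?_⟩
  · have hj : n ≤ j := by simpa using hn
    rw [h j hj]
    rfl
  · exact h j k (by simpa using hj)

end charts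

theorem exists_phi0 (V : Type) [Fintype V] [DecidableEq V] (n : ℕ) :
    ∃ φ : EE (Y0 V n), EDeg (Y0 V n) (D0 V n) φ ∧ LN (Y0 V n) φ := by
  have h := Phi0_exists (Finset.range n ×ˢ (Finset.univ : Finset V))
  have e : (2 * ((Finset.range n ×ˢ (Finset.univ : Finset V)).card : ℤ) - Fintype.card V) =
      D0 V n := by
    rw [Finset.card_product, Finset.card_range, Finset.card_univ, D0]
    push_cast
    ring
  rw [e, ← Phi0_Y0] at h
  exact h

/-- The fundamental class of `Y0 V n`. -/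
def phi0 (V : Type) [Fintype V] [DecidableEq V] (n : ℕ) : EE (Y0 V n) :=
  Classical.choose (exists_phi0 V n)

theorem phi0_spec (V : Type) [Fintype V] [DecidableEq V] (n : ℕ) :
    EDeg (Y0 V n) (D0 V n) (phi0 V n) ∧ LN (Y0 V n) (phi0 V n) :=
  Classical.choose_spec (exists_phi0 V n)

end Pool.Agent.HK
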