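import Pool.Agent.P.MP_1206ce_ag.BO.TauK
import Pool.Agent.P.MP_1206ce_ag.BO.Phi0
import Pool.Agent.P.MP_1206ce_ag.AS.PD

/-! Fundamental classes of coordinate subspaces and the ambient computation (AMB). -/

open scoped Topology
open Filter Set

noncomputable section

namespace Pool.Agent.HK

variable {V Λ Λ₀ Λ₁ X Pos : Type} [Fintype V] [DecidableEq V] [TopologicalSpace X] [Fintype Pos]
  [DecidableEq Pos]

/-- A global system of weight coordinates. -/
structure Amb (act : Matrix V V ℂ → X → X) (co : X → Pos → ℂ) (χ : Pos → V → ℤ) : Prop where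
  isAct : IsAct (TT V) act
  coord : IsCoord (TT V) act univ co χ
  homeo : ∃ g, HomeoOn co g univ univ

/-- Coordinate subspaces. -/
def LinS (co : X → Pos → ℂ) (J : Finset Pos) : Set X := {x | ∀ i, i ∉ J → co x i = 0}

open Classical in
/-- The fundamental class of a coordinate subspace, torus level. -/
def fundT (act : Matrix V V ℂ → X → X) (co : X → Pos → ℂ) (χ : Pos → V → ℤ) (lab₀ : V → Λ₀)
    (J : Finset Pos) (n : ℕ) : EE (BS (TT V) act (LinS co J) (Inj lab₀ n)) :=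
  if h : ∃ ψ : EE (BS (TT V) act (LinS co J) (Inj lab₀ n)),
      ψ ∘ₗ tw (BS (TT V) ptAct univ (Inj lab₀ n)) (BS (TT V) act (LinS co J) (Inj lab₀ n))
        (bmap (TT V) ptAct (fun _ => ()) id)
        (tauT (TT V) act (fun x (i : J) => co x i) fun i => χ i) =
      phi0 V n ∘ₗ ext (BS (TT V) ptAct univ (Inj lab₀ n)) (Y0 V n) then Classical.choose h else 0

/-- The push-forward of `p` times the fundamental class to the quotient by `L`. -/
def fcl (L : Set (Matrix V V ℂ)) (act : Matrix V V ℂ → X → X) (co : X → Pos → ℂ)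
    (χ : Pos → V → ℤ) (lab₀ : V → Λ₀) (J : Finset Pos) (p : MvPolynomial V ℂ) (n : ℕ) :
    EE (BS L act (LinS co J) (Inj lab₀ n)) :=
  fundT act co χ lab₀ J n ∘ₗ tw (BS L act (LinS co J) (Inj lab₀ n))
    (BS (TT V) act (LinS co J) (Inj lab₀ n)) (bmap L act id id) (polyX (TT V) act p)

variable {act : Matrix V V ℂ → X → X} {co : X → Pos → ℂ} {χ : Pos → V → ℤ}

theorem Fund_homeo (h : Amb act co χ) : Nonempty (X ≃ₜ (Pos → ℂ)) := by
  obtain ⟨g, h1, h2, -, -, h5, h6⟩ := h.homeo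
  exact ⟨{ toFun := co
           invFun := g
           left_inv := fun x => h5 x (mem_univ _)
           right_inv := fun y => h6 y (mem_univ _)
           continuous_toFun := continuousOn_univ.1 h1
           continuous_invFun := continuousOn_univ.1 h2 }⟩

theorem Fund_cont (h : Amb act co χ) : Continuous co := continuousOn_univ.1 h.coord.1

theorem Fund_inj (h : Amb act co χ) : Function.Injective co := by
  obtain ⟨g, -, -, -, -, h5, -⟩ := h.homeo
  intro x y hxy
  rw [← h5 x (mem_univ _), ← h5 y (mem_univ _), hxy]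

theorem Fund_wt (h : Amb act co χ) {u : Matrix V V ℂ} (hu : u ∈ TT V) (x : X) (i : Pos) :
    co (act u x) i = chr (χ i) u * co x i := h.coord.2 u hu x (mem_univ _) i

theorem Amb.nice (h : Amb act co χ) : Nice X := by
  obtain ⟨e⟩ := Fund_homeo h
  exact ⟨e.isEmbedding.metrizableSpace, e.secondCountableTopology⟩

theorem Amb.invX (h : Amb act co χ) (J : Finset Pos) : InvX (TT V) act (LinS co J) := by
  intro u hu x hx i hi
  rw [Fund_wt h hu, hx i hi, mul_zero]

theorem Amb.isClosed (h : Amb act co χ) (J : Finset Pos) : IsClosed (LinS co J) := by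
  have e : LinS co J = ⋂ i ∈ {i | i ∉ J}, {x | co x i = 0} := by
    ext x; simp [LinS]
  rw [e]
  exact isClosed_biInter fun i _ =>
    isClosed_eq ((continuous_apply i).comp (Fund_cont h)) continuous_const

theorem Amb.lc (h : Amb act co χ) (J : Finset Pos) : LC (LinS co J) := by
  obtain ⟨e⟩ := Fund_homeo h
  have : LocallyCompactSpace X := e.isClosedEmbedding.locallyCompactSpace
  exact LC.of_isClosed (h.isClosed J)

theorem Fund_chart (h : Amb act co χ) (J : Finset Pos) :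
    ∃ G, HomeoOn (fun x (i : J) => co x i) G (LinS co J) univ := by
  obtain ⟨g, h1, h2, -, -, h5, h6⟩ := h.homeo
  refine ⟨fun v => g fun i => if hi : i ∈ J then v ⟨i, hi⟩ else 0, ?_, ?_, mapsTo_univ _ _, ?_,
    ?_, ?_⟩
  · exact (continuous_pi fun i => (continuous_apply _).comp (Fund_cont h)).continuousOn
  · refine ((continuousOn_univ.1 h2).comp (continuous_pi fun i => ?_)).continuousOn
    split_ifs
    · exact continuous_apply _
    · exact continuous_const
  · intro v _ i hi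
    rw [h6 _ (mem_univ _), dif_neg hi]
  · intro x hx
    refine Fund_inj h ?_
    rw [h6 _ (mem_univ _)]
    funext i
    split_ifs with hi
    · rfl
    · exact (hx i hi).symm
  · intro v _
    funext i
    change co (g _) i = _
    rw [h6 _ (mem_univ _), dif_pos i.2]

theorem Amb.convChart (h : Amb act co χ) (J : Finset Pos) :
    ConvChart (2 * J.card) (LinS co J) := by
  obtain ⟨G, hG⟩ := Fund_chart h J
  have := ConvChart.of_homeoOn convex_univ isOpen_univ hG
  rwa [Module.finrank_pi_fintype, Finset.sum_const, Complex.finrank_real_complex,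
    Finset.card_univ, Fintype.card_coe, smul_eq_mul, mul_comm] at this

theorem LinS_mono (co : X → Pos → ℂ) {J J' : Finset Pos} (h : J' ⊆ J) : LinS co J' ⊆ LinS co J :=
  fun _ hx i hi => hx i fun hi' => hi (h hi')

theorem Fund_coord (h : Amb act co χ) {ι : Type} (j : ι → Pos) (S : Set X) :
    IsCoord (TT V) act S (fun x i => co x (j i)) fun i => χ (j i) :=
  ⟨(continuous_pi fun _ => (continuous_apply _).comp (Fund_cont h)).continuousOn,
    fun _ hu x _ i => Fund_wt h hu x (j i)⟩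

theorem Fund_homeo_pt (h : Amb act co χ) (J : Finset Pos) :
    ∃ G, HomeoOn (fun x => ((), fun i : J => co x i)) G (LinS co J) (univ ×ˢ univ) := by
  obtain ⟨G, h1, h2, -, h4, h5, h6⟩ := Fund_chart h J
  refine ⟨fun p => G p.2, continuousOn_const.prodMk h1,
    h2.comp continuous_snd.continuousOn (mapsTo_univ _ _), fun _ _ => ⟨mem_univ _, mem_univ _⟩,
    fun _ _ => h4 (mem_univ _), h5, fun p _ => Prod.ext rfl (h6 p.2 (mem_univ _))⟩

section proj
variable {J J' : Finset Pos} {f : X → X}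

theorem Fund_f_cont (h : Amb act co χ) (hf : ∀ x i, co (f x) i = if i ∈ J' then co x i else 0) :
    Continuous f := by
  obtain ⟨g, -, h2, -, -, h5, -⟩ := h.homeo
  have e : f = fun x => g fun i => if i ∈ J' then co x i else 0 := by
    funext x
    rw [← h5 (f x) (mem_univ _)]
    congr 1
    funext i
    exact hf x i
  rw [e]
  refine (continuousOn_univ.1 h2).comp (continuous_pi fun i => ?_)
  split_ifs
  · exact (continuous_apply _).comp (Fund_cont h)
  · exact continuous_const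

theorem Fund_f_eqv (h : Amb act co χ) (hf : ∀ x i, co (f x) i = if i ∈ J' then co x i else 0)
    {u : Matrix V V ℂ} (hu : u ∈ TT V) (x : X) : f (act u x) = act u (f x) := by
  refine Fund_inj h (funext fun i => ?_)
  rw [hf, Fund_wt h hu, Fund_wt h hu, hf]
  split_ifs <;> simp

theorem Fund_f_mem (hf : ∀ x i, co (f x) i = if i ∈ J' then co x i else 0) (x : X) :
    f x ∈ LinS co J' := fun i hi => by rw [hf, if_neg hi]

theorem Fund_homeo_f (h : Amb act co χ) (hJ : J' ⊆ J)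
    (hf : ∀ x i, co (f x) i = if i ∈ J' then co x i else 0) :
    ∃ G, HomeoOn (fun x => (f x, fun i : ↥(J \ J') => co x i)) G (LinS co J)
      (LinS co J' ×ˢ univ) := by
  obtain ⟨g, h1, h2, -, -, h5, h6⟩ := h.homeo
  refine ⟨fun p => g fun i => if hi : i ∈ J \ J' then p.2 ⟨i, hi⟩ else co p.1 i, ?_, ?_,
    fun x _ => ⟨Fund_f_mem hf x, mem_univ _⟩, ?_, ?_, ?_⟩
  · exact ((Fund_f_cont h hf).prodMk
      (continuous_pi fun i => (continuous_apply _).comp (Fund_cont h))).continuousOn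
  · refine ((continuousOn_univ.1 h2).comp (continuous_pi fun i => ?_)).continuousOn
    split_ifs
    · exact (continuous_apply _).comp continuous_snd
    · exact (continuous_apply _).comp ((Fund_cont h).comp continuous_fst)
  · intro p hp i hi
    rw [h6 _ (mem_univ _), dif_neg fun hi' => hi (Finset.mem_sdiff.1 hi').1]
    exact hp.1 i fun hi' => hi (hJ hi')
  · intro x hx
    refine Fund_inj h ?_
    rw [h6 _ (mem_univ _)]
    funext i
    split_ifs with hi
    · rfl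
    · change co (f x) i = _
      rw [hf]
      split_ifs with hi'
      · rfl
      · exact (hx i fun hJ => hi (Finset.mem_sdiff.2 ⟨hJ, hi'⟩)).symm
  · intro p hp
    refine Prod.ext (Fund_inj h (funext fun i => ?_)) (funext fun i => ?_)
    · change co (f _) i = _
      rw [hf, h6 _ (mem_univ _)]
      split_ifs with hi hi'
      · exact absurd hi (Finset.mem_sdiff.1 hi').2
      · rfl
      · exact (hp.1 i hi).symm
    · change co (g _) i = _
      rw [h6 _ (mem_univ _), dif_pos i.2]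

end proj

theorem Fund_cup_comm {Y Y' : Type} [TopologicalSpace Y] [TopologicalSpace Y'] {A : Set Y}
    {A' : Set Y'} {π : Y' → Y} {v w : Coch Y'} (h : TwOK A A' π w) (hv : v ∈ ZZ ⊥ A') {m : ℤ}
    (hm : HomC m w) (he : Even m) : tw A A' π (cup v w) = tw A A' π (cup w v) := by
  obtain ⟨e, h1, h2, h3⟩ := cup_comm_even hv h.2.2.1 hm he
  exact tw_congr (h.cup_left hv) (h.cup_right hv) h1
    (Tw_PropOver_mono h.2.2.2 (h2.trans inter_subset_right)) h3

theorem Fund_id_proper {Y : Type} [TopologicalSpace Y] (A : Set Y) : ProperOn id A A :=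
  (ClosedIn.refl A).properOn

theorem Fund_invE (lab₀ : V → Λ₀) (n : ℕ) : InvF (TT V) (Inj lab₀ n) :=
  invF_Inj (TT_subset lab₀) n

theorem Fund_inv (h : Amb act co χ) (lab₀ : V → Λ₀) (J : Finset Pos) (n : ℕ) :
    Inv (TT V) act (LinS co J ×ˢ Inj lab₀ n) := Inv.prod (h.invX J) (Fund_invE lab₀ n)

theorem Fund_pt : IsAct (TT V) (ptAct (V := V)) := isAct_pt (isGrp_KG _)

theorem Fund_free (lab₀ : V → Λ₀) (n : ℕ) {Z : Type} {S : Set Z} :
    ∀ p ∈ S ×ˢ Inj lab₀ n, FreeOn (TT V) {p.2} := fun p hp u hu e he =>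
  freeOn_Inj (TT_subset lab₀) n u hu e (by rw [mem_singleton_iff.1 he]; exact hp.2)

theorem Fund_thom_pt (h : Amb act co χ) (J : Finset Pos) {E : Set (Fr V)} (hE : InvF (TT V) E)
    {n : ℕ} (hn : E ⊆ Inj (id : V → V) n) :
    IsThomFor (TT V) act ptAct (LinS co J ×ˢ E) (univ ×ˢ E) (fun _ => ())
      (fun x (i : J) => co x i) (tauT (TT V) act (fun x (i : J) => co x i) fun i => χ i) := by
  obtain ⟨G, hG⟩ := Fund_homeo_pt h J
  exact isThomFor_tauT Fund_pt h.isAct subset_rfl (h.invX J) (Fund_coord h Subtype.val _)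
    (fun _ _ _ _ => mem_univ _) (fun _ _ _ _ => rfl) hG hE hn

theorem Fund_twOK_pt (h : Amb act co χ) (lab₀ : V → Λ₀) (J : Finset Pos) (n : ℕ) :
    TwOK (BS (TT V) ptAct univ (Inj lab₀ n)) (BS (TT V) act (LinS co J) (Inj lab₀ n))
      (bmap (TT V) ptAct (fun _ => ()) id)
      (tauT (TT V) act (fun x (i : J) => co x i) fun i => χ i) := by
  rw [BS_eq, BS_eq]
  exact (Fund_thom_pt h J (Fund_invE lab₀ n) (Inj_subset_id lab₀ n)).1

theorem Fund_bij_pt (h : Amb act co χ) (lab₀ : V → Λ₀) (J : Finset Pos) (n : ℕ) :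
    Function.Bijective (tw (BS (TT V) ptAct univ (Inj lab₀ n))
      (BS (TT V) act (LinS co J) (Inj lab₀ n)) (bmap (TT V) ptAct (fun _ => ()) id)
      (tauT (TT V) act (fun x (i : J) => co x i) fun i => χ i)) := by
  have := h.nice
  rw [BS_eq, BS_eq]
  exact IsThomFor.bijective Fund_pt h.isAct (Fund_inv h lab₀ J n)
    (Inv.prod (fun _ _ _ _ => mem_univ _) (Fund_invE lab₀ n)) ((h.lc J).prod (lc_Inj lab₀ n))
    (LC.univ.prod (lc_Inj lab₀ n)) (fun _ _ _ _ => rfl) continuousOn_const (Fund_free lab₀ n)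
    (Fund_thom_pt h J (Fund_invE lab₀ n) (Inj_subset_id lab₀ n))

theorem Fund_cancel {M N : Type} [AddCommGroup M] [Module ℂ M] [AddCommGroup N] [Module ℂ N]
    {L : M →ₗ[ℂ] N} (hL : Function.Surjective L) {φ ψ : N →ₗ[ℂ] ℂ} (h : φ ∘ₗ L = ψ ∘ₗ L) :
    φ = ψ := (LinearMap.cancel_right hL).1 h

theorem fundT_spec (h : Amb act co χ) (lab₀ : V → Λ₀) (J : Finset Pos) (n : ℕ) :
    fundT act co χ lab₀ J n ∘ₗ tw (BS (TT V) ptAct univ (Inj lab₀ n))
      (BS (TT V) act (LinS co J) (Inj lab₀ n)) (bmap (TT V) ptAct (fun _ => ()) id)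
      (tauT (TT V) act (fun x (i : J) => co x i) fun i => χ i) =
      phi0 V n ∘ₗ ext (BS (TT V) ptAct univ (Inj lab₀ n)) (Y0 V n) := by
  have hex := (exists_unique_comp (Fund_bij_pt h lab₀ J n)
    (phi0 V n ∘ₗ ext (BS (TT V) ptAct univ (Inj lab₀ n)) (Y0 V n))).exists
  unfold fundT
  rw [dif_pos hex]
  exact Classical.choose_spec hex

theorem Fund_open_prod {Z Z' : Type} [TopologicalSpace Z] [TopologicalSpace Z'] (S : Set Z)
    {E E' : Set Z'} (h : OpenIn E' E) : OpenIn (S ×ˢ E') (S ×ˢ E) := by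
  obtain ⟨O, hO, rfl⟩ := h
  exact ⟨univ ×ˢ O, isOpen_univ.prod hO, by rw [prod_inter_prod, inter_univ]⟩

theorem Fund_open_pt (lab₀ : V → Λ₀) (n : ℕ) :
    OpenIn (BS (TT V) ptAct univ (Inj lab₀ n)) (Y0 V n) := by
  unfold Y0
  rw [BS_eq, BS_eq]
  exact Fund_pt.openIn_BI (Inv.prod (fun _ _ _ _ => mem_univ _) (Fund_invE id n))
    (Fund_open_prod _ ((openIn_Inj lab₀ n).of_subset (Inj_subset_id lab₀ n) (Inj_subset_FrN _ n)))

theorem fundT_deg (h : Amb act co χ) (lab₀ : V → Λ₀) (J : Finset Pos) (n : ℕ) :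
    EDeg _ (D0 V n + 2 * J.card) (fundT act co χ lab₀ J n) := by
  have : Nice (BT V) := Fund_pt.nice
  have h1 := EDeg.ext (Fund_open_pt lab₀ n) (phi0_spec V n).1
  rw [← fundT_spec h lab₀ J n] at h1
  have h2 := EDeg.of_tw (Fund_twOK_pt h lab₀ J n) (tauT_homC _ _) (Fund_bij_pt h lab₀ J n).2 h1
  rwa [Fintype.card_coe] at h2

/-- Small invariant open sets of frames over which the quotient is a convex chart. -/
theorem Fund_slice (h : Amb act co χ) (lab₀ : V → Λ₀) (J : Finset Pos) (n : ℕ) {e₀ : Fr V}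
    (he : e₀ ∈ Inj lab₀ n) : ∃ (D : ℕ) (O : Set (Fr V)), OpenIn O (Inj lab₀ n) ∧ e₀ ∈ O ∧
      InvF (TT V) O ∧ ConvChart D (BI (TT V) act (LinS co J ×ˢ O)) := by
  obtain ⟨D, O, γ, -, h0, hs⟩ := exists_slice (id : V → V) ∅ n (Inj_subset_id lab₀ n he)
  rw [KF_empty] at hs
  have hg : IsGrp (TT V) := isGrp_KG _
  have hr : ∀ e ∈ O, frAct (star (γ e)) e ∈ O ∧ γ (frAct (star (γ e)) e) = 1 := fun e he =>
    ⟨hs.inv _ (hg.star _ (hs.maps he)) e he, by
      rw [hs.eqv _ (hg.star _ (hs.maps he)) e he, hg.star_mul (hs.maps he)]⟩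
  have ho : OpenIn ({e | e ∈ O ∧ γ e = 1} ∩ Inj lab₀ n) {e | e ∈ O ∧ γ e = 1} := by
    obtain ⟨U, hU, hU'⟩ := openIn_Inj lab₀ n
    refine ⟨U, hU, ?_⟩
    rw [hU']
    ext e
    exact ⟨fun he => ⟨he.1, he.2.2⟩, fun he => ⟨he.1, hs.op.subset he.1.1, he.2⟩⟩
  obtain ⟨O'', h1, h2, h3, h4, -⟩ := hs.chart.exists_small ho
    (y := frAct (star (γ e₀)) e₀)
    ⟨hr e₀ h0, Fund_invE lab₀ n _ (hg.star _ (hs.maps h0)) e₀ he⟩
  have hc : ContinuousOn (fun e => frAct (star (γ e)) e) O :=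
    continuous_frAct.comp_continuousOn (hs.cont.star.prodMk continuousOn_id)
  have ho1 : OpenIn (O ∩ (fun e => frAct (star (γ e)) e) ⁻¹' O'') O :=
    h1.preimage hc hr
  have hsub : O ∩ (fun e => frAct (star (γ e)) e) ⁻¹' O'' ⊆ Inj lab₀ n := by
    intro e he
    have := Fund_invE lab₀ n _ (hs.maps he.1) _ (h3 he.2).2
    rwa [← frAct_mul, hg.mul_star (hs.maps he.1), frAct_one] at this
  have hinv : InvF (TT V) (O ∩ (fun e => frAct (star (γ e)) e) ⁻¹' O'') := by
    intro u hu e he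
    refine ⟨hs.inv u hu e he.1, ?_⟩
    change frAct (star (γ (frAct u e))) (frAct u e) ∈ O''
    rw [hs.eqv u hu e he.1, star_mul, ← frAct_mul, mul_assoc, hg.star_mul hu, mul_one]
    exact he.2
  refine ⟨2 * J.card + D, _, (ho1.trans hs.op).of_subset hsub (Inj_subset_FrN _ n), ⟨h0, h2⟩,
    hinv, ?_⟩
  have hh := hs.homeoOn h.isAct (Inv.prod (h.invX J) hinv) fun p hp => hp.2.1
  have e : {p : X × Fr V | p ∈ LinS co J ×ˢ (O ∩ (fun e => frAct (star (γ e)) e) ⁻¹' O'') ∧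
      γ p.2 = 1} = LinS co J ×ˢ O'' := by
    ext p
    constructor
    · rintro ⟨⟨a1, -, a3⟩, a4⟩
      refine ⟨a1, ?_⟩
      have a5 : frAct (star (γ p.2)) p.2 ∈ O'' := a3
      rwa [a4, star_one, frAct_one] at a5
    · rintro ⟨a1, a2⟩
      have a3 := (h3 a2).1
      refine ⟨⟨a1, a3.1, ?_⟩, a3.2⟩
      change frAct (star (γ p.2)) p.2 ∈ O''
      rwa [a3.2, star_one, frAct_one]
  rw [e] at hh
  exact ((h.convChart J).prod h4).of_homeoOn' hh.symm

theorem fundT_ln (h : Amb act co χ) (lab₀ : V → Λ₀) (J : Finset Pos) (n : ℕ) :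
    LN _ (fundT act co χ lab₀ J n) := by
  have : Nice (BT V) := Fund_pt.nice
  have := h.nice
  have : Nice (Bor (TT V) act) := h.isAct.nice
  have h1 := LN.ext (Fund_open_pt lab₀ n) (phi0_spec V n).2
  rw [← fundT_spec h lab₀ J n] at h1
  apply ln_of_charts
  rintro y ⟨x, hx, e, he, rfl⟩
  obtain ⟨D, O, o1, o2, o3, o4⟩ := Fund_slice h lab₀ J n he
  have a1 : OpenIn (BI (TT V) act (LinS co J ×ˢ O)) (BS (TT V) act (LinS co J) (Inj lab₀ n)) := by
    rw [BS_eq]
    exact h.isAct.openIn_BI (Fund_inv h lab₀ J n) (Fund_open_prod _ o1)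
  have a2 : OpenIn (BI (TT V) ptAct (univ ×ˢ O)) (BS (TT V) ptAct univ (Inj lab₀ n)) := by
    rw [BS_eq]
    exact Fund_pt.openIn_BI (Inv.prod (fun _ _ _ _ => mem_univ _) (Fund_invE lab₀ n))
      (Fund_open_prod _ o1)
  have a3 : BI (TT V) act (LinS co J ×ˢ O) = BS (TT V) act (LinS co J) (Inj lab₀ n) ∩
      bmap (TT V) ptAct (fun _ => ()) id ⁻¹' BI (TT V) ptAct (univ ×ˢ O) := by
    rw [BS_eq, bmap_eq_bmp, h.isAct.inter_preimage_bmp Fund_pt
      (Inv.prod (fun _ _ _ _ => mem_univ _) o3) (EqvOn.of_map subset_rfl fun _ _ _ _ => rfl)]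
    congr 1
    ext p
    exact ⟨fun hp => ⟨⟨hp.1, o1.subset hp.2⟩, mem_univ _, hp.2⟩, fun hp => ⟨hp.1.1, hp.2.2⟩⟩
  refine ⟨D, _, a1, ⟨(x, e), ⟨hx, o2⟩, rfl⟩, o4, fun h0 => ?_⟩
  apply h1 _ a2 ⟨_, ((), e), ⟨mem_univ _, o2⟩, rfl⟩
  rw [LinearMap.comp_assoc, tw_ext (Fund_twOK_pt h lab₀ J n) a2 a3, ← LinearMap.comp_assoc, h0,
    LinearMap.zero_comp]

theorem Fund_thom_f (h : Amb act co χ) (lab₀ : V → Λ₀) {J J' : Finset Pos} (hJ : J' ⊆ J)
    {f : X → X} (hf : ∀ x i, co (f x) i = if i ∈ J' then co x i else 0) (n : ℕ) :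
    IsThomFor (TT V) act act (LinS co J ×ˢ Inj lab₀ n) (LinS co J' ×ˢ Inj lab₀ n) f
      (fun x (i : ↥(J \ J')) => co x i)
      (tauT (TT V) act (fun x (i : ↥(J \ J')) => co x i) fun i => χ i) := by
  have := h.nice
  obtain ⟨G, hG⟩ := Fund_homeo_f h hJ hf
  exact isThomFor_tauT h.isAct h.isAct subset_rfl (h.invX J) (Fund_coord h Subtype.val _)
    (h.invX J') (fun _ hu x _ => Fund_f_eqv h hf hu x) hG (Fund_invE lab₀ n)
    (Inj_subset_id lab₀ n)

theorem Fund_toPt_comp {L₁ : Set (Matrix V V ℂ)} (h : IsAct (TT V) act) (f : X → X) :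
    (bmap (TT V) ptAct (fun _ => ()) id : Bor (TT V) act → BT V) ∘
      (bmap (TT V) act f id : Bor L₁ act → Bor (TT V) act) = bmap (TT V) ptAct (fun _ => ()) id := by
  funext q
  exact h.toPt_bmk subset_rfl _

/-- The factor of the product Thom cocycle that belongs to one coordinate. -/
def Fund_w (act : Matrix V V ℂ → X → X) (co : X → Pos → ℂ) (χ : Pos → V → ℤ) (i : Pos) :
    Coch (Bor (TT V) act) := pb (bmap (TT V) (act1 (χ i)) (fun x => co x i) id) (tauL (χ i))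

theorem Fund_w_homC (i : Pos) : HomC 2 (Fund_w act co χ i) := (tauL_homC _).pb _

theorem Fund_w_eq (i : Pos) :
    tauT (TT V) act (fun x (_ : Unit) => co x i) (fun _ => χ i) = Fund_w act co χ i := by
  unfold tauT
  rw [Finset.univ_unique, Finset.toList_singleton]
  exact cup_one ((Fund_w_homC i).bdd (by norm_num)).1

theorem Fund_tau_eq (J : Finset Pos) :
    tauT (TT V) act (fun x (i : J) => co x i) (fun i => χ i) =
      cupL (((Finset.univ : Finset J).toList.map Subtype.val).map (Fund_w act co χ)) := by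
  rw [List.map_map]; rfl

theorem Fund_list_perm (J : Finset Pos) :
    ((Finset.univ : Finset J).toList.map Subtype.val).Perm J.toList := by
  rw [← Multiset.coe_eq_coe, ← Multiset.map_coe, Finset.coe_toList, Finset.coe_toList]
  exact Multiset.attach_map_val _

theorem Fund_split (h : Amb act co χ) (lab₀ : V → Λ₀) {J J' : Finset Pos} (hJ : J' ⊆ J) (n : ℕ) :
    ∃ e, Bdd e ∧ PropOver (BS (TT V) ptAct univ (Inj lab₀ n))
        (BS (TT V) act (LinS co J) (Inj lab₀ n)) (bmap (TT V) ptAct (fun _ => ()) id) e ∧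
      cup (tauT (TT V) act (fun x (i : J') => co x i) fun i => χ i)
        (tauT (TT V) act (fun x (i : ↥(J \ J')) => co x i) fun i => χ i) -
        (tauT (TT V) act (fun x (i : J) => co x i) fun i => χ i) - dd e ∈
        N0 (BS (TT V) act (LinS co J) (Inj lab₀ n)) := by
  have hP := Fund_inv h lab₀ J n
  have hn : LinS co J ×ˢ Inj lab₀ n ⊆ univ ×ˢ Inj (id : V → V) n :=
    prod_mono (subset_univ _) (Inj_subset_id lab₀ n)
  have hp : ((Finset.univ : Finset J').toList.map Subtype.val ++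
      (Finset.univ : Finset ↥(J \ J')).toList.map Subtype.val).Perm
      ((Finset.univ : Finset J).toList.map Subtype.val) := by
    refine ((Fund_list_perm J').append (Fund_list_perm (J \ J'))).trans
      (List.Perm.trans ?_ (Fund_list_perm J).symm)
    rw [← Multiset.coe_eq_coe, ← Multiset.coe_add, Finset.coe_toList, Finset.coe_toList,
      Finset.coe_toList, Finset.sdiff_val, add_tsub_cancel_of_le (Finset.val_le_iff.2 hJ)]
  rw [Fund_tau_eq, Fund_tau_eq, Fund_tau_eq, ← cupL_append, ← List.map_append, BS_eq, BS_eq]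
  obtain ⟨e, e1, e2, e3⟩ := cupL_perm (A := BI (TT V) act (LinS co J ×ˢ Inj lab₀ n))
    (hp.map (Fund_w act co χ)) (by
      intro w hw
      obtain ⟨i, -, rfl⟩ := List.mem_map.1 hw
      refine ⟨?_, 2, Fund_w_homC i, even_two⟩
      rw [← Fund_w_eq]
      exact tauT_mem_ZZ h.isAct subset_rfl (Fund_coord h (fun _ : Unit => i) univ) hP hn)
  refine ⟨e, e1, fun C hC hCA => ?_, e3⟩
  obtain ⟨G, hG⟩ := Fund_homeo_pt h J
  obtain ⟨C', c1, c2, c3⟩ := (discOK_of_homeo Fund_pt h.isAct (h.invX J)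
    (fun _ _ _ _ => mem_univ _) (fun _ _ _ _ => rfl) hG (Fund_invE lab₀ n)).2.2 C hC hCA
  refine ⟨C', c1, c2, subset_trans (inter_subset_inter_left _ fun q hq => ?_) c3⟩
  refine ⟨Quot.out q, ⟨(h.isAct.out_mem hP).1 (supp_subset _ _ hq), fun i => ?_⟩, bmk_out q⟩
  have m1 : Fund_w act co χ i ∈ ((Finset.univ : Finset J').toList.map Subtype.val ++
      (Finset.univ : Finset ↥(J \ J')).toList.map Subtype.val).map (Fund_w act co χ) :=
    List.mem_map_of_mem (hp.symm.subset (List.mem_map_of_mem (by simp)))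
  have m2 := e2 _ m1 hq
  rw [← Fund_w_eq] at m2
  obtain ⟨p, hp', hpq⟩ :=
    supp_tauT h.isAct subset_rfl (Fund_coord h (fun _ : Unit => (i : Pos)) univ) hP hn m2
  obtain ⟨u, hu, hu'⟩ := h.isAct.exists_out p
  rw [← hpq, hu']
  change ‖co (act u p.1) i‖ ≤ 1
  rw [Fund_wt h hu, norm_mul, norm_chr _ hu, one_mul]
  exact hp'.2 ()

/-- Thom isomorphism along a coordinate projection `f : LinS J → LinS J'`. -/
theorem fundT_thom (h : Amb act co χ) (lab₀ : V → Λ₀) {J J' : Finset Pos} (hJ : J' ⊆ J)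
    {f : X → X} (hf : ∀ x i, co (f x) i = if i ∈ J' then co x i else 0) (n : ℕ) :
    fundT act co χ lab₀ J n ∘ₗ tw (BS (TT V) act (LinS co J') (Inj lab₀ n))
      (BS (TT V) act (LinS co J) (Inj lab₀ n)) (bmap (TT V) act f id)
      (tauT (TT V) act (fun x (i : ↥(J \ J')) => co x i) fun i => χ i) =
      fundT act co χ lab₀ J' n := by
  have t1 : TwOK (BS (TT V) act (LinS co J') (Inj lab₀ n)) (BS (TT V) act (LinS co J) (Inj lab₀ n))
      (bmap (TT V) act f id) (tauT (TT V) act (fun x (i : ↥(J \ J')) => co x i) fun i => χ i) := by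
    rw [BS_eq, BS_eq]
    exact (Fund_thom_f h lab₀ hJ hf n).1
  have t2 := (Fund_twOK_pt h lab₀ J' n).comp t1
  apply Fund_cancel (Fund_bij_pt h lab₀ J' n).2
  rw [fundT_spec h, LinearMap.comp_assoc, tw_comp (Fund_twOK_pt h lab₀ J' n) t1,
    ← fundT_spec h lab₀ J n]
  congr 1
  rw [Fund_toPt_comp h.isAct] at t2 ⊢
  obtain ⟨e, e1, e2, e3⟩ := Fund_split h lab₀ hJ n
  refine tw_congr t2 (Fund_twOK_pt h lab₀ J n) e1 e2 ?_
  have p1 := pb_tauT (act' := act) h.isAct subset_rfl (h.invX J')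
    (Fund_coord h (Subtype.val : J' → Pos) (LinS co J')) (L' := TT V) f
    (A := BS (TT V) act (LinS co J) (Inj lab₀ n)) fun q _ => Fund_f_mem hf _
  have p2 : ((fun x (i : J') => co x i) ∘ f) = fun x (i : J') => co x i := by
    funext x i
    exact (hf x i).trans (if_pos i.2)
  rw [p2] at p1
  have p3 := add_mem (Tw_cup_N0_left p1
    (tauT (TT V) act (fun x (i : ↥(J \ J')) => co x i) fun i => χ i)) e3
  rw [sub_cup] at p3
  convert p3 using 1
  abel

theorem Fund_poly (h : Amb act co χ) (lab₀ : V → Λ₀) (S : Set X) (n : ℕ) (p : MvPolynomial V ℂ) :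
    polyX (TT V) act p ∈ ZZ ⊥ (BS (TT V) act S (Inj lab₀ n)) := by
  rw [BS_eq]
  exact polyX_mem_ZZ h.isAct subset_rfl (fun _ hp => Inj_subset_id lab₀ n hp.2) p

theorem Fund_poly_mul (h : Amb act co χ) (lab₀ : V → Λ₀) (S : Set X) (n : ℕ)
    (p q : MvPolynomial V ℂ) : polyX (TT V) act (p * q) -
      cup (polyX (TT V) act p) (polyX (TT V) act q) ∈ BB ⊥ (BS (TT V) act S (Inj lab₀ n)) := by
  rw [BS_eq]
  exact polyX_mul h.isAct subset_rfl (fun _ hp => Inj_subset_id lab₀ n hp.2) p q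

theorem Fund_closed (h : Amb act co χ) {J J' : Finset Pos} (hJ : J' ⊆ J) (E : Set (Fr V)) :
    ClosedIn (LinS co J' ×ˢ E) (LinS co J ×ˢ E) :=
  ⟨LinS co J' ×ˢ univ, (h.isClosed J').prod isClosed_univ, by
    rw [prod_inter_prod, inter_univ, inter_eq_right.2 (LinS_mono co hJ)]⟩

theorem Fund_res (h : Amb act co χ) (lab₀ : V → Λ₀) {J J' : Finset Pos} (hJ : J' ⊆ J) (n : ℕ) :
    TwOK (BS (TT V) act (LinS co J) (Inj lab₀ n)) (BS (TT V) act (LinS co J') (Inj lab₀ n)) id
      one := by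
  refine ProperOn.twOK (ClosedIn.properOn ?_) (one_mem_ZZ _)
  rw [BS_eq, BS_eq]
  exact h.isAct.closedIn_BI (Fund_inv h lab₀ J n) (Fund_closed h hJ _)

/-- The push formula at the torus level. -/
theorem Fund_push (h : Amb act co χ) (lab₀ : V → Λ₀) {J J' : Finset Pos} (hJ : J' ⊆ J) (n : ℕ) :
    fundT act co χ lab₀ J' n ∘ₗ tw (BS (TT V) act (LinS co J) (Inj lab₀ n))
      (BS (TT V) act (LinS co J') (Inj lab₀ n)) id one =
    fundT act co χ lab₀ J n ∘ₗ tw (BS (TT V) act (LinS co J) (Inj lab₀ n))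
      (BS (TT V) act (LinS co J) (Inj lab₀ n)) id
      (polyX (TT V) act (∏ i ∈ J \ J', linF (χ i))) := by
  classical
  have hv : polyC (∏ i ∈ J \ J', linF (χ i)) ∈ ZZ ⊥ (BS (TT V) ptAct univ (Inj lab₀ n)) := by
    rw [← polyX_pt, BS_eq]
    exact polyX_mem_ZZ Fund_pt subset_rfl (fun _ hp => Inj_subset_id lab₀ n hp.2) _
  have tv := (Fund_id_proper _).twOK hv
  have hτ : ∀ K : Finset Pos, tauT (TT V) act (fun x (i : K) => co x i) (fun i => χ i) [] = 0 :=
    fun K => (Fund_twOK_pt h lab₀ K n).2.2.1.1.1.1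
  have s1 : tw (BS (TT V) ptAct univ (Inj lab₀ n)) (BS (TT V) act (LinS co J') (Inj lab₀ n))
      (bmap (TT V) ptAct (fun _ => ()) id)
      (tauT (TT V) act (fun x (i : J) => co x i) fun i => χ i) =
      tw (BS (TT V) ptAct univ (Inj lab₀ n)) (BS (TT V) act (LinS co J') (Inj lab₀ n))
      (bmap (TT V) ptAct (fun _ => ()) id) (cup (polyX (TT V) act (∏ i ∈ J \ J', linF (χ i)))
        (tauT (TT V) act (fun x (i : J') => co x i) fun i => χ i)) := by
    obtain ⟨G, hG⟩ := Fund_homeo_pt h J'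
    have d := discOK_of_homeo Fund_pt h.isAct (h.invX J')
      (fun _ _ _ _ => mem_univ _) (fun _ _ _ _ => rfl) hG (Fund_invE lab₀ n)
    have s := (tw_tauT_split h.isAct subset_rfl (Fund_coord h (Subtype.val : J → Pos) univ)
      (Fund_inv h lab₀ J' n) (prod_mono (subset_univ _) (Inj_subset_id lab₀ n))
      (fun i : J' => (⟨i, hJ i.2⟩ : J))
      (fun a b hab => Subtype.ext (congrArg (Subtype.val : J → Pos) hab)) d).2
    have e : ∏ i ∈ Finset.univ.filter
        (fun i : J => i ∉ Set.range fun i : J' => (⟨i, hJ i.2⟩ : J)), linF (χ i) =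
        ∏ i ∈ J \ J', linF (χ i) := by
      refine Finset.prod_bij (fun i _ => (i : Pos)) ?_ (fun _ _ _ _ hab => Subtype.ext hab) ?_
        fun _ _ => rfl
      · intro a ha
        exact Finset.mem_sdiff.2 ⟨a.2, fun h' => (Finset.mem_filter.1 ha).2 ⟨⟨a, h'⟩, rfl⟩⟩
      · intro b hb
        refine ⟨⟨b, (Finset.mem_sdiff.1 hb).1⟩, Finset.mem_filter.2 ⟨Finset.mem_univ _, ?_⟩, rfl⟩
        rintro ⟨c, hc⟩
        have : (c : Pos) = b := congrArg (Subtype.val : J → Pos) hc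
        exact (Finset.mem_sdiff.1 hb).2 (this ▸ c.2)
    rw [e] at s
    rw [BS_eq, BS_eq]
    exact s
  apply Fund_cancel (Fund_bij_pt h lab₀ J n).2
  rw [LinearMap.comp_assoc, LinearMap.comp_assoc,
    tw_comp (Fund_twOK_pt h lab₀ J n) (Fund_res h lab₀ hJ n),
    tw_comp (Fund_twOK_pt h lab₀ J n) ((Fund_id_proper _).twOK (Fund_poly h lab₀ _ n _)),
    Function.comp_id, pb_id, cup_one (hτ J), s1,
    ← Fund_cup_comm (Fund_twOK_pt h lab₀ J n) (Fund_poly h lab₀ _ n _) (tauT_homC _ _)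
      (even_two_mul _)]
  have c1 := tw_comp tv (Fund_twOK_pt h lab₀ J' n)
  have c2 := tw_comp tv (Fund_twOK_pt h lab₀ J n)
  rw [Function.id_comp] at c1 c2
  unfold polyX
  rw [← c1, ← c2, ← LinearMap.comp_assoc, ← LinearMap.comp_assoc, fundT_spec h, fundT_spec h]

section K
variable {L : Set (Matrix V V ℂ)} {lab₀ : V → Λ₀}

theorem Fund_toK (h : Amb act co χ) (hL : IsAct L act) (hT : TT V ⊆ L) (hL₀ : L ⊆ KG lab₀)
    {J J' : Finset Pos} (hJJ : J' ⊆ J) (hJ : InvX L act (LinS co J)) (n : ℕ) :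
    ProperOn (bmap L act id id : Bor (TT V) act → Bor L act)
      (BS (TT V) act (LinS co J') (Inj lab₀ n)) (BS L act (LinS co J) (Inj lab₀ n)) := by
  rw [BS_eq, BS_eq]
  exact hL.ind_proper (isGrp_KG _) hT (Inv.prod hJ (invF_Inj hL₀ n)) (Fund_inv h lab₀ J' n)
    (Fund_closed h hJJ _)

theorem Fund_twK (h : Amb act co χ) (hL : IsAct L act) (hT : TT V ⊆ L) (hL₀ : L ⊆ KG lab₀)
    {J : Finset Pos} (hJ : InvX L act (LinS co J)) (p : MvPolynomial V ℂ) (n : ℕ) :
    TwOK (BS L act (LinS co J) (Inj lab₀ n)) (BS (TT V) act (LinS co J) (Inj lab₀ n))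
      (bmap L act id id) (polyX (TT V) act p) :=
  (Fund_toK h hL hT hL₀ subset_rfl hJ n).twOK (Fund_poly h lab₀ _ n p)

theorem fcl_add (h : Amb act co χ) (hL : IsAct L act) (hT : TT V ⊆ L) (hL₀ : L ⊆ KG lab₀)
    {J : Finset Pos} (hJ : InvX L act (LinS co J)) (p q : MvPolynomial V ℂ) (n : ℕ) :
    fcl L act co χ lab₀ J (p + q) n = fcl L act co χ lab₀ J p n + fcl L act co χ lab₀ J q n := by
  unfold fcl
  rw [polyX_add, (tw_add (Fund_twK h hL hT hL₀ hJ p n) (Fund_twK h hL hT hL₀ hJ q n)).2,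
    LinearMap.comp_add]
theorem fcl_smul (h : Amb act co χ) (hL : IsAct L act) (hT : TT V ⊆ L) (hL₀ : L ⊆ KG lab₀)
    {J : Finset Pos} (hJ : InvX L act (LinS co J)) (z : ℂ) (p : MvPolynomial V ℂ) (n : ℕ) :
    fcl L act co χ lab₀ J (z • p) n = z • fcl L act co χ lab₀ J p n := by
  unfold fcl
  rw [polyX_smul, (tw_smul (Fund_twK h hL hT hL₀ hJ p n) z).2, LinearMap.comp_smul]
theorem fcl_deg (h : Amb act co χ) (hL : IsAct L act) (hT : TT V ⊆ L) (hL₀ : L ⊆ KG lab₀)
    {J : Finset Pos} (hJ : InvX L act (LinS co J)) {p : MvPolynomial V ℂ} {d : ℕ}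
    (hp : p.IsHomogeneous d) (n : ℕ) :
    EDeg _ (D0 V n + 2 * J.card - 2 * d) (fcl L act co χ lab₀ J p n) :=
  EDeg.tw (Fund_twK h hL hT hL₀ hJ p n) (polyX_homC hp) (fundT_deg h lab₀ J n)
/-- Module structure over the invariants. -/
theorem fcl_mul {lab : V → Λ} (hr : Refines lab lab₀) (h : Amb act co χ) (hL : IsAct L act)
    (hT : TT V ⊆ L) (hL₁ : L ⊆ KG lab) {J : Finset Pos} (hJ : InvX L act (LinS co J))
    {r : MvPolynomial V ℂ} (hh : r ∈ Rinv lab) (p : MvPolynomial V ℂ) (n : ℕ) :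
    fcl L act co χ lab₀ J (r * p) n = fcl L act co χ lab₀ J p n ∘ₗ
      tw (BS L act (LinS co J) (Inj lab₀ n)) (BS L act (LinS co J) (Inj lab₀ n)) id
        (chX lab L act r n) := by
  have hL₀ : L ⊆ KG lab₀ := hL₁.trans (KG_mono hr)
  have z1 : chX lab L act r n ∈ ZZ ⊥ (BS L act (LinS co J) (Inj lab₀ n)) := by
    rw [BS_eq]
    exact chX_mem_ZZ hL hL₁ (fun _ hp => Inj_anti hr n hp.2) hh
  have z2 : chX lab (TT V) act r n ∈ ZZ ⊥ (BS (TT V) act (LinS co J) (Inj lab₀ n)) := by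
    rw [BS_eq]
    exact chX_mem_ZZ h.isAct (TT_subset lab) (fun _ hp => Inj_anti hr n hp.2) hh
  have b1 : chX lab (TT V) act r n - polyX (TT V) act r ∈
      BB ⊥ (BS (TT V) act (LinS co J) (Inj lab₀ n)) := by
    rw [BS_eq]
    exact chX_sub_polyX h.isAct subset_rfl (fun _ hp => Inj_anti hr n hp.2) hh
  unfold fcl
  rw [LinearMap.comp_assoc, tw_comp ((Fund_id_proper _).twOK z1) (Fund_twK h hL hT hL₀ hJ p n),
    Function.id_comp, pb_chX hL hL₁]
  congr 1
  have zp := Fund_poly h lab₀ (LinS co J) n p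
  refine tw_congr_proper (Fund_toK h hL hT hL₀ subset_rfl hJ n) (Fund_poly h lab₀ _ n _)
    (cup_mem_ZZ z2 zp) ?_
  have b2 := sub_mem (Fund_poly_mul h lab₀ (LinS co J) n r p)
    (cup_congr z2 (Fund_poly h lab₀ _ n r) zp zp b1 (by rw [sub_self]; exact zero_mem _))
  convert b2 using 1
  abel
/-- Push-forward from a subgroup and a smaller coordinate subspace. -/
theorem fcl_push (h : Amb act co χ) (hL : IsAct L act) (hL₀ : L ⊆ KG lab₀)
    {L₁ : Set (Matrix V V ℂ)} (h₁ : IsGrp L₁) (hT : TT V ⊆ L₁) (hs : L₁ ⊆ L) {J J' : Finset Pos}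
    (hJJ : J' ⊆ J) (hJ : InvX L act (LinS co J)) (hJ' : InvX L₁ act (LinS co J'))
    (p : MvPolynomial V ℂ) (n : ℕ) :
    fcl L₁ act co χ lab₀ J' p n ∘ₗ tw (BS L act (LinS co J) (Inj lab₀ n))
      (BS L₁ act (LinS co J') (Inj lab₀ n)) (bmap L act id id) one =
      fcl L act co χ lab₀ J (p * ∏ i ∈ J \ J', linF (χ i)) n := by
  have hL₁ : IsAct L₁ act := hL.mono h₁ hs
  have hT' : TT V ⊆ L := hT.trans hs
  have t1 : TwOK (BS L act (LinS co J) (Inj lab₀ n)) (BS L₁ act (LinS co J') (Inj lab₀ n))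
      (bmap L act id id) one := by
    refine ProperOn.twOK ?_ (one_mem_ZZ _)
    rw [BS_eq, BS_eq]
    exact hL.ind_proper h₁ hs (Inv.prod hJ (invF_Inj hL₀ n))
      (Inv.prod hJ' (invF_Inj (hs.trans hL₀) n)) (Fund_closed h hJJ _)
  have e1 : (bmap L act id id : Bor L₁ act → Bor L act) ∘
      (bmap L₁ act id id : Bor (TT V) act → Bor L₁ act) = bmap L act id id := by
    funext q
    exact hL.toK_bmk h₁ hs _
  have zp := Fund_poly h lab₀ (LinS co J) n p
  have ze := Fund_poly h lab₀ (LinS co J) n (∏ i ∈ J \ J', linF (χ i))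
  have c1 := tw_comp (Fund_twK h hL hT' hL₀ hJ p n) (Fund_res h lab₀ hJJ n)
  rw [Function.comp_id, pb_id, cup_one zp.1.1.1] at c1
  unfold fcl
  rw [LinearMap.comp_assoc, tw_comp t1 (Fund_twK h hL₁ hT (hs.trans hL₀) hJ' p n), e1, pb_one,
    one_cup zp.1.1.1, ← c1, ← LinearMap.comp_assoc, Fund_push h lab₀ hJJ, LinearMap.comp_assoc,
    tw_comp (Fund_twK h hL hT' hL₀ hJ p n) ((Fund_id_proper _).twOK ze), Function.comp_id, pb_id]
  congr 1
  exact (tw_congr_proper (Fund_toK h hL hT' hL₀ subset_rfl hJ n) (Fund_poly h lab₀ _ n _)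
    (cup_mem_ZZ zp ze) (Fund_poly_mul h lab₀ _ n _ _)).symm
/-- Thom isomorphism along an equivariant coordinate projection. -/
theorem fcl_thom (h : Amb act co χ) (hL : IsAct L act) (hT : TT V ⊆ L) (hL₀ : L ⊆ KG lab₀)
    {J J' : Finset Pos} (hJJ : J' ⊆ J) (hJ : InvX L act (LinS co J))
    (hJ' : InvX L act (LinS co J')) {f : X → X}
    (hf : ∀ x i, co (f x) i = if i ∈ J' then co x i else 0)
    (he : ∀ u ∈ L, ∀ x ∈ LinS co J, f (act u x) = act u (f x)) {n : ℕ} {t : Coch (Bor L act)}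
    (ht : IsThomFor L act act (LinS co J ×ˢ Inj lab₀ n) (LinS co J' ×ˢ Inj lab₀ n) f
      (fun x (i : ↥(J \ J')) => co x i) t) (p : MvPolynomial V ℂ) :
    fcl L act co χ lab₀ J p n ∘ₗ tw (BS L act (LinS co J') (Inj lab₀ n))
      (BS L act (LinS co J) (Inj lab₀ n)) (bmap L act f id) t = fcl L act co χ lab₀ J' p n := by
  have := h.nice
  have hfc : ∀ P : Set (X × Fr V), ContinuousOn (fun p : X × Fr V => f p.1) P := fun P =>
    ((Fund_f_cont h hf).comp continuous_fst).continuousOn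
  have t1 : TwOK (BS L act (LinS co J') (Inj lab₀ n)) (BS L act (LinS co J) (Inj lab₀ n))
      (bmap L act f id) t := by
    rw [BS_eq, BS_eq]
    exact ht.1
  have hs := ht.subgroup hL hL (isGrp_KG _) hT (Inv.prod hJ (invF_Inj hL₀ n))
    (Inv.prod hJ' (invF_Inj hL₀ n)) (fun u hu p hp => he u hu p.1 hp.1) (hfc _)
  have t2 : TwOK (BS (TT V) act (LinS co J') (Inj lab₀ n)) (BS (TT V) act (LinS co J) (Inj lab₀ n))
      (bmap (TT V) act f id) (pb (bmap L act id id : Bor (TT V) act → Bor L act) t) := by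
    rw [BS_eq, BS_eq]
    exact hs.1
  have q1 : tw (BS (TT V) act (LinS co J') (Inj lab₀ n)) (BS (TT V) act (LinS co J) (Inj lab₀ n))
      (bmap (TT V) act f id) (tauT (TT V) act (fun x (i : ↥(J \ J')) => co x i) fun i => χ i) =
      tw (BS (TT V) act (LinS co J') (Inj lab₀ n)) (BS (TT V) act (LinS co J) (Inj lab₀ n))
      (bmap (TT V) act f id) (pb (bmap L act id id : Bor (TT V) act → Bor L act) t) := by
    rw [BS_eq, BS_eq]
    exact IsThomFor.tw_eq h.isAct h.isAct (Fund_inv h lab₀ J n) (Fund_inv h lab₀ J' n)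
      ((h.lc J).prod (lc_Inj lab₀ n)) ((h.lc J').prod (lc_Inj lab₀ n))
      (fun u hu p _ => Fund_f_eqv h hf hu p.1) (hfc _) (Fund_free lab₀ n)
      (Fund_thom_f h lab₀ hJJ hf n) hs
      fun _ _ => ⟨LinearEquiv.refl ℂ _, 0, fun _ _ _ => (add_zero _).symm⟩
  have m1 : EqOn ((bmap L act f id : Bor L act → Bor L act) ∘
      (bmap L act id id : Bor (TT V) act → Bor L act))
      ((bmap L act id id : Bor (TT V) act → Bor L act) ∘ bmap (TT V) act f id)
      (BS (TT V) act (LinS co J) (Inj lab₀ n)) := by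
    rintro q ⟨x, hx, e, hE, rfl⟩
    have a1 : (bmap L act f id : Bor L act → Bor L act) (bmk L act (x, e)) = bmk L act (f x, e) :=
      hL.bmp_bmk (P := LinS co J ×ˢ Inj lab₀ n)
        (EqvOn.of_map subset_rfl fun u hu p hp => he u hu p.1 hp.1) ⟨hx, hE⟩
    have a2 : (bmap (TT V) act f id : Bor (TT V) act → Bor (TT V) act) (bmk (TT V) act (x, e)) =
        bmk (TT V) act (f x, e) :=
      h.isAct.bmp_bmk (P := univ)
        (EqvOn.of_map subset_rfl fun u hu p _ => Fund_f_eqv h hf hu p.1) (mem_univ _)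
    simp only [Function.comp_apply]
    rw [hL.toK_bmk (isGrp_KG _) hT, a1, a2, hL.toK_bmk (isGrp_KG _) hT]
  have t3 := (Fund_toK h hL hT hL₀ subset_rfl hJ' n).twOK (one_mem_ZZ _) |>.comp t2
  rw [pb_one, one_cup t2.2.2.1.1.1.1] at t3
  unfold fcl
  rw [LinearMap.comp_assoc, tw_comp t1 (Fund_twK h hL hT hL₀ hJ p n),
    ← fundT_thom h lab₀ hJJ hf n, q1, LinearMap.comp_assoc,
    tw_comp (Fund_twK h hL hT hL₀ hJ' p n) t2, pb_polyX h.isAct subset_rfl,
    Fund_cup_comm t3 (Fund_poly h lab₀ _ n p) hs.2.1 (even_two_mul _),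
    (tw_congr_map (t1.comp (Fund_twK h hL hT hL₀ hJ p n)) m1).2]

end K

end Pool.Agent.HK
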