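import Pool.Agent.P.MP_1206ce_ag.BO.Defs
import Pool.Agent.P.MP_1206ce_ag.AS.Chart
import Pool.Agent.P.MP_1206ce_ag.AS.Comm

/-! The orientation class of a complex vector space; Thom classes are determined by their
fibre classes. -/

open scoped Topology
open Filter Set

noncomputable section

namespace Pool.Agent.HK

variable {ι κ : Type} [Fintype ι] [Fintype κ]

/-- The phase cochain of the complex line. -/
def Gen_g : Coch ℂ := fun l =>
  match l with
  | [a, b] => argC (star a * b)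
  | _ => 0

theorem Gen_genC1_eq : genC1 = -dd (ext0 {z | 1 < ‖z‖} Gen_g) := rfl

theorem Gen_g_hom : HomC 1 Gen_g := by
  intro l hl
  match l, hl with
  | [], _ => rfl
  | [_], _ => rfl
  | [_, _], hl => exact absurd rfl hl
  | _ :: _ :: _ :: _, _ => rfl

theorem Gen_arg_local {y a b : ℂ} (ha : 0 < (star y * a).re) (hb : 0 < (star y * b).re) :
    Complex.arg (star a * b) = Complex.arg (star y * b) - Complex.arg (star y * a) := by
  have hy : y ≠ 0 := by
    rintro rfl
    simp at ha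
  have ha0 : star y * a ≠ 0 := fun h => by
    rw [h] at ha
    exact lt_irrefl _ ha
  have hb0 : star y * b ≠ 0 := fun h => by
    rw [h] at hb
    exact lt_irrefl _ hb
  have h1 := abs_lt.1 (Complex.abs_arg_lt_pi_div_two_iff.2 (Or.inl ha))
  have h2 := abs_lt.1 (Complex.abs_arg_lt_pi_div_two_iff.2 (Or.inl hb))
  have hpi := Real.pi_pos
  have h3 : Complex.arg (star (star y * a)) = -Complex.arg (star y * a) := by
    have h := Complex.arg_conj (star y * a)
    rw [if_neg (by linarith)] at h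
    exact h
  have h4 : star (star y * a) * (star y * b) = ((Complex.normSq y : ℝ) : ℂ) * (star a * b) := by
    rw [star_mul, star_star, Complex.normSq_eq_conj_mul_self]
    change _ = star y * y * _
    ring
  have h5 := Complex.arg_mul (star_ne_zero.2 ha0) hb0 (by
    rw [h3]
    constructor <;> linarith)
  rw [h4, Complex.arg_real_mul _ (Complex.normSq_pos.2 hy), h3] at h5
  rw [h5]
  ring

theorem Gen_ext_hom : HomC 1 (ext0 {z : ℂ | 1 < ‖z‖} Gen_g) := Gen_g_hom.ext0 _

theorem genC1_homC : HomC 2 genC1 := by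
  have h := (Gen_ext_hom.dd).smul (-1)
  rw [neg_one_smul] at h
  exact h

theorem Gen_ext_pair {a b : ℂ} (ha : 1 < ‖a‖) (hb : 1 < ‖b‖) :
    ext0 {z : ℂ | 1 < ‖z‖} Gen_g [a, b] = argC (star a * b) := by
  rw [ext0, if_pos]
  · rfl
  · intro z hz
    rcases List.mem_pair.1 hz with rfl | rfl
    · exact ha
    · exact hb

theorem Gen_nhds {y : ℂ} (hy : 1 < ‖y‖) :
    {z : ℂ | 1 < ‖z‖ ∧ 0 < (star y * z).re} ∈ 𝓝 y := by
  have hc : Continuous fun z : ℂ => (star y * z).re := by fun_prop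
  refine inter_mem ((isOpen_lt continuous_const continuous_norm).mem_nhds hy)
    ((isOpen_lt continuous_const hc).mem_nhds ?_)
  change 0 < (star y * y).re
  have h : star y * y = ((Complex.normSq y : ℝ) : ℂ) := Complex.normSq_eq_conj_mul_self.symm
  rw [h, Complex.ofReal_re]
  exact Complex.normSq_pos.2 (norm_pos_iff.1 (zero_lt_one.trans hy))

theorem supp_genC1 : supp univ genC1 ⊆ {z | ‖z‖ ≤ 1} := by
  intro y hy
  by_contra hn
  have hy1 : 1 < ‖y‖ := not_le.1 hn
  refine (not_mem_supp (mem_univ y)).2 ⟨_, Gen_nhds hy1, fun l hl => ?_⟩ hy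
  by_cases h3 : l.length = 3
  · obtain ⟨a, b, c, rfl⟩ := List.length_eq_three.1 h3
    have ha := (hl a (by simp)).2
    have hb := (hl b (by simp)).2
    have hc := (hl c (by simp)).2
    rw [Gen_genC1_eq, Pi.neg_apply, neg_eq_zero]
    simp only [dd, List.length_cons, List.length_nil, Finset.sum_range_succ, Finset.sum_range_zero,
      List.eraseIdx_cons_succ, List.eraseIdx_cons_zero]
    rw [Gen_ext_pair hb.1 hc.1, Gen_ext_pair ha.1 hc.1, Gen_ext_pair ha.1 hb.1]
    simp only [argC]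
    rw [Gen_arg_local hb.2 hc.2, Gen_arg_local ha.2 hc.2, Gen_arg_local ha.2 hb.2]
    push_cast
    ring
  · exact genC1_homC l (by omega)

theorem Gen_genC1_ZZ : genC1 ∈ ZZ (cc univ) univ := by
  refine ⟨LES_cc (genC1_homC.bdd (by norm_num)) (isCompact_closedBall (0 : ℂ) 1) (subset_univ _)
    (fun z hz => mem_closedBall_zero_iff.2 (supp_genC1 hz)), ?_⟩
  rw [Gen_genC1_eq, ← neg_one_smul ℂ, dd_smul, dd_dd, smul_zero]
  exact zero_mem _

theorem Gen_arg_circle {R s t : ℝ} (hR : 0 < R) (h : |t - s| < Real.pi) :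
    Complex.arg (star ((R : ℂ) * Complex.exp (s * Complex.I)) *
      ((R : ℂ) * Complex.exp (t * Complex.I))) = t - s := by
  have h1 : star ((R : ℂ) * Complex.exp (s * Complex.I)) *
      ((R : ℂ) * Complex.exp (t * Complex.I)) =
      ((R * R : ℝ) : ℂ) * Complex.exp (((t - s : ℝ) : ℂ) * Complex.I) := by
    have h2 : star (Complex.exp (s * Complex.I)) = Complex.exp (-(s * Complex.I)) := by
      change (starRingEnd ℂ) _ = _
      rw [← Complex.exp_conj]
      simp
    have h3 : star (R : ℂ) = R := Complex.conj_ofReal R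
    rw [star_mul, h2, h3]
    push_cast
    rw [sub_mul, sub_eq_add_neg, Complex.exp_add]
    ring
  rw [h1, Complex.arg_real_mul _ (mul_pos hR hR), Complex.arg_exp_mul_I]
  have h4 := abs_lt.1 h
  exact (toIocMod_eq_self _).2 ⟨h4.1, by linarith [h4.2]⟩

theorem Gen_not_BB : genC1 ∉ BB (cc univ) (univ : Set ℂ) := by
  rintro ⟨e, he, h⟩
  obtain ⟨he1, he2⟩ := mem_CC_cc.1 he
  set u : Coch ℂ := ext0 {z : ℂ | 1 < ‖z‖} Gen_g + prC 1 e with hu
  have hu1 : HomC 1 u := Gen_ext_hom.add (HomC.prC 1 e)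
  have hu2 : u ∈ ZZ ⊥ (univ : Set ℂ) := by
    refine ⟨mem_CC_bot.2 (hu1.bdd zero_le_one), ?_⟩
    have h1 := neg_mem (Basic_prC_mem_N0 (1 + 1) h)
    have h2 : HomC (1 + 1) genC1 := genC1_homC
    rw [Basic_prC_sub, prC_dd, h2.prC_self, Gen_genC1_eq] at h1
    rw [hu, dd_add]
    have e1 : ∀ p q : Coch ℂ, -(-p - q) = p + q := fun p q => by abel
    rwa [e1] at h1
  obtain ⟨z, f, -, hf⟩ := (acycBelow_convex 2 convex_univ LC.univ univ_nonempty).2 1 (by norm_num)
    u hu2 hu1
  obtain ⟨R₀, hR₀⟩ := he2.isBounded.subset_ball (0 : ℂ)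
  set R : ℝ := max R₀ 2 with hR
  have hR2 : 2 ≤ R := le_max_right _ _
  have hRp : 0 < R := by linarith
  set γ : ℝ → ℂ := fun t => (R : ℂ) * Complex.exp (t * Complex.I) with hγ
  have hγc : Continuous γ := by fun_prop
  have hγn : ∀ t, ‖γ t‖ = R := fun t => by
    simp only [hγ, norm_mul, Complex.norm_exp_ofReal_mul_I, mul_one, Complex.norm_real,
      Real.norm_of_nonneg hRp.le]
  have hloc : IsLocallyConstant fun t : ℝ => f [γ t] - ((t / (2 * Real.pi) : ℝ) : ℂ) := by
    refine (IsLocallyConstant.iff_eventually_eq _).2 fun s => ?_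
    obtain ⟨U, hU, h1⟩ := Basic_N0_apply hf (mem_univ (γ s))
    have hs : γ s ∉ supp univ e := fun h2 => by
      have h3 := mem_ball_zero_iff.1 (hR₀ h2)
      rw [hγn] at h3
      exact absurd (le_max_left R₀ 2) (not_le.2 h3)
    obtain ⟨W, hW, h2⟩ := (not_mem_supp (mem_univ _)).1 hs
    have h3 : ∀ᶠ t in 𝓝 s, |t - s| < Real.pi := by
      have h4 : Continuous fun t : ℝ => |t - s| := by fun_prop
      exact (isOpen_lt h4 continuous_const).mem_nhds (by simpa using Real.pi_pos)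
    filter_upwards [hγc.continuousAt.preimage_mem_nhds hU, hγc.continuousAt.preimage_mem_nhds hW,
      h3] with t htU htW ht
    have k1 := h1 [γ s, γ t] (by
      intro w hw
      rcases List.mem_pair.1 hw with rfl | rfl
      · exact ⟨mem_univ _, mem_of_mem_nhds hU⟩
      · exact ⟨mem_univ _, htU⟩)
    have k2 := h2 [γ s, γ t] (by
      intro w hw
      rcases List.mem_pair.1 hw with rfl | rfl
      · exact ⟨mem_univ _, mem_of_mem_nhds hW⟩
      · exact ⟨mem_univ _, htW⟩)
    have k3 : u [γ s, γ t] = (((t - s) / (2 * Real.pi) : ℝ) : ℂ) := by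
      rw [hu, Pi.add_apply, Gen_ext_pair (by rw [hγn]; linarith) (by rw [hγn]; linarith), argC,
        Gen_arg_circle hRp ht]
      simp [prC, k2]
    have k4 : dd f [γ s, γ t] = f [γ t] - f [γ s] := by
      simp only [dd, List.length_cons, List.length_nil, Finset.sum_range_succ,
        Finset.sum_range_zero, List.eraseIdx_cons_succ, List.eraseIdx_cons_zero]
      ring
    have k5 : (z • one : Coch ℂ) [γ s, γ t] = 0 := by simp [one]
    rw [Pi.sub_apply, Pi.sub_apply, k3, k4, k5, sub_div] at k1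
    push_cast at k1 ⊢
    linear_combination -k1
  have h1 := hloc.apply_eq_of_preconnectedSpace 0 (2 * Real.pi)
  have h2 : γ (2 * Real.pi) = γ 0 := by
    simp only [hγ]
    push_cast
    rw [Complex.exp_two_pi_mul_I]
    simp
  rw [h2, zero_div, div_self (by positivity)] at h1
  have h3 : (((1 : ℝ) : ℝ) : ℂ) = ((0 : ℝ) : ℂ) := by linear_combination h1
  exact one_ne_zero (Complex.ofReal_injective h3)

/-- Winding number argument. -/
theorem isGenOn_genC1 : IsGenOn univ genC1 := by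
  have h0 : clc univ genC1 ≠ 0 := fun h => Gen_not_BB ((cls_eq_zero_iff Gen_genC1_ZZ).1 h)
  refine ⟨Gen_genC1_ZZ, h0, fun x => ?_⟩
  obtain ⟨w, -, -, -, hw⟩ := exists_gen_convex (F := ℂ) convex_univ isOpen_univ univ_nonempty
  obtain ⟨a, ha⟩ := hw (clc univ genC1)
  obtain ⟨b, hb⟩ := hw x
  have ha0 : a ≠ 0 := fun h => h0 (by rw [ha, h, zero_smul])
  refine ⟨b / a, ?_⟩
  rw [ha, smul_smul, div_mul_cancel₀ _ ha0, hb]

/-- The orientation cocycle of one coordinate. -/
def Gen_c {ι : Type} (i : ι) : Coch (ι → ℂ) := pb (fun v => v i) genC1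

theorem Gen_genC_eq : genC ι = cupL ((Finset.univ : Finset ι).toList.map Gen_c) := rfl

omit [Fintype ι] in
theorem Gen_c_hom (i : ι) : HomC 2 (Gen_c i) := genC1_homC.pb _

omit [Fintype ι] in
theorem Gen_c_ZZ (i : ι) : Gen_c i ∈ ZZ ⊥ (univ : Set (ι → ℂ)) :=
  pb_mem_ZZ (continuous_apply i).continuousOn (mapsTo_univ _ _) (ZZ_cc_le_bot _ Gen_genC1_ZZ)

omit [Fintype ι] in
theorem Gen_c_supp (i : ι) : supp univ (Gen_c i) ⊆ {v | ‖v i‖ ≤ 1} := fun v hv => by
  have h : v i ∈ supp univ genC1 := supp_pb (f := fun v : ι → ℂ => v i)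
    (continuous_apply i).continuousOn (mapsTo_univ _ _) genC1 hv
  exact supp_genC1 h

theorem genC_homC : HomC (2 * (Fintype.card ι : ℤ)) (genC ι) := by
  have h := HomC.cupL (Finset.univ : Finset ι).toList Gen_c 2 fun i _ => Gen_c_hom i
  rw [Finset.length_toList, Finset.card_univ] at h
  exact h

theorem supp_genC : supp univ (genC ι) ⊆ {v | ∀ i, ‖v i‖ ≤ 1} := fun _ hv i =>
  Gen_c_supp i (Comm_supp_cupL univ
    (List.mem_map_of_mem (Finset.mem_toList.2 (Finset.mem_univ i))) hv)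

omit [Fintype ι] in
theorem Gen_cube_compact : IsCompact {v : ι → ℂ | ∀ i, ‖v i‖ ≤ 1} := by
  have h := isCompact_univ_pi fun _ : ι => isCompact_closedBall (0 : ℂ) 1
  have e : (univ.pi fun _ : ι => Metric.closedBall (0 : ℂ) 1) = {v : ι → ℂ | ∀ i, ‖v i‖ ≤ 1} := by
    ext v
    simp
  rwa [e] at h

theorem Gen_genC_ZZ : genC ι ∈ ZZ (cc univ) univ := by
  have h : genC ι ∈ ZZ ⊥ univ := cupL_mem_ZZ fun w hw => by
    obtain ⟨i, -, rfl⟩ := List.mem_map.1 hw
    exact Gen_c_ZZ i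
  exact ⟨LES_cc h.1.1 Gen_cube_compact (subset_univ _) supp_genC, h.2⟩

theorem Gen_perm {L : List ι} (hn : L.Nodup) (hL : ∀ i, i ∈ L) :
    cupL (L.map Gen_c) - genC ι ∈ BB (cc univ) univ := by
  have hp : L.Perm (Finset.univ : Finset ι).toList :=
    (List.perm_ext_iff_of_nodup hn (Finset.nodup_toList _)).2 fun i =>
      iff_of_true (hL i) (Finset.mem_toList.2 (Finset.mem_univ i))
  obtain ⟨e, h1, h2, h3⟩ := cupL_perm (A := univ) (hp.map Gen_c) fun w hw => by
    obtain ⟨i, -, rfl⟩ := List.mem_map.1 hw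
    exact ⟨Gen_c_ZZ i, 2, Gen_c_hom i, even_two⟩
  exact Comm_BB_cc Gen_cube_compact (subset_univ _) h1
    (fun v hv i => Gen_c_supp i (h2 _ (List.mem_map_of_mem (hL i)) hv)) h3

omit [Fintype κ] in
theorem Gen_pb_genC (f : ι → κ) : pb (fun (v : κ → ℂ) (i : ι) => v (f i)) (genC ι) =
    cupL (((Finset.univ : Finset ι).toList.map f).map Gen_c) := by
  rw [Gen_genC_eq, pb_cupL, List.map_map, List.map_map]
  refine congrArg cupL (List.map_congr_left fun i _ => ?_)
  exact pb_pb _ _ _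

theorem genC_equiv (e : ι ≃ κ) :
    pb (fun (v : κ → ℂ) (i : ι) => v (e i)) (genC ι) - genC κ ∈ BB (cc univ) univ := by
  rw [Gen_pb_genC]
  exact Gen_perm ((Finset.nodup_toList _).map e.injective) fun k =>
    List.mem_map.2 ⟨e.symm k, Finset.mem_toList.2 (Finset.mem_univ _), e.apply_symm_apply k⟩

theorem genC_sum : genC (ι ⊕ κ) - cup (pb (fun v i => v (Sum.inl i)) (genC ι))
    (pb (fun v i => v (Sum.inr i)) (genC κ)) ∈ BB (cc univ) univ := by
  rw [Gen_pb_genC, Gen_pb_genC, ← cupL_append, ← List.map_append, ← neg_sub]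
  refine neg_mem (Gen_perm ?_ fun k => ?_)
  · refine List.Nodup.append ((Finset.nodup_toList _).map Sum.inl_injective)
      ((Finset.nodup_toList _).map Sum.inr_injective) fun k h1 h2 => ?_
    obtain ⟨i, -, rfl⟩ := List.mem_map.1 h1
    obtain ⟨j, -, h⟩ := List.mem_map.1 h2
    exact Sum.inr_ne_inl h
  · cases k <;> simp

theorem genC_unique [Unique ι] :
    genC ι = pb (fun v => v default) genC1 := by
  rw [Gen_genC_eq, Finset.univ_unique, Finset.toList_singleton]
  exact cup_one ((Gen_c_hom (default : ι)).bdd zero_le_two).1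

omit [Fintype ι] [Fintype κ] in
theorem Gen_homeo_equiv (e : ι ≃ κ) : HomeoOn (fun (v : κ → ℂ) (i : ι) => v (e i))
    (fun (v : ι → ℂ) (k : κ) => v (e.symm k)) univ univ :=
  ⟨by fun_prop, by fun_prop, mapsTo_univ _ _, mapsTo_univ _ _,
    fun v _ => funext fun k => by simp, fun v _ => funext fun i => by simp⟩

theorem Gen_isGen_equiv (e : ι ≃ κ) (h : IsGenOn univ (genC ι)) : IsGenOn univ (genC κ) := by
  refine IsGenOn.of_homeoOn (Gen_homeo_equiv e) h Gen_genC_ZZ ?_
  rw [← neg_sub]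
  exact neg_mem (genC_equiv e)

theorem Gen_isGen_option (h : IsGenOn univ (genC ι)) : IsGenOn univ (genC (Option ι)) := by
  have hw : TwOK (univ : Set (ι → ℂ)) (univ : Set (Option ι → ℂ)) (fun v i => v (some i))
      (Gen_c none) := by
    refine ⟨by fun_prop, mapsTo_univ _ _, Gen_c_ZZ none, fun C hC _ =>
      ⟨(fun (p : ℂ × (ι → ℂ)) (o : Option ι) => o.elim p.1 p.2) ''
        (Metric.closedBall (0 : ℂ) 1 ×ˢ C), ?_, subset_univ _, fun v hv => ?_⟩⟩
    · refine ((isCompact_closedBall _ _).prod hC).image (continuous_pi fun o => ?_)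
      cases o with
      | none => exact continuous_fst
      | some i => exact (continuous_apply i).comp continuous_snd
    · refine ⟨(v none, fun i => v (some i)),
        ⟨mem_closedBall_zero_iff.2 (Gen_c_supp none hv.1), hv.2⟩, funext fun o => ?_⟩
      cases o <;> rfl
  have hb := thom_iso LC.univ LC.univ hw (Gen_c_hom none) fun y _ => by
    have hh : HomeoOn (fun v : Option ι → ℂ => v none) (fun z o => o.elim z y)
        (univ ∩ (fun (v : Option ι → ℂ) i => v (some i)) ⁻¹' {y}) univ := by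
      refine ⟨by fun_prop, (continuous_pi fun o => ?_).continuousOn, mapsTo_univ _ _,
        fun z _ => ⟨mem_univ _, rfl⟩, fun v hv => funext fun o => ?_, fun _ _ => rfl⟩
      · cases o with
        | none => exact continuous_id
        | some i => exact continuous_const
      · cases o with
        | none => rfl
        | some i => exact (congrFun (mem_singleton_iff.1 hv.2) i).symm
    exact IsGenOn.of_homeoOn hh isGenOn_genC1 (pb_mem_ZZ_cc hh.properOn Gen_genC1_ZZ)
      (by rw [Gen_c, sub_self]; exact zero_mem _)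
  have h1 := IsGenOn.tw hw hb h
  have h2 : cup (pb (fun (v : Option ι → ℂ) i => v (some i)) (genC ι)) (Gen_c none) =
      cupL (((Finset.univ : Finset ι).toList.map some ++ [none]).map Gen_c) := by
    rw [Gen_pb_genC, List.map_append, cupL_append]
    exact congrArg _ (cup_one ((Gen_c_hom (none : Option ι)).bdd zero_le_two).1).symm
  have h3 := Gen_perm (L := (Finset.univ : Finset ι).toList.map some ++ [none]) (by
    refine List.Nodup.append ((Finset.nodup_toList _).map (Option.some_injective ι))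
      (List.nodup_singleton _) fun k h1 h2 => ?_
    obtain ⟨i, -, rfl⟩ := List.mem_map.1 h1
    simp at h2) fun k => by cases k <;> simp
  rw [← h2, ← cls_eq_iff h1.1 Gen_genC_ZZ] at h3
  refine ⟨Gen_genC_ZZ, ?_, ?_⟩
  · rw [clc, ← h3]
    exact h1.2.1
  · rw [clc, ← h3]
    exact h1.2.2

theorem isGenOn_genC : IsGenOn univ (genC ι) := by
  refine Fintype.induction_empty_option (P := fun α _ => IsGenOn univ (genC α)) ?_ ?_ ?_ ι
  · intro α β _ e h
    exact @Gen_isGen_equiv α β (Fintype.ofEquiv β e.symm) _ e h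
  · have e : (univ : Set (PEmpty.{1} → ℂ)) = {default} :=
      (eq_univ_of_forall fun x => Subsingleton.elim x default).symm
    have e2 : genC PEmpty.{1} = one := by
      rw [Gen_genC_eq, Finset.univ_eq_empty, Finset.toList_empty]
      rfl
    rw [e, e2]
    exact isGenOn_point _
  · intro α _ h
    exact Gen_isGen_option h

/-- An invertible complex matrix is joined to the identity by invertible matrices. -/
theorem Gen_path [DecidableEq ι] {M : Matrix ι ι ℂ} (hM : M.det ≠ 0) :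
    ∃ T : ℝ → Matrix ι ι ℂ, Continuous T ∧ T 0 = 1 ∧ T 1 = M ∧ ∀ t, (T t).det ≠ 0 := by
  have hev : ∀ z : ℂ, Polynomial.eval z (1 - M).charpolyRev = (1 - z • (1 - M)).det := by
    intro z
    rw [Matrix.charpolyRev, ← Polynomial.coe_evalRingHom, RingHom.map_det]
    congr 1
    ext i j
    by_cases h : i = j
    · simp [h]
    · simp [h, mul_comm z]
  have hp : (1 - M).charpolyRev ≠ 0 := fun h => by
    have h1 := Matrix.eval_charpolyRev (M := 1 - M)
    rw [h, Polynomial.eval_zero] at h1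
    exact zero_ne_one h1
  have hc := (Polynomial.finite_setOfPred_isRoot hp).countable.isPathConnected_compl_of_one_lt_rank
    (by rw [Complex.rank_real_complex]; exact Cardinal.one_lt_two)
  have hj := hc.joinedIn 0 (by
      change ¬ Polynomial.eval 0 _ = 0
      rw [Matrix.eval_charpolyRev]
      exact one_ne_zero) 1 (by
      change ¬ Polynomial.eval 1 _ = 0
      rw [hev, one_smul, sub_sub_cancel]
      exact hM)
  refine ⟨fun t => 1 - hj.somePath.extend t • (1 - M), ?_, by simp, by simp, fun t => ?_⟩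
  · have := hj.somePath.continuous_extend
    fun_prop
  · rw [← hev]
    obtain ⟨s, hs⟩ : hj.somePath.extend t ∈ range hj.somePath := by
      rw [← Path.extend_range]
      exact mem_range_self t
    rw [← hs]
    exact hj.somePath_mem s

theorem Gen_matrix [DecidableEq ι] {M : Matrix ι ι ℂ} (hM : M.det ≠ 0) (b : ι → ℂ) :
    pb (fun v => M.mulVec v + b) (genC ι) - genC ι ∈ BB (cc univ) univ := by
  obtain ⟨T, hT, h0, h1, hd⟩ := Gen_path hM
  have hi : Continuous fun t => (T t)⁻¹ := continuous_iff_continuousAt.2 fun t =>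
    ContinuousAt.comp (continuousAt_matrix_inv (T t) (by
      rw [Ring.inverse_eq_inv']
      exact continuousAt_inv₀ (hd t))) hT.continuousAt
  have hp : ProperOn (fun p : (ι → ℂ) × ℝ => (T p.2).mulVec p.1 + (p.2 : ℂ) • b)
      (univ ×ˢ Icc 0 1) univ := by
    refine ⟨Continuous.continuousOn (((hT.comp continuous_snd).matrix_mulVec continuous_fst).add
      (by fun_prop)), mapsTo_univ _ _, fun C hC _ => ?_⟩
    have hc : Continuous fun p : (ι → ℂ) × ℝ => ((T p.2)⁻¹.mulVec (p.1 - (p.2 : ℂ) • b), p.2) :=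
      ((hi.comp continuous_snd).matrix_mulVec (by fun_prop)).prodMk continuous_snd
    have e : (univ ×ˢ Icc 0 1) ∩ (fun p : (ι → ℂ) × ℝ => (T p.2).mulVec p.1 + (p.2 : ℂ) • b) ⁻¹' C =
        (fun p : (ι → ℂ) × ℝ => ((T p.2)⁻¹.mulVec (p.1 - (p.2 : ℂ) • b), p.2)) ''
          (C ×ˢ Icc 0 1) := by
      ext p
      constructor
      · intro hp
        refine ⟨((T p.2).mulVec p.1 + (p.2 : ℂ) • b, p.2), ⟨hp.2, hp.1.2⟩, ?_⟩
        simp only [add_sub_cancel_right, Matrix.mulVec_mulVec]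
        rw [Matrix.nonsing_inv_mul _ (Ne.isUnit (hd _)), Matrix.one_mulVec]
      · rintro ⟨q, hq, rfl⟩
        refine ⟨⟨mem_univ _, hq.2⟩, ?_⟩
        simp only [mem_preimage, Matrix.mulVec_mulVec]
        rw [Matrix.mul_nonsing_inv _ (Ne.isUnit (hd _)), Matrix.one_mulVec, sub_add_cancel]
        exact hq.1
    rw [e]
    exact (hC.prod isCompact_Icc).image hc
  have h := neg_mem (homotopy_BB_cc LC.univ hp Gen_genC_ZZ)
  simp only [h0, h1, Matrix.one_mulVec, Complex.ofReal_zero, zero_smul, add_zero,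
    Complex.ofReal_one, one_smul, neg_sub] at h
  have e : pb (fun y : ι → ℂ => y) (genC ι) = genC ι := pb_id _
  rwa [e] at h

/-- Invariance under complex affine isomorphisms. -/
theorem genC_linear (A : (κ → ℂ) ≃ₗ[ℂ] (ι → ℂ)) (b : ι → ℂ) :
    pb (fun v => A v + b) (genC ι) - genC κ ∈ BB (cc univ) univ := by
  classical
  have hc : Fintype.card ι = Fintype.card κ := by
    rw [← Module.finrank_fintype_fun_eq_card ℂ, ← Module.finrank_fintype_fun_eq_card ℂ,
      A.finrank_eq]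
  let e : ι ≃ κ := Fintype.equivOfCardEq hc
  let B : (ι → ℂ) ≃ₗ[ℂ] (ι → ℂ) := (LinearEquiv.funCongrLeft ℂ ℂ e.symm).trans A
  have hM : (LinearMap.toMatrix' (B : (ι → ℂ) →ₗ[ℂ] (ι → ℂ))).det ≠ 0 := by
    rw [LinearMap.det_toMatrix']
    exact B.isUnit_det'.ne_zero
  have h1 := pb_mem_BB_cc (Gen_homeo_equiv e).properOn (Gen_matrix hM b)
  rw [pb_sub, pb_pb] at h1
  have e1 : ((fun v => (LinearMap.toMatrix' (B : (ι → ℂ) →ₗ[ℂ] (ι → ℂ))).mulVec v + b) ∘
      fun (v : κ → ℂ) (i : ι) => v (e i)) = fun v => A v + b := by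
    funext v
    simp only [Function.comp_apply, LinearMap.toMatrix'_mulVec]
    congr 1
    change A (fun k => v (e (e.symm k))) = A v
    simp
  rw [e1] at h1
  have h2 := add_mem h1 (genC_equiv e)
  rwa [sub_add_sub_cancel] at h2

variable {Y Y' : Type} [TopologicalSpace Y] [TopologicalSpace Y'] [Nice Y] [Nice Y']

theorem Gen_compact {A : Set Y} {A' : Set Y'} (hA : IsCompact A) (hA' : LC A')
    {π : Y' → Y} {t t' : Coch Y'} (ht : TwOK A A' π t) (ht' : TwOK A A' π t') {m : ℤ}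
    (hm : HomC m t) (hm' : HomC m t') (hg : ∀ y ∈ A, IsGenOn (A' ∩ π ⁻¹' {y}) t)
    (he : ∀ y ∈ A, clc (A' ∩ π ⁻¹' {y}) t' = clc (A' ∩ π ⁻¹' {y}) t) :
    t ∈ ZZ (cc A') A' ∧ t' ∈ ZZ (cc A') A' ∧ t - t' ∈ BB (cc A') A' := by
  have h1 : (one : Coch Y) ∈ ZZ (cc A) A := by
    rw [ZZ_cc_eq_bot hA]
    exact one_mem_ZZ A
  have hZ := ht.mem_ZZ h1
  have hZ' := ht'.mem_ZZ h1
  have hc1 := tw_cls ht h1
  rw [pb_one, one_cup (Lawson_twOK_nil ht)] at hZ hc1
  rw [pb_one, one_cup (Lawson_twOK_nil ht')] at hZ'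
  refine ⟨hZ, hZ', (cls_eq_iff hZ hZ').1 ?_⟩
  obtain ⟨x, hx⟩ := (thom_iso (LC.of_isCompact hA) hA' ht hm hg).2 (clc A' t')
  have h2 := tw_prH ht hm 0 x
  rw [zero_add, hx, prH_cls m hZ', hm'.prC_self] at h2
  obtain ⟨c, hc, hc0, hcx⟩ := exists_homC_of_prH (x := prH _ A 0 x) (k := 0)
    (by rw [prH_prH, if_pos rfl])
  rw [← hcx] at h2
  have h3 : ∀ y ∈ A, c [y] = 1 := by
    intro y hy
    have hcl : ClosedIn ({y} : Set Y) A := Lawson_closedIn_singleton hy
    have hcl' : ClosedIn (A' ∩ π ⁻¹' {y}) A' := hcl.preimage ht.1 ht.2.1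
    have hr := ht.restrict (singleton_subset_iff.2 hy)
    have h4 := congrArg (res A' (A' ∩ π ⁻¹' {y})) h2
    rw [LES_res hcl' hZ', Lawson_res_tw ht hcl', ← Lawson_tw_res hcl hr, LES_res hcl hc] at h4
    have hcy : c ∈ ZZ (cc {y}) {y} := ⟨LES_cc_res hcl hc.1, LES_N0_mono hcl.subset hc.2⟩
    have h5 : clc {y} c = c [y] • clc {y} one := by
      rw [← cls_smul _ (Lawson_one_mem_pt y),
        cls_eq_iff hcy (Submodule.smul_mem _ _ (Lawson_one_mem_pt y)),
        BB_cc_eq_bot isCompact_singleton]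
      exact point_ZZ hcy
    rw [h5, map_smul, (Lawson_tw_pt hr).2] at h4
    have h6 := (he y hy).symm.trans h4
    by_contra hne
    have h7 : (1 - c [y]) • clc (A' ∩ π ⁻¹' {y}) t = 0 := by
      rw [sub_smul, one_smul, ← h6, sub_self]
    exact (hg y hy).2.1 ((smul_eq_zero.1 h7).resolve_left (sub_ne_zero.2 (Ne.symm hne)))
  have h7 : clc A c = clc A one := (cls_eq_iff hc h1).2 (N0_le_BB _ _
    (deg_zero_mem_N0 (VB_hom_sub hc0 HomC.one) fun y hy => by simp [one, h3 y hy]))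
  have h8 : tw A A' π t (clc A c) = clc A' t := by rw [h7, hc1]
  exact h8.symm.trans h2.symm

/-- Two Thom cocycles with the same fibre classes define the same map. -/
theorem tw_eq_of_fibre {A : Set Y} {A' : Set Y'} (hA : LC A) (hA' : LC A') {π : Y' → Y}
    {t t' : Coch Y'} (ht : TwOK A A' π t) (ht' : TwOK A A' π t') {m : ℤ} (hm : HomC m t)
    (hm' : HomC m t') (hg : ∀ y ∈ A, IsGenOn (A' ∩ π ⁻¹' {y}) t)
    (he : ∀ y ∈ A, clc (A' ∩ π ⁻¹' {y}) t' = clc (A' ∩ π ⁻¹' {y}) t) :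
    tw A A' π t = tw A A' π t' := by
  refine Tw_ext fun a ha => ?_
  obtain ⟨W, K, hW, hsW, hK, hKA, hWK⟩ :=
    hA.exists_open_compact (mem_CC_cc.1 ha.1).2 (supp_subset A a)
  have hKc : ClosedIn K A := ⟨K, hK.isClosed, (inter_eq_right.2 hKA).symm⟩
  have hfib : ∀ y ∈ K, A' ∩ π ⁻¹' K ∩ π ⁻¹' {y} = A' ∩ π ⁻¹' {y} := fun y hy => by
    ext z
    exact ⟨fun hz => ⟨hz.1.1, hz.2⟩, fun hz => ⟨⟨hz.1, by
      rw [mem_preimage, mem_singleton_iff.1 hz.2]
      exact hy⟩, hz.2⟩⟩
  obtain ⟨-, -, e, he1, he2⟩ := Gen_compact hK (hA'.closedIn (hKc.preimage ht.1 ht.2.1))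
    (ht.restrict hKA) (ht'.restrict hKA) hm hm'
    (fun y hy => by rw [hfib y hy]; exact hg y (hKA hy))
    (fun y hy => by rw [hfib y hy]; exact he y (hKA hy))
  obtain ⟨he3, he4⟩ := mem_CC_cc.1 he1
  have hU : OpenIn (A ∩ W) A := ⟨W, hW, rfl⟩
  have hsub : A' ∩ π ⁻¹' (A ∩ W) ⊆ A' ∩ π ⁻¹' K := inter_subset_inter_right _ (preimage_mono hWK)
  have h1 : tw (A ∩ W) (A' ∩ π ⁻¹' (A ∩ W)) π t = tw (A ∩ W) (A' ∩ π ⁻¹' (A ∩ W)) π t' := by
    refine tw_congr (ht.restrict hU.subset) (ht'.restrict hU.subset) he3 (fun C hC hCU => ?_)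
      (LES_N0_mono hsub he2)
    have hs : supp (A' ∩ π ⁻¹' K) e ⊆ A' := (supp_subset _ e).trans inter_subset_left
    have hCc : ClosedIn C A := ⟨C, hC.isClosed, (inter_eq_right.2 (hCU.trans hU.subset)).symm⟩
    exact ⟨supp (A' ∩ π ⁻¹' K) e ∩ π ⁻¹' C,
      (hCc.preimage (ht.1.mono hs) (ht.2.1.mono_left hs)).isCompact he4 Subset.rfl
        inter_subset_left, fun y hy => ⟨hs hy.1, hCU hy.2⟩,
      inter_subset_inter_left _ (supp_mono hsub e)⟩
  have h2 := (ext_cls_of_supp hU ha (subset_inter (supp_subset A a) hsW)).2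
  have h3 := LinearMap.congr_fun (tw_ext ht hU rfl) (clc (A ∩ W) a)
  have h4 := LinearMap.congr_fun (tw_ext ht' hU rfl) (clc (A ∩ W) a)
  rw [LinearMap.comp_apply, LinearMap.comp_apply, h2] at h3 h4
  rw [h1] at h3
  exact h3.trans h4.symm

/-- Over a compact base they are cohomologous. -/
theorem sub_mem_BB_of_fibre {A : Set Y} {A' : Set Y'} (hA : IsCompact A) (hA' : LC A')
    {π : Y' → Y} {t t' : Coch Y'} (ht : TwOK A A' π t) (ht' : TwOK A A' π t') {m : ℤ}
    (hm : HomC m t) (hm' : HomC m t') (hg : ∀ y ∈ A, IsGenOn (A' ∩ π ⁻¹' {y}) t)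
    (he : ∀ y ∈ A, clc (A' ∩ π ⁻¹' {y}) t' = clc (A' ∩ π ⁻¹' {y}) t) :
    t ∈ ZZ (cc A') A' ∧ t' ∈ ZZ (cc A') A' ∧ t - t' ∈ BB (cc A') A' :=
  Gen_compact hA hA' ht ht' hm hm' hg he

end Pool.Agent.HK
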