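import Pool.Agent.P.MP_1206ce_ag.BO.Proj_C
import Pool.Agent.P.MP_1206ce_ag.Alg.Artin

/-! Orbits of frames and the vanishing of the invariants on flag manifolds. -/

open scoped Topology
open Filter Set

noncomputable section

namespace Pool.Agent.HK

variable {V Λ : Type} [Fintype V] [DecidableEq V]

theorem Proj_clc_sum {ι : Type} [Fintype ι] {E : Set (Fr V)} (h : IsCompact E) {n : ℕ}
    (hn : E ⊆ Inj (id : V → V) n) (z : ι → ℂ) (x : ι → MvPolynomial V ℂ) :
    ∑ i, z i • clc (BS (TT V) ptAct univ E) (polyC (x i)) = clc _ (polyC (∑ i, z i • x i)) := by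
  rw [map_sum, clc, cls_sum _ fun i _ => Proj_polyC_ZZ h hn _]
  exact Finset.sum_congr rfl fun i _ => by rw [map_smul, cls_smul _ (Proj_polyC_ZZ h hn _)]

theorem Proj_clc_zero {E : Set (Fr V)} (h : IsCompact E) {n : ℕ} (hn : E ⊆ Inj (id : V → V) n)
    (p : MvPolynomial V ℂ) : clc (BS (TT V) ptAct univ E) (polyC p) = 0 ↔
      polyC p ∈ BB ⊥ (BS (TT V) ptAct univ E) := by
  rw [clc, cls_eq_zero_iff (Proj_polyC_ZZ h hn p), BB_cc_eq_bot (Proj_compact_BS h)]

theorem Proj_mul_mem {E : Set (Fr V)} {n : ℕ} (hn : E ⊆ Inj (id : V → V) n)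
    {p : MvPolynomial V ℂ} (hp : polyC p ∈ BB ⊥ (BS (TT V) ptAct univ E)) (q : MvPolynomial V ℂ) :
    polyC (p * q) ∈ BB ⊥ (BS (TT V) ptAct univ E) := by
  have := add_mem (VB_BB_mono (Proj_BS_mono hn) (polyC_mul p q n))
    (cup_mem_BB_left (polyC_bdd p).1 hp (Proj_polyC_ZZ' hn q))
  rwa [sub_add_cancel] at this

omit [Fintype V] in
theorem Proj_prod_expand (s : Finset V) :
    ∏ k ∈ s, (MvPolynomial.X (some k) + -MvPolynomial.X none : MvPolynomial (Option V) ℂ) =
      ∑ a : Fin s.card, (1 : ℂ) • (MvPolynomial.rename some ((-1 : ℂ) ^ (a : ℕ) •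
        Artin_E s (s.card - a)) * MvPolynomial.X none ^ (a : ℕ)) +
        (-1 : ℂ) ^ s.card • MvPolynomial.X none ^ s.card := by
  have h1 : ∀ b, ∑ t ∈ Finset.powersetCard b s, (∏ k ∈ t, MvPolynomial.X (some k)) *
      ∏ _k ∈ s \ t, (-MvPolynomial.X none : MvPolynomial (Option V) ℂ) =
      MvPolynomial.rename some (Artin_E s b) * (-MvPolynomial.X none) ^ (s.card - b) := by
    intro b
    rw [Artin_E, map_sum, Finset.sum_mul]
    refine Finset.sum_congr rfl fun t ht => ?_
    obtain ⟨h1, h2⟩ := Finset.mem_powersetCard.1 ht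
    rw [Finset.prod_const, Finset.card_sdiff_of_subset h1, h2, map_prod]
    simp only [MvPolynomial.rename_X]
  have h2 : ∀ a : ℕ, (-MvPolynomial.X none : MvPolynomial (Option V) ℂ) ^ a =
      (-1 : ℂ) ^ a • MvPolynomial.X none ^ a := fun a => by
    rw [← smul_pow, neg_smul, one_smul]
  rw [Finset.prod_add, Finset.sum_powerset, ← Finset.sum_range_reflect, Finset.sum_range_succ,
    ← Fin.sum_univ_eq_sum_range (fun a => ∑ t ∈ Finset.powersetCard (s.card + 1 - 1 - a) s,
      (∏ k ∈ t, MvPolynomial.X (some k)) *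
        ∏ _k ∈ s \ t, (-MvPolynomial.X none : MvPolynomial (Option V) ℂ))]
  simp only [h1, Nat.add_sub_cancel, Nat.sub_self, Artin_E_zero, map_one, one_mul, Nat.sub_zero,
    h2, one_smul, map_smul, smul_mul_assoc, mul_smul_comm]
  congr 1
  refine Finset.sum_congr rfl fun a _ => ?_
  rw [Nat.sub_sub_self a.2.le]

/-- The elementary symmetric functions of a block vanish on a full flag manifold. -/
theorem Proj_esymm (lab : V → Λ) {n : ℕ} {E : Λ → Submodule ℂ (ℕ → ℂ)}
    (hE : ∀ i, ∀ v ∈ E i, ∀ j, n ≤ j → v j = 0) (i : Λ) {s : Finset V}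
    (hs : ∀ k, k ∈ s ↔ lab k = i) (hd : Module.finrank ℂ (E i) = s.card) {b : ℕ} (hb : 0 < b) :
    polyC (Artin_E s b) ∈ BB ⊥ (BS (TT V) ptAct univ (StE lab n E)) := by
  by_cases hbs : s.card < b
  · rw [Artin_E_big hbs, map_zero]
    exact zero_mem _
  have := Proj_nice (V := V)
  have := Proj_nice (V := Option V)
  have := Proj_fd (hE i)
  set lab' : Option V → Option Λ := Option.map lab with hlab
  set E' : Option Λ → Submodule ℂ (ℕ → ℂ) := fun o => o.elim (E i) E with hE1
  have hE' : ∀ o, ∀ v ∈ E' o, ∀ j, n ≤ j → v j = 0 := fun o => by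
    cases o with
    | none => exact hE i
    | some o => exact hE o
  have hSt : StE (fun k => lab' (some k)) n E' = StE lab n E := by
    ext e
    simp [StE, St, hlab, hE1]
  have hI := Proj_StE_Inj lab' n E'
  have hC := Proj_isCompact_StE lab' n E'
  have hm := Proj_r_mapsTo some (Option.some_injective V) lab' n E'
  have hbij : Function.Bijective (lhMap (BS (TT V) ptAct univ (StE (fun k => lab' (some k)) n E'))
      (BS (TT (Option V)) ptAct univ (StE lab' n E')) (Proj_r some)
      fun a : Fin s.card => polyC (MvPolynomial.X none ^ (a : ℕ))) := by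
    refine Proj_step (Equiv.refl _) lab' hE' ?_ (by omega)
    have : IsEmpty {l // lab' (Equiv.refl _ (some l)) = lab' (Equiv.refl _ none)} :=
      ⟨fun l => Option.some_ne_none _ l.2⟩
    rw [Nat.card_of_isEmpty, Nat.sub_zero]
    exact hd.symm
  rw [hSt] at hbij hm
  have hP : Inv (TT (Option V)) ptAct (univ ×ˢ StE lab' n E') :=
    Inv.prod (fun _ _ _ _ => mem_univ _) (Proj_invF_StE lab' n E')
  have h1 := euler_vanish Proj_act Subset.rfl hP (fun p hp => hI hp.2)
    (fun k : s => Pi.single (some k.1) 1 + -Pi.single none 1)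
    (fun p k => Proj_ip n (fun j => p.2 j (some k.1)) fun j => p.2 j none) ?_ ?_ ?_
  · have h2 := Proj_pow_vanish Proj_act Subset.rfl hP (fun p hp => hI hp.2) none (E i)
      fun p hp => hp.2.2 none
    simp only [linF_add, linF_neg, linF_single] at h1
    rw [polyX_pt, ← BS_eq] at h1 h2
    rw [Finset.prod_coe_sort s fun k => MvPolynomial.X (some k) + -MvPolynomial.X none,
      Proj_prod_expand, map_add, map_smul] at h1
    rw [hd] at h2
    have h3 := (Proj_clc_zero hC hI _).2 ((Submodule.add_mem_iff_left _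
      (Submodule.smul_mem _ _ h2)).1 h1)
    rw [← Proj_clc_sum hC hI] at h3
    have h4 := (injective_iff_map_eq_zero _).1 hbij.1
      (fun a => clc _ (polyC ((-1 : ℂ) ^ (a : ℕ) • Artin_E s (s.card - a)))) (by
        rw [lhMap_apply, ← h3]
        refine Finset.sum_congr rfl fun a _ => ?_
        rw [one_smul, Proj_tw hC (Proj_isCompact_StE lab n E) hI (Proj_StE_Inj lab n E) hm])
    have h5 := (Proj_clc_zero (Proj_isCompact_StE lab n E) (Proj_StE_Inj lab n E) _).1
      (congrFun h4 ⟨s.card - b, by omega⟩)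
    rw [map_smul, Submodule.smul_mem_iff _ (pow_ne_zero _ (by norm_num))] at h5
    rwa [Nat.sub_sub_self (not_lt.1 hbs)] at h5
  · refine Continuous.continuousOn (continuous_pi fun k => ?_)
    simp only [Proj_ip_apply]
    fun_prop
  · intro u hu p _ k
    rw [chr_add _ _ hu, chr_neg _ hu, chr_single, chr_single]
    have := Proj_ip_mul n (fun j => p.2 j (some k.1)) (fun j => p.2 j none)
      (star (u (some k.1) (some k.1))) (star (u none none))
    rw [star_star] at this
    rw [← this]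
    change Proj_ip n (fun j => frAct u p.2 j _) (fun j => frAct u p.2 j _) = _
    simp only [Proj_frAct_TT hu]
  · rintro ⟨x, e⟩ ⟨-, he⟩ h0
    have h2 := Proj_finrank_perp (n := n) (E := E i) (c := fun (k : s) j => e j (some k.1))
      (fun k => (congrArg E ((hs _).1 k.2)).le (he.2 (some k.1))) fun k l =>
        (he.1.2 (some k.1) (some l.1) (congrArg some (((hs _).1 k.2).trans
          ((hs _).1 l.2).symm))).trans (if_congr (Option.some_inj.trans Subtype.ext_iff.symm) rfl rfl)
    have := Proj_fd (n := n) (W := Proj_perp n (E i) fun (k : s) j => e j (some k.1))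
      fun v hv => hE i v (Proj_mem_perp.1 hv).1
    rw [Fintype.card_coe, hd, Nat.add_eq_right, Submodule.finrank_eq_zero] at h2
    have h3 : (fun j => e j none) ∈ Proj_perp n (E i) fun (k : s) j => e j (some k.1) :=
      Proj_mem_perp.2 ⟨he.2 none, fun k => congrFun h0 k⟩
    rw [h2, Submodule.mem_bot] at h3
    obtain ⟨j, hj⟩ := (mem_Inj_id.1 (hI he)).2 none
    exact hj (congrFun h3 j)

/-- Invariants without constant term vanish on a full flag manifold. -/
theorem Proj_inv_vanish (lab : V → Λ) {n : ℕ} {E : Λ → Submodule ℂ (ℕ → ℂ)}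
    (hE : ∀ i, ∀ v ∈ E i, ∀ j, n ≤ j → v j = 0)
    (hd : ∀ i, Module.finrank ℂ (E i) = Nat.card {k // lab k = i}) {h : MvPolynomial V ℂ}
    (hh : h ∈ Rinv lab) : polyC (h - MvPolynomial.C (MvPolynomial.constantCoeff h)) ∈
      BB ⊥ (BS (TT V) ptAct univ (StE lab n E)) := by
  rw [Rinv_eq_adjoin_esymm] at hh
  induction hh using Algebra.adjoin_induction with
  | mem p hp =>
    obtain ⟨i, a, rfl⟩ := hp
    rcases Nat.eq_zero_or_pos a with rfl | ha
    · simp
    · rw [map_sum MvPolynomial.constantCoeff,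
        Finset.sum_eq_zero (f := fun t => MvPolynomial.constantCoeff (∏ k ∈ t, MvPolynomial.X k)),
        map_zero, sub_zero]
      · refine Proj_esymm lab hE i (fun k => by simp) ?_ ha
        rw [hd]
        exact Nat.subtype_card _ fun k => by simp
      · intro t ht
        obtain ⟨k, hk⟩ : t.Nonempty :=
          Finset.card_pos.1 ((Finset.mem_powersetCard.1 ht).2.symm ▸ ha)
        rw [map_prod]
        exact Finset.prod_eq_zero hk (MvPolynomial.constantCoeff_X _ k)
  | algebraMap r => simp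
  | add p q _ _ hp hq =>
    rw [map_add, map_add, add_sub_add_comm, map_add]
    exact add_mem hp hq
  | mul p q _ _ hp hq =>
    have : p * q - MvPolynomial.C (MvPolynomial.constantCoeff (p * q)) =
        (p - MvPolynomial.C (MvPolynomial.constantCoeff p)) * q +
          (q - MvPolynomial.C (MvPolynomial.constantCoeff q)) *
            MvPolynomial.C (MvPolynomial.constantCoeff p) := by
      rw [map_mul, map_mul]
      ring
    rw [this, map_add]
    exact add_mem (Proj_mul_mem (Proj_StE_Inj lab n E) hp _)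
      (Proj_mul_mem (Proj_StE_Inj lab n E) hq _)

/-- The span of the columns of a block. -/
def Proj_E (lab : V → Λ) (e : Fr V) (i : Λ) : Submodule ℂ (ℕ → ℂ) :=
  Submodule.span ℂ (range fun (k : {k // lab k = i}) j => e j k.1)

theorem Proj_mem_E {lab : V → Λ} {e : Fr V} {i : Λ} {v : ℕ → ℂ} :
    v ∈ Proj_E lab e i ↔
      ∃ a : V → ℂ, (∀ l, lab l ≠ i → a l = 0) ∧ v = ∑ l, a l • fun j => e j l := by
  constructor
  · intro hv
    induction hv using Submodule.span_induction with
    | mem x hx =>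
      obtain ⟨k, rfl⟩ := hx
      refine ⟨Pi.single k.1 1, fun l hl => Pi.single_eq_of_ne
        (fun h => hl ((congrArg lab h).trans k.2)) _, ?_⟩
      rw [Finset.sum_eq_single k.1 (fun l _ hl => by rw [Pi.single_eq_of_ne hl, zero_smul])
        (fun h => absurd (Finset.mem_univ _) h), Pi.single_eq_same, one_smul]
    | zero => exact ⟨0, fun _ _ => rfl, by simp⟩
    | add x y _ _ hx hy =>
      obtain ⟨a, ha, rfl⟩ := hx
      obtain ⟨b, hb, rfl⟩ := hy
      exact ⟨a + b, fun l hl => by simp [ha l hl, hb l hl], by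
        simp [add_smul, Finset.sum_add_distrib]⟩
    | smul z x _ hx =>
      obtain ⟨a, ha, rfl⟩ := hx
      exact ⟨z • a, fun l hl => by simp [ha l hl], by simp [Finset.smul_sum, smul_smul]⟩
  · rintro ⟨a, ha, rfl⟩
    refine Submodule.sum_mem _ fun l _ => ?_
    by_cases hl : lab l = i
    · exact Submodule.smul_mem _ _ (Submodule.subset_span ⟨⟨l, hl⟩, rfl⟩)
    · rw [ha l hl, zero_smul]
      exact zero_mem _

omit [Fintype V] in
theorem Proj_E_le {lab : V → Λ} {n : ℕ} {e : Fr V} (he : e ∈ St lab n) (i : Λ) :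
    ∀ v ∈ Proj_E lab e i, ∀ j, n ≤ j → v j = 0 := by
  have : Proj_E lab e i ≤ Proj_FN n := Submodule.span_le.2 (by
    rintro _ ⟨k, rfl⟩ j hj
    exact congrFun (he.1 j hj) k.1)
  exact this

theorem Proj_E_finrank {lab : V → Λ} {n : ℕ} {e : Fr V} (he : e ∈ St lab n) (i : Λ) :
    Module.finrank ℂ (Proj_E lab e i) = Nat.card {k // lab k = i} := by
  classical
  rw [Nat.card_eq_fintype_card]
  refine finrank_span_eq_card (Fintype.linearIndependent_iff.2 fun g hg k => ?_)
  have h1 := congrArg (Proj_ip n fun j => e j k.1) hg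
  have h2 : ∀ l : {k // lab k = i}, Proj_ip n (fun j => e j k.1) (fun j => e j l.1) =
      if k = l then 1 else 0 := fun l =>
    (he.2 k.1 l.1 (k.2.trans l.2.symm)).trans (if_congr Subtype.ext_iff.symm rfl rfl)
  simpa [map_sum, map_smul, h2] using h1

omit [DecidableEq V] in
theorem Proj_frAct_col (u : Matrix V V ℂ) (e : Fr V) (k : V) :
    (fun j => frAct u e j k) = ∑ l, star (u k l) • fun j => e j l := by
  funext j
  simp [frAct, Matrix.vecMul, dotProduct, Matrix.star_apply, mul_comm]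

theorem Proj_orbit_eq (lab : V → Λ) {n : ℕ} {e : Fr V} (he : e ∈ St lab n) :
    {e' | ∃ u ∈ KG lab, e' = frAct u e} = StE lab n (Proj_E lab e) := by
  ext e'
  constructor
  · rintro ⟨u, hu, rfl⟩
    exact ⟨invF_St Subset.rfl n u hu e he, fun k => Proj_mem_E.2 ⟨fun l => star (u k l),
      fun l hl => star_eq_zero.2 (hu.2 k l (Ne.symm hl)), Proj_frAct_col u e k⟩⟩
  · intro he'
    choose a ha0 ha using fun k => Proj_mem_E.1 (he'.2 k)
    have hc : ∀ l k, lab l = lab k → Proj_ip n (fun j => e j l) (fun j => e' j k) = a k l := by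
      intro l k hl
      rw [ha, map_sum, Finset.sum_eq_single l]
      · rw [map_smul, show Proj_ip n (fun j => e j l) (fun j => e j l) = 1 from
          (he.2 l l rfl).trans (if_pos rfl), smul_eq_mul, mul_one]
      · intro l' _ hl'
        by_cases h : lab l' = lab k
        · rw [map_smul, show Proj_ip n (fun j => e j l) (fun j => e j l') = 0 from
            (he.2 l l' (hl.trans h.symm)).trans (if_neg (Ne.symm hl')), smul_zero]
        · rw [ha0 k l' h, zero_smul, map_zero]
      · exact fun h => absurd (Finset.mem_univ _) h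
    refine ⟨Matrix.of fun k l => star (a k l), ⟨Matrix.mem_unitaryGroup_iff.2 ?_, fun k l h => ?_⟩,
      funext fun j => funext fun k => ?_⟩
    · ext k k'
      simp only [Matrix.mul_apply, Matrix.star_apply, Matrix.of_apply, star_star, Matrix.one_apply]
      by_cases h : lab k = lab k'
      · rw [← he'.1.2 k k' h]
        change _ = Proj_ip n (fun j => e' j k) (fun j => e' j k')
        rw [ha k', map_sum]
        refine Finset.sum_congr rfl fun l _ => ?_
        by_cases hl : lab l = lab k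
        · rw [map_smul, ← Proj_ip_star, hc l k hl, smul_eq_mul, mul_comm]
        · rw [ha0 k' l (h ▸ hl), zero_smul, map_zero, mul_zero]
      · rw [if_neg fun hk => h (congrArg lab hk)]
        refine Finset.sum_eq_zero fun l _ => ?_
        by_cases hl : lab l = lab k
        · rw [ha0 k' l (hl ▸ h), mul_zero]
        · rw [ha0 k l hl, star_zero, zero_mul]
    · rw [Matrix.of_apply, ha0 k l (Ne.symm h), star_zero]
    · have := congrFun (Proj_frAct_col (Matrix.of fun k l => star (a k l)) e k) j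
      simp only [Matrix.of_apply, star_star] at this
      rw [this, ← ha]

theorem Proj_orbit_compact (lab : V → Λ) (e : Fr V) :
    IsCompact {e' | ∃ u ∈ KG lab, e' = frAct u e} := by
  have : {e' | ∃ u ∈ KG lab, e' = frAct u e} = (fun u => frAct u e) '' KG lab := by
    ext e'
    exact exists_congr fun u => and_congr_right fun _ => eq_comm
  rw [this]
  exact (isGrp_KG lab).isCompact.image
    (continuous_frAct.comp (continuous_id.prodMk continuous_const))

theorem Proj_orbit_Inj (lab : V → Λ) {n : ℕ} {e : Fr V} (he : e ∈ Inj lab n) :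
    {e' | ∃ u ∈ KG lab, e' = frAct u e} ⊆ Inj lab n := by
  rintro _ ⟨u, hu, rfl⟩
  exact invF_Inj Subset.rfl n u hu e he

/-- The polar retraction identifies the orbit of a frame with a flag manifold. -/
theorem Proj_orbit (lab : V → Λ) {n : ℕ} {e : Fr V} (he : e ∈ Inj lab n) :
    ∃ e₁ ∈ St lab n, ∃ f g : BT V → BT V,
      HomeoOn f g (BS (TT V) ptAct univ {e' | ∃ u ∈ KG lab, e' = frAct u e})
        (BS (TT V) ptAct univ (StE lab n (Proj_E lab e₁))) ∧
      ∀ p, polyC p - pb f (polyC p) ∈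
        BB ⊥ (BS (TT V) ptAct univ {e' | ∃ u ∈ KG lab, e' = frAct u e}) := by
  have := Proj_nice (V := V)
  have : Nonempty (BT V) := ⟨bmk _ _ ((), 0)⟩
  obtain ⟨H, hc, hm, h01, -, hq⟩ := exists_polar lab n
  have h1 : (1 : ℝ) ∈ Icc (0 : ℝ) 1 := ⟨zero_le_one, le_rfl⟩
  have hG := isGrp_KG lab
  have hO := Proj_orbit_Inj lab he
  have hC := Proj_compact_BS (Proj_orbit_compact lab e)
  set O := {e' | ∃ u ∈ KG lab, e' = frAct u e} with hOdef
  have hinv : InvF (TT V) O := by
    rintro t ht _ ⟨u, hu, rfl⟩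
    exact ⟨t * u, hG.mul _ (TT_subset lab ht) _ hu, (frAct_mul t u e).symm⟩
  have hP : Inv (TT V) ptAct (univ ×ˢ O) := Inv.prod (fun _ _ _ _ => mem_univ _) hinv
  have hD : ∀ s ∈ Icc (0 : ℝ) 1, Desc (TT V) ptAct (univ ×ˢ O)
      fun p => bmk (TT V) ptAct ((), H (p.2, s)) := by
    intro s hs u hu p hp
    change bmk (TT V) ptAct ((), H (frAct u p.2, s)) = _
    rw [hq u (TT_subset lab hu) _ (hO hp.2) s hs]
    exact bmk_bact hu ((), H (p.2, s))
  have hcont : ContinuousOn (fun q : BT V × ℝ => bmk (TT V) ptAct ((), H ((Quot.out q.1).2, q.2)))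
      (BS (TT V) ptAct univ O ×ˢ Icc 0 1) := by
    rw [BS_eq]
    exact Proj_act.continuousOn_blift_param hP
      (F := fun p : (Unit × Fr V) × ℝ => bmk (TT V) ptAct ((), H (p.1.2, p.2))) hD
      (continuous_bmk.comp_continuousOn (continuousOn_const.prodMk
        (hc.comp (Continuous.continuousOn (by fun_prop)) fun p hp => ⟨hO hp.1.2, hp.2⟩)))
  have hout : ∀ q ∈ BS (TT V) ptAct univ O, (Quot.out q).2 ∈ Inj lab n := fun q hq' => by
    rw [BS_eq, Proj_act.out_mem hP] at hq'
    exact hO hq'.2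
  have hf : ∀ u ∈ KG lab, bmk (TT V) ptAct ((), H ((Quot.out (bmk (TT V) ptAct
      ((), frAct u e))).2, 1)) = bmk (TT V) ptAct ((), frAct u (H (e, 1))) := fun u hu => by
    rw [← hq u hu e he 1 h1]
    exact Proj_act.blift_bmk (hD 1 h1) (p := ((), frAct u e)) ⟨mem_univ _, u, hu, rfl⟩
  have hb : BijOn (fun q : BT V => bmk (TT V) ptAct ((), H ((Quot.out q).2, 1)))
      (BS (TT V) ptAct univ O) (BS (TT V) ptAct univ (StE lab n (Proj_E lab (H (e, 1))))) := by
    rw [← Proj_orbit_eq lab (h01 e he).2]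
    refine ⟨fun q hq' => ?_, fun q hq1 q' hq2 h => ?_, fun q hq' => ?_⟩
    · obtain ⟨_, ⟨u, hu, rfl⟩, rfl⟩ := Proj_mem_BS.1 hq'
      exact Proj_mem_BS.2 ⟨_, ⟨u, hu, rfl⟩, hf u hu⟩
    · obtain ⟨_, ⟨u, hu, rfl⟩, rfl⟩ := Proj_mem_BS.1 hq1
      obtain ⟨_, ⟨v, hv, rfl⟩, rfl⟩ := Proj_mem_BS.1 hq2
      obtain ⟨t, ht, h2⟩ := Proj_act.bmk_eq_iff.1 ((hf u hu).symm.trans (h.trans (hf v hv)))
      have h3 : frAct v (H (e, 1)) = frAct t (frAct u (H (e, 1))) := congrArg Prod.snd h2
      have htu := hG.mul _ (TT_subset lab ht) _ hu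
      have h4 := freeOn_Inj Subset.rfl n _ (hG.mul _ (hG.star v hv) _ htu) _
        (St_subset_Inj lab n (h01 e he).2) (by
          rw [frAct_mul, frAct_mul, ← h3, ← frAct_mul, hG.star_mul hv, frAct_one])
      have h5 : v = t * u := by
        rw [← one_mul (t * u), ← hG.mul_star hv, mul_assoc, h4, mul_one]
      rw [h5, frAct_mul]
      exact (bmk_bact ht ((), frAct u e)).symm
    · obtain ⟨_, ⟨u, hu, rfl⟩, rfl⟩ := Proj_mem_BS.1 hq'
      exact ⟨_, Proj_mem_BS.2 ⟨_, ⟨u, hu, rfl⟩, rfl⟩, hf u hu⟩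
  obtain ⟨g, hg⟩ := (ProperOn.of_isCompact hC (hcont.comp (f := fun q => (q, (1 : ℝ)))
    (Continuous.continuousOn (by fun_prop)) fun q hq' => ⟨hq', h1⟩) hb.1).exists_homeoOn
    (LC.of_isCompact (Proj_compact_BS (Proj_isCompact_StE lab n _))) hb
  refine ⟨H (e, 1), (h01 e he).2, _, g, hg, fun p => ?_⟩
  have h2 := homotopy_BB (LC.of_isCompact hC) hcont (fun q hq' => Proj_mem_BS.2
    ⟨_, Inj_subset_id lab n (hm ⟨hout _ hq'.1, hq'.2⟩), rfl⟩) (polyC_mem_ZZ p n)
  have h3 := N0_le_BB ⊥ _ (VB_pb_inv (A := BS (TT V) ptAct univ O)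
    (f := fun q => bmk (TT V) ptAct ((), H ((Quot.out q).2, 0))) (fun q hq' => by
      rw [(h01 _ (hout q hq')).1]
      exact bmk_out q) (polyC p))
  have h4 := sub_mem h2 h3
  rwa [sub_sub_sub_cancel_left] at h4

end Pool.Agent.HK
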