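import Pool.Agent.P.MP_1206ce_ag.BO.Thom
import Pool.Agent.P.MP_1206ce_ag.Alg.Artin
import Pool.Agent.P.MP_1206ce_ag.BO.Proj_D

/-! Cohomology of towers of projective bundles and of flag manifolds. -/

open scoped Topology
open Filter Set

noncomputable section

namespace Pool.Agent.HK

variable {V Λ : Type} [Fintype V] [DecidableEq V]

open Classical in
/-- Number of later variables in the block. -/
def cposl (lab : V → Λ) (k : V) : ℕ :=
  (Finset.univ.filter fun l => lab l = lab k ∧ ordV k < ordV l).card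

theorem isCompact_StE (lab : V → Λ) (n : ℕ) (E : Λ → Submodule ℂ (ℕ → ℂ)) :
    IsCompact (StE lab n E) := Proj_isCompact_StE lab n E

omit [DecidableEq V] in
theorem Proj_cposl (lab : V → Λ) (k : V) :
    cposl lab k = Nat.card {l // lab l = lab k ∧ ordV k < ordV l} :=
  (Nat.subtype_card _ fun l => by simp).symm

omit [DecidableEq V] in
theorem Proj_cposl_lt (lab : V → Λ) (k : V) : cposl lab k < Fintype.card V := by
  classical
  exact Finset.card_lt_card
    (Finset.filter_ssubset.2 ⟨k, Finset.mem_univ k, fun h => lt_irrefl _ h.2⟩)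

omit [DecidableEq V] in
theorem Proj_card_block (lab : V → Λ) (k : V) :
    Nat.card {l // lab l = lab k} = posl lab k + 1 + cposl lab k := by
  classical
  rw [Nat.subtype_card (Finset.univ.filter fun l => lab l = lab k) fun l => by simp, posl, cposl,
    ← Finset.card_insert_of_notMem (a := k) (by simp), ← Finset.card_union_of_disjoint]
  · congr 1
    ext l
    simp only [Finset.mem_filter, Finset.mem_univ, true_and, Finset.mem_union, Finset.mem_insert]
    constructor
    · intro h
      rcases lt_trichotomy (ordV l) (ordV k) with h1 | h1 | h1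
      · exact Or.inl (Or.inr ⟨h, h1⟩)
      · exact Or.inl (Or.inl (ordV_injective h1))
      · exact Or.inr ⟨h, h1⟩
    · rintro ((rfl | h) | h)
      · rfl
      · exact h.1
      · exact h.1
  · refine Finset.disjoint_left.2 fun l h1 h2 => ?_
    simp only [Finset.mem_filter, Finset.mem_univ, true_and, Finset.mem_insert] at h1 h2
    rcases h1 with rfl | h1
    · exact lt_irrefl _ h2.2
    · exact lt_asymm h1.2 h2.2

omit [Fintype V] in
theorem Proj_St_eq (lab : V → Λ) (n : ℕ) : St lab n = StE lab n fun _ => Proj_FN n :=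
  Subset.antisymm (fun _ he => ⟨he, fun k j hj => congrFun (he.1 j hj) k⟩) fun _ he => he.1

omit [DecidableEq V] in
theorem Proj_monomial (f : V → ℕ) : (∏ k, MvPolynomial.X k ^ f k : MvPolynomial V ℂ) =
    MvPolynomial.monomial (Finsupp.equivFunOnFinite.symm f) 1 := by
  rw [MvPolynomial.monomial_eq, MvPolynomial.C_1, one_mul,
    Finsupp.prod_fintype _ _ fun _ => pow_zero _]
  rfl

/-- Monomial basis of the cohomology of `StE / T`. -/
theorem isBasisOn_StE (lab : V → Λ) (n : ℕ) (E : Λ → Submodule ℂ (ℕ → ℂ))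
    (hE : ∀ i, ∀ v ∈ E i, ∀ j, n ≤ j → v j = 0) :
    IsBasisOn (BS (TT V) ptAct univ (StE lab n E))
      fun I : (k : V) → Fin (Module.finrank ℂ (E (lab k)) - cposl lab k) =>
        polyC (∏ k, MvPolynomial.X k ^ (I k : ℕ)) :=
  Proj_main hE _ V rfl lab ordV ordV_injective _ fun k => by rw [Proj_cposl]

/-- The cohomology of `St / T` is generated by the first Chern classes. -/
theorem polyC_surj (lab : V → Λ) (n : ℕ) {k : ℤ} {w : Coch (BT V)}
    (hw : w ∈ ZZ ⊥ (BS (TT V) ptAct univ (St lab n))) (hk : HomC k w) :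
    ∃ p : MvPolynomial V ℂ, (p = 0 ∨ ∃ d : ℕ, k = 2 * (d : ℤ) ∧ p.IsHomogeneous d) ∧
      w - polyC p ∈ BB ⊥ (BS (TT V) ptAct univ (St lab n)) := by
  have hb := isBasisOn_StE lab n (fun _ => Proj_FN n) fun _ _ hv => hv
  rw [← Proj_St_eq] at hb
  have hC := isCompact_St lab n
  have hI : St lab n ⊆ Inj (id : V → V) n := (St_subset_Inj lab n).trans (Inj_subset_id lab n)
  obtain ⟨z, hz⟩ := (Proj_basis_iff.1 hb).2.2 (clc _ w)
  rw [Proj_clc_sum hC hI, eq_comm, cls_eq_iff (ZZ_cc_eq_bot (Proj_compact_BS hC) ▸ hw)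
    (Proj_polyC_ZZ hC hI _), BB_cc_eq_bot (Proj_compact_BS hC)] at hz
  have h1 := prC_mem_BB k hz
  rw [Basic_prC_sub, hk.prC_self] at h1
  by_cases hneg : k < 0
  · refine ⟨0, Or.inl rfl, ?_⟩
    rw [hk.eq_zero hw.1.1.1 hneg, map_zero, sub_zero]
    exact zero_mem _
  · rcases Int.even_or_odd k with ⟨d, hd⟩ | hodd
    · obtain ⟨d, rfl⟩ := Int.eq_ofNat_of_zero_le (a := d) (by omega)
      obtain rfl : k = 2 * (d : ℤ) := by omega
      rw [prC_polyC] at h1
      exact ⟨_, Or.inr ⟨d, rfl, MvPolynomial.homogeneousComponent_isHomogeneous d _⟩, h1⟩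
    · rw [prC_polyC_odd _ hodd] at h1
      exact ⟨0, Or.inl rfl, by rwa [map_zero]⟩

/-- No relations in the stable range. -/
theorem polyC_inj (lab : V → Λ) (n : ℕ) {p : MvPolynomial V ℂ} {d : ℕ} (hp : p.IsHomogeneous d)
    (hd : 2 * (d : ℤ) ≤ rng V n) (h : polyC p ∈ BB ⊥ (BS (TT V) ptAct univ (St lab n))) : p = 0 := by
  have hb := isBasisOn_StE lab n (fun _ => Proj_FN n) fun _ _ hv => hv
  rw [← Proj_St_eq] at hb
  have hC := isCompact_St lab n
  have hI : St lab n ⊆ Inj (id : V → V) n := (St_subset_Inj lab n).trans (Inj_subset_id lab n)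
  have key : ∑ I : (k : V) → Fin (Module.finrank ℂ (Proj_FN n) - cposl lab k),
      p.coeff (Finsupp.equivFunOnFinite.symm fun k => (I k : ℕ)) •
        (∏ k, MvPolynomial.X k ^ (I k : ℕ) : MvPolynomial V ℂ) = p := by
    ext m
    simp only [Proj_monomial, MvPolynomial.coeff_sum, MvPolynomial.coeff_smul,
      MvPolynomial.coeff_monomial, smul_eq_mul, mul_ite, mul_one, mul_zero]
    by_cases hm : p.coeff m = 0
    · rw [hm]
      refine Finset.sum_eq_zero fun I _ => ?_
      split_ifs with hI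
      · rw [hI, hm]
      · rfl
    · have hdeg : m.degree = d := by
        by_contra hne
        exact hm (hp.coeff_eq_zero hne)
      have hlt : ∀ k, m k < Module.finrank ℂ (Proj_FN n) - cposl lab k := fun k => by
        have h1 := Finsupp.le_degree k m
        have h2 := Proj_cposl_lt lab k
        rw [Proj_FN_finrank]
        unfold rng at hd
        omega
      have hm0 : (Finsupp.equivFunOnFinite.symm fun k => m k) = m :=
        Finsupp.equivFunOnFinite_symm_coe m
      rw [Finset.sum_eq_single fun k => ⟨m k, hlt k⟩]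
      · rw [if_pos hm0, hm0]
      · refine fun I _ hI => if_neg fun h => hI (funext fun k => Fin.ext ?_)
        exact DFunLike.congr_fun h k
      · exact fun h => absurd (Finset.mem_univ _) h
  have h0 := (Proj_basis_iff.1 hb).2.1
    (fun I => p.coeff (Finsupp.equivFunOnFinite.symm fun k => (I k : ℕ)))
    (by rw [Proj_clc_sum hC hI, key, Proj_clc_zero hC hI]; exact h)
  rw [← key]
  exact Finset.sum_eq_zero fun I _ => by rw [congrFun h0 I, Pi.zero_apply, zero_smul]

/-- The orbit of a frame: a product of flag manifolds with the Artin basis. -/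
theorem isBasisOn_orbit (lab : V → Λ) {n : ℕ} {e : Fr V} (he : e ∈ Inj lab n) :
    IsBasisOn (BS (TT V) ptAct univ {e' | ∃ u ∈ KG lab, e' = frAct u e})
      fun I : ArtI lab => polyC (xI lab I) := by
  obtain ⟨e₁, he₁, f, g, hg, hf⟩ := Proj_orbit lab he
  have hC := Proj_orbit_compact lab e
  refine IsBasisOn.of_homeoOn hg (Proj_main (Proj_E_le he₁) _ V rfl lab ordV ordV_injective
    (fun k => posl lab k + 1) fun k => ?_)
    (fun I => Proj_polyC_ZZ hC ((Proj_orbit_Inj lab he).trans (Inj_subset_id lab n)) _) fun I => ?_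
  · rw [Proj_E_finrank he₁, ← Proj_cposl, Proj_card_block, Nat.add_sub_cancel]
  · rw [BB_cc_eq_bot (Proj_compact_BS hC)]
    exact hf _

/-- Invariants of positive degree vanish on the orbit. -/
theorem polyC_orbit_inv (lab : V → Λ) {n : ℕ} {e : Fr V} (he : e ∈ Inj lab n)
    {h : MvPolynomial V ℂ} (hh : h ∈ Rinv lab) {d : ℕ} (hd : h.IsHomogeneous d) (h0 : 0 < d) :
    polyC h ∈ BB ⊥ (BS (TT V) ptAct univ {e' | ∃ u ∈ KG lab, e' = frAct u e}) := by
  obtain ⟨e₁, he₁, f, g, hg, hf⟩ := Proj_orbit lab he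
  have h1 := Proj_inv_vanish lab (Proj_E_le he₁) (Proj_E_finrank he₁) hh
  have h2 : MvPolynomial.constantCoeff h = 0 := hd.coeff_eq_zero (by
    rw [map_zero]
    omega)
  rw [h2, map_zero, sub_zero] at h1
  have h3 := add_mem (hf h) (pb_mem_BB hg.1 hg.2.2.1 h1)
  rwa [sub_add_cancel] at h3

end Pool.Agent.HK
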