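import Pool.Agent.P.MP_1206ce_ag.BO.Thom

/-! Cohomological algebra for towers of projective bundles: bases, the Gysin argument,
punctured vector spaces. -/

open scoped Topology
open Filter Set

noncomputable section

namespace Pool.Agent.HK

section basis
variable {Y Y' : Type} [TopologicalSpace Y] [TopologicalSpace Y']

theorem Proj_basis_iff {ι : Type} [Fintype ι] {S : Set Y} {w : ι → Coch Y} :
    IsBasisOn S w ↔ (∀ i, w i ∈ ZZ (cc S) S) ∧ (∀ z : ι → ℂ, ∑ i, z i • clc S (w i) = 0 → z = 0) ∧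
      ∀ x : Hc S, ∃ z : ι → ℂ, ∑ i, z i • clc S (w i) = x := by
  refine and_congr_right fun _ => and_congr_left fun _ => ?_
  constructor
  · intro h z hz
    refine h ?_
    simp only [Pi.zero_apply, zero_smul, Finset.sum_const_zero]
    exact hz
  · intro h z z' hz
    refine sub_eq_zero.1 (h _ ?_)
    have hz' : ∑ i, z i • clc S (w i) = ∑ i, z' i • clc S (w i) := hz
    simp only [Pi.sub_apply, sub_smul, Finset.sum_sub_distrib, hz', sub_self]

/-- The empty set has the empty basis. -/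
theorem Proj_basis_empty {ι : Type} [Fintype ι] [IsEmpty ι] (w : ι → Coch Y) :
    IsBasisOn (∅ : Set Y) w :=
  Proj_basis_iff.2 ⟨fun i => isEmptyElim i, fun _ _ => funext fun i => isEmptyElim i,
    fun _ => ⟨0, Subsingleton.elim _ _⟩⟩

/-- A basis of the total space from the Leray-Hirsch isomorphism and a basis of the base. -/
theorem Proj_basis_lh [Nice Y] [Nice Y'] {ι κ μ : Type} [Fintype ι] [Fintype κ] [Fintype μ]
    {A : Set Y} {A' : Set Y'} {π : Y' → Y} {w : ι → Coch Y'} (hb : Function.Bijective (lhMap A A' π w)) {b : κ → Coch Y}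
    (hA : IsBasisOn A b) (e : μ ≃ ι × κ) {c : μ → Coch Y'} (hc : ∀ m, c m ∈ ZZ (cc A') A')
    (h : ∀ m, clc A' (c m) = tw A A' π (w (e m).1) (clc A (b (e m).2))) : IsBasisOn A' c := by
  obtain ⟨-, h1, h2⟩ := Proj_basis_iff.1 hA
  have key : ∀ z : μ → ℂ, ∑ m, z m • clc A' (c m) =
      lhMap A A' π w fun i => ∑ k, z (e.symm (i, k)) • clc A (b k) := by
    intro z
    rw [lhMap_apply, ← e.symm.sum_comp, Fintype.sum_prod_type]
    refine Finset.sum_congr rfl fun i _ => ?_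
    rw [map_sum]
    refine Finset.sum_congr rfl fun k _ => ?_
    rw [h, e.apply_symm_apply, map_smul]
  refine Proj_basis_iff.2 ⟨hc, fun z hz => ?_, fun x => ?_⟩
  · rw [key] at hz
    have h0 := (injective_iff_map_eq_zero _).1 hb.1 _ hz
    funext m
    have := congrFun (h1 (fun k => z (e.symm ((e m).1, k))) (congrFun h0 (e m).1)) (e m).2
    simpa using this
  · obtain ⟨y, rfl⟩ := hb.2 x
    choose z hz using fun i => h2 (y i)
    refine ⟨fun m => z (e m).1 (e m).2, ?_⟩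
    rw [key]
    congr 1
    funext i
    simpa using hz i

end basis

section gysin
variable {Y : Type} [TopologicalSpace Y] [Nice Y]

/-- Compactly supported cohomology concentrated in degrees `1` and `D`, at most a line in each. -/
def Proj_Two (D : ℤ) (U : Set Y) : Prop :=
  (∀ k, k ≠ 1 → k ≠ D → ∀ u : Hc U, prH _ U k u = 0) ∧
    (∃ g : Hc U, ∀ u : Hc U, ∃ z : ℂ, prH _ U 1 u = z • g) ∧
    ∃ g : Hc U, ∀ u : Hc U, ∃ z : ℂ, prH _ U D u = z • g

omit [Nice Y] in
theorem Proj_res_prH {A A' : Set Y} (h : ClosedIn A' A) (k : ℤ) (x : Hc A) :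
    prH _ A' k (res A A' x) = res A A' (prH _ A k x) := by
  have := tw_prH (h.properOn.twOK (one_mem_ZZ A')) HomC.one k x
  rwa [add_zero] at this

/-- A punctured cell. -/
theorem Proj_two_punct {W : Set Y} (hW : LC W) {D : ℤ} (hD : D ≠ 1) (hg : Euclid_Gen D W) {y : Y}
    (hy : y ∈ W) : Proj_Two D (W \ {y}) := by
  have hcl : ClosedIn {y} W :=
    ⟨{y}, isClosed_singleton, (inter_eq_right.2 (singleton_subset_iff.2 hy)).symm⟩
  obtain ⟨δ, -, -, h3, h4, -⟩ := les hW hcl rfl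
  obtain ⟨x, hx, -, hxg⟩ := hg
  obtain ⟨p, hp, -, hpg⟩ := Euclid_gen_point y
  have hδ : ∀ k q, k ≠ 1 → prH _ (W \ {y}) k (δ q) = 0 := by
    intro k q hk
    obtain ⟨z, rfl⟩ := hpg q
    rw [show k = (k - 1) + 1 by ring, h4, map_smul, ← hp, prH_prH, if_neg (by omega), smul_zero,
      map_zero]
  have hext : ∀ k, k ≠ D → ∀ u : Hc (W \ {y}), ∃ q, δ q = prH _ _ k u := by
    intro k hk u
    refine (h3 _).1 ?_
    rw [← ext_prH hcl.diff]
    obtain ⟨z, hz⟩ := hxg (ext _ W u)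
    rw [hz, map_smul, ← hx, prH_prH, if_neg hk, smul_zero]
  refine ⟨fun k h1 h2 u => ?_, ⟨δ p, fun u => ?_⟩, ?_⟩
  · obtain ⟨q, hq⟩ := hext k h2 u
    have := hδ k q h1
    rwa [hq, prH_prH, if_pos rfl] at this
  · obtain ⟨q, hq⟩ := hext 1 hD.symm u
    obtain ⟨z, rfl⟩ := hpg q
    exact ⟨z, by rw [← hq, map_smul]⟩
  · have hinj : ∀ u : Hc (W \ {y}), prH _ _ D u = u → ext _ W u = 0 → u = 0 := by
      intro u hu h0
      obtain ⟨q, hq⟩ := (h3 _).1 h0
      rw [← hu, ← hq]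
      exact hδ D q hD
    by_cases hz : ∀ u : Hc (W \ {y}), prH _ _ D u = 0
    · exact ⟨0, fun u => ⟨0, by rw [hz, zero_smul]⟩⟩
    · obtain ⟨u₀, hu₀⟩ := not_forall.1 hz
      have hp2 : ∀ u : Hc (W \ {y}), prH _ _ D (prH _ _ D u) = prH _ _ D u := fun u => by
        rw [prH_prH, if_pos rfl]
      obtain ⟨a, ha⟩ := hxg (ext _ W (prH _ _ D u₀))
      have ha0 : a ≠ 0 := by
        rintro rfl
        exact hu₀ (hinj _ (hp2 u₀) (by rw [ha, zero_smul]))
      refine ⟨prH _ _ D u₀, fun u => ?_⟩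
      obtain ⟨b, hb⟩ := hxg (ext _ W (prH _ _ D u))
      refine ⟨b / a, sub_eq_zero.1 (hinj _ ?_ ?_)⟩
      · rw [map_sub, map_smul, hp2, hp2]
      · rw [map_sub, map_smul, ha, hb, smul_smul, div_mul_cancel₀ _ ha0, sub_self]

omit [Nice Y] in
theorem Proj_two_homeo {Y' : Type} [TopologicalSpace Y'] {D : ℤ} {U : Set Y} {U' : Set Y'}
    {f : Y' → Y} {g : Y → Y'} (h : HomeoOn f g U' U) (hU : Proj_Two D U) : Proj_Two D U' := by
  have hb := h.tw_bijective
  have hp : ∀ k x, prH _ U' k (tw U U' f one x) = tw U U' f one (prH _ U k x) := fun k x => by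
    have := tw_prH (h.properOn.twOK (one_mem_ZZ U')) HomC.one k x
    rwa [add_zero] at this
  obtain ⟨h1, ⟨g1, h2⟩, g2, h3⟩ := hU
  refine ⟨fun k k1 k2 u => ?_, ⟨tw U U' f one g1, fun u => ?_⟩, tw U U' f one g2, fun u => ?_⟩
  · obtain ⟨x, rfl⟩ := hb.2 u
    rw [hp, h1 k k1 k2, map_zero]
  · obtain ⟨x, rfl⟩ := hb.2 u
    obtain ⟨z, hz⟩ := h2 x
    exact ⟨z, by rw [hp, hz, map_smul]⟩
  · obtain ⟨x, rfl⟩ := hb.2 u
    obtain ⟨z, hz⟩ := h3 x
    exact ⟨z, by rw [hp, hz, map_smul]⟩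

/-- The Gysin argument for projective spaces. -/
theorem Proj_gysin {L P : Set Y} (hL : LC L) (h : ClosedIn P L) {m : ℕ} (hm : 0 < m)
    (hU : Proj_Two (2 * (m : ℤ)) (L \ P)) (T : Hc P →ₗ[ℂ] Hc L) (hT : Function.Bijective T)
    (hTp : ∀ k x, prH _ L (k + 2) (T x) = T (prH _ P k x)) (v : ℕ → Hc P)
    (hv : ∀ i, v (i + 1) = res L P (T (v i))) (h0 : prH _ P 0 (v 0) = v 0) (h1 : v 0 ≠ 0)
    (h2 : v m = 0) :
    (∀ z : Fin m → ℂ, ∑ i, z i • v i = 0 → z = 0) ∧
      ∀ x : Hc P, ∃ z : Fin m → ℂ, ∑ i, z i • v i = x := by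
  obtain ⟨δ, e1, e2, e3, e4, -⟩ := les hL h rfl
  obtain ⟨u0, ⟨g1, u1⟩, g2, u2⟩ := hU
  have hM : ∀ k x, prH _ P (k + 2) (res L P (T x)) = res L P (T (prH _ P k x)) := fun k x => by
    rw [Proj_res_prH h, hTp]
  have hdeg : ∀ i : ℕ, prH _ P (2 * (i : ℤ)) (v i) = v i := by
    intro i
    induction i with
    | zero => simpa using h0
    | succ i ih => rw [hv, show (2 * ((i + 1 : ℕ) : ℤ)) = 2 * (i : ℤ) + 2 by push_cast; ring, hM, ih]
  have hker : ∀ k x, prH _ P k x = x → res L P (T x) = 0 →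
      ∃ u, T x = ext (L \ P) L (prH _ _ (k + 2) u) := by
    intro k x hx hr
    obtain ⟨u, hu⟩ := (e1 _).1 hr
    exact ⟨u, by rw [← ext_prH h.diff, hu, hTp, hx]⟩
  have hne : ∀ i < m, v i ≠ 0 := by
    intro i
    induction i with
    | zero => exact fun _ => h1
    | succ i ih =>
      intro hi hz
      rw [hv] at hz
      obtain ⟨u, hu⟩ := hker _ _ (hdeg i) hz
      rw [u0 _ (by omega) (by omega), map_zero] at hu
      exact ih (by omega) ((injective_iff_map_eq_zero _).1 hT.1 _ hu)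
  have hg2 : ext (L \ P) L g2 ≠ 0 := by
    intro hz
    obtain ⟨i, rfl⟩ : ∃ i, m = i + 1 := ⟨m - 1, by omega⟩
    rw [hv] at h2
    obtain ⟨u, hu⟩ := hker _ _ (hdeg i) h2
    obtain ⟨z, hz'⟩ := u2 u
    rw [show 2 * (i : ℤ) + 2 = 2 * ((i + 1 : ℕ) : ℤ) by push_cast; ring, hz', map_smul, hz,
      smul_zero] at hu
    exact hne i (by omega) ((injective_iff_map_eq_zero _).1 hT.1 _ hu)
  have hlift : ∀ k y, prH _ P k y = y → δ y = 0 →
      ∃ x, prH _ P (k - 2) x = x ∧ y = res L P (T x) := by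
    intro k y hy hd
    obtain ⟨l, hl⟩ := (e2 _).1 hd
    obtain ⟨x, rfl⟩ := hT.2 l
    refine ⟨prH _ P (k - 2) x, by rw [prH_prH, if_pos rfl], ?_⟩
    rw [← hM, sub_add_cancel, hl, hy]
  have hzero : ∀ y, prH _ P 0 y = y → δ y = 0 → y = 0 := by
    intro y hy hd
    obtain ⟨x, hx, rfl⟩ := hlift 0 y hy hd
    rw [← hx, prH_neg (by norm_num), map_zero, map_zero]
  have hδ : ∀ k y, k ≠ 0 → prH _ P k y = y → δ y = 0 := by
    intro k y hk hy
    have hd : prH _ _ (k + 1) (δ y) = δ y := by rw [e4, hy]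
    by_cases hk2 : k + 1 = 2 * (m : ℤ)
    · obtain ⟨z, hz⟩ := u2 (δ y)
      rw [← hk2, hd] at hz
      have h3 : ext (L \ P) L (δ y) = 0 := (e3 _).2 ⟨y, rfl⟩
      rw [hz, map_smul] at h3
      rw [hz, (smul_eq_zero.1 h3).resolve_right hg2, zero_smul]
    · rw [← hd, u0 _ (by omega) hk2]
  set S : Submodule ℂ (Hc P) := Submodule.span ℂ (range fun i : Fin m => v i) with hS
  have hvS : ∀ i ≤ m, v i ∈ S := by
    intro i hi
    rcases hi.eq_or_lt with rfl | hi
    · rw [h2]; exact zero_mem _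
    · exact Submodule.subset_span ⟨⟨i, hi⟩, rfl⟩
  have hMS : ∀ x ∈ S, res L P (T x) ∈ S := by
    intro x hx
    induction hx using Submodule.span_induction with
    | mem x hx =>
      obtain ⟨i, rfl⟩ := hx
      rw [← hv]
      exact hvS _ i.2
    | zero => rw [map_zero, map_zero]; exact zero_mem _
    | add x y _ _ hx hy => rw [map_add, map_add]; exact add_mem hx hy
    | smul z x _ hx => rw [map_smul, map_smul]; exact S.smul_mem z hx
  have hall : ∀ k : ℕ, ∀ y, prH _ P k y = y → y ∈ S := by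
    intro k
    induction k using Nat.strong_induction_on with
    | _ k ih =>
      intro y hy
      rcases Nat.eq_zero_or_pos k with rfl | hk
      · have hy' : prH _ P 0 y = y := hy
        obtain ⟨a, ha⟩ := u1 (δ (v 0))
        obtain ⟨b, hb⟩ := u1 (δ y)
        rw [show (1 : ℤ) = 0 + 1 by norm_num, e4, h0] at ha
        rw [show (1 : ℤ) = 0 + 1 by norm_num, e4, hy'] at hb
        have ha0 : a ≠ 0 := by
          rintro rfl
          exact h1 (hzero _ h0 (by rw [ha, zero_smul]))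
        have : y - (b / a) • v 0 = 0 := hzero _ (by rw [map_sub, map_smul, hy', h0])
          (by rw [map_sub, map_smul, ha, hb, smul_smul, div_mul_cancel₀ _ ha0, sub_self])
        rw [sub_eq_zero.1 this]
        exact S.smul_mem _ (hvS 0 (Nat.zero_le _))
      · obtain ⟨x, hx, rfl⟩ := hlift k y hy (hδ k y (by omega) hy)
        refine hMS x ?_
        by_cases hk2 : 2 ≤ k
        · refine ih (k - 2) (by omega) x ?_
          rwa [show ((k - 2 : ℕ) : ℤ) = (k : ℤ) - 2 by omega]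
        · rw [← hx, prH_neg (by omega)]
          exact zero_mem _
  refine ⟨fun z hz => funext fun i => ?_, fun x => ?_⟩
  · have := congrArg (prH _ P (2 * ((i : ℕ) : ℤ))) hz
    rw [map_sum, map_zero, Finset.sum_eq_single i] at this
    · rw [map_smul, hdeg] at this
      exact (smul_eq_zero.1 this).resolve_right (hne i i.2)
    · intro j _ hj
      rw [map_smul, ← hdeg j, prH_prH, if_neg (fun hh => hj (Fin.ext (by omega))), smul_zero]
    · exact fun hi => absurd (Finset.mem_univ i) hi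
  · refine (Submodule.mem_span_range_iff_exists_fun ℂ).1 ?_
    obtain ⟨N, hN⟩ := sum_prH x
    rw [hN N le_rfl]
    exact S.sum_mem fun k _ => hall k _ (by rw [prH_prH, if_pos rfl])

end gysin

end Pool.Agent.HK
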