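import Pool.Agent.P.MP_1206ce_ag.BO.Proj_A

/-! Columns of frames, the diagonal torus, and the cohomology of a projective space. -/

open scoped Topology
open Filter Set

noncomputable section

namespace Pool.Agent.HK

section lin

/-- The vectors with entries in the first `n` places. -/
def Proj_FN (n : ℕ) : Submodule ℂ (ℕ → ℂ) where
  carrier := {v | ∀ j, n ≤ j → v j = 0}
  add_mem' := fun ha hb j hj => by simp [ha j hj, hb j hj]
  zero_mem' := fun _ _ => rfl
  smul_mem' := fun z a ha j hj => by simp [ha j hj]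

/-- Coordinates on it. -/
def Proj_FNe (n : ℕ) : Proj_FN n ≃ₗ[ℂ] (Fin n → ℂ) where
  toFun v i := v.1 i
  map_add' _ _ := rfl
  map_smul' _ _ := rfl
  invFun c := ⟨fun j => if h : j < n then c ⟨j, h⟩ else 0, fun j hj => dif_neg (by omega)⟩
  left_inv v := Subtype.ext (funext fun j => by
    by_cases h : j < n
    · exact dif_pos h
    · exact (dif_neg h).trans (v.2 j (by omega)).symm)
  right_inv c := funext fun i => dif_pos i.2

instance Proj_FN_fd (n : ℕ) : FiniteDimensional ℂ (Proj_FN n) :=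
  (Proj_FNe n).symm.finiteDimensional

theorem Proj_FN_finrank (n : ℕ) : Module.finrank ℂ (Proj_FN n) = n := by
  rw [(Proj_FNe n).finrank_eq, Module.finrank_fin_fun]

theorem Proj_fd {n : ℕ} {W : Submodule ℂ (ℕ → ℂ)} (h : ∀ v ∈ W, ∀ j, n ≤ j → v j = 0) :
    FiniteDimensional ℂ W :=
  Submodule.finiteDimensional_of_le (S₂ := Proj_FN n) h

/-- The inner product of the first `n` entries. -/
def Proj_ip (n : ℕ) (v : ℕ → ℂ) : (ℕ → ℂ) →ₗ[ℂ] ℂ where
  toFun w := ∑ j ∈ Finset.range n, star (v j) * w j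
  map_add' a b := by simp [mul_add, Finset.sum_add_distrib]
  map_smul' z a := by simp [Finset.mul_sum, mul_left_comm]

theorem Proj_ip_apply (n : ℕ) (v w : ℕ → ℂ) :
    Proj_ip n v w = ∑ j ∈ Finset.range n, star (v j) * w j := rfl

theorem Proj_ip_star (n : ℕ) (v w : ℕ → ℂ) : star (Proj_ip n v w) = Proj_ip n w v := by
  simp [Proj_ip_apply, mul_comm]

theorem Proj_ip_mul (n : ℕ) (v w : ℕ → ℂ) (a b : ℂ) :
    Proj_ip n (fun j => v j * a) (fun j => w j * b) = star a * b * Proj_ip n v w := by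
  simp only [Proj_ip_apply, Finset.mul_sum, star_mul']
  exact Finset.sum_congr rfl fun j _ => by ring

/-- The length of a vector. -/
def Proj_len (n : ℕ) (v : ℕ → ℂ) : ℂ := (√(∑ j ∈ Finset.range n, ‖v j‖ ^ 2) : ℝ)

theorem Proj_len_star (n : ℕ) (v : ℕ → ℂ) : star (Proj_len n v) = Proj_len n v :=
  Complex.conj_ofReal _

theorem Proj_len_sq (n : ℕ) (v : ℕ → ℂ) : Proj_len n v * Proj_len n v = Proj_ip n v v := by
  rw [Proj_len, ← Complex.ofReal_mul,
    Real.mul_self_sqrt (Finset.sum_nonneg fun j _ => sq_nonneg _), Proj_ip_apply]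
  push_cast
  exact Finset.sum_congr rfl fun j _ => (Complex.conj_mul' (v j)).symm

theorem Proj_len_cont (n : ℕ) : Continuous (Proj_len n) := by
  unfold Proj_len
  fun_prop

theorem Proj_len_ne {n : ℕ} {v : ℕ → ℂ} (h : ∀ j, n ≤ j → v j = 0) (h0 : v ≠ 0) :
    Proj_len n v ≠ 0 := by
  intro hz
  refine h0 (funext fun j => ?_)
  by_cases hj : n ≤ j
  · exact h j hj
  · rw [Proj_len, Complex.ofReal_eq_zero,
      Real.sqrt_eq_zero (Finset.sum_nonneg fun j _ => sq_nonneg _),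
      Finset.sum_eq_zero_iff_of_nonneg fun j _ => sq_nonneg _] at hz
    simpa using hz j (Finset.mem_range.2 (by omega))

/-- The part of `E` orthogonal to a family of vectors. -/
def Proj_perp {κ : Type} (n : ℕ) (E : Submodule ℂ (ℕ → ℂ)) (c : κ → ℕ → ℂ) :
    Submodule ℂ (ℕ → ℂ) := E ⊓ LinearMap.ker (LinearMap.pi fun l => Proj_ip n (c l))

theorem Proj_mem_perp {κ : Type} {n : ℕ} {E : Submodule ℂ (ℕ → ℂ)} {c : κ → ℕ → ℂ} {v : ℕ → ℂ} :
    v ∈ Proj_perp n E c ↔ v ∈ E ∧ ∀ l, Proj_ip n (c l) v = 0 := by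
  simp [Proj_perp, funext_iff]

theorem Proj_finrank_perp {κ : Type} [Fintype κ] [DecidableEq κ] {n : ℕ}
    {E : Submodule ℂ (ℕ → ℂ)} [FiniteDimensional ℂ E] {c : κ → ℕ → ℂ} (hc : ∀ l, c l ∈ E)
    (ho : ∀ k l, Proj_ip n (c k) (c l) = if k = l then 1 else 0) :
    Module.finrank ℂ (Proj_perp n E c) + Fintype.card κ = Module.finrank ℂ E := by
  set Φ : (ℕ → ℂ) →ₗ[ℂ] κ → ℂ := LinearMap.pi fun l => Proj_ip n (c l) with hΦ
  have h1 := (Φ.domRestrict E).finrank_range_add_finrank_ker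
  have h2 : LinearMap.range (Φ.domRestrict E) = ⊤ := by
    refine LinearMap.range_eq_top.2 fun a => ⟨⟨∑ l, a l • c l,
      E.sum_mem fun l _ => E.smul_mem _ (hc l)⟩, funext fun k => ?_⟩
    change Proj_ip n (c k) (∑ l, a l • c l) = a k
    simp [map_sum, map_smul, ho]
  rw [h2, finrank_top, Module.finrank_fintype_fun_eq_card, LinearMap.ker_domRestrict] at h1
  rw [← h1, add_comm, Proj_perp, ← Submodule.map_comap_subtype, Submodule.finrank_map_subtype_eq]

/-- Linear coordinates on a finite dimensional subspace. -/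
theorem Proj_coord (W : Submodule ℂ (ℕ → ℂ)) [FiniteDimensional ℂ W] :
    ∃ (g : (ℕ → ℂ) →ₗ[ℂ] Fin (Module.finrank ℂ W) → ℂ)
      (s : (Fin (Module.finrank ℂ W) → ℂ) →ₗ[ℂ] ℕ → ℂ), HomeoOn g s (W : Set (ℕ → ℂ)) univ := by
  set b := (Module.finBasis ℂ W).equivFun with hb
  obtain ⟨g, hg⟩ := LinearMap.exists_extend (p := W) b.toLinearMap
  have hg' : ∀ v : W, g v = b v := fun v => LinearMap.congr_fun hg v
  refine ⟨g, W.subtype ∘ₗ b.symm.toLinearMap, ?_,
    (LinearMap.continuous_of_finiteDimensional _).continuousOn, fun _ _ => mem_univ _,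
    fun c _ => (b.symm c).2, fun v hv => ?_, fun c _ => ?_⟩
  · rw [continuousOn_iff_continuous_domRestrict]
    exact (g ∘ₗ W.subtype).continuous_of_finiteDimensional
  · change ((b.symm (g (⟨v, hv⟩ : W)) : W) : ℕ → ℂ) = v
    rw [hg', b.symm_apply_apply]
  · change g (b.symm c : W) = c
    rw [hg', b.apply_symm_apply]

theorem Proj_two_W (W : Submodule ℂ (ℕ → ℂ)) [FiniteDimensional ℂ W] :
    Proj_Two (2 * (Module.finrank ℂ W : ℤ)) ((W : Set (ℕ → ℂ)) \ {0}) := by
  obtain ⟨g, s, h⟩ := Proj_coord W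
  have h1 := Euclid_gen_univ (2 * Module.finrank ℂ W) (Fin (Module.finrank ℂ W) → ℂ)
    (by rw [finrank_real_of_complex, Module.finrank_fin_fun])
  refine Proj_two_punct (LC.of_homeoOn h LC.univ) (by omega) ?_ W.zero_mem
  have h2 := Euclid_gen_homeo h h1
  rwa [Nat.cast_mul, Nat.cast_ofNat] at h2

end lin

section torus
variable {V Λ : Type} [Fintype V] [DecidableEq V]

theorem Proj_frAct_TT {u : Matrix V V ℂ} (hu : u ∈ TT V) (e : Fr V) (j : ℕ) (k : V) :
    frAct u e j k = e j k * star (u k k) := by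
  simp only [frAct, Matrix.vecMul, dotProduct, Matrix.star_apply]
  refine Finset.sum_eq_single k (fun l _ hl => ?_) fun h => absurd (Finset.mem_univ k) h
  rw [hu.2 k l (Ne.symm hl), star_zero, mul_zero]

theorem Proj_norm_TT {u : Matrix V V ℂ} (hu : u ∈ TT V) (k : V) : ‖u k k‖ = 1 := by
  rw [← chr_single k u, norm_chr _ hu]

theorem Proj_unit {z : ℂ} (hz : ‖z‖ = 1) : star z * z = 1 := by
  have := Complex.conj_mul' z
  rw [hz] at this
  simpa using this

theorem Proj_diag_mem {z : V → ℂ} (hz : ∀ k, ‖z k‖ = 1) : Matrix.diagonal z ∈ TT V := by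
  refine ⟨Matrix.mem_unitaryGroup_iff'.2 ?_, fun k l h => Matrix.diagonal_apply_ne _ h⟩
  rw [Matrix.star_eq_conjTranspose, Matrix.diagonal_conjTranspose, Matrix.diagonal_mul_diagonal,
    ← Matrix.diagonal_one]
  congr 1
  funext k
  exact Proj_unit (hz k)

theorem Proj_act : IsAct (TT V) (ptAct (V := V)) := isAct_pt (isGrp_KG id)

theorem Proj_nice : Nice (BT V) := Proj_act.nice

theorem Proj_bmk_eq {e f : Fr V} :
    bmk (TT V) ptAct ((), e) = bmk (TT V) ptAct ((), f) ↔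
      ∀ k, ∃ z : ℂ, ‖z‖ = 1 ∧ ∀ j, f j k = e j k * z := by
  rw [Proj_act.bmk_eq_iff]
  constructor
  · rintro ⟨u, hu, h⟩ k
    have h2 : f = frAct u e := congrArg Prod.snd h
    exact ⟨star (u k k), by rw [norm_star, Proj_norm_TT hu], fun j => by
      rw [h2, Proj_frAct_TT hu]⟩
  · intro h
    choose z hz hf using h
    have hu : Matrix.diagonal (fun k => star (z k)) ∈ TT V :=
      Proj_diag_mem fun k => by rw [norm_star, hz]
    refine ⟨_, hu, Prod.ext rfl (funext fun j => funext fun k => ?_)⟩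
    change f j k = frAct _ e j k
    rw [Proj_frAct_TT hu, Matrix.diagonal_apply_eq, star_star, hf]

omit [DecidableEq V] in
theorem Proj_mem_BS {L : Set (Matrix V V ℂ)} {E : Set (Fr V)} {q : Bor L (ptAct (V := V))} :
    q ∈ BS L ptAct univ E ↔ ∃ e ∈ E, q = bmk L ptAct ((), e) :=
  ⟨fun ⟨_, _, e, he, h⟩ => ⟨e, he, h⟩, fun ⟨e, he, h⟩ => ⟨(), mem_univ _, e, he, h⟩⟩

omit [DecidableEq V] in
theorem Proj_BS_mono {L : Set (Matrix V V ℂ)} {E E' : Set (Fr V)} (h : E ⊆ E') :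
    BS L ptAct univ E ⊆ BS L ptAct univ E' := fun _ hq => by
  obtain ⟨e, he, rfl⟩ := Proj_mem_BS.1 hq
  exact Proj_mem_BS.2 ⟨e, h he, rfl⟩

theorem Proj_compact_BS {E : Set (Fr V)} (h : IsCompact E) :
    IsCompact (BS (TT V) ptAct univ E) := by
  rw [BS_eq]
  exact isCompact_BI (isCompact_univ.prod h)

theorem Proj_ZZ_mono {Y : Type} [TopologicalSpace Y] {A B : Set Y} (h : B ⊆ A) {a : Coch Y}
    (ha : a ∈ ZZ ⊥ A) : a ∈ ZZ ⊥ B := by
  have := pb_mem_ZZ (f := id) continuousOn_id h ha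
  rwa [pb_id] at this

theorem Proj_polyC_ZZ' {E : Set (Fr V)} {n : ℕ} (hn : E ⊆ Inj (id : V → V) n)
    (p : MvPolynomial V ℂ) : polyC p ∈ ZZ ⊥ (BS (TT V) ptAct univ E) :=
  Proj_ZZ_mono (Proj_BS_mono hn) (polyC_mem_ZZ p n)

theorem Proj_polyC_ZZ {E : Set (Fr V)} (h : IsCompact E) {n : ℕ} (hn : E ⊆ Inj (id : V → V) n)
    (p : MvPolynomial V ℂ) :
    polyC p ∈ ZZ (cc (BS (TT V) ptAct univ E)) (BS (TT V) ptAct univ E) := by
  rw [ZZ_cc_eq_bot (Proj_compact_BS h)]
  exact Proj_polyC_ZZ' hn p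

theorem Proj_StE_Inj (lab : V → Λ) (n : ℕ) (E : Λ → Submodule ℂ (ℕ → ℂ)) :
    StE lab n E ⊆ Inj (id : V → V) n := fun _ he =>
  Inj_subset_id lab n (St_subset_Inj lab n he.1)

theorem Proj_invF_StE (lab : V → Λ) (n : ℕ) (E : Λ → Submodule ℂ (ℕ → ℂ)) :
    InvF (TT V) (StE lab n E) := fun u hu e he => by
  refine ⟨invF_St (TT_subset lab) n u hu e he.1, fun k => ?_⟩
  have : (fun j => frAct u e j k) = star (u k k) • fun j => e j k := funext fun j => by
    rw [Proj_frAct_TT hu, mul_comm]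
    rfl
  rw [this]
  exact (E _).smul_mem _ (he.2 k)

theorem Proj_isCompact_StE (lab : V → Λ) (n : ℕ) (E : Λ → Submodule ℂ (ℕ → ℂ)) :
    IsCompact (StE lab n E) := by
  have h : StE lab n E = St lab n ∩
      ⋂ k, (fun (e : Fr V) j => e j k) ⁻¹' ((E (lab k) ⊓ Proj_FN n : Submodule ℂ (ℕ → ℂ)) :
        Set (ℕ → ℂ)) := by
    ext e
    simp only [mem_inter_iff, mem_iInter, mem_preimage, SetLike.mem_coe, Submodule.mem_inf]
    exact ⟨fun he => ⟨he.1, fun k => ⟨he.2 k, fun j hj => congrFun (he.1.1 j hj) k⟩⟩,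
      fun he => ⟨he.1, fun k => (he.2 k).1⟩⟩
  rw [h]
  refine (isCompact_St lab n).inter_right (isClosed_iInter fun k => IsClosed.preimage ?_ ?_)
  · fun_prop
  · exact Submodule.closed_of_finiteDimensional _

/-- The power of the first Chern class of a line in a fixed space vanishes. -/
theorem Proj_pow_vanish {X : Type} [TopologicalSpace X] {L : Set (Matrix V V ℂ)}
    {act : Matrix V V ℂ → X → X} (h : IsAct L act) (hL : L ⊆ TT V) {P : Set (X × Fr V)}
    (hP : Inv L act P) {n : ℕ} (hn : ∀ p ∈ P, p.2 ∈ Inj (id : V → V) n) (k : V)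
    (W : Submodule ℂ (ℕ → ℂ)) [FiniteDimensional ℂ W] (hW : ∀ p ∈ P, (fun j => p.2 j k) ∈ W) :
    polyX L act (MvPolynomial.X k ^ Module.finrank ℂ W) ∈ BB ⊥ (BI L act P) := by
  obtain ⟨g, s, hg⟩ := Proj_coord W
  have := euler_vanish h hL hP hn (fun _ : Fin (Module.finrank ℂ W) => Pi.single k 1)
    (fun p a => star (g (fun j => p.2 j k) a)) ?_ ?_ ?_
  · simpa [linF_single] using this
  · refine continuousOn_pi.2 fun a => ContinuousOn.star ?_
    refine (continuous_apply a).comp_continuousOn (hg.1.comp (Continuous.continuousOn ?_) hW)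
    fun_prop
  · intro u hu p _ a
    have : (fun j => (bact act u p).2 j k) = star (u k k) • fun j => p.2 j k := funext fun j => by
      change frAct u p.2 j k = _
      rw [Proj_frAct_TT (hL hu), mul_comm]
      rfl
    rw [this, map_smul, chr_single, Pi.smul_apply, smul_eq_mul, star_mul', star_star]
  · intro p hp h0
    obtain ⟨j, hj⟩ := (mem_Inj_id.1 (hn p hp)).2 k
    have h1 : g (fun j => p.2 j k) = 0 := funext fun a => star_eq_zero.1 (congrFun h0 a)
    have h2 := hg.2.2.2.2.1 _ (hW p hp)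
    rw [h1, map_zero] at h2
    exact hj (congrFun h2 j).symm

end torus

section proj

/-- The unit sphere of `W` as a space of frames. -/
abbrev Proj_S (n : ℕ) (W : Submodule ℂ (ℕ → ℂ)) : Set (Fr Unit) :=
  StE (fun _ : Unit => ()) n fun _ => W

/-- The tautological character. -/
abbrev Proj_a : Matrix Unit Unit ℂ → ℂ → ℂ := act1 (Pi.single () 1)

theorem Proj_mem_S {n : ℕ} {W : Submodule ℂ (ℕ → ℂ)} (hW : ∀ v ∈ W, ∀ j, n ≤ j → v j = 0)
    {e : Fr Unit} : e ∈ Proj_S n W ↔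
      (fun j => e j ()) ∈ W ∧ Proj_ip n (fun j => e j ()) (fun j => e j ()) = 1 :=
  ⟨fun h => ⟨h.2 (), (h.1.2 () () rfl).trans (if_pos rfl)⟩, fun h =>
    ⟨⟨fun j hj => funext fun _ => hW _ h.1 j hj, fun _ _ _ => h.2.trans (if_pos rfl).symm⟩,
      fun _ => h.1⟩⟩

theorem Proj_a_apply (u : Matrix Unit Unit ℂ) (z : ℂ) : Proj_a u z = u () () * z := by
  rw [Proj_a, act1, chr_single]

theorem Proj_normalize {n : ℕ} {W : Submodule ℂ (ℕ → ℂ)} (hW : ∀ v ∈ W, ∀ j, n ≤ j → v j = 0)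
    {v : ℕ → ℂ} (hv : v ∈ W) (h0 : v ≠ 0) :
    (fun j (_ : Unit) => v j * (Proj_len n v)⁻¹) ∈ Proj_S n W := by
  have hl := Proj_len_ne (hW v hv) h0
  refine (Proj_mem_S hW).2 ⟨?_, ?_⟩
  · have : (fun j => v j * (Proj_len n v)⁻¹) = (Proj_len n v)⁻¹ • v :=
      funext fun j => mul_comm _ _
    rw [this]
    exact W.smul_mem _ hv
  · rw [Proj_ip_mul, star_inv₀, Proj_len_star, ← Proj_len_sq]
    field_simp

/-- The complement of the zero section of the tautological line is the punctured space. -/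
theorem Proj_punct_homeo {n : ℕ} {W : Submodule ℂ (ℕ → ℂ)}
    (hW : ∀ v ∈ W, ∀ j, n ≤ j → v j = 0) :
    HomeoOn (blift fun (p : ℂ × Fr Unit) j => p.2 j () * p.1)
      (fun v => bmk (TT Unit) Proj_a (Proj_len n v, fun j _ => v j * (Proj_len n v)⁻¹))
      (BI (TT Unit) Proj_a (univ ×ˢ Proj_S n W \ {0} ×ˢ Proj_S n W))
      ((W : Set (ℕ → ℂ)) \ {0}) := by
  have ha : IsAct (TT Unit) Proj_a := isAct_act1 _
  have hS := Proj_invF_StE (fun _ : Unit => ()) n fun _ => W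
  have hP : Inv (TT Unit) Proj_a (univ ×ˢ Proj_S n W \ {0} ×ˢ Proj_S n W) :=
    Inv.diff ha (Inv.prod (fun _ _ _ _ => mem_univ _) hS)
      (Inv.prod (fun u _ x hx => by rw [hx, Proj_a_apply, mul_zero]; rfl) hS)
  have hD : ∀ P, Desc (TT Unit) Proj_a P fun (p : ℂ × Fr Unit) j => p.2 j () * p.1 := by
    intro P u hu p _
    funext j
    change frAct u p.2 j () * Proj_a u p.1 = _
    rw [Proj_frAct_TT hu, Proj_a_apply, mul_assoc, ← mul_assoc (star _),
      Proj_unit (Proj_norm_TT hu ()), one_mul]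
  have hF : ∀ p ∈ univ ×ˢ Proj_S n W \ {0} ×ˢ Proj_S n W,
      p.1 ≠ 0 ∧ (fun j => p.2 j () * p.1) ∈ (W : Set (ℕ → ℂ)) \ {0} := by
    rintro ⟨z, e⟩ ⟨⟨-, he⟩, hz⟩
    have hz0 : z ≠ 0 := fun h => hz ⟨h, he⟩
    obtain ⟨h1, h2⟩ := (Proj_mem_S hW).1 he
    refine ⟨hz0, ?_, fun h => ?_⟩
    · have : (fun j => e j () * z) = z • fun j => e j () := funext fun j => mul_comm _ _
      change (fun j => e j () * z) ∈ W
      rw [this]
      exact W.smul_mem _ h1
    · have h3 : (fun j => e j ()) = 0 := funext fun j =>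
        (mul_eq_zero.1 (congrFun h j)).resolve_right hz0
      rw [h3, map_zero] at h2
      exact zero_ne_one h2
  have hG : ∀ v ∈ (W : Set (ℕ → ℂ)) \ {0},
      (Proj_len n v, fun j (_ : Unit) => v j * (Proj_len n v)⁻¹) ∈
        univ ×ˢ Proj_S n W \ {0} ×ˢ Proj_S n W := fun v hv =>
    ⟨⟨mem_univ _, Proj_normalize hW hv.1 hv.2⟩, fun h => Proj_len_ne (hW v hv.1) hv.2 h.1⟩
  refine ⟨ha.continuousOn_blift hP (hD _) (Continuous.continuousOn (by fun_prop)),
    continuous_bmk.comp_continuousOn ((Proj_len_cont n).continuousOn.prodMk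
      (continuousOn_pi.2 fun j => continuousOn_pi.2 fun _ => (continuous_apply j).continuousOn.mul
        ((Proj_len_cont n).continuousOn.inv₀ fun v hv => Proj_len_ne (hW v hv.1) hv.2))),
    ?_, fun v hv => ⟨_, hG v hv, rfl⟩, ?_, fun v hv => ?_⟩
  · rintro _ ⟨p, hp, rfl⟩
    rw [ha.blift_bmk (hD _) hp]
    exact (hF p hp).2
  · rintro _ ⟨⟨z, e⟩, hp, rfl⟩
    rw [ha.blift_bmk (hD _) hp]
    obtain ⟨hz, hv⟩ := hF _ hp
    have hl := Proj_len_ne (hW _ hv.1) hv.2
    have h2 := Proj_len_sq n fun j => e j () * z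
    rw [Proj_ip_mul, ((Proj_mem_S hW).1 hp.1.2).2, mul_one] at h2
    have h3 := Proj_len_star n fun j => e j () * z
    change bmk (TT Unit) Proj_a (Proj_len n (fun j => e j () * z),
      fun j _ => e j () * z * (Proj_len n fun j => e j () * z)⁻¹) = _
    have hz' : z ≠ 0 := hz
    clear hz hv
    generalize Proj_len n (fun j => e j () * z) = r at hl h2 h3 ⊢
    have hzs : star z ≠ 0 := star_ne_zero.2 hz'
    have hn : ‖r / z‖ = 1 := by
      have h4 := congrArg norm h2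
      rw [norm_mul, norm_mul, norm_star] at h4
      rw [norm_div, (mul_self_inj (norm_nonneg _) (norm_nonneg _)).1 h4,
        div_self (norm_ne_zero_iff.2 hz')]
    have hu : Matrix.diagonal (fun _ : Unit => r / z) ∈ TT Unit := Proj_diag_mem fun _ => hn
    rw [← bmk_bact hu (z, e)]
    congr 1
    refine Prod.ext ?_ ?_
    · change r = Proj_a _ z
      rw [Proj_a_apply, Matrix.diagonal_apply_eq, div_mul_cancel₀ _ hz']
    · funext j k
      change e j () * z * r⁻¹ = frAct _ e j ()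
      rw [Proj_frAct_TT hu, Matrix.diagonal_apply_eq, star_div₀, h3, mul_assoc]
      congr 1
      field_simp
      rw [sq, h2, mul_comm]
  · rw [ha.blift_bmk (hD _) (hG v hv)]
    funext j
    change v j * (Proj_len n v)⁻¹ * Proj_len n v = v j
    rw [inv_mul_cancel_right₀ (Proj_len_ne (hW v hv.1) hv.2)]

/-- The cohomology of a projective space. -/
theorem Proj_P {n : ℕ} {W : Submodule ℂ (ℕ → ℂ)} (hW : ∀ v ∈ W, ∀ j, n ≤ j → v j = 0) {m : ℕ}
    (hm : Module.finrank ℂ W = m) (h0 : 0 < m) :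
    IsBasisOn (BS (TT Unit) ptAct univ (Proj_S n W))
      fun a : Fin m => polyC (MvPolynomial.X () ^ (a : ℕ)) := by
  subst hm
  have := Proj_fd hW
  have ha : IsAct (TT Unit) Proj_a := isAct_act1 _
  have := ha.nice
  have hS := Proj_invF_StE (fun _ : Unit => ()) n fun _ => W
  have hSI := Proj_StE_Inj (fun _ : Unit => ()) n fun _ => W
  have hSc := Proj_isCompact_StE (fun _ : Unit => ()) n fun _ => W
  have hU : InvX (TT Unit) Proj_a univ := fun _ _ _ _ => mem_univ _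
  have hZ : InvX (TT Unit) Proj_a {0} := fun u _ x hx => by
    rw [hx, Proj_a_apply, mul_zero]; rfl
  have hL := Inv.prod hU hS
  have hP := Inv.prod hZ hS
  have hco : IsCoord (TT Unit) Proj_a univ (fun z (_ : Unit) => z) fun _ => Pi.single () 1 :=
    ⟨Continuous.continuousOn (by fun_prop), fun _ _ _ _ _ => rfl⟩
  have hf : ∀ (u : Matrix Unit Unit ℂ), (0 : ℂ) = Proj_a u 0 := fun u => by
    rw [Proj_a_apply, mul_zero]
  have ht := isThomFor_tauT ha ha Subset.rfl hU hco hZ (f := fun _ => 0) (fun u _ _ _ => hf u)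
    (g := fun p => p.2 ()) ⟨Continuous.continuousOn (by fun_prop),
      Continuous.continuousOn (by fun_prop), fun _ _ => ⟨rfl, mem_univ _⟩, fun _ _ => mem_univ _,
      fun _ _ => rfl, fun p hp => Prod.ext hp.1.symm rfl⟩ hS hSI
  have hlL : LC ((univ : Set ℂ) ×ˢ Proj_S n W) := LC.univ.prod (LC.of_isCompact hSc)
  have hPc : IsCompact (({0} : Set ℂ) ×ˢ Proj_S n W) := isCompact_singleton.prod hSc
  have hb := ht.bijective ha ha hL hP hlL (LC.of_isCompact hPc) (fun u _ _ _ => hf u)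
    continuousOn_const fun p hp u hu e he h =>
      freeOn_Inj (lab := id) Subset.rfl n u hu e (he ▸ hSI hp.2) h
  have hcl : ClosedIn (BI (TT Unit) Proj_a ({0} ×ˢ Proj_S n W))
      (BI (TT Unit) Proj_a (univ ×ˢ Proj_S n W)) :=
    ha.closedIn_BI hL ⟨{0} ×ˢ univ, isClosed_singleton.prod isClosed_univ, by
      rw [prod_inter_prod, univ_inter, inter_univ]⟩
  have hPc' : IsCompact (BI (TT Unit) Proj_a ({0} ×ˢ Proj_S n W)) := isCompact_BI hPc
  have hZZ : ∀ p, polyX (TT Unit) Proj_a p ∈ ZZ ⊥ (BI (TT Unit) Proj_a ({0} ×ˢ Proj_S n W)) :=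
    polyX_mem_ZZ ha Subset.rfl fun p hp => hSI hp.2
  have hZc : ∀ p, polyX (TT Unit) Proj_a p ∈ ZZ (cc (BI (TT Unit) Proj_a ({0} ×ˢ Proj_S n W)))
      (BI (TT Unit) Proj_a ({0} ×ˢ Proj_S n W)) := fun p => ZZ_cc_eq_bot hPc' ▸ hZZ p
  obtain ⟨w, hw, hw0⟩ : ∃ w ∈ W, w ≠ 0 :=
    Submodule.exists_mem_ne_zero_of_ne_bot (by rintro rfl; simp at h0)
  have key := Proj_gysin (ha.lc_BI hL hlL) hcl h0
    (by rw [← ha.BI_diff _ hP]; exact Proj_two_homeo (Proj_punct_homeo hW) (Proj_two_W W))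
    _ hb (fun k x => by simpa using tw_prH ht.1 ht.2.1 k x)
    (fun i => clc _ (polyX (TT Unit) Proj_a (MvPolynomial.X () ^ i))) (fun i => ?_) ?_ ?_ ?_
  · refine IsBasisOn.of_homeoOn (S := BI (TT Unit) Proj_a ({0} ×ˢ Proj_S n W))
      (f := bmp (TT Unit) Proj_a (Prod.map (fun _ => 0) id))
      (g := bmp (TT Unit) ptAct (Prod.map (fun _ => ()) id)) ?_
      (Proj_basis_iff.2 ⟨fun a => hZc _, key⟩) (fun a => ?_) fun a => ?_
    · rw [BS_eq]
      exact Proj_act.homeoOn_bmp ha (Inv.prod (fun _ _ _ _ => mem_univ _) hS) hP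
        (EqvOn.of_map Subset.rfl fun u _ _ _ => hf u) (EqvOn.of_map Subset.rfl fun _ _ _ _ => rfl)
        ⟨Continuous.continuousOn (by fun_prop), Continuous.continuousOn (by fun_prop),
          fun p hp => ⟨rfl, hp.2⟩, fun p hp => ⟨mem_univ _, hp.2⟩, fun _ _ => rfl,
          fun p hp => Prod.ext hp.1.symm rfl⟩
    · exact Proj_polyC_ZZ hSc hSI _
    · rw [← bmap_eq_bmp, pb_polyX ha Subset.rfl, polyX_pt, sub_self]
      exact zero_mem _
  · have h1 := ht.1.mem_ZZ (hZc (MvPolynomial.X () ^ i))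
    rw [tw_cls ht.1 (hZc _), LES_res hcl h1, cls_eq_iff (hZc _) (LES_taut_ZZ hcl h1.1 (by
      rw [mem_N0.1 h1.2]; exact empty_disjoint _)), BB_cc_eq_bot hPc', pb_polyX ha Subset.rfl]
    have h2 := VB_BB_mono hcl.subset (tauT_sub_euler ha Subset.rfl hco hL
      (prod_mono Subset.rfl hSI))
    rw [Fintype.prod_unique, linF_single] at h2
    have h3 := polyX_mul ha Subset.rfl (P := {0} ×ˢ Proj_S n W) (fun p hp => hSI hp.2)
      (MvPolynomial.X () ^ i) (MvPolynomial.X ())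
    have h4 := cup_mem_BB_right (hZZ (MvPolynomial.X () ^ i))
      (by rw [Pi.sub_apply, ht.1.2.2.1.1.1.1, (hZZ _).1.1.1, sub_zero]) h2
    have h5 := sub_mem h3 h4
    rw [cup_sub, ← pow_succ] at h5
    convert h5 using 1
    abel
  · rw [pow_zero, polyX_one, prH_cls 0 (polyX_one (L := TT Unit) (act := Proj_a) ▸ hZc 1),
      HomC.one.prC_self]
  · rw [pow_zero]
    intro h
    have := deg_zero_of_mem_BB ((cls_eq_zero_iff (hZc 1)).1 h) _
      ⟨(0, _), ⟨rfl, Proj_normalize hW hw hw0⟩, rfl⟩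
    rw [polyX_one] at this
    simp [one] at this
  · rw [cls_eq_zero_iff (hZc _), BB_cc_eq_bot hPc']
    exact Proj_pow_vanish ha Subset.rfl hP (fun p hp => hSI hp.2) () W fun p hp => hp.2.2 ()

end proj

end Pool.Agent.HK
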