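import Pool.Agent.P.MP_1206ce_ag.BO.Proj_B

/-! Towers of projective bundles: one step and the induction. -/

open scoped Topology
open Filter Set

noncomputable section

namespace Pool.Agent.HK

variable {V V' Λ : Type} [Fintype V] [DecidableEq V] [Fintype V'] [DecidableEq V']

/-- Forgetting columns. -/
abbrev Proj_r (ι : V' → V) : BT V → BT V' :=
  bmap (TT V') ptAct (fun _ => ()) fun e j k => e j (ι k)

theorem Proj_tw {ι : V' → V} {n : ℕ} {E : Set (Fr V)} {E' : Set (Fr V')} (hE : IsCompact E)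
    (hE' : IsCompact E') (hn : E ⊆ Inj (id : V → V) n) (hn' : E' ⊆ Inj (id : V' → V') n)
    (hm : MapsTo (Proj_r ι) (BS (TT V) ptAct univ E) (BS (TT V') ptAct univ E'))
    (p : MvPolynomial V' ℂ) (q : MvPolynomial V ℂ) :
    tw (BS (TT V') ptAct univ E') (BS (TT V) ptAct univ E) (Proj_r ι) (polyC q)
      (clc _ (polyC p)) = clc _ (polyC (MvPolynomial.rename ι p * q)) := by
  have := Proj_nice (V := V')
  have hc : ContinuousOn (Proj_r ι) (BS (TT V) ptAct univ E) := (continuous_restr ι).continuousOn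
  have ht := (ProperOn.of_isCompact (Proj_compact_BS hE) hc hm).twOK (Proj_polyC_ZZ' hn q)
  rw [tw_cls ht (Proj_polyC_ZZ hE' hn' p), cls_eq_iff (ht.mem_ZZ (Proj_polyC_ZZ hE' hn' p))
    (Proj_polyC_ZZ hE hn _), BB_cc_eq_bot (Proj_compact_BS hE)]
  have h1 := cup_congr (pb_mem_ZZ hc hm (Proj_polyC_ZZ' hn' p))
    (Proj_polyC_ZZ' hn (MvPolynomial.rename ι p)) (Proj_polyC_ZZ' hn q) (Proj_polyC_ZZ' hn q)
    (VB_BB_mono (Proj_BS_mono hn) (pb_polyC ι p n)) (by rw [sub_self]; exact zero_mem _)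
  have h2 := VB_BB_mono (Proj_BS_mono hn) (polyC_mul (MvPolynomial.rename ι p) q n)
  have h3 := sub_mem h1 h2
  convert h3 using 1
  abel

omit [Fintype V] [Fintype V'] in
theorem Proj_r_maps (ι : V' → V) (hι : Function.Injective ι) (lab : V → Λ) (n : ℕ)
    (E : Λ → Submodule ℂ (ℕ → ℂ)) {e : Fr V} (he : e ∈ StE lab n E) :
    (fun j k => e j (ι k)) ∈ StE (fun k => lab (ι k)) n E :=
  ⟨⟨fun j hj => funext fun k => congrFun (he.1.1 j hj) (ι k), fun _ _ h =>
    (he.1.2 _ _ h).trans (if_congr hι.eq_iff rfl rfl)⟩, fun k => he.2 (ι k)⟩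

theorem Proj_r_mapsTo (ι : V' → V) (hι : Function.Injective ι) (lab : V → Λ) (n : ℕ)
    (E : Λ → Submodule ℂ (ℕ → ℂ)) : MapsTo (Proj_r ι) (BS (TT V) ptAct univ (StE lab n E))
      (BS (TT V') ptAct univ (StE (fun k => lab (ι k)) n E)) := fun q hq => by
  obtain ⟨e, he, rfl⟩ := Proj_mem_BS.1 hq
  exact Proj_mem_BS.2 ⟨_, Proj_r_maps ι hι lab n E he, restr_bmk ι e⟩

/-- The space in which the new column is chosen. -/
abbrev Proj_W (φ : Option V' ≃ V) (lab : V → Λ) (n : ℕ) (E : Λ → Submodule ℂ (ℕ → ℂ))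
    (e : Fr V') : Submodule ℂ (ℕ → ℂ) :=
  Proj_perp n (E (lab (φ none))) fun (l : {l // lab (φ (some l)) = lab (φ none)}) j => e j l.1

omit [Fintype V] [DecidableEq V] in
theorem Proj_W_finrank (φ : Option V' ≃ V) (lab : V → Λ) {n : ℕ} {E : Λ → Submodule ℂ (ℕ → ℂ)}
    (hE : ∀ i, ∀ v ∈ E i, ∀ j, n ≤ j → v j = 0) {e : Fr V'}
    (he : e ∈ StE (fun k => lab (φ (some k))) n E) :
    Module.finrank ℂ (Proj_W φ lab n E e) + Nat.card {l // lab (φ (some l)) = lab (φ none)} =
      Module.finrank ℂ (E (lab (φ none))) := by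
  classical
  have := Proj_fd (hE (lab (φ none)))
  rw [Nat.card_eq_fintype_card]
  refine Proj_finrank_perp (fun l => (congrArg E l.2).le (he.2 l.1)) fun k l => ?_
  exact (he.1.2 k.1 l.1 (k.2.trans l.2.symm)).trans (if_congr Subtype.ext_iff.symm rfl rfl)

omit [Fintype V] [Fintype V'] in
theorem Proj_mem_opt (φ : Option V' ≃ V) (lab : V → Λ) {n : ℕ} {E : Λ → Submodule ℂ (ℕ → ℂ)}
    (hE : ∀ i, ∀ v ∈ E i, ∀ j, n ≤ j → v j = 0) {e : Fr V}
    (h1 : (fun j k => e j (φ (some k))) ∈ StE (fun k => lab (φ (some k))) n E)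
    (h2 : (fun j _ => e j (φ none)) ∈ Proj_S n (Proj_W φ lab n E fun j k => e j (φ (some k)))) :
    e ∈ StE lab n E := by
  have h3 := Proj_mem_perp.1 (h2.2 ())
  have hcol : ∀ k, (fun j => e j k) ∈ E (lab k) := by
    intro k
    obtain ⟨o, rfl⟩ := φ.surjective k
    cases o with
    | none => exact h3.1
    | some k => exact h1.2 k
  refine ⟨⟨fun j hj => funext fun k => hE _ _ (hcol k) j hj, fun k l h => ?_⟩, hcol⟩
  obtain ⟨o, rfl⟩ := φ.surjective k
  obtain ⟨o', rfl⟩ := φ.surjective l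
  cases o with
  | none =>
    cases o' with
    | none => exact (h2.1.2 () () rfl).trans ((if_pos rfl).trans (if_pos rfl).symm)
    | some l =>
      rw [if_neg (by simp)]
      have := congrArg star (h3.2 ⟨l, h.symm⟩)
      rw [Proj_ip_star, star_zero] at this
      exact this
  | some k =>
    cases o' with
    | none =>
      rw [if_neg (by simp)]
      exact h3.2 ⟨k, h⟩
    | some l => exact (h1.1.2 k l h).trans (if_congr (by simp) rfl rfl)

omit [Fintype V] [Fintype V'] [DecidableEq V'] in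
theorem Proj_mem_W (φ : Option V' ≃ V) (lab : V → Λ) {n : ℕ} {E : Λ → Submodule ℂ (ℕ → ℂ)}
    {e : Fr V} (he : e ∈ StE lab n E) {e' : Fr V'}
    (h : ∀ k, ∃ z : ℂ, ∀ j, e' j k = e j (φ (some k)) * z) :
    (fun j _ => e j (φ none)) ∈ Proj_S n (Proj_W φ lab n E e') := by
  refine ⟨⟨fun j hj => funext fun _ => congrFun (he.1.1 j hj) _, fun _ _ _ =>
    (he.1.2 _ _ rfl).trans ((if_pos rfl).trans (if_pos rfl).symm)⟩, fun _ =>
    Proj_mem_perp.2 ⟨he.2 _, fun l => ?_⟩⟩
  obtain ⟨z, hz⟩ := h l.1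
  have h1 := Proj_ip_mul n (fun j => e j (φ (some l.1))) (fun j => e j (φ none)) z 1
  have h2 : Proj_ip n (fun j => e j (φ (some l.1))) (fun j => e j (φ none)) = 0 :=
    (he.1.2 _ _ l.2).trans (if_neg (by simp))
  rw [h2, mul_zero] at h1
  simpa only [hz, mul_one] using h1

/-- The Leray-Hirsch isomorphism for forgetting one column. -/
theorem Proj_step (φ : Option V' ≃ V) (lab : V → Λ) {n : ℕ} {E : Λ → Submodule ℂ (ℕ → ℂ)}
    (hE : ∀ i, ∀ v ∈ E i, ∀ j, n ≤ j → v j = 0) {m : ℕ}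
    (hm : m = Module.finrank ℂ (E (lab (φ none))) -
      Nat.card {l // lab (φ (some l)) = lab (φ none)}) (h0 : 0 < m) :
    Function.Bijective (lhMap (BS (TT V') ptAct univ (StE (fun k => lab (φ (some k))) n E))
      (BS (TT V) ptAct univ (StE lab n E)) (Proj_r fun k => φ (some k))
      fun a : Fin m => polyC (MvPolynomial.X (φ none) ^ (a : ℕ))) := by
  have := Proj_nice (V := V)
  have := Proj_nice (V := V')
  have := Proj_nice (V := Unit)
  have : Nonempty (Fin m) := ⟨⟨0, h0⟩⟩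
  have : Nonempty (BT V) := ⟨bmk _ _ ((), 0)⟩
  have hι : Function.Injective fun k => φ (some k) := fun _ _ h =>
    Option.some_injective _ (φ.injective h)
  have hc := Proj_compact_BS (Proj_isCompact_StE lab n E)
  have hI := Proj_StE_Inj lab n E
  refine leray_hirsch (LC.of_isCompact (Proj_compact_BS (Proj_isCompact_StE _ n E)))
    (LC.of_isCompact hc) (fun a => (ProperOn.of_isCompact hc (continuous_restr _).continuousOn
      (Proj_r_mapsTo _ hι lab n E)).twOK (Proj_polyC_ZZ' hI _))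
    (fun a => ⟨_, polyC_homC (MvPolynomial.isHomogeneous_X_pow _ _)⟩) fun y hy => ?_
  obtain ⟨e', he', rfl⟩ := Proj_mem_BS.1 hy
  have hW : ∀ v ∈ Proj_W φ lab n E e', ∀ j, n ≤ j → v j = 0 := fun v hv =>
    hE _ v (Proj_mem_perp.1 hv).1
  have hF : IsCompact (BS (TT V) ptAct univ (StE lab n E) ∩
      (Proj_r fun k => φ (some k)) ⁻¹' {bmk (TT V') ptAct ((), e')}) :=
    hc.inter_right (isClosed_singleton.preimage (continuous_restr _))
  have hb : BijOn (Proj_r fun _ : Unit => φ none) (BS (TT V) ptAct univ (StE lab n E) ∩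
      (Proj_r fun k => φ (some k)) ⁻¹' {bmk (TT V') ptAct ((), e')})
      (BS (TT Unit) ptAct univ (Proj_S n (Proj_W φ lab n E e'))) := by
    refine ⟨?_, ?_, ?_⟩
    · rintro q ⟨hq, h⟩
      obtain ⟨e, he, rfl⟩ := Proj_mem_BS.1 hq
      have h' := Proj_bmk_eq.1 ((restr_bmk _ e).symm.trans h)
      exact Proj_mem_BS.2 ⟨_, Proj_mem_W φ lab he fun k => (h' k).imp fun _ h => h.2,
        restr_bmk _ e⟩
    · rintro q ⟨hq, h⟩ q' ⟨hq', h'⟩ hqq
      obtain ⟨e, -, rfl⟩ := Proj_mem_BS.1 hq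
      obtain ⟨f, -, rfl⟩ := Proj_mem_BS.1 hq'
      have h1 := Proj_bmk_eq.1 ((restr_bmk _ e).symm.trans ((h.trans h'.symm).trans
        (restr_bmk _ f)))
      have h2 := Proj_bmk_eq.1 ((restr_bmk _ e).symm.trans (hqq.trans (restr_bmk _ f)))
      refine Proj_bmk_eq.2 fun k => ?_
      obtain ⟨o, rfl⟩ := φ.surjective k
      cases o with
      | none => exact h2 ()
      | some k => exact h1 k
    · intro q hq
      obtain ⟨s, hs, rfl⟩ := Proj_mem_BS.1 hq
      set e : Fr V := fun j k => (φ.symm k).elim (s j ()) (e' j) with he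
      have e1 : (fun j k => e j (φ (some k))) = e' := by
        funext j k
        simp [he]
      have e2 : (fun j (_ : Unit) => e j (φ none)) = s := by
        funext j k
        simp [he]
      refine ⟨bmk _ _ ((), e), ⟨Proj_mem_BS.2 ⟨e, Proj_mem_opt φ lab hE (e1 ▸ he') ?_, rfl⟩, ?_⟩, ?_⟩
      · rw [e1, e2]
        exact hs
      · exact (restr_bmk _ e).trans (by rw [e1])
      · exact (restr_bmk _ e).trans (by rw [e2])
  obtain ⟨g, hg⟩ := (ProperOn.of_isCompact hF (continuous_restr _).continuousOn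
    hb.1).exists_homeoOn (LC.of_isCompact (Proj_compact_BS (Proj_isCompact_StE _ n _))) hb
  refine IsBasisOn.of_homeoOn hg (Proj_P hW (by have := Proj_W_finrank φ lab hE he'; omega) h0)
    (fun a => ?_) fun a => ?_
  · rw [ZZ_cc_eq_bot hF]
    exact Proj_ZZ_mono inter_subset_left (Proj_polyC_ZZ' hI _)
  · rw [BB_cc_eq_bot hF, ← neg_mem_iff, neg_sub]
    have := pb_polyC (fun _ : Unit => φ none) (MvPolynomial.X () ^ (a : ℕ)) n
    rw [map_pow (MvPolynomial.rename _), MvPolynomial.rename_X] at this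
    exact VB_BB_mono (inter_subset_left.trans (Proj_BS_mono hI)) this

omit [Fintype V] [DecidableEq V] [Fintype V'] [DecidableEq V'] in
theorem Proj_card_opt (φ : Option V' ≃ V) {P : V → Prop} {P' : V' → Prop} (h0 : ¬P (φ none))
    (h : ∀ l, P (φ (some l)) ↔ P' l) : Nat.card {l // P l} = Nat.card {l // P' l} := by
  refine (Nat.card_congr (Equiv.ofBijective (fun l : {l // P' l} =>
    (⟨φ (some l.1), (h _).2 l.2⟩ : {l // P l})) ⟨fun a b hab => ?_, fun ⟨k, hk⟩ => ?_⟩)).symm
  · exact Subtype.ext (Option.some_injective _ (φ.injective (congrArg Subtype.val hab)))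
  · obtain ⟨o, rfl⟩ := φ.surjective k
    cases o with
    | none => exact absurd hk h0
    | some l => exact ⟨⟨l, (h _).1 hk⟩, rfl⟩

theorem Proj_succ (φ : Option V' ≃ V) (lab : V → Λ) {n : ℕ} {E : Λ → Submodule ℂ (ℕ → ℂ)}
    (hE : ∀ i, ∀ v ∈ E i, ∀ j, n ≤ j → v j = 0) (N : V → ℕ)
    (hm : N (φ none) = Module.finrank ℂ (E (lab (φ none))) -
      Nat.card {l // lab (φ (some l)) = lab (φ none)})
    (ih : IsBasisOn (BS (TT V') ptAct univ (StE (fun k => lab (φ (some k))) n E))
      fun I : (k : V') → Fin (N (φ (some k))) => polyC (∏ k, MvPolynomial.X k ^ (I k : ℕ))) :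
    IsBasisOn (BS (TT V) ptAct univ (StE lab n E))
      fun I : (k : V) → Fin (N k) => polyC (∏ k, MvPolynomial.X k ^ (I k : ℕ)) := by
  have := Proj_nice (V := V)
  have := Proj_nice (V := V')
  have hι : Function.Injective fun k => φ (some k) := fun _ _ h =>
    Option.some_injective _ (φ.injective h)
  by_cases h0 : 0 < N (φ none)
  · refine Proj_basis_lh (Proj_step φ lab hE hm h0) ih
      ((Equiv.piCongrLeft (fun k => Fin (N k)) φ).symm.trans Equiv.piOptionEquivProd)
      (fun I => Proj_polyC_ZZ (Proj_isCompact_StE lab n E) (Proj_StE_Inj lab n E) _) fun I => ?_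
    rw [Proj_tw (Proj_isCompact_StE lab n E) (Proj_isCompact_StE _ n E) (Proj_StE_Inj lab n E)
      (Proj_StE_Inj _ n E) (Proj_r_mapsTo _ hι lab n E), ← φ.prod_comp, Fintype.prod_option,
      mul_comm, map_prod]
    simp only [map_pow, MvPolynomial.rename_X]
    rfl
  · have h1 : BS (TT V) ptAct univ (StE lab n E) = ∅ := by
      refine eq_empty_of_forall_notMem fun q hq => h0 ?_
      obtain ⟨e, he, -⟩ := Proj_mem_BS.1 hq
      have h2 := Proj_W_finrank φ lab hE (Proj_r_maps _ hι lab n E he)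
      have hW : ∀ v ∈ Proj_W φ lab n E fun j k => e j (φ (some k)), ∀ j, n ≤ j → v j = 0 :=
        fun v hv => hE _ v (Proj_mem_perp.1 hv).1
      have := Proj_fd hW
      obtain ⟨h3, h4⟩ := (Proj_mem_S hW).1
        (Proj_mem_W φ lab he fun k => ⟨1, fun j => (mul_one _).symm⟩)
      have h5 : Module.finrank ℂ (Proj_W φ lab n E fun j k => e j (φ (some k))) ≠ 0 := by
        intro h
        rw [Submodule.finrank_eq_zero.1 h, Submodule.mem_bot] at h3
        rw [h3, map_zero] at h4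
        exact zero_ne_one h4
      omega
    have : IsEmpty ((k : V) → Fin (N k)) := ⟨fun I => h0 (I (φ none)).pos⟩
    rw [h1]
    exact Proj_basis_empty _

theorem Proj_main {n : ℕ} {E : Λ → Submodule ℂ (ℕ → ℂ)}
    (hE : ∀ i, ∀ v ∈ E i, ∀ j, n ≤ j → v j = 0) (c : ℕ) :
    ∀ (V : Type) [Fintype V] [DecidableEq V], Fintype.card V = c → ∀ (lab : V → Λ) (o : V → ℕ),
      Function.Injective o → ∀ N : V → ℕ, (∀ k, N k = Module.finrank ℂ (E (lab k)) -
        Nat.card {l // lab l = lab k ∧ o k < o l}) →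
      IsBasisOn (BS (TT V) ptAct univ (StE lab n E))
        fun I : (k : V) → Fin (N k) => polyC (∏ k, MvPolynomial.X k ^ (I k : ℕ)) := by
  induction c with
  | zero =>
    intro V _ _ hV lab o _ N _
    have := Fintype.card_eq_zero_iff.1 hV
    have := Proj_nice (V := V)
    have h1 : BS (TT V) ptAct univ (StE lab n E) = {bmk (TT V) ptAct ((), 0)} := by
      ext q
      rw [Proj_mem_BS]
      exact ⟨fun ⟨e, _, h⟩ => by rw [h, Subsingleton.elim e 0]; rfl, fun h =>
        ⟨0, ⟨⟨fun _ _ => rfl, fun k => isEmptyElim k⟩, fun k => isEmptyElim k⟩, h⟩⟩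
    obtain ⟨g1, g2, g3⟩ := isGenOn_point (bmk (TT V) ptAct ((), (0 : Fr V)))
    rw [h1]
    simp only [Finset.univ_eq_empty, Finset.prod_empty, polyC_one]
    refine Proj_basis_iff.2 ⟨fun _ => g1, fun z hz => ?_, fun x => ?_⟩
    · rw [Fintype.sum_unique] at hz
      funext I
      rw [Subsingleton.elim I default]
      exact (smul_eq_zero.1 hz).resolve_right g2
    · obtain ⟨z, rfl⟩ := g3 x
      exact ⟨fun _ => z, Fintype.sum_unique _⟩
  | succ c ih =>
    intro V _ _ hV lab o ho N hN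
    have : Nonempty V := Fintype.card_pos_iff.1 (by omega)
    obtain ⟨k₀, -, hk₀⟩ := Finset.exists_min_image Finset.univ o Finset.univ_nonempty
    set φ := Equiv.optionSubtypeNe k₀ with hφ
    have h0 : ∀ k, o (φ none) ≤ o k := fun k => hk₀ k (Finset.mem_univ k)
    refine Proj_succ φ lab hE N ?_ (ih _ ?_ _ (fun k => o (φ (some k)))
      (fun _ _ h => Option.some_injective _ (φ.injective (ho h))) _ fun k => ?_)
    · rw [hN, Proj_card_opt φ (fun h => lt_irrefl _ h.2) fun l => and_iff_left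
        (lt_of_le_of_ne (h0 _) fun h => Option.some_ne_none _ (φ.injective (ho h)).symm)]
    · have := Fintype.card_congr φ
      rw [Fintype.card_option] at this
      omega
    · rw [hN, Proj_card_opt φ (fun h => not_lt.2 (h0 _) h.2) fun l => Iff.rfl]

end Pool.Agent.HK
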