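import Pool.Agent.P.MP_1206ce_ag.BO.Frames
import Pool.Agent.P.MP_1206ce_ag.Alg.Sym

/-! Local slices for the action on frames; Borel quotients are locally Euclidean. -/

open scoped Topology
open Filter Set

noncomputable section

namespace Pool.Agent.HK

variable {V Λ Λ₀ X : Type} [Fintype V] [DecidableEq V] [TopologicalSpace X]

section
open scoped MatrixOrder Matrix.Norms.L2Operator ComplexOrder

theorem Slice_cont_sqrt :
    ContinuousOn (fun M : Matrix V V ℂ => CFC.sqrt M) {M | M.PosSemidef} := by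
  have := CFC.continuousOn_sqrt (A := Matrix V V ℂ)
  refine this.mono fun M hM => ?_
  exact Matrix.nonneg_iff_posSemidef.mpr hM

theorem Slice_polar : ∃ γ : Matrix V V ℂ → Matrix V V ℂ, ContinuousOn γ {M | M.det ≠ 0} ∧
    (∀ M : Matrix V V ℂ, M.det ≠ 0 → γ M ∈ Matrix.unitaryGroup V ℂ ∧ (M * γ M).PosSemidef) ∧
    ∀ M u : Matrix V V ℂ, M.det ≠ 0 → u ∈ Matrix.unitaryGroup V ℂ → (M * u).PosSemidef →
      γ M = u := by
  have hps : ∀ M : Matrix V V ℂ, (M * star M).PosSemidef := fun M =>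
    Matrix.posSemidef_self_mul_conjTranspose M
  refine ⟨fun M => M⁻¹ * CFC.sqrt (M * star M), ?_, fun M hM => ?_, fun M u hM hu hp => ?_⟩
  · refine ContinuousOn.mul (fun M hM => ?_) ?_
    · refine (continuousAt_matrix_inv M ?_).continuousWithinAt
      rw [Ring.inverse_eq_inv']
      exact continuousAt_inv₀ hM
    · exact Slice_cont_sqrt.comp (continuous_id.mul continuous_star).continuousOn
        fun M _ => hps M
  · have hu : IsUnit M.det := isUnit_iff_ne_zero.mpr hM
    have h0 : 0 ≤ M * star M := Matrix.nonneg_iff_posSemidef.mpr (hps M)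
    have h1 : (CFC.sqrt (M * star M)).PosSemidef :=
      Matrix.nonneg_iff_posSemidef.mp (CFC.sqrt_nonneg _)
    have h2 : CFC.sqrt (M * star M) * CFC.sqrt (M * star M) = M * star M :=
      CFC.sqrt_mul_sqrt_self _ h0
    have h3 : star (CFC.sqrt (M * star M)) = CFC.sqrt (M * star M) := h1.1
    refine ⟨?_, ?_⟩
    · rw [Matrix.mem_unitaryGroup_iff, star_mul, h3, Matrix.mul_assoc, ← Matrix.mul_assoc _ _ (star M⁻¹),
        h2, ← Matrix.mul_assoc, ← Matrix.mul_assoc, Matrix.nonsing_inv_mul _ hu, Matrix.one_mul,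
        ← star_mul, Matrix.nonsing_inv_mul _ hu, star_one]
    · rwa [← Matrix.mul_assoc, Matrix.mul_nonsing_inv _ hu, Matrix.one_mul]
  · have hu' : IsUnit M.det := isUnit_iff_ne_zero.mpr hM
    have h3 : star (M * u) = M * u := hp.1
    have h4 : M * u * (M * u) = M * star M := by
      nth_rewrite 2 [← h3]
      rw [star_mul, Matrix.mul_assoc, ← Matrix.mul_assoc u, Matrix.mem_unitaryGroup_iff.mp hu,
        Matrix.one_mul]
    have h5 : CFC.sqrt (M * star M) = M * u :=
      CFC.sqrt_unique h4 (Matrix.nonneg_iff_posSemidef.mpr hp)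
    change M⁻¹ * CFC.sqrt (M * star M) = u
    rw [h5, ← Matrix.mul_assoc, Matrix.nonsing_inv_mul _ hu', Matrix.one_mul]

end


section
open scoped ComplexOrder Matrix

omit [DecidableEq V] in
theorem Slice_posDef_eventually {M : Matrix V V ℂ} (hM : M.PosDef) :
    ∀ᶠ N in 𝓝 M, N.IsHermitian → N.PosDef := by
  have hK : IsCompact (Metric.sphere (0 : V → ℂ) 1) := isCompact_sphere _ _
  have hc : Continuous fun z : Matrix V V ℂ × (V → ℂ) => (star z.2 ⬝ᵥ z.1 *ᵥ z.2).re := by
    refine Complex.continuous_re.comp ?_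
    exact Continuous.dotProduct (continuous_star.comp continuous_snd)
      (continuous_fst.matrix_mulVec continuous_snd)
  have h1 := hK.eventually_forall_of_forall_eventually (x₀ := M)
    (P := fun N v => 0 < (star v ⬝ᵥ N *ᵥ v).re) fun v hv => by
      have hv0 : v ≠ 0 := by
        rintro rfl
        simp at hv
      exact (isOpen_lt continuous_const hc).mem_nhds (hM.re_dotProduct_pos hv0)
  filter_upwards [h1] with N hN hH
  refine Matrix.PosDef.of_dotProduct_mulVec_pos hH fun v hv => ?_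
  have hn : (0 : ℝ) < ‖v‖ := norm_pos_iff.mpr hv
  have hw : ((‖v‖⁻¹ : ℝ) : ℂ) • v ∈ Metric.sphere (0 : V → ℂ) 1 := by
    rw [mem_sphere_zero_iff_norm, norm_smul, Complex.norm_real, norm_inv, norm_norm]
    exact inv_mul_cancel₀ hn.ne'
  have h2 := hN _ hw
  rw [star_smul, Matrix.mulVec_smul, smul_dotProduct, dotProduct_smul, smul_eq_mul, smul_eq_mul,
    Complex.star_def, Complex.conj_ofReal, Complex.re_ofReal_mul, Complex.re_ofReal_mul] at h2
  have h3 : 0 < (star v ⬝ᵥ N *ᵥ v).re :=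
    (mul_pos_iff_of_pos_left (inv_pos.mpr hn)).mp ((mul_pos_iff_of_pos_left (inv_pos.mpr hn)).mp h2)
  exact Complex.pos_iff.mpr ⟨h3, (hH.im_star_dotProduct_mulVec_self v).symm⟩

/-- Block matrices for the partition `c`. -/
def Slice_Blk {κ : Type} (c : V → κ) (A : Matrix V V ℂ) : Prop := ∀ k l, c k ≠ c l → A k l = 0

theorem Slice_blk_polar {κ : Type} {c : V → κ} {γ : Matrix V V ℂ → Matrix V V ℂ}
    (h1 : ∀ M : Matrix V V ℂ, M.det ≠ 0 → γ M ∈ Matrix.unitaryGroup V ℂ ∧ (M * γ M).PosSemidef)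
    (h2 : ∀ M u : Matrix V V ℂ, M.det ≠ 0 → u ∈ Matrix.unitaryGroup V ℂ → (M * u).PosSemidef →
      γ M = u) {M : Matrix V V ℂ} (hM : M.det ≠ 0) (hB : Slice_Blk c M) : Slice_Blk c (γ M) := by
  classical
  intro k l hkl
  obtain ⟨E, hE⟩ : ∃ E : Matrix V V ℂ,
    E = Matrix.diagonal fun m => if c m = c k then (1 : ℂ) else -1 := ⟨_, rfl⟩
  have hs : star E = E := by
    rw [hE, Matrix.star_eq_conjTranspose, Matrix.diagonal_conjTranspose]
    refine congrArg Matrix.diagonal (funext fun m => ?_)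
    by_cases h : c m = c k <;> simp [h]
  have hEE : E * E = 1 := by
    rw [hE, Matrix.diagonal_mul_diagonal, ← Matrix.diagonal_one]
    refine congrArg Matrix.diagonal (funext fun m => ?_)
    by_cases h : c m = c k <;> simp [h]
  have hEu : E ∈ Matrix.unitaryGroup V ℂ := by
    rw [Matrix.mem_unitaryGroup_iff, hs, hEE]
  have hEM : M * E = E * M := by
    ext a b
    rw [hE, Matrix.mul_diagonal, Matrix.diagonal_mul]
    by_cases h : c a = c b
    · rw [h, mul_comm]
    · rw [hB a b h, zero_mul, mul_zero]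
  have hp : (M * (E * γ M * E)).PosSemidef := by
    have := (h1 M hM).2.conjTranspose_mul_mul_same E
    rw [← Matrix.star_eq_conjTranspose, hs] at this
    rwa [← Matrix.mul_assoc, ← Matrix.mul_assoc, hEM, Matrix.mul_assoc E]
  have h3 := h2 M _ hM (mul_mem (mul_mem hEu (h1 M hM).1) hEu) hp
  have h4 : γ M k l = (E * γ M * E) k l := congrFun (congrFun h3 k) l
  rw [hE, Matrix.mul_diagonal, Matrix.diagonal_mul, if_pos rfl, if_neg (Ne.symm hkl)] at h4
  linear_combination (1 / 2 : ℂ) * h4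

end


section
open scoped ComplexOrder Matrix

/-- Unfrozen pairs in the same block. -/
def Slice_rel (lab : V → Λ) (fr : Set V) (k l : V) : Prop := lab k = lab l ∧ k ∉ fr ∧ l ∉ fr

open Classical in
/-- The partition into the unfrozen parts of the blocks and the frozen points. -/
def Slice_cl (lab : V → Λ) (fr : Set V) (k : V) : Λ ⊕ V :=
  if k ∈ fr then Sum.inr k else Sum.inl (lab k)

open Classical in
/-- The part of a matrix on the unfrozen blocks. -/
def Slice_mask (lab : V → Λ) (fr : Set V) : Matrix V V ℂ →ₗ[ℂ] Matrix V V ℂ where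
  toFun A := Matrix.of fun k l => if Slice_rel lab fr k l then A k l else 0
  map_add' A B := by
    ext k l
    simp only [Matrix.of_apply, Matrix.add_apply]
    split_ifs <;> simp
  map_smul' a A := by
    ext k l
    simp only [Matrix.of_apply, Matrix.smul_apply, RingHom.id_apply]
    split_ifs <;> simp

open Classical in
/-- The projection on the frozen coordinates. -/
def Slice_I (fr : Set V) : Matrix V V ℂ := Matrix.diagonal fun k => if k ∈ fr then 1 else 0

variable {lab : V → Λ} {fr : Set V}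

omit [Fintype V] [DecidableEq V] in
theorem Slice_mask_pos {k l : V} (h : Slice_rel lab fr k l) (A : Matrix V V ℂ) :
    Slice_mask lab fr A k l = A k l := if_pos h

omit [Fintype V] [DecidableEq V] in
theorem Slice_mask_neg {k l : V} (h : ¬ Slice_rel lab fr k l) (A : Matrix V V ℂ) :
    Slice_mask lab fr A k l = 0 := if_neg h

omit [Fintype V] [DecidableEq V] in
theorem Slice_rel_symm {k l : V} (h : Slice_rel lab fr k l) : Slice_rel lab fr l k :=
  ⟨h.1.symm, h.2.2, h.2.1⟩

omit [Fintype V] [DecidableEq V] in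
theorem Slice_cl_eq {k l : V} :
    Slice_cl lab fr k = Slice_cl lab fr l ↔ Slice_rel lab fr k l ∨ k = l := by
  unfold Slice_cl Slice_rel
  by_cases hk : k ∈ fr <;> by_cases hl : l ∈ fr
  · simp [hk, hl]
  · simp only [hk, hl, if_true, if_false, reduceCtorEq, not_true, false_and, and_false, false_or,
      false_iff]
    rintro rfl
    exact hl hk
  · simp only [hk, hl, if_true, if_false, reduceCtorEq, not_true, and_false, false_or, false_iff]
    rintro rfl
    exact hk hl
  · simp only [hk, hl, if_false, Sum.inl.injEq, not_false_iff, and_true]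
    exact ⟨Or.inl, fun h => h.elim id (congrArg lab)⟩

omit [Fintype V] [DecidableEq V] in
theorem Slice_rel_congr {k l m : V} (h : Slice_cl lab fr l = Slice_cl lab fr m) :
    Slice_rel lab fr k l ↔ Slice_rel lab fr k m := by
  rcases Slice_cl_eq.mp h with h | rfl
  · exact ⟨fun h' => ⟨h'.1.trans h.1, h'.2.1, h.2.2⟩, fun h' => ⟨h'.1.trans h.1.symm, h'.2.1, h.2.1⟩⟩
  · rfl

omit [Fintype V] [DecidableEq V] in
theorem Slice_blk_mask (A : Matrix V V ℂ) : Slice_Blk (Slice_cl lab fr) (Slice_mask lab fr A) :=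
  fun _ _ h => Slice_mask_neg (fun h' => h (Slice_cl_eq.mpr (Or.inl h'))) A

omit [Fintype V] in
theorem Slice_blk_M (A : Matrix V V ℂ) :
    Slice_Blk (Slice_cl lab fr) (Slice_mask lab fr A + Slice_I fr) := fun k l h => by
  rw [Matrix.add_apply, Slice_blk_mask A k l h, Slice_I,
    Matrix.diagonal_apply_ne _ fun h' => h (congrArg _ h'), add_zero]

omit [DecidableEq V] in
theorem Slice_mask_mul {B : Matrix V V ℂ} (hB : Slice_Blk (Slice_cl lab fr) B) (A : Matrix V V ℂ) :
    Slice_mask lab fr (A * B) = Slice_mask lab fr A * B := by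
  ext k l
  rw [Matrix.mul_apply]
  by_cases h : Slice_rel lab fr k l
  · rw [Slice_mask_pos h, Matrix.mul_apply]
    refine Finset.sum_congr rfl fun m _ => ?_
    by_cases h' : Slice_cl lab fr m = Slice_cl lab fr l
    · rw [Slice_mask_pos ((Slice_rel_congr h').mpr h)]
    · rw [hB m l h', mul_zero, mul_zero]
  · rw [Slice_mask_neg h]
    refine (Finset.sum_eq_zero fun m _ => ?_).symm
    by_cases h' : Slice_cl lab fr m = Slice_cl lab fr l
    · rw [Slice_mask_neg fun h'' => h ((Slice_rel_congr h').mp h''), zero_mul]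
    · rw [hB m l h', mul_zero]

omit [DecidableEq V] in
theorem Slice_mul_mask {B : Matrix V V ℂ} (hB : Slice_Blk (Slice_cl lab fr) B) (A : Matrix V V ℂ) :
    Slice_mask lab fr (B * A) = B * Slice_mask lab fr A := by
  ext k l
  rw [Matrix.mul_apply]
  by_cases h : Slice_rel lab fr k l
  · rw [Slice_mask_pos h, Matrix.mul_apply]
    refine Finset.sum_congr rfl fun m _ => ?_
    by_cases h' : Slice_cl lab fr k = Slice_cl lab fr m
    · rw [Slice_mask_pos (Slice_rel_symm ((Slice_rel_congr h').mp (Slice_rel_symm h)))]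
    · rw [hB k m h', zero_mul, zero_mul]
  · rw [Slice_mask_neg h]
    refine (Finset.sum_eq_zero fun m _ => ?_).symm
    by_cases h' : Slice_cl lab fr k = Slice_cl lab fr m
    · rw [Slice_mask_neg fun h'' =>
        h (Slice_rel_symm ((Slice_rel_congr h').mpr (Slice_rel_symm h''))), mul_zero]
    · rw [hB k m h', zero_mul]

theorem Slice_I_mask (A : Matrix V V ℂ) : Slice_I fr * Slice_mask lab fr A = 0 := by
  ext k l
  rw [Slice_I, Matrix.diagonal_mul, Matrix.zero_apply]
  by_cases h : k ∈ fr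
  · rw [Slice_mask_neg fun h' => h'.2.1 h, mul_zero]
  · rw [if_neg h, zero_mul]

theorem Slice_I_mul {u : Matrix V V ℂ} (hu : u ∈ KF lab fr) : Slice_I fr * u = Slice_I fr := by
  ext k l
  rw [Slice_I, Matrix.diagonal_mul, Matrix.diagonal_apply]
  by_cases h : k ∈ fr
  · rw [if_pos h, one_mul, hu.2 k h l, Matrix.one_apply]
  · rw [if_neg h, zero_mul, ite_self]

theorem Slice_blk_KF {u : Matrix V V ℂ} (hu : u ∈ KF lab fr) : Slice_Blk (Slice_cl lab fr) u := by
  intro k l h
  have hkl : k ≠ l := fun h' => h (congrArg _ h')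
  by_cases hk : k ∈ fr
  · rw [hu.2 k hk l, Matrix.one_apply_ne hkl]
  by_cases hl : l ∈ fr
  · have := ((isGrp_KF lab fr).star u hu).2 l hl k
    rw [Matrix.one_apply_ne hkl.symm, Matrix.star_apply] at this
    exact star_eq_zero.mp this
  · exact hu.1.2 k l fun h' => h (Slice_cl_eq.mpr (Or.inl ⟨h', hk, hl⟩))

theorem Slice_mem_KF {u A : Matrix V V ℂ} (hu : u ∈ Matrix.unitaryGroup V ℂ)
    (hB : Slice_Blk (Slice_cl lab fr) u) (hp : ((Slice_mask lab fr A + Slice_I fr) * u).PosSemidef) :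
    u ∈ KF lab fr := by
  refine ⟨⟨hu, fun k l h => hB k l fun h' => h ?_⟩, fun k hk l => ?_⟩
  · exact (Slice_cl_eq.mp h').elim (fun h'' => h''.1) (congrArg lab)
  have h0 : ∀ m, m ≠ k → Slice_cl lab fr k ≠ Slice_cl lab fr m := fun m hm h' =>
    (Slice_cl_eq.mp h').elim (fun h'' => h''.2.1 hk) fun h'' => hm h''.symm
  by_cases hl : l = k
  · subst hl
    have h1 : 0 ≤ u l l := by
      have := hp.diag_nonneg (i := l)
      rwa [Matrix.mul_apply, Finset.sum_eq_single l (fun m _ hm => by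
        rw [Slice_blk_M A l m (h0 m hm), zero_mul]) (by simp), Matrix.add_apply,
        Slice_mask_neg fun h' => h'.2.1 hk, Slice_I, Matrix.diagonal_apply_eq, if_pos hk, zero_add,
        one_mul] at this
    have h2 : u l l * star (u l l) = 1 := by
      have := congrFun (congrFun (Matrix.mem_unitaryGroup_iff.mp hu) l) l
      rwa [Matrix.mul_apply, Finset.sum_eq_single l (fun m _ hm => by
        rw [hB l m (h0 m hm), zero_mul]) (by simp), Matrix.star_apply, Matrix.one_apply_eq] at this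
    rw [Matrix.one_apply_eq]
    have h3 : star (u l l) = u l l := (IsSelfAdjoint.of_nonneg h1).star_eq
    rw [h3] at h2
    rcases mul_self_eq_one_iff.mp h2 with h4 | h4
    · exact h4
    · rw [h4] at h1
      have := (Complex.nonneg_iff.mp h1).1
      norm_num at this
  · rw [hB k l (h0 l hl), Matrix.one_apply_ne (Ne.symm hl)]


/-- The first `n` rows of a frame. -/
def Slice_res (n : ℕ) (e : Fr V) : Matrix (Fin n) V ℂ := Matrix.of fun j k => e j k

/-- The frame with the given first rows. -/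
def Slice_ext (n : ℕ) (x : Fin n → V → ℂ) : Fr V := fun j => if h : j < n then x ⟨j, h⟩ else 0

omit [Fintype V] [DecidableEq V] in
theorem Slice_res_ext (n : ℕ) (x : Fin n → V → ℂ) : Slice_res n (Slice_ext n x) = Matrix.of x := by
  ext j k
  simp [Slice_res, Slice_ext]

omit [Fintype V] [DecidableEq V] in
theorem Slice_ext_res {n : ℕ} {e : Fr V} (he : e ∈ FrN V n) :
    Slice_ext n (fun j : Fin n => e j) = e := by
  funext j
  unfold Slice_ext
  split_ifs with h
  · rfl
  · exact (he j (not_lt.mp h)).symm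

omit [Fintype V] [DecidableEq V] in
theorem Slice_ext_mem (n : ℕ) (x : Fin n → V → ℂ) : Slice_ext n x ∈ FrN V n :=
  fun _ hj => dif_neg (not_lt.mpr hj)

omit [Fintype V] [DecidableEq V] in
theorem Slice_cont_ext (n : ℕ) : Continuous (Slice_ext (V := V) n) := by
  refine continuous_pi fun j => ?_
  unfold Slice_ext
  split_ifs with h
  · exact continuous_apply _
  · exact continuous_const

omit [Fintype V] [DecidableEq V] in
theorem Slice_cont_res (n : ℕ) : Continuous (Slice_res (V := V) n) :=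
  continuous_pi fun j => continuous_apply (j : ℕ)

omit [DecidableEq V] in
theorem Slice_res_frAct (n : ℕ) (u : Matrix V V ℂ) (e : Fr V) :
    Slice_res n (frAct u e) = Slice_res n e * star u := rfl

omit [Fintype V] [DecidableEq V] in
theorem Slice_cont_mask : Continuous (Slice_mask lab fr) := by
  refine continuous_pi fun k => continuous_pi fun l => ?_
  by_cases h : Slice_rel lab fr k l
  · simp only [Slice_mask_pos h]
    exact (continuous_apply l).comp (continuous_apply k)
  · simp only [Slice_mask_neg h]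
    exact continuous_const

theorem Slice_det_ne {n : ℕ} {e₀ : Fr V} (he : e₀ ∈ Inj lab n) :
    (Slice_mask lab fr ((Slice_res n e₀)ᴴ * Slice_res n e₀) + Slice_I fr).det ≠ 0 := by
  classical
  intro h0
  obtain ⟨v, hv, hz⟩ := Matrix.exists_mulVec_eq_zero_iff.mpr h0
  refine hv (funext fun k => ?_)
  have hI : ∀ m, (Slice_I fr *ᵥ v) m = if m ∈ fr then v m else 0 := fun m => by
    rw [Slice_I, Matrix.mulVec_diagonal]
    split_ifs <;> simp
  have hz' : ∀ m, (Slice_mask lab fr ((Slice_res n e₀)ᴴ * Slice_res n e₀) *ᵥ v) m +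
      (if m ∈ fr then v m else 0) = 0 := fun m => by
    rw [← hI, ← Pi.add_apply, ← Matrix.add_mulVec, hz, Pi.zero_apply]
  by_cases hk : k ∈ fr
  · have := hz' k
    rwa [if_pos hk, Matrix.mulVec, dotProduct, Finset.sum_eq_zero fun m _ => by
      rw [Slice_mask_neg fun h' => h'.2.1 hk, zero_mul], zero_add] at this
  obtain ⟨c, hc⟩ : ∃ c : V → ℂ, c = fun m => if Slice_rel lab fr k m then v m else 0 := ⟨_, rfl⟩
  have h1 : star c ⬝ᵥ ((Slice_res n e₀)ᴴ * Slice_res n e₀) *ᵥ c = 0 := by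
    refine Finset.sum_eq_zero fun m _ => ?_
    by_cases hm : Slice_rel lab fr k m
    · have := hz' m
      rw [if_neg hm.2.2, add_zero] at this
      refine mul_eq_zero_of_right _ (Eq.trans ?_ this)
      refine Finset.sum_congr rfl fun l _ => ?_
      beta_reduce
      have hiff : Slice_rel lab fr l k ↔ Slice_rel lab fr l m :=
        Slice_rel_congr (Slice_cl_eq.mpr (Or.inl hm))
      by_cases hl : Slice_rel lab fr m l
      · rw [Slice_mask_pos hl, hc]
        simp only [if_pos (Slice_rel_symm (hiff.mpr (Slice_rel_symm hl)))]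
      · rw [Slice_mask_neg hl, hc]
        simp only [if_neg fun h' => hl (Slice_rel_symm (hiff.mp (Slice_rel_symm h'))), mul_zero,
          zero_mul]
    · refine mul_eq_zero_of_left ?_ _
      rw [hc]
      simp only [Pi.star_apply, if_neg hm, star_zero]
  rw [← Matrix.mulVec_mulVec, Matrix.dotProduct_mulVec, Matrix.vecMul_conjTranspose, star_star,
    dotProduct_star_self_eq_zero] at h1
  have h2 : c = 0 := he.2 (lab k) c (fun m hm => by
    rw [hc]
    exact if_neg fun h' => hm h'.1.symm) fun j => by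
      by_cases hj : j < n
      · exact congrFun h1 ⟨j, hj⟩
      · simp [he.1 j (not_lt.mp hj)]
  have h3 := congrFun h2 k
  rw [hc] at h3
  simpa [Slice_rel, hk] using h3

/-- The masked Gram matrix with a fixed frame. -/
def Slice_G (lab : V → Λ) (fr : Set V) {n : ℕ} (X₀ : Matrix (Fin n) V ℂ) :
    (Fin n → V → ℂ) →ₗ[ℝ] Matrix V V ℂ where
  toFun x := Slice_mask lab fr (X₀ᴴ * Matrix.of x)
  map_add' x y := by
    rw [← map_add, ← Matrix.mul_add]
    rfl
  map_smul' a x := by
    rw [RingHom.id_apply, ← LinearMap.map_smul_of_tower, ← Matrix.mul_smul]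
    rfl

/-- Coordinates on the skew Hermitian part. -/
def Slice_Psi (lab : V → Λ) (fr : Set V) :
    Matrix V V ℂ →ₗ[ℝ] ({p : V × V // Slice_rel lab fr p.1 p.2} → ℝ) where
  toFun A p := (A p.1.1 p.1.2).re + (A p.1.1 p.1.2).im - (A p.1.2 p.1.1).re + (A p.1.2 p.1.1).im
  map_add' A B := by
    funext p
    simp only [Matrix.add_apply, Complex.add_re, Complex.add_im, Pi.add_apply]
    ring
  map_smul' a A := by
    funext p
    simp only [Matrix.smul_apply, Complex.smul_re, Complex.smul_im, Pi.smul_apply, smul_eq_mul,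
      RingHom.id_apply]
    ring

omit [Fintype V] [DecidableEq V] in
theorem Slice_Psi_eq_zero (A : Matrix V V ℂ) :
    Slice_Psi lab fr (Slice_mask lab fr A) = 0 ↔ (Slice_mask lab fr A).IsHermitian := by
  refine ⟨fun h => Matrix.IsHermitian.ext fun k l => ?_, fun h => funext fun p => ?_⟩
  · by_cases hkl : Slice_rel lab fr k l
    · have h1 := congrFun h ⟨(k, l), hkl⟩
      have h2 := congrFun h ⟨(l, k), Slice_rel_symm hkl⟩
      simp only [Slice_Psi, LinearMap.coe_mk, AddHom.coe_mk, Pi.zero_apply] at h1 h2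
      refine Complex.ext ?_ ?_
      · rw [Complex.star_def, Complex.conj_re]
        linarith
      · rw [Complex.star_def, Complex.conj_im]
        linarith
    · rw [Slice_mask_neg hkl, Slice_mask_neg fun h' => hkl (Slice_rel_symm h'), star_zero]
  · simp only [Slice_Psi, LinearMap.coe_mk, AddHom.coe_mk, Pi.zero_apply]
    rw [← h.apply p.1.2 p.1.1, Complex.star_def, Complex.conj_re, Complex.conj_im]
    ring

theorem Slice_surj {n : ℕ} {X₀ : Matrix (Fin n) V ℂ}
    (h : (Slice_mask lab fr (X₀ᴴ * X₀) + Slice_I fr).det ≠ 0) :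
    Function.Surjective (Slice_Psi lab fr ∘ₗ Slice_G lab fr X₀) := by
  classical
  intro R
  obtain ⟨A, hA⟩ : ∃ A : Matrix V V ℂ, A = Matrix.of fun k l =>
    if h : Slice_rel lab fr k l then (⟨R ⟨(k, l), h⟩ / 2, R ⟨(k, l), h⟩ / 2⟩ : ℂ) else 0 := ⟨_, rfl⟩
  have h1 : Slice_Psi lab fr (Slice_mask lab fr A) = R := by
    funext p
    simp only [Slice_Psi, LinearMap.coe_mk, AddHom.coe_mk]
    rw [Slice_mask_pos p.2, Slice_mask_pos (Slice_rel_symm p.2), hA]
    simp only [Matrix.of_apply, dif_pos p.2, dif_pos (Slice_rel_symm p.2)]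
    ring
  refine ⟨X₀ * Slice_mask lab fr ((Slice_mask lab fr (X₀ᴴ * X₀) + Slice_I fr)⁻¹ * A), ?_⟩
  refine Eq.trans (congrArg (Slice_Psi lab fr) ?_) h1
  have h2 := Slice_mul_mask (Slice_blk_M (lab := lab) (fr := fr) (X₀ᴴ * X₀))
    ((Slice_mask lab fr (X₀ᴴ * X₀) + Slice_I fr)⁻¹ * A)
  rw [← Matrix.mul_assoc, Matrix.mul_nonsing_inv _ (isUnit_iff_ne_zero.mpr h), Matrix.one_mul,
    Matrix.add_mul, Slice_I_mask, add_zero, ← Slice_mask_mul (Slice_blk_mask _),
    Matrix.mul_assoc] at h2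
  exact h2.symm

omit [Fintype V] in
theorem Slice_I_herm : (Slice_I fr).IsHermitian := by
  refine Matrix.isHermitian_diagonal_of_self_adjoint _ (funext fun k => ?_)
  by_cases h : k ∈ fr <;> simp [h]

theorem Slice_chart {n : ℕ} (X₀ : Matrix (Fin n) V ℂ) :
    ConvChart (Module.finrank ℝ (LinearMap.ker (Slice_Psi lab fr ∘ₗ Slice_G lab fr X₀)))
      {e | e ∈ FrN V n ∧ (Slice_mask lab fr (X₀ᴴ * Slice_res n e) + Slice_I fr).PosDef} := by
  obtain ⟨H, hH⟩ : ∃ H, H = LinearMap.ker (Slice_Psi lab fr ∘ₗ Slice_G lab fr X₀) := ⟨_, rfl⟩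
  have hmem : ∀ x, x ∈ H ↔ (Slice_G lab fr X₀ x).IsHermitian := fun x => by
    rw [hH, LinearMap.mem_ker, LinearMap.comp_apply]
    exact Slice_Psi_eq_zero _
  rw [← hH]
  obtain ⟨p, hp⟩ := H.subtype.exists_leftInverse_of_injective (Submodule.ker_subtype H)
  have hp' : ∀ v : H, p (v : Fin n → V → ℂ) = v := fun v => LinearMap.congr_fun hp v
  have hin : ∀ e : Fr V, (Slice_mask lab fr (X₀ᴴ * Slice_res n e) + Slice_I fr).PosDef →
      (fun j : Fin n => e j) ∈ H := fun e he => by
    have := he.1.sub (Slice_I_herm (fr := fr))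
    rw [add_sub_cancel_right] at this
    exact (hmem _).mpr this
  refine ConvChart.of_homeoOn (C := {x : H | (Slice_G lab fr X₀ x + Slice_I fr).PosDef})
    (f := fun e => p fun j : Fin n => e j) (g := fun x => Slice_ext n x) ?_ ?_
    ⟨?_, ?_, fun e he => ?_, fun x hx => ⟨Slice_ext_mem n _, ?_⟩, fun e he => ?_, fun x _ => ?_⟩
  · refine convex_iff_forall_pos.mpr fun x hx y hy a b ha hb hab => ?_
    have := (Matrix.PosDef.smul hx ha).add (Matrix.PosDef.smul hy hb)
    change (Slice_G lab fr X₀ (a • (x : Fin n → V → ℂ) + b • (y : Fin n → V → ℂ)) +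
      Slice_I fr).PosDef
    rwa [smul_add, smul_add, add_add_add_comm, ← add_smul, hab, one_smul, ← map_smul, ← map_smul,
      ← map_add] at this
  · have hc : Continuous fun x : H => Slice_G lab fr X₀ x + Slice_I fr :=
      ((Slice_G lab fr X₀).continuous_of_finiteDimensional.comp continuous_subtype_val).add
        continuous_const
    refine isOpen_iff_mem_nhds.mpr fun x hx => ?_
    filter_upwards [hc.continuousAt.eventually (Slice_posDef_eventually hx)] with y hy
    exact hy (((hmem _).mp y.2).add Slice_I_herm)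
  · exact (p.continuous_of_finiteDimensional.comp
      (continuous_pi fun j => continuous_apply (j : ℕ))).continuousOn
  · exact ((Slice_cont_ext n).comp continuous_subtype_val).continuousOn
  · change (Slice_G lab fr X₀ (p ((⟨_, hin e he.2⟩ : H) : Fin n → V → ℂ)) + Slice_I fr).PosDef
    rw [hp']
    exact he.2
  · rw [Slice_res_ext]
    exact hx
  · change Slice_ext n (p ((⟨_, hin e he.2⟩ : H) : Fin n → V → ℂ)) = e
    rw [hp']
    exact Slice_ext_res he.1
  · refine Eq.trans (congrArg p (funext fun j => ?_)) (hp' x)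
    exact dif_pos j.2


end

open Classical in
/-- The real dimension of `KF lab fr`. -/
def dimKF (lab : V → Λ) (fr : Set V) : ℕ :=
  (Finset.univ.filter fun p : V × V => lab p.1 = lab p.2 ∧ p.1 ∉ fr ∧ p.2 ∉ fr).card

theorem dimKF_empty (lab : V → Λ) : dimKF lab ∅ = Fintype.card V + 2 * npos lab := by
  rw [← card_pairs lab, dimKF]
  refine congrArg Finset.card (Finset.ext fun p => ?_)
  simp

/-- `γ` trivialises the action of `L` on the open set `O` of frames. -/
structure IsSlice (L : Set (Matrix V V ℂ)) (n D : ℕ) (O : Set (Fr V)) (γ : Fr V → Matrix V V ℂ) :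
    Prop where
  op : OpenIn O (FrN V n)
  inv : InvF L O
  cont : ContinuousOn γ O
  maps : MapsTo γ O L
  eqv : ∀ u ∈ L, ∀ e ∈ O, γ (frAct u e) = u * γ e
  chart : ConvChart D {e | e ∈ O ∧ γ e = 1}

open scoped ComplexOrder Matrix in
/-- Choose rows with invertible block minors on the columns outside `fr` and use the polar
decomposition of the minors. -/
theorem exists_slice (lab : V → Λ) (fr : Set V) (n : ℕ) {e₀ : Fr V} (he : e₀ ∈ Inj lab n) :
    ∃ D O γ, D + dimKF lab fr = 2 * n * Fintype.card V ∧ e₀ ∈ O ∧ IsSlice (KF lab fr) n D O γ := by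
  classical
  obtain ⟨γ, hγc, hγ1, hγ2⟩ := Slice_polar (V := V)
  obtain ⟨M, hM⟩ : ∃ M : Fr V → Matrix V V ℂ, M = fun e =>
    Slice_mask lab fr ((Slice_res n e₀)ᴴ * Slice_res n e) + Slice_I fr := ⟨_, rfl⟩
  have hMc : Continuous M := by
    rw [hM]
    exact (Slice_cont_mask.comp (continuous_const.matrix_mul (Slice_cont_res n))).add
      continuous_const
  have hMa : ∀ u ∈ KF lab fr, ∀ e, M (frAct u e) = M e * star u := fun u hu e => by
    have hu' := (isGrp_KF lab fr).star u hu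
    simp only [hM]
    rw [Slice_res_frAct, ← Matrix.mul_assoc, Slice_mask_mul (Slice_blk_KF hu'), Matrix.add_mul,
      Slice_I_mul hu']
  have hdet : ∀ u ∈ KF lab fr, ∀ e, (M e).det ≠ 0 → (M (frAct u e)).det ≠ 0 := fun u hu e he' => by
    rw [hMa u hu, Matrix.det_mul]
    refine mul_ne_zero he' fun h0 => ?_
    have := congrArg Matrix.det ((isGrp_KF lab fr).star_mul hu)
    rw [Matrix.det_mul, h0, zero_mul, Matrix.det_one] at this
    exact zero_ne_one this
  refine ⟨Module.finrank ℝ (LinearMap.ker (Slice_Psi lab fr ∘ₗ Slice_G lab fr (Slice_res n e₀))),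
    {e | e ∈ FrN V n ∧ (M e).det ≠ 0}, fun e => γ (M e), ?_, ⟨he.1, hM ▸ Slice_det_ne he⟩,
    ⟨{e | (M e).det ≠ 0}, isOpen_ne_fun hMc.matrix_det continuous_const, rfl⟩,
    fun u hu e he' => ⟨invF_FrN _ n u hu e he'.1, hdet u hu e he'.2⟩,
    hγc.comp hMc.continuousOn fun e he' => he'.2, fun e he' => ?_, fun u hu e he' => ?_, ?_⟩
  · have h1 := (Slice_Psi lab fr ∘ₗ Slice_G lab fr (Slice_res n e₀)).finrank_range_add_finrank_ker
    rw [LinearMap.range_eq_top.mpr (Slice_surj (Slice_det_ne he)), finrank_top,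
      Module.finrank_fintype_fun_eq_card, Fintype.card_subtype] at h1
    have h2 : Module.finrank ℝ (Fin n → V → ℂ) = 2 * n * Fintype.card V := by
      simp only [Module.finrank_pi_fintype, Complex.finrank_real_complex, Finset.sum_const,
        Finset.card_univ, Fintype.card_fin, smul_eq_mul]
      ring
    rw [← h2, ← h1, add_comm, dimKF]
    refine congrArg (· + _) (congrArg Finset.card (Finset.ext fun p => ?_))
    simp only [Finset.mem_filter, Finset.mem_univ, true_and]
    exact Iff.rfl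
  · have h1 := hγ1 _ he'.2
    have h2 : Slice_Blk (Slice_cl lab fr) (M e) := hM ▸ Slice_blk_M _
    refine Slice_mem_KF (A := (Slice_res n e₀)ᴴ * Slice_res n e) h1.1
      (Slice_blk_polar hγ1 hγ2 he'.2 h2) ?_
    have h3 := h1.2
    nth_rewrite 1 [hM] at h3
    exact h3
  · refine hγ2 _ _ (hdet u hu e he'.2) (mul_mem hu.1.1 (hγ1 _ he'.2).1) ?_
    rw [hMa u hu, Matrix.mul_assoc, ← Matrix.mul_assoc (star u), (isGrp_KF lab fr).star_mul hu,
      Matrix.one_mul]
    exact (hγ1 _ he'.2).2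
  · have h1 : {e | e ∈ {e | e ∈ FrN V n ∧ (M e).det ≠ 0} ∧ γ (M e) = 1} =
        {e | e ∈ FrN V n ∧ (M e).PosDef} := by
      ext e
      constructor
      · rintro ⟨⟨h1, h2⟩, h3⟩
        have h4 := (hγ1 _ h2).2
        rw [h3, Matrix.mul_one] at h4
        exact ⟨h1, h4.posDef_iff_det_ne_zero.mpr h2⟩
      · rintro ⟨h1, h2⟩
        have h3 := h2.posSemidef.posDef_iff_det_ne_zero.mp h2
        exact ⟨⟨h1, h3⟩, hγ2 _ _ h3 (one_mem _) (by rw [Matrix.mul_one]; exact h2.posSemidef)⟩
    rw [h1, hM]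
    exact Slice_chart _

theorem IsSlice.homeoOn {L : Set (Matrix V V ℂ)} {act : Matrix V V ℂ → X → X} (h : IsAct L act)
    {n D : ℕ} {O : Set (Fr V)} {γ : Fr V → Matrix V V ℂ} (hs : IsSlice L n D O γ)
    {P : Set (X × Fr V)} (hP : Inv L act P) (hO : ∀ p ∈ P, p.2 ∈ O) :
    HomeoOn (bmk L act) (fun q => bact act (star (γ (Quot.out q).2)) (Quot.out q))
      {p | p ∈ P ∧ γ p.2 = 1} (BI L act P) := by
  have hm : ∀ p ∈ P, star (γ p.2) ∈ L := fun p hp => h.grp.star _ (hs.maps (hO p hp))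
  have hD : Desc L act P fun p => bact act (star (γ p.2)) p := fun u hu p hp => by
    change bact act (star (γ (frAct u p.2))) (bact act u p) = _
    rw [hs.eqv u hu _ (hO p hp), star_mul, h.bact_mul (hm p hp) (h.grp.star u hu),
      (h.bact_star hu p).1]
  have hc : ContinuousOn (fun p : X × Fr V => bact act (star (γ p.2)) p) P :=
    h.cont_bact.comp (f := fun p : X × Fr V => (star (γ p.2), p))
      ((hs.cont.comp continuous_snd.continuousOn hO).star.prodMk continuousOn_id)
      fun p hp => ⟨hm p hp, mem_univ _⟩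
  refine ⟨continuous_bmk.continuousOn, h.continuousOn_blift hP hD hc,
    fun p hp => mem_image_of_mem _ hp.1, fun q hq => ?_, fun p hp => ?_, fun q hq => ?_⟩
  · have hq' := (h.out_mem hP).mp hq
    refine ⟨hP _ (hm _ hq') _ hq', ?_⟩
    change γ (frAct (star (γ (Quot.out q).2)) (Quot.out q).2) = 1
    rw [hs.eqv _ (hm _ hq') _ (hO _ hq'), h.grp.star_mul (hs.maps (hO _ hq'))]
  · refine (h.blift_bmk hD hp.1).trans ?_
    rw [hp.2, star_one, h.bact_one]
  · exact (bmk_bact (hm _ ((h.out_mem hP).mp hq)) _).trans (bmk_out q)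

theorem Slice_core {lab : V → Λ} {fr : Set V} {act : Matrix V V ℂ → X → X}
    (h : IsAct (KF lab fr) act) {S : Set X} (hS : InvX (KF lab fr) act S) {Q : ℕ → Prop}
    (hd : ∀ x ∈ S, ∃ D', Q D' ∧ ∃ O, OpenIn O S ∧ x ∈ O ∧ ConvChart D' O) {n : ℕ}
    {E : Set (Fr V)} (hE : InvF (KF lab fr) E) (ho : OpenIn E (FrN V n)) (hs : E ⊆ Inj lab n)
    {y : Bor (KF lab fr) act} (hy : y ∈ BS (KF lab fr) act S E) :
    ∃ D' D, Q D' ∧ D + dimKF lab fr = 2 * n * Fintype.card V ∧
      ∃ O, OpenIn O (BS (KF lab fr) act S E) ∧ y ∈ O ∧ ConvChart (D' + D) O := by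
  obtain ⟨x, hx, e, he, rfl⟩ := hy
  obtain ⟨D, O, γ, hD, heO, hsl⟩ := exists_slice lab fr n (hs he)
  have hEO : InvF (KF lab fr) (E ∩ O) := fun u hu e' he' => ⟨hE u hu e' he'.1, hsl.inv u hu e' he'.2⟩
  have hP : Inv (KF lab fr) act (S ×ˢ (E ∩ O)) := Inv.prod hS hEO
  have hh := (hsl.homeoOn h hP fun p hp => hp.2.2).symm
  have hop : OpenIn (BI (KF lab fr) act (S ×ˢ (E ∩ O))) (BS (KF lab fr) act S E) := by
    rw [BS_eq]
    refine h.openIn_BI (Inv.prod hS hE) ?_
    obtain ⟨W, hW, hOW⟩ := hsl.op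
    refine ⟨univ ×ˢ W, isOpen_univ.prod hW, ?_⟩
    rw [prod_inter_prod, inter_univ, hOW, ← inter_assoc, inter_eq_left.mpr ho.subset]
  have hy : bmk (KF lab fr) act (x, e) ∈ BI (KF lab fr) act (S ×ˢ (E ∩ O)) :=
    mem_image_of_mem _ ⟨hx, he, heO⟩
  have hp := hh.2.2.1 hy
  obtain ⟨D', hQ, O₁, hO₁, hx₁, hc₁⟩ := hd _ hp.1.1
  have hU : OpenIn (E ∩ {e | e ∈ O ∧ γ e = 1}) {e | e ∈ O ∧ γ e = 1} := by
    have := ho.inter_right {e | e ∈ O ∧ γ e = 1}
    rwa [inter_eq_right.mpr fun e' (he' : e' ∈ {e | e ∈ O ∧ γ e = 1}) => hsl.op.subset he'.1] at this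
  obtain ⟨O₂, hO₂, hx₂, hc₂⟩ := Chart_shrink hU (OpenIn.refl _) hsl.chart
    ⟨hp.1.2.1, hp.1.2.2, hp.2⟩ ⟨hp.1.2.2, hp.2⟩
  have hB : OpenIn (O₁ ×ˢ O₂) {p | p ∈ S ×ˢ (E ∩ O) ∧ γ p.2 = 1} := by
    obtain ⟨W₁, hW₁, rfl⟩ := hO₁
    obtain ⟨W₂, hW₂, rfl⟩ := hO₂
    refine ⟨W₁ ×ˢ W₂, hW₁.prod hW₂, ?_⟩
    ext p
    simp only [mem_prod, mem_inter_iff, mem_ofPred_eq]
    tauto
  exact ⟨D', D, hQ, hD, _, (hB.preimage hh.1 hh.2.2.1).trans hop, ⟨hy, hx₁, hx₂⟩,
    (hc₁.prod hc₂).of_homeoOn' (hh.restrict hB.subset)⟩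

theorem locEucLE_BS {lab : V → Λ} {fr : Set V} {act : Matrix V V ℂ → X → X}
    (h : IsAct (KF lab fr) act) {S : Set X} (hS : InvX (KF lab fr) act S) {d : ℕ}
    (hd : LocEucLE d S) {n : ℕ} {E : Set (Fr V)} (hE : InvF (KF lab fr) E)
    (ho : OpenIn E (FrN V n)) (hs : E ⊆ Inj lab n) :
    LocEucLE (d + (2 * n * Fintype.card V - dimKF lab fr)) (BS (KF lab fr) act S E) := by
  intro y hy
  obtain ⟨D', D, hQ, hD, hO⟩ := Slice_core (Q := fun D' => D' ≤ d) h hS hd hE ho hs hy
  exact ⟨D' + D, by omega, hO⟩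

theorem locEuc_BS {lab : V → Λ} {fr : Set V} {act : Matrix V V ℂ → X → X}
    (h : IsAct (KF lab fr) act) {S : Set X} (hS : InvX (KF lab fr) act S) (hd : LocEuc S) {n : ℕ}
    {E : Set (Fr V)} (hE : InvF (KF lab fr) E) (ho : OpenIn E (FrN V n)) (hs : E ⊆ Inj lab n) :
    LocEuc (BS (KF lab fr) act S E) := by
  intro y hy
  obtain ⟨D', D, -, -, hO⟩ := Slice_core (Q := fun _ => True) h hS
    (fun x hx => (hd x hx).imp fun _ h' => ⟨trivial, h'⟩) hE ho hs hy
  exact ⟨D' + D, hO⟩

theorem Slice_KG {lab : V → Λ} {L : Set (Matrix V V ℂ)} (hL : KF lab ∅ = L)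
    {act : Matrix V V ℂ → X → X} (h : IsAct L act) {S : Set X} (hS : InvX L act S) {n : ℕ}
    {E : Set (Fr V)} (hE : InvF L E) (ho : OpenIn E (FrN V n)) (hs : E ⊆ Inj lab n) :
    (LocEuc S → LocEuc (BS L act S E)) ∧ ∀ d, LocEucLE d S →
      LocEucLE (d + (2 * n * Fintype.card V - dimKF lab ∅)) (BS L act S E) := by
  subst hL
  exact ⟨fun hd => locEuc_BS h hS hd hE ho hs, fun _ hd => locEucLE_BS h hS hd hE ho hs⟩

theorem locEuc_BS_KG {lab : V → Λ} {act : Matrix V V ℂ → X → X}
    (h : IsAct (KG lab) act) {S : Set X} (hS : InvX (KG lab) act S) (hd : LocEuc S) {n : ℕ}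
    {E : Set (Fr V)} (hE : InvF (KG lab) E) (ho : OpenIn E (FrN V n)) (hs : E ⊆ Inj lab n) :
    LocEuc (BS (KG lab) act S E) := (Slice_KG (KF_empty lab) h hS hE ho hs).1 hd

/-- Degree bound in the form in which it is used. -/
theorem prH_BS_eq_zero [Nice X] {lab : V → Λ} {act : Matrix V V ℂ → X → X}
    (h : IsAct (KG lab) act) {S : Set X} (hS : InvX (KG lab) act S) {d : ℕ} (hd : LocEucLE d S)
    {n : ℕ} {E : Set (Fr V)} (hE : InvF (KG lab) E) (ho : OpenIn E (FrN V n))
    (hs : E ⊆ Inj lab n) {k : ℤ}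
    (hk : (d : ℤ) + (2 * n * Fintype.card V - Fintype.card V) - 2 * npos lab < k) :
    prH _ (BS (KG lab) act S E) k =
      (0 : Hc (BS (KG lab) act S E) →ₗ[ℂ] Hc (BS (KG lab) act S E)) := by
  have := h.nice
  rcases E.eq_empty_or_nonempty with rfl | ⟨e, he⟩
  · have h0 : BS (KG lab) act S ∅ = ∅ := by
      rw [BS_eq, prod_empty, BI, image_empty]
    rw [h0]
    exact LinearMap.ext fun _ => Subsingleton.elim _ _
  obtain ⟨D, -, -, hD, -⟩ := exists_slice lab ∅ n (hs he)
  refine ((Slice_KG (KF_empty lab) h hS hE ho hs).2 d hd).prH_eq_zero ?_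
  rw [← hD, Nat.add_sub_cancel]
  rw [dimKF_empty] at hD
  have h1 : (D : ℤ) + (Fintype.card V + 2 * npos lab) = 2 * n * Fintype.card V := by
    exact_mod_cast hD
  push_cast
  linarith

end Pool.Agent.HK
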