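import Pool.Agent.P.MP_1206ce_ag.BO.Line
import Pool.Agent.P.MP_1206ce_ag.BO.Gen

/-! Product Thom cocycles and Thom isomorphisms on Borel quotients. -/

open scoped Topology
open Filter Set

noncomputable section

namespace Pool.Agent.HK

variable {V X X' X'' ι κ : Type} [Fintype V] [DecidableEq V] [Fintype ι] [Fintype κ]
variable [TopologicalSpace X] [TopologicalSpace X'] [TopologicalSpace X'']
variable {L : Set (Matrix V V ℂ)} {act : Matrix V V ℂ → X → X} {act' : Matrix V V ℂ → X' → X'}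

/-- The Thom cocycle of one coordinate. -/
def Thom_w (L : Set (Matrix V V ℂ)) (act : Matrix V V ℂ → X → X) (co : X → ι → ℂ)
    (χ : ι → V → ℤ) (i : ι) : Coch (Bor L act) :=
  pb (bmap (TT V) (act1 (χ i)) (fun x => co x i) id) (tauL (χ i))

omit [TopologicalSpace X] in
theorem Thom_tauT_eq (co : X → ι → ℂ) (χ : ι → V → ℤ) :
    tauT L act co χ = cupL ((Finset.univ : Finset ι).toList.map (Thom_w L act co χ)) := rfl

theorem Thom_cupL_N0 {Y : Type} [TopologicalSpace Y] {A : Set Y} {J : Type} (s : List J)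
    {a b : J → Coch Y} (h : ∀ i, a i - b i ∈ N0 A) : cupL (s.map a) - cupL (s.map b) ∈ N0 A := by
  induction s with
  | nil => rw [List.map_nil, List.map_nil, sub_self]; exact zero_mem _
  | cons i s ih =>
    have h1 : cupL ((i :: s).map a) - cupL ((i :: s).map b) =
        cup (a i - b i) (cupL (s.map a)) + cup (b i) (cupL (s.map a) - cupL (s.map b)) := by
      rw [sub_cup, cup_sub, sub_add_sub_cancel]
      rfl
    rw [h1]
    exact add_mem (Basic_N0_cup_left (h i) _) (Basic_N0_cup_right _ ih)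

omit [Fintype ι] in
theorem Thom_eqv (hL : L ⊆ TT V) {S : Set X} {co : X → ι → ℂ} {χ : ι → V → ℤ}
    (hc : IsCoord L act S co χ) {P : Set (X × Fr V)} (hn : ∀ p ∈ P, p.1 ∈ S) (i : ι) :
    EqvOn L act (TT V) (act1 (χ i)) P (Prod.map (fun x => co x i) id) :=
  EqvOn.of_map hL fun u hu p hp => hc.2 u hu p.1 (hn p hp) i

omit [Fintype ι] in
theorem Thom_bmk (h : IsAct L act) (hL : L ⊆ TT V) {S : Set X} {co : X → ι → ℂ} {χ : ι → V → ℤ}
    (hc : IsCoord L act S co χ) (i : ι) {x : X} (hx : x ∈ S) (e : Fr V) :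
    (bmap (TT V) (act1 (χ i)) (fun x => co x i) id : Bor L act → _) (bmk L act (x, e)) =
      bmk (TT V) (act1 (χ i)) (co x i, e) :=
  h.bmp_bmk (Thom_eqv hL hc (P := S ×ˢ univ) (fun _ hp => hp.1) i) (p := (x, e)) ⟨hx, mem_univ _⟩

omit [Fintype ι] in
theorem Thom_cont (h : IsAct L act) (hL : L ⊆ TT V) {S : Set X} {co : X → ι → ℂ}
    {χ : ι → V → ℤ} (hc : IsCoord L act S co χ) {P : Set (X × Fr V)} (hP : Inv L act P) {n : ℕ}
    (hn : P ⊆ S ×ˢ Inj (id : V → V) n) (i : ι) :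
    ContinuousOn (bmap (TT V) (act1 (χ i)) (fun x => co x i) id : Bor L act → _) (BI L act P) ∧
    MapsTo (bmap (TT V) (act1 (χ i)) (fun x => co x i) id : Bor L act → _) (BI L act P)
      (BS (TT V) (act1 (χ i)) univ (Inj (id : V → V) n)) := by
  have hF := Thom_eqv hL hc (P := P) (fun p hp => (hn hp).1) i
  refine ⟨h.continuousOn_bmp hP hF ?_, ?_⟩
  · refine ContinuousOn.prodMk ?_ continuousOn_snd
    exact ((continuous_apply i).comp_continuousOn hc.1).comp continuousOn_fst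
      fun p hp => (hn hp).1
  · rw [BS_eq]
    exact h.mapsTo_bmp hF fun p hp => ⟨mem_univ _, (hn hp).2⟩

omit [TopologicalSpace X] [Fintype ι] in
theorem Thom_w_homC (co : X → ι → ℂ) (χ : ι → V → ℤ) (i : ι) : HomC 2 (Thom_w L act co χ i) :=
  (tauL_homC (χ i)).pb _

omit [Fintype ι] in
theorem Thom_w_ZZ (h : IsAct L act) (hL : L ⊆ TT V) {S : Set X} {co : X → ι → ℂ}
    {χ : ι → V → ℤ} (hc : IsCoord L act S co χ) {P : Set (X × Fr V)} (hP : Inv L act P) {n : ℕ}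
    (hn : P ⊆ S ×ˢ Inj (id : V → V) n) (i : ι) : Thom_w L act co χ i ∈ ZZ ⊥ (BI L act P) :=
  pb_mem_ZZ (Thom_cont h hL hc hP hn i).1 (Thom_cont h hL hc hP hn i).2 (tauL_mem_ZZ (χ i) n)

omit [Fintype ι] in
theorem Thom_w_supp (h : IsAct L act) (hL : L ⊆ TT V) {S : Set X} {co : X → ι → ℂ}
    {χ : ι → V → ℤ} (hc : IsCoord L act S co χ) {P : Set (X × Fr V)} (hP : Inv L act P) {n : ℕ}
    (hn : P ⊆ S ×ˢ Inj (id : V → V) n) (i : ι) {p : X × Fr V} (hp : p ∈ P)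
    (hs : bmk L act p ∈ supp (BI L act P) (Thom_w L act co χ i)) : ‖co p.1 i‖ ≤ 1 := by
  have h1 := supp_tauL (χ i) n
    (supp_pb (Thom_cont h hL hc hP hn i).1 (Thom_cont h hL hc hP hn i).2 (tauL (χ i)) hs)
  have h2 := Thom_bmk h hL hc i (hn hp).1 p.2
  rw [h2, BS_eq] at h1
  have hI : Inv (TT V) (act1 (χ i)) ({z : ℂ | ‖z‖ ≤ 1} ×ˢ Inj (id : V → V) n) := by
    refine Inv.prod (fun u hu z hz => ?_) (invF_Inj Subset.rfl n)
    show ‖chr (χ i) u * z‖ ≤ 1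
    rw [norm_mul, norm_chr _ hu, one_mul]
    exact hz
  exact (((isAct_act1 (χ i)).mem_BI hI).1 h1).1

omit [Fintype ι] in
theorem Thom_list_ZZ (h : IsAct L act) (hL : L ⊆ TT V) {S : Set X} {co : X → ι → ℂ}
    {χ : ι → V → ℤ} (hc : IsCoord L act S co χ) {P : Set (X × Fr V)} (hP : Inv L act P) {n : ℕ}
    (hn : P ⊆ S ×ˢ Inj (id : V → V) n) (s : List ι) :
    cupL (s.map (Thom_w L act co χ)) ∈ ZZ ⊥ (BI L act P) := by
  refine cupL_mem_ZZ fun w hw => ?_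
  obtain ⟨i, -, rfl⟩ := List.mem_map.1 hw
  exact Thom_w_ZZ h hL hc hP hn i

omit [Fintype ι] in
theorem Thom_list_euler (h : IsAct L act) (hL : L ⊆ TT V) {S : Set X} {co : X → ι → ℂ}
    {χ : ι → V → ℤ} (hc : IsCoord L act S co χ) {P : Set (X × Fr V)} (hP : Inv L act P) {n : ℕ}
    (hn : P ⊆ S ×ˢ Inj (id : V → V) n) (s : List ι) :
    cupL (s.map (Thom_w L act co χ)) - polyX L act (s.map fun i => linF (χ i)).prod ∈
      BB ⊥ (BI L act P) := by
  have hn' : ∀ p ∈ P, p.2 ∈ Inj (id : V → V) n := fun p hp => (hn hp).2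
  induction s with
  | nil =>
    rw [List.map_nil, List.map_nil, List.prod_nil, polyX_one]
    exact (sub_self (one : Coch (Bor L act))).symm ▸ zero_mem _
  | cons i s ih =>
    have h1 : Thom_w L act co χ i - polyX L act (linF (χ i)) ∈ BB ⊥ (BI L act P) := by
      have h2 := pb_mem_BB (Thom_cont h hL hc hP hn i).1 (Thom_cont h hL hc hP hn i).2
        (tauL_sub (χ i) _)
      rwa [pb_sub, pb_polyX (isAct_act1 (χ i)) Subset.rfl] at h2
    have h3 := cup_congr (Thom_w_ZZ h hL hc hP hn i) (polyX_mem_ZZ h hL hn' _)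
      (Thom_list_ZZ h hL hc hP hn s) (polyX_mem_ZZ h hL hn' _) h1 ih
    have h4 := sub_mem h3 (polyX_mul h hL hn' (linF (χ i)) (s.map fun i => linF (χ i)).prod)
    rw [sub_sub_sub_cancel_right] at h4
    rw [List.map_cons, List.map_cons, List.prod_cons]
    exact h4

theorem tauT_homC (co : X → ι → ℂ) (χ : ι → V → ℤ) :
    HomC (2 * (Fintype.card ι : ℤ)) (tauT L act co χ) := by
  have h := HomC.cupL (Finset.univ : Finset ι).toList (Thom_w L act co χ) 2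
    fun i _ => Thom_w_homC co χ i
  rwa [Finset.length_toList, Finset.card_univ] at h
theorem tauT_mem_ZZ (h : IsAct L act) (hL : L ⊆ TT V) {S : Set X} {co : X → ι → ℂ}
    {χ : ι → V → ℤ} (hc : IsCoord L act S co χ) {P : Set (X × Fr V)} (hP : Inv L act P) {n : ℕ}
    (hn : P ⊆ S ×ˢ Inj (id : V → V) n) : tauT L act co χ ∈ ZZ ⊥ (BI L act P) :=
  Thom_list_ZZ h hL hc hP hn _
theorem supp_tauT (h : IsAct L act) (hL : L ⊆ TT V) {S : Set X} {co : X → ι → ℂ}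
    {χ : ι → V → ℤ} (hc : IsCoord L act S co χ) {P : Set (X × Fr V)} (hP : Inv L act P) {n : ℕ}
    (hn : P ⊆ S ×ˢ Inj (id : V → V) n) :
    supp (BI L act P) (tauT L act co χ) ⊆ BI L act {p | p ∈ P ∧ ∀ i, ‖co p.1 i‖ ≤ 1} := by
  intro q hq
  obtain ⟨p, hp, rfl⟩ := supp_subset _ _ hq
  refine ⟨p, ⟨hp, fun i => Thom_w_supp h hL hc hP hn i hp (Comm_supp_cupL _ ?_ hq)⟩, rfl⟩
  exact List.mem_map.2 ⟨i, Finset.mem_toList.2 (Finset.mem_univ i), rfl⟩
theorem tauT_sub_euler (h : IsAct L act) (hL : L ⊆ TT V) {S : Set X} {co : X → ι → ℂ}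
    {χ : ι → V → ℤ} (hc : IsCoord L act S co χ) {P : Set (X × Fr V)} (hP : Inv L act P) {n : ℕ}
    (hn : P ⊆ S ×ˢ Inj (id : V → V) n) :
    tauT L act co χ - polyX L act (∏ i, linF (χ i)) ∈ BB ⊥ (BI L act P) := by
  have h1 := Thom_list_euler h hL hc hP hn (Finset.univ : Finset ι).toList
  rwa [Finset.prod_map_toList] at h1
theorem tauT_fibre (h : IsAct L act) (hL : L ⊆ TT V) {S : Set X} (hS : InvX L act S)
    {co : X → ι → ℂ} {χ : ι → V → ℤ} (hc : IsCoord L act S co χ) {n : ℕ} {e : Fr V}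
    (he : e ∈ Inj (id : V → V) n) :
    pb (fun x => bmk L act (x, e)) (tauT L act co χ) - pb co (genC ι) ∈ N0 S := by
  have _ := hS
  rw [Thom_tauT_eq, genC, pb_cupL, pb_cupL, List.map_map, List.map_map]
  refine Thom_cupL_N0 _ fun i => ?_
  show pb _ (pb _ (tauL (χ i))) - pb co (pb (fun v => v i) genC1) ∈ N0 S
  rw [← tauL_fibre (χ i) he, pb_pb, pb_pb, pb_pb]
  exact supp_pb_congr (fun x hx => Thom_bmk h hL hc i hx e) _
/-- Pull-back along a map that keeps the frame. -/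
theorem pb_tauT (h : IsAct L act) (hL : L ⊆ TT V) {S : Set X} (hS : InvX L act S)
    {co : X → ι → ℂ} {χ : ι → V → ℤ} (hc : IsCoord L act S co χ) {L' : Set (Matrix V V ℂ)}
    (f : X' → X) {A : Set (Bor L' act')} (hA : ∀ q ∈ A, f (Quot.out q).1 ∈ S) :
    pb (bmap L act f id : Bor L' act' → Bor L act) (tauT L act co χ) -
      tauT L' act' (co ∘ f) χ ∈ N0 A := by
  have _ := hS
  rw [Thom_tauT_eq, Thom_tauT_eq, pb_cupL, List.map_map]
  refine Thom_cupL_N0 _ fun i => ?_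
  show pb _ (pb _ (tauL (χ i))) - pb _ (tauL (χ i)) ∈ N0 A
  rw [pb_pb]
  exact supp_pb_congr (fun q hq => Thom_bmk h hL hc i (hA q hq) (Quot.out q).2) _
/-- The unit polydisc bundle is proper over `A`. -/
def DiscOK {Y : Type} [TopologicalSpace Y] (L : Set (Matrix V V ℂ)) (act : Matrix V V ℂ → X → X)
    (P : Set (X × Fr V)) (co : X → ι → ℂ) (A : Set Y) (π : Bor L act → Y) : Prop :=
  ContinuousOn π (BI L act P) ∧ MapsTo π (BI L act P) A ∧ ∀ C, IsCompact C → C ⊆ A →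
    ∃ C', IsCompact C' ∧ C' ⊆ BI L act P ∧
      BI L act {p | p ∈ P ∧ ∀ i, ‖co p.1 i‖ ≤ 1} ∩ π ⁻¹' C ⊆ C'

theorem DiscOK.twOK {Y : Type} [TopologicalSpace Y] (h : IsAct L act) (hL : L ⊆ TT V)
    {S : Set X} {co : X → ι → ℂ} {χ : ι → V → ℤ} (hc : IsCoord L act S co χ) {P : Set (X × Fr V)}
    (hP : Inv L act P) {n : ℕ} (hn : P ⊆ S ×ˢ Inj (id : V → V) n) {A : Set Y} {π : Bor L act → Y}
    (hd : DiscOK L act P co A π) : TwOK A (BI L act P) π (tauT L act co χ) := by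
  refine ⟨hd.1, hd.2.1, tauT_mem_ZZ h hL hc hP hn, fun C hC hCA => ?_⟩
  obtain ⟨C', h1, h2, h3⟩ := hd.2.2 C hC hCA
  exact ⟨C', h1, h2, (inter_subset_inter_left _ (supp_tauT h hL hc hP hn)).trans h3⟩

omit [DecidableEq V] [Fintype ι] in
theorem Thom_compact {S' : Set X'} {co : X' → ι → ℂ} {S : Set X} {f : X' → X}
    {g : X × (ι → ℂ) → X'} (hh : HomeoOn (fun x => (f x, co x)) g S' (S ×ˢ univ))
    {E : Set (Fr V)} {K : Set (X × Fr V)} (hK : IsCompact K) (hKS : K ⊆ S ×ˢ E)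
    {D : Set (ι → ℂ)} (hD : IsCompact D) :
    ∃ K', IsCompact K' ∧ K' ⊆ S' ×ˢ E ∧
      ∀ p ∈ S' ×ˢ E, (f p.1, p.2) ∈ K → co p.1 ∈ D → p ∈ K' := by
  have hm : MapsTo (fun q : (X × Fr V) × (ι → ℂ) => (q.1.1, q.2)) (K ×ˢ D) (S ×ˢ univ) :=
    fun q hq => ⟨(hKS hq.1).1, mem_univ _⟩
  refine ⟨(fun q : (X × Fr V) × (ι → ℂ) => (g (q.1.1, q.2), q.1.2)) '' K ×ˢ D,
    (hK.prod hD).image_of_continuousOn ?_, ?_, fun p hp h1 h2 => ?_⟩
  · refine ContinuousOn.prodMk (hh.2.1.comp ?_ hm) (continuous_snd.comp continuous_fst).continuousOn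
    exact ((continuous_fst.comp continuous_fst).prodMk continuous_snd).continuousOn
  · rintro _ ⟨q, hq, rfl⟩
    exact ⟨hh.2.2.2.1 (hm hq), (hKS hq.1).2⟩
  · refine ⟨((f p.1, p.2), co p.1), ⟨h1, h2⟩, ?_⟩
    exact Prod.ext (hh.2.2.2.2.1 p.1 hp.1) rfl

theorem Thom_map_bmk (h' : IsAct L act') {P' : Set (X' × Fr V)} {Z : Type}
    {act₁ : Matrix V V ℂ → Z → Z} [TopologicalSpace Z] {f : X' → Z}
    (hf : ∀ u ∈ L, ∀ p ∈ P', f (act' u p.1) = act₁ u (f p.1)) {p : X' × Fr V} (hp : p ∈ P') :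
    (bmap L act₁ f id : Bor L act' → Bor L act₁) (bmk L act' p) = bmk L act₁ (f p.1, p.2) :=
  h'.bmp_bmk (EqvOn.of_map Subset.rfl hf) hp

theorem Thom_map_cont (h' : IsAct L act') {S' : Set X'} (hS' : InvX L act' S') {Z : Type}
    {act₁ : Matrix V V ℂ → Z → Z} [TopologicalSpace Z] {f : X' → Z}
    (hf : ∀ u ∈ L, ∀ x ∈ S', f (act' u x) = act₁ u (f x)) (hc : ContinuousOn f S') {S : Set Z}
    (hm : MapsTo f S' S) {E : Set (Fr V)} (hE : InvF L E) :
    ContinuousOn (bmap L act₁ f id : Bor L act' → Bor L act₁) (BI L act' (S' ×ˢ E)) ∧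
    MapsTo (bmap L act₁ f id : Bor L act' → Bor L act₁) (BI L act' (S' ×ˢ E))
      (BI L act₁ (S ×ˢ E)) := by
  have hF : EqvOn L act' L act₁ (S' ×ˢ E) (Prod.map f id) :=
    EqvOn.of_map Subset.rfl fun u hu p hp => hf u hu p.1 hp.1
  exact ⟨h'.continuousOn_bmp (Inv.prod hS' hE) hF
    ((hc.comp continuousOn_fst fun p hp => hp.1).prodMk continuousOn_snd),
    h'.mapsTo_bmp hF fun p hp => ⟨hm hp.1, hp.2⟩⟩

theorem discOK_of_homeo (h : IsAct L act) (h' : IsAct L act') {S' : Set X'} (hS' : InvX L act' S')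
    {co : X' → ι → ℂ} {S : Set X} (hS : InvX L act S) {f : X' → X}
    (hf : ∀ u ∈ L, ∀ x ∈ S', f (act' u x) = act u (f x)) {g : X × (ι → ℂ) → X'}
    (hh : HomeoOn (fun x => (f x, co x)) g S' (S ×ˢ univ)) {E : Set (Fr V)} (hE : InvF L E) :
    DiscOK L act' (S' ×ˢ E) co (BI L act (S ×ˢ E)) (bmap L act f id) := by
  have h1 := Thom_map_cont h' hS' hf (continuous_fst.comp_continuousOn hh.1)
    (fun x hx => (hh.2.2.1 hx).1) hE
  refine ⟨h1.1, h1.2, fun C hC hCA => ?_⟩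
  obtain ⟨K', h2, h3, h4⟩ := Thom_compact hh (h.isCompact_preimage hC)
    (fun p hp => (h.mem_BI (Inv.prod hS hE)).1 (hCA hp))
    (isCompact_univ_pi fun _ : ι => isCompact_closedBall (0 : ℂ) 1)
  refine ⟨BI L act' K', isCompact_BI h2, BI_mono h3, ?_⟩
  rintro _ ⟨⟨p, hp, rfl⟩, hq⟩
  refine ⟨p, h4 p hp.1 ?_ fun i _ => mem_closedBall_zero_iff.2 (hp.2 i), rfl⟩
  rw [mem_preimage, Thom_map_bmk h' (P' := S' ×ˢ E) (fun u hu p hp => hf u hu p.1 hp.1) hp.1] at hq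
  exact hq
/-- Splitting off an Euler class. -/
theorem tw_tauT_split {Y : Type} [TopologicalSpace Y] (h : IsAct L act) (hL : L ⊆ TT V)
    {S : Set X} {co : X → ι → ℂ} {χ : ι → V → ℤ} (hc : IsCoord L act S co χ) {P : Set (X × Fr V)}
    (hP : Inv L act P) {n : ℕ} (hn : P ⊆ S ×ˢ Inj (id : V → V) n) (j : κ → ι)
    (hj : Function.Injective j) [DecidablePred fun i => i ∈ Set.range j] {A : Set Y}
    {π : Bor L act → Y} (hd : DiscOK L act P (fun x k => co x (j k)) A π) :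
    TwOK A (BI L act P) π (tauT L act co χ) ∧ tw A (BI L act P) π (tauT L act co χ) =
      tw A (BI L act P) π (cup
        (polyX L act (∏ i ∈ Finset.univ.filter (fun i => i ∉ Set.range j), linF (χ i)))
        (tauT L act (fun x k => co x (j k)) fun k => χ (j k))) := by
  classical
  have hc' : IsCoord L act S (fun x k => co x (j k)) fun k => χ (j k) :=
    ⟨continuousOn_pi.2 fun k => (continuous_apply (j k)).comp_continuousOn hc.1,
      fun u hu x hx k => hc.2 u hu x hx (j k)⟩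
  have hd' : DiscOK L act P co A π := by
    refine ⟨hd.1, hd.2.1, fun C hC hCA => ?_⟩
    obtain ⟨C', h1, h2, h3⟩ := hd.2.2 C hC hCA
    refine ⟨C', h1, h2, (inter_subset_inter_left _ (BI_mono fun p hp => ?_)).trans h3⟩
    exact ⟨hp.1, fun k => hp.2 (j k)⟩
  have h1 := hd'.twOK h hL hc hP hn
  have h2 := hd.twOK h hL hc' hP hn
  refine ⟨h1, ?_⟩
  set s := (Finset.univ.filter fun i => i ∉ Set.range j).toList with hs
  have hperm : (Finset.univ : Finset ι).toList.Perm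
      (s ++ (Finset.univ : Finset κ).toList.map j) := by
    refine (List.perm_ext_iff_of_nodup (Finset.nodup_toList _) ?_).2 fun i => ?_
    · refine List.Nodup.append (Finset.nodup_toList _) ((Finset.nodup_toList _).map hj) ?_
      intro i hi hi'
      obtain ⟨k, -, rfl⟩ := List.mem_map.1 hi'
      exact (Finset.mem_filter.1 (Finset.mem_toList.1 hi)).2 ⟨k, rfl⟩
    · refine ⟨fun _ => List.mem_append.2 ?_, fun _ => Finset.mem_toList.2 (Finset.mem_univ i)⟩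
      by_cases hi : i ∈ Set.range j
      · obtain ⟨k, rfl⟩ := hi
        exact Or.inr (List.mem_map.2 ⟨k, Finset.mem_toList.2 (Finset.mem_univ k), rfl⟩)
      · exact Or.inl (Finset.mem_toList.2 (Finset.mem_filter.2 ⟨Finset.mem_univ i, hi⟩))
  obtain ⟨e, he, hse, hN⟩ := cupL_perm (A := BI L act P) (hperm.map (Thom_w L act co χ)) (by
    intro w hw
    obtain ⟨i, -, rfl⟩ := List.mem_map.1 hw
    exact ⟨Thom_w_ZZ h hL hc hP hn i, 2, Thom_w_homC co χ i, even_two⟩)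
  rw [List.map_append, cupL_append, List.map_map] at hN
  have h3 := Thom_list_ZZ h hL hc hP hn s
  have h4 := Thom_list_euler h hL hc hP hn s
  rw [hs, Finset.prod_map_toList, ← hs] at h4
  refine (tw_congr h1 (h2.cup_left h3) he (fun C hC hCA => ?_) hN).trans
    (tw_congr_left h2 h3 (polyX_mem_ZZ h hL (fun p hp => (hn hp).2) _) h4)
  obtain ⟨C', h5, h6, h7⟩ := hd.2.2 C hC hCA
  refine ⟨C', h5, h6, (inter_subset_inter_left _ fun q hq => ?_).trans h7⟩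
  obtain ⟨p, hp, rfl⟩ := supp_subset _ _ hq
  refine ⟨p, ⟨hp, fun k => Thom_w_supp h hL hc hP hn (j k) hp (hse _ ?_ hq)⟩, rfl⟩
  exact List.mem_map.2 ⟨j k, Finset.mem_toList.2 (Finset.mem_univ _), rfl⟩

omit [Fintype V] [DecidableEq V] [Fintype ι] in
theorem Thom_fibre_homeo {S' : Set X'} {co : X' → ι → ℂ} {S : Set X} {f : X' → X}
    {g : X × (ι → ℂ) → X'} (hh : HomeoOn (fun x => (f x, co x)) g S' (S ×ˢ univ))
    {E : Set (Fr V)} {p : X × Fr V} (hp : p ∈ S ×ˢ E) :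
    HomeoOn co (fun v => g (p.1, v)) {x | (x, p.2) ∈ S' ×ˢ E ∧ f x = p.1} univ := by
  have hm : ∀ v : ι → ℂ, (p.1, v) ∈ S ×ˢ (univ : Set (ι → ℂ)) := fun v => ⟨hp.1, mem_univ _⟩
  refine ⟨(continuous_snd.comp_continuousOn hh.1).mono fun x hx => hx.1.1,
    hh.2.1.comp (continuous_const.prodMk continuous_id).continuousOn fun v _ => hm v,
    fun _ _ => mem_univ _, fun v _ => ⟨⟨hh.2.2.2.1 (hm v), hp.2⟩, ?_⟩, fun x hx => ?_,
    fun v _ => ?_⟩
  · exact congrArg Prod.fst (hh.2.2.2.2.2 _ (hm v))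
  · have h1 := hh.2.2.2.2.1 x hx.1.1
    rw [← hx.2]
    exact h1
  · exact congrArg Prod.snd (hh.2.2.2.2.2 _ (hm v))

/-- The product cocycle is a Thom cocycle. -/
theorem isThomFor_tauT [T2Space X] (h : IsAct L act) (h' : IsAct L act') (hL : L ⊆ TT V)
    {S' : Set X'} (hS' : InvX L act' S') {co : X' → ι → ℂ} {χ : ι → V → ℤ}
    (hc : IsCoord L act' S' co χ) {S : Set X} (hS : InvX L act S) {f : X' → X}
    (hf : ∀ u ∈ L, ∀ x ∈ S', f (act' u x) = act u (f x)) {g : X × (ι → ℂ) → X'}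
    (hh : HomeoOn (fun x => (f x, co x)) g S' (S ×ˢ univ)) {E : Set (Fr V)} (hE : InvF L E)
    {n : ℕ} (hn : E ⊆ Inj (id : V → V) n) :
    IsThomFor L act' act (S' ×ˢ E) (S ×ˢ E) f co (tauT L act' co χ) := by
  refine ⟨(discOK_of_homeo h h' hS' hS hf hh hE).twOK h' hL hc (Inv.prod hS' hE)
    (prod_mono Subset.rfl hn), tauT_homC co χ, fun p hp => ⟨⟨_, Thom_fibre_homeo hh hp⟩, ?_⟩⟩
  exact N0_le_BB _ _ (Tw_N0_mono (fun x hx => hx.1.1) (tauT_fibre h' hL hS' hc (hn hp.2)))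

theorem Thom_ZZ_fibre {Y Y' : Type} [TopologicalSpace Y] [TopologicalSpace Y'] [T2Space Y]
    {A : Set Y} {A' : Set Y'} {π : Y' → Y} {t : Coch Y'} (h : TwOK A A' π t) {y : Y}
    (hy : y ∈ A) : t ∈ ZZ (cc (A' ∩ π ⁻¹' {y})) (A' ∩ π ⁻¹' {y}) := by
  have h1 := (h.restrict (singleton_subset_iff.2 hy)).mem_ZZ (a := one) (by
    rw [ZZ_cc_eq_bot isCompact_singleton]
    exact one_mem_ZZ _)
  rwa [pb_one, one_cup h.2.2.1.1.1.1] at h1

theorem Thom_pb_pb_N0 {Y Y' : Type} [TopologicalSpace Y] [TopologicalSpace Y'] {A : Set Y}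
    {A' : Set Y'} {f : Y' → Y} {g : Y → Y'} (h : HomeoOn f g A' A) (t : Coch Y) :
    t - pb g (pb f t) ∈ N0 A := by
  have h1 : pb id t - pb (f ∘ g) t ∈ N0 A :=
    supp_pb_congr (fun y hy => (h.2.2.2.2.2 y hy).symm) t
  rwa [pb_id, ← pb_pb] at h1

section nice
variable [Nice X] [Nice X']

theorem IsThomFor.isGenOn (h : IsAct L act) (h' : IsAct L act') {P' : Set (X' × Fr V)}
    {P : Set (X × Fr V)} (hP' : Inv L act' P') {f : X' → X}
    (hf : ∀ u ∈ L, ∀ p ∈ P', f (act' u p.1) = act u (f p.1))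
    (hfc : ContinuousOn (fun p : X' × Fr V => f p.1) P') (hfree : ∀ p ∈ P, FreeOn L {p.2})
    {co : X' → ι → ℂ} {t : Coch (Bor L act')} (ht : IsThomFor L act' act P' P f co t) :
    ∀ y ∈ BI L act P, IsGenOn (BI L act' P' ∩ bmap L act f id ⁻¹' {y}) t := by
  have := h.nice
  rintro _ ⟨p, hp, rfl⟩
  obtain ⟨g, hg⟩ := h'.fibre_bmap h hP' hf hfc p.1 p.2 (hfree p hp)
  obtain ⟨⟨g₀, hg₀⟩, hb⟩ := ht.2.2 p hp
  have hZ := Thom_ZZ_fibre ht.1 (mem_image_of_mem (bmk L act) hp)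
  have h1 := IsGenOn.of_homeoOn hg₀ isGenOn_genC (pb_mem_ZZ_cc hg.properOn hZ) hb
  exact IsGenOn.of_homeoOn hg.symm h1 hZ (N0_le_BB _ _ (Thom_pb_pb_N0 hg t))

theorem IsThomFor.bijective (h : IsAct L act) (h' : IsAct L act') {P' : Set (X' × Fr V)}
    {P : Set (X × Fr V)} (hP' : Inv L act' P') (hP : Inv L act P) (hl' : LC P') (hl : LC P)
    {f : X' → X} (hf : ∀ u ∈ L, ∀ p ∈ P', f (act' u p.1) = act u (f p.1))
    (hfc : ContinuousOn (fun p : X' × Fr V => f p.1) P') (hfree : ∀ p ∈ P, FreeOn L {p.2})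
    {co : X' → ι → ℂ} {t : Coch (Bor L act')} (ht : IsThomFor L act' act P' P f co t) :
    Function.Bijective (tw (BI L act P) (BI L act' P') (bmap L act f id) t) := by
  have := h.nice
  have := h'.nice
  exact thom_iso (h.lc_BI hP hl) (h'.lc_BI hP' hl') ht.1 ht.2.1
    (ht.isGenOn h h' hP' hf hfc hfree)

/-- Uniqueness: the coordinates may differ by fibrewise complex affine isomorphisms. -/
theorem IsThomFor.tw_eq (h : IsAct L act) (h' : IsAct L act') {P' : Set (X' × Fr V)}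
    {P : Set (X × Fr V)} (hP' : Inv L act' P') (hP : Inv L act P) (hl' : LC P') (hl : LC P)
    {f : X' → X} (hf : ∀ u ∈ L, ∀ p ∈ P', f (act' u p.1) = act u (f p.1))
    (hfc : ContinuousOn (fun p : X' × Fr V => f p.1) P') (hfree : ∀ p ∈ P, FreeOn L {p.2})
    {co : X' → ι → ℂ} {t : Coch (Bor L act')} (ht : IsThomFor L act' act P' P f co t)
    {co' : X' → κ → ℂ} {t' : Coch (Bor L act')} (ht' : IsThomFor L act' act P' P f co' t')
    (hA : ∀ p ∈ P, ∃ (A : (ι → ℂ) ≃ₗ[ℂ] (κ → ℂ)) (b : κ → ℂ),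
      ∀ x, (x, p.2) ∈ P' → f x = p.1 → co' x = A (co x) + b) :
    tw (BI L act P) (BI L act' P') (bmap L act f id) t =
      tw (BI L act P) (BI L act' P') (bmap L act f id) t' := by
  have := h.nice
  have := h'.nice
  rcases P.eq_empty_or_nonempty with rfl | ⟨p₀, hp₀⟩
  · have h0 : BI L act ∅ = ∅ := image_empty _
    rw [h0]
    exact LinearMap.ext fun x => by rw [Subsingleton.elim x 0, map_zero, map_zero]
  have hcard : Fintype.card κ = Fintype.card ι := by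
    obtain ⟨A, -⟩ := hA p₀ hp₀
    have h1 := A.finrank_eq
    rw [Module.finrank_pi, Module.finrank_pi] at h1
    exact h1.symm
  refine tw_eq_of_fibre (h.lc_BI hP hl) (h'.lc_BI hP' hl') ht.1 ht'.1 ht.2.1 (hcard ▸ ht'.2.1)
    (ht.isGenOn h h' hP' hf hfc hfree) ?_
  rintro _ ⟨p, hp, rfl⟩
  obtain ⟨g, hg⟩ := h'.fibre_bmap h hP' hf hfc p.1 p.2 (hfree p hp)
  obtain ⟨⟨g₀, hg₀⟩, hb⟩ := ht.2.2 p hp
  obtain ⟨-, hb'⟩ := ht'.2.2 p hp
  obtain ⟨A, b, hAb⟩ := hA p hp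
  have hy := mem_image_of_mem (bmk L act) hp
  refine (cls_eq_iff (Thom_ZZ_fibre ht'.1 hy) (Thom_ZZ_fibre ht.1 hy)).2 ?_
  have h1 := pb_mem_BB_cc hg₀.properOn (genC_linear A b)
  have h2 : pb co' (genC κ) - pb ((fun v => A v + b) ∘ co) (genC κ) ∈
      N0 {x | (x, p.2) ∈ P' ∧ f x = p.1} :=
    supp_pb_congr (fun x hx => hAb x hx.1 hx.2) _
  rw [pb_sub, pb_pb] at h1
  have h3 := sub_mem (add_mem (add_mem hb' (N0_le_BB _ _ h2)) h1) hb
  rw [sub_add_sub_cancel, sub_add_sub_cancel, sub_sub_sub_cancel_right, ← pb_sub] at h3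
  have h4 := add_mem (N0_le_BB _ _ (Thom_pb_pb_N0 hg (t' - t))) (pb_mem_BB_cc hg.symm.properOn h3)
  rwa [sub_add_cancel] at h4

end nice

/-- Restriction to an invariant part of the base. -/
theorem IsThomFor.restrict [Nice X] (h : IsAct L act) (h' : IsAct L act') {P' : Set (X' × Fr V)}
    {P P₁ : Set (X × Fr V)} (hP₁ : Inv L act P₁) (hs : P₁ ⊆ P) {f : X' → X}
    (hf : ∀ u ∈ L, ∀ p ∈ P', f (act' u p.1) = act u (f p.1))
    {co : X' → ι → ℂ} {t : Coch (Bor L act')} (ht : IsThomFor L act' act P' P f co t) :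
    IsThomFor L act' act {p | p ∈ P' ∧ (f p.1, p.2) ∈ P₁} P₁ f co t := by
  have := h.nice
  refine ⟨?_, ht.2.1, fun p hp => ?_⟩
  · have h1 := ht.1.restrict (BI_mono hs)
    rw [bmap_eq_bmp, h'.inter_preimage_bmp h hP₁ (EqvOn.of_map Subset.rfl hf)] at h1
    exact h1
  · have h1 : {x | (x, p.2) ∈ {p : X' × Fr V | p ∈ P' ∧ (f p.1, p.2) ∈ P₁} ∧ f x = p.1} =
        {x | (x, p.2) ∈ P' ∧ f x = p.1} := by
      ext x
      refine ⟨fun hx => ⟨hx.1.1, hx.2⟩, fun hx => ⟨⟨hx.1, ?_⟩, hx.2⟩⟩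
      show (f x, p.2) ∈ P₁
      rw [hx.2]
      exact hp
    rw [h1]
    exact ht.2.2 p (hs hp)

/-- Restriction to a subgroup. -/
theorem IsThomFor.subgroup (h : IsAct L act) (h' : IsAct L act') {L₁ : Set (Matrix V V ℂ)}
    (h₁ : IsGrp L₁) (hs : L₁ ⊆ L) {P' : Set (X' × Fr V)} {P : Set (X × Fr V)}
    (hP' : Inv L act' P') (hP : Inv L act P) {f : X' → X}
    (hf : ∀ u ∈ L, ∀ p ∈ P', f (act' u p.1) = act u (f p.1))
    (hfc : ContinuousOn (fun p : X' × Fr V => f p.1) P') [T2Space X]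
    {co : X' → ι → ℂ} {t : Coch (Bor L act')} (ht : IsThomFor L act' act P' P f co t) :
    IsThomFor L₁ act' act P' P f co (pb (bmap L act' id id : Bor L₁ act' → Bor L act') t) := by
  have hk := h.ind_proper h₁ hs hP (hP.mono hs) (ClosedIn.refl P)
  have hk' := h'.ind_proper h₁ hs hP' (hP'.mono hs) (ClosedIn.refl P')
  have g' := h'.mono h₁ hs
  have hf₁ : ∀ u ∈ L₁, ∀ p ∈ P', f (act' u p.1) = act u (f p.1) := fun u hu => hf u (hs hu)
  have hF : EqvOn L₁ act' L₁ act P' (Prod.map f id) := EqvOn.of_map Subset.rfl hf₁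
  refine ⟨⟨g'.continuousOn_bmp (hP'.mono hs) hF (hfc.prodMk continuousOn_snd),
    g'.mapsTo_bmp hF fun p hp => ?_, pb_mem_ZZ hk'.1 hk'.2.1 ht.1.2.2.1, fun C hC hCA => ?_⟩,
    ht.2.1.pb _, fun p hp => ⟨(ht.2.2 p hp).1, ?_⟩⟩
  · have h1 := ht.1.2.1 (mem_image_of_mem (bmk L act') hp)
    rw [Thom_map_bmk h' hf hp] at h1
    exact (h.mem_BI hP).1 h1
  · obtain ⟨C', h1, h2, h3⟩ := ht.1.2.2.2 _ (hC.image_of_continuousOn (hk.1.mono hCA))
      (hk.2.1.mono_left hCA).image_subset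
    refine ⟨_, hk'.2.2 C' h1 h2, inter_subset_left, fun q hq => ⟨supp_subset _ _ hq.1,
      h3 ⟨supp_pb hk'.1 hk'.2.1 t hq.1, _, hq.2, ?_⟩⟩⟩
    obtain ⟨p, hp, rfl⟩ := supp_subset _ _ hq.1
    rw [Thom_map_bmk g' hf₁ hp, h.toK_bmk h₁ hs, h'.toK_bmk h₁ hs, Thom_map_bmk h' hf hp]
  · have h1 : (bmap L act' id id : Bor L₁ act' → Bor L act') ∘ (fun x => bmk L₁ act' (x, p.2)) =
        fun x => bmk L act' (x, p.2) := funext fun x => h'.toK_bmk h₁ hs _
    rw [pb_pb, h1]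
    exact (ht.2.2 p hp).2

/-- A Thom cocycle pulled back from a module: `(f, co)` trivialises `S'` over `S`. -/
theorem isThomFor_pb [T2Space X] {ρ : Matrix V V ℂ → (ι → ℂ) → ι → ℂ} (h : IsAct L act)
    (h' : IsAct L act') (hρ : IsAct L ρ) {E : Set (Fr V)} (hE : InvF L E) {τ : Coch (Bor L ρ)}
    (hτ : IsThomFor L ρ ptAct (univ ×ˢ E) (univ ×ˢ E) (fun _ => ()) id τ)
    {S' : Set X'} (hS' : InvX L act' S') {co : X' → ι → ℂ}
    (hco : ∀ u ∈ L, ∀ x ∈ S', co (act' u x) = ρ u (co x)) {S : Set X} (hS : InvX L act S)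
    {f : X' → X} (hf : ∀ u ∈ L, ∀ x ∈ S', f (act' u x) = act u (f x)) {g : X × (ι → ℂ) → X'}
    (hh : HomeoOn (fun x => (f x, co x)) g S' (S ×ˢ univ)) :
    IsThomFor L act' act (S' ×ˢ E) (S ×ˢ E) f co
      (pb (bmap L ρ co id : Bor L act' → Bor L ρ) τ) := by
  have h1 := Thom_map_cont h' hS' hf (continuous_fst.comp_continuousOn hh.1)
    (fun x hx => (hh.2.2.1 hx).1) hE
  have h2 := Thom_map_cont h' hS' hco (continuous_snd.comp_continuousOn hh.1)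
    (mapsTo_univ co S') hE
  have hf' : ∀ u ∈ L, ∀ p ∈ S' ×ˢ E, f (act' u p.1) = act u (f p.1) :=
    fun u hu p hp => hf u hu p.1 hp.1
  have hco' : ∀ u ∈ L, ∀ p ∈ S' ×ˢ E, co (act' u p.1) = ρ u (co p.1) :=
    fun u hu p hp => hco u hu p.1 hp.1
  refine ⟨⟨h1.1, h1.2, pb_mem_ZZ h2.1 h2.2 hτ.1.2.2.1, fun C hC hCA => ?_⟩, hτ.2.1.pb _,
    fun p hp => ⟨⟨_, Thom_fibre_homeo hh hp⟩, ?_⟩⟩
  · have hK := h.isCompact_preimage hC
    have hKS : bmk L act ⁻¹' C ⊆ S ×ˢ E := fun p hp => (h.mem_BI (Inv.prod hS hE)).1 (hCA hp)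
    obtain ⟨C', h3, -, h4⟩ := hτ.1.2.2.2
      (BI L ptAct ((fun p : X × Fr V => ((), p.2)) '' (bmk L act ⁻¹' C)))
      (isCompact_BI (hK.image (continuous_const.prodMk continuous_snd)))
      (BI_mono (by
        rintro _ ⟨p, hp, rfl⟩
        exact ⟨mem_univ _, (hKS hp).2⟩))
    obtain ⟨K', h5, h6, h7⟩ := Thom_compact hh hK hKS
      ((hρ.isCompact_preimage h3).image continuous_fst)
    refine ⟨BI L act' K', isCompact_BI h5, BI_mono h6, fun q hq => ?_⟩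
    obtain ⟨p, hp, rfl⟩ := supp_subset _ _ hq.1
    have h8 := hq.2
    have h9 := supp_pb h2.1 h2.2 τ hq.1
    rw [mem_preimage, Thom_map_bmk h' hf' hp] at h8
    rw [mem_preimage, Thom_map_bmk h' hco' hp] at h9
    refine ⟨p, h7 p hp h8 ⟨(co p.1, p.2), h4 ⟨h9, ?_⟩, rfl⟩, rfl⟩
    rw [mem_preimage, hρ.toPt_bmk Subset.rfl]
    exact ⟨_, ⟨_, h8, rfl⟩, rfl⟩
  · have h3 := (hτ.2.2 ((), p.2) ⟨mem_univ _, hp.2⟩).2
    have h4 : {x : ι → ℂ | (x, p.2) ∈ (univ : Set (ι → ℂ)) ×ˢ E ∧ () = ()} = univ :=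
      eq_univ_of_forall fun x => ⟨⟨mem_univ _, hp.2⟩, rfl⟩
    rw [h4, pb_id] at h3
    have h5 := pb_mem_BB_cc (Thom_fibre_homeo hh hp).properOn h3
    have h6 : pb ((bmap L ρ co id : Bor L act' → Bor L ρ) ∘ fun x => bmk L act' (x, p.2)) τ -
        pb ((fun v => bmk L ρ (v, p.2)) ∘ co) τ ∈ N0 {x | (x, p.2) ∈ S' ×ˢ E ∧ f x = p.1} :=
      supp_pb_congr (fun x hx => Thom_map_bmk h' hco' hx.1) _
    rw [pb_sub, pb_pb] at h5
    have h7 := add_mem (N0_le_BB _ _ h6) h5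
    rw [sub_add_sub_cancel] at h7
    rw [pb_pb]
    exact h7

end Pool.Agent.HK
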