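import Pool.Agent.P.MP_1206ce_ag.BO.Defs
import Pool.Agent.P.MP_1206ce_ag.AS.Lawson

/-! Point-set topology of Borel quotients. -/

open scoped Topology
open Filter Set

noncomputable section

namespace Pool.Agent.HK

variable {V V' Λ Λ₀ X X' Z : Type} [Fintype V] [DecidableEq V] [Fintype V'] [DecidableEq V']
variable [TopologicalSpace X] [TopologicalSpace X'] [TopologicalSpace Z]
variable {L : Set (Matrix V V ℂ)} {act : Matrix V V ℂ → X → X}
variable {L' : Set (Matrix V' V' ℂ)} {act' : Matrix V' V' ℂ → X' → X'}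

theorem isGrp_KG (lab : V → Λ) : IsGrp (KG lab) := by
  refine ⟨fun u hu => hu.1, ⟨one_mem _, fun k l h => ?_⟩,
    fun u hu v hv => ⟨mul_mem hu.1 hv.1, fun k l h => ?_⟩,
    fun u hu => ⟨Unitary.star_mem hu.1, fun k l h => ?_⟩, ?_⟩
  · exact Matrix.one_apply_ne fun e => h (e ▸ rfl)
  · rw [Matrix.mul_apply]
    refine Finset.sum_eq_zero fun m _ => ?_
    by_cases h1 : lab k = lab m
    · rw [hv.2 m l (h1 ▸ h), mul_zero]
    · rw [hu.2 k m h1, zero_mul]
  · rw [Matrix.star_apply, hu.2 l k (Ne.symm h), star_zero]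
  · have h1 : IsClosed {u : Matrix V V ℂ | ∀ k l, lab k ≠ lab l → u k l = 0} := by
      simp only [ofPred_forall]
      exact isClosed_iInter fun k => isClosed_iInter fun l => isClosed_iInter fun _ =>
        isClosed_eq ((continuous_apply l).comp (continuous_apply k)) continuous_const
    exact (isClosed_unitary (R := Matrix V V ℂ)).inter h1

theorem isGrp_KF (lab : V → Λ) (fr : Set V) : IsGrp (KF lab fr) := by
  have h := isGrp_KG lab
  refine ⟨fun u hu => hu.1.1, ⟨h.one, fun _ _ _ => rfl⟩,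
    fun u hu v hv => ⟨h.mul u hu.1 v hv.1, fun k hk l => ?_⟩,
    fun u hu => ⟨h.star u hu.1, fun k hk l => ?_⟩, ?_⟩
  · rw [← hv.2 k hk l, Matrix.mul_apply]
    conv_rhs => rw [← one_mul v, Matrix.mul_apply]
    exact Finset.sum_congr rfl fun m _ => by rw [hu.2 k hk m]
  · rw [← Unitary.mul_star_self_of_mem hu.1.1, Matrix.mul_apply]
    conv_lhs => rw [← one_mul (star u), Matrix.mul_apply]
    exact Finset.sum_congr rfl fun m _ => by rw [hu.2 k hk m]
  · have h1 : IsClosed {u : Matrix V V ℂ | ∀ k ∈ fr, ∀ l, u k l = (1 : Matrix V V ℂ) k l} := by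
      simp only [ofPred_forall]
      exact isClosed_iInter fun k => isClosed_iInter fun _ => isClosed_iInter fun l =>
        isClosed_eq ((continuous_apply l).comp (continuous_apply k)) continuous_const
    exact h.closed.inter h1

theorem KF_subset (lab : V → Λ) (fr : Set V) : KF lab fr ⊆ KG lab :=
  fun _ hu => hu.1

theorem KF_empty (lab : V → Λ) : KF lab ∅ = KG lab :=
  Subset.antisymm (KF_subset lab ∅) fun _ hu => ⟨hu, fun _ hk => hk.elim⟩

theorem KF_anti (lab : V → Λ) {fr fr' : Set V} (h : fr ⊆ fr') : KF lab fr' ⊆ KF lab fr :=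
  fun _ hu => ⟨hu.1, fun k hk => hu.2 k (h hk)⟩

theorem KG_mono {lab : V → Λ} {lab₀ : V → Λ₀} (h : Refines lab lab₀) : KG lab ⊆ KG lab₀ :=
  fun _ hu => ⟨hu.1, fun k l hkl => hu.2 k l fun e => hkl (h k l e)⟩

theorem TT_subset (lab : V → Λ) : TT V ⊆ KG lab :=
  fun _ hu => ⟨hu.1, fun k l hkl => hu.2 k l fun e => hkl (congrArg lab e)⟩

theorem IsGrp.isCompact (h : IsGrp L) : IsCompact L := by
  have h1 : IsCompact (Set.pi univ fun _ : V => Set.pi univ fun _ : V =>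
      Metric.closedBall (0 : ℂ) 1) :=
    isCompact_univ_pi fun _ => isCompact_univ_pi fun _ => isCompact_closedBall _ _
  refine IsCompact.of_isClosed_subset (X := Matrix V V ℂ) h1 h.closed fun u hu k _ l _ => ?_
  exact mem_closedBall_zero_iff.2 (entry_norm_bound_of_unitary (h.unit u hu) k l)

theorem IsGrp.inter {L₁ : Set (Matrix V V ℂ)} (h : IsGrp L) (h₁ : IsGrp L₁) : IsGrp (L ∩ L₁) :=
  ⟨fun u hu => h.unit u hu.1, ⟨h.one, h₁.one⟩,
    fun u hu v hv => ⟨h.mul u hu.1 v hv.1, h₁.mul u hu.2 v hv.2⟩,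
    fun u hu => ⟨h.star u hu.1, h₁.star u hu.2⟩, h.closed.inter h₁.closed⟩

theorem IsGrp.star_mul (h : IsGrp L) {u : Matrix V V ℂ} (hu : u ∈ L) : Star.star u * u = 1 :=
  Unitary.star_mul_self_of_mem (h.unit u hu)

theorem IsGrp.mul_star (h : IsGrp L) {u : Matrix V V ℂ} (hu : u ∈ L) : u * Star.star u = 1 :=
  Unitary.mul_star_self_of_mem (h.unit u hu)

theorem Top_pmat_mul (w : Equiv.Perm V) (t : Matrix V V ℂ) (k l : V) :
    (pmat w * t) k l = t (w.symm k) l := by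
  rw [Matrix.mul_apply, Finset.sum_eq_single (w.symm k)]
  · simp [pmat]
  · intro m _ hm
    have h1 : k ≠ w m := fun e => hm (by rw [e, Equiv.symm_apply_apply])
    simp [pmat, h1]
  · intro h1
    exact absurd (Finset.mem_univ _) h1

theorem Top_vec_pmat (w : Equiv.Perm V) (x : V → ℂ) (l : V) :
    ∑ m, x m * star (pmat w) m l = x (w.symm l) := by
  rw [Finset.sum_eq_single (w.symm l)]
  · simp [pmat, Matrix.star_apply]
  · intro m _ hm
    have h1 : l ≠ w m := fun e => hm (by rw [e, Equiv.symm_apply_apply])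
    simp [pmat, Matrix.star_apply, h1]
  · intro h1
    exact absurd (Finset.mem_univ _) h1

theorem Top_pmat_unit (w : Equiv.Perm V) : pmat w ∈ Matrix.unitaryGroup V ℂ := by
  rw [Matrix.mem_unitaryGroup_iff]
  ext k l
  rw [Matrix.mul_apply, Top_vec_pmat w (pmat w k) l]
  simp [pmat, Matrix.one_apply]

theorem pmat_mem_KG {lab : V → Λ} {w : Equiv.Perm V} (h : w ∈ Wl lab) : pmat w ∈ KG lab := by
  refine ⟨Top_pmat_unit w, fun k l hkl => ?_⟩
  have h1 : ∀ k, lab (w k) = lab k := by simpa [Wl] using h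
  have h2 : k ≠ w l := fun e => hkl (by rw [e, h1])
  simp [pmat, h2]

theorem frAct_pmat (w : Equiv.Perm V) (e : Fr V) : frAct (pmat w) e = fun j k => e j (w.symm k) := by
  funext j k
  exact Top_vec_pmat w (e j) k

theorem pmat_conj_mem_TT (w : Equiv.Perm V) {t : Matrix V V ℂ} (ht : t ∈ TT V) :
    pmat w * t * star (pmat w) ∈ TT V := by
  refine ⟨mul_mem (mul_mem (Top_pmat_unit w) ht.1) (Unitary.star_mem (Top_pmat_unit w)),
    fun k l hkl => ?_⟩
  rw [Matrix.mul_apply, Top_vec_pmat w ((pmat w * t) k) l, Top_pmat_mul]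
  exact ht.2 _ _ fun e => hkl (w.symm.injective e)

theorem Top_diag_mul {u : Matrix V V ℂ} (hu : u ∈ TT V) (v : Matrix V V ℂ) (k : V) :
    (u * v) k k = u k k * v k k := by
  rw [Matrix.mul_apply, Finset.sum_eq_single k]
  · intro m _ hm
    rw [hu.2 k m (Ne.symm hm), zero_mul]
  · intro h1
    exact absurd (Finset.mem_univ _) h1

theorem Top_norm_diag {u : Matrix V V ℂ} (hu : u ∈ TT V) (k : V) : ‖u k k‖ = 1 := by
  have h1 := Top_diag_mul hu (star u) k
  rw [Unitary.mul_star_self_of_mem hu.1, Matrix.one_apply_eq, Matrix.star_apply] at h1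
  have h2 := congrArg norm h1
  rw [norm_one, norm_mul, norm_star] at h2
  rcases mul_self_eq_one_iff.1 h2.symm with h3 | h3
  · exact h3
  · have h4 := norm_nonneg (u k k)
    linarith

theorem Top_diag_ne {u : Matrix V V ℂ} (hu : u ∈ TT V) (k : V) : u k k ≠ 0 := by
  intro h
  have h1 := Top_norm_diag hu k
  rw [h, norm_zero] at h1
  exact zero_ne_one h1

theorem chr_mul (χ : V → ℤ) {u v : Matrix V V ℂ} (hu : u ∈ TT V) (hv : v ∈ TT V) :
    chr χ (u * v) = chr χ u * chr χ v := by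
  simp only [chr, Top_diag_mul hu v, mul_zpow, Finset.prod_mul_distrib]

theorem chr_one (χ : V → ℤ) : chr χ (1 : Matrix V V ℂ) = 1 := by
  simp [chr]

theorem norm_chr (χ : V → ℤ) {u : Matrix V V ℂ} (hu : u ∈ TT V) : ‖chr χ u‖ = 1 := by
  simp [chr, norm_prod, norm_zpow, Top_norm_diag hu]

theorem chr_add (χ χ' : V → ℤ) {u : Matrix V V ℂ} (hu : u ∈ TT V) :
    chr (χ + χ') u = chr χ u * chr χ' u := by
  simp only [chr, Pi.add_apply, zpow_add₀ (Top_diag_ne hu _), Finset.prod_mul_distrib]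

theorem chr_neg (χ : V → ℤ) {u : Matrix V V ℂ} (hu : u ∈ TT V) :
    chr (-χ) u = star (chr χ u) := by
  have h1 : chr (-χ) u = (chr χ u)⁻¹ := by
    simp only [chr, Pi.neg_apply, zpow_neg, Finset.prod_inv_distrib]
  rw [h1, Complex.inv_eq_conj (norm_chr χ hu)]
  rfl

theorem chr_single (k : V) (u : Matrix V V ℂ) : chr (Pi.single k 1) u = u k k := by
  rw [chr, Finset.prod_eq_single k]
  · simp
  · intro m _ hm
    simp [Pi.single_eq_of_ne hm]
  · intro h1
    exact absurd (Finset.mem_univ _) h1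

theorem isAct_act1 (χ : V → ℤ) : IsAct (TT V) (act1 χ) := by
  refine ⟨isGrp_KG _, fun x => by rw [act1, chr_one, one_mul],
    fun u hu v hv x => by rw [act1, act1, act1, chr_mul χ hu hv, mul_assoc], ?_⟩
  refine ContinuousOn.mul ?_ continuousOn_snd
  refine continuousOn_finsetProd _ fun k _ => ContinuousOn.zpow₀ ?_ _ fun p hp => ?_
  · exact ((continuous_apply k).comp ((continuous_apply k).comp continuous_fst)).continuousOn
  · exact Or.inl (Top_diag_ne hp.1 k)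

theorem isAct_pt (h : IsGrp L) : IsAct L (ptAct (V := V)) :=
  ⟨h, fun _ => rfl, fun _ _ _ _ _ => rfl, continuousOn_snd⟩

theorem IsAct.mono (h : IsAct L act) {L₁ : Set (Matrix V V ℂ)} (h₁ : IsGrp L₁) (hs : L₁ ⊆ L) :
    IsAct L₁ act :=
  ⟨h₁, h.one, fun u hu v hv => h.mul u (hs hu) v (hs hv), h.cont.mono (prod_mono hs Subset.rfl)⟩

theorem IsAct.prod {act₁ : Matrix V V ℂ → X' → X'} (h : IsAct L act) (h₁ : IsAct L act₁) :
    IsAct L (fun u (p : X × X') => (act u p.1, act₁ u p.2)) := by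
  refine ⟨h.grp, fun x => Prod.ext (h.one _) (h₁.one _),
    fun u hu v hv x => Prod.ext (h.mul u hu v hv _) (h₁.mul u hu v hv _), ?_⟩
  refine ContinuousOn.prodMk ?_ ?_
  · exact h.cont.comp (f := fun p : Matrix V V ℂ × (X × X') => (p.1, p.2.1)) (by fun_prop)
      fun p hp => ⟨hp.1, trivial⟩
  · exact h₁.cont.comp (f := fun p : Matrix V V ℂ × (X × X') => (p.1, p.2.2)) (by fun_prop)
      fun p hp => ⟨hp.1, trivial⟩

theorem IsAct.continuous (h : IsAct L act) {u : Matrix V V ℂ} (hu : u ∈ L) : Continuous (act u) :=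
  h.cont.comp_continuous (f := fun x : X => (u, x)) (by fun_prop) fun _ => ⟨hu, trivial⟩

theorem frAct_one (e : Fr V) : frAct (1 : Matrix V V ℂ) e = e := by
  funext j
  simp [frAct]

theorem frAct_mul (u v : Matrix V V ℂ) (e : Fr V) : frAct (u * v) e = frAct u (frAct v e) := by
  funext j
  simp [frAct, Matrix.vecMul_vecMul]

theorem continuous_frAct : Continuous fun p : Matrix V V ℂ × Fr V => frAct p.1 p.2 := by
  refine continuous_pi fun j => ?_
  exact Continuous.matrix_vecMul ((continuous_apply j).comp continuous_snd) continuous_fst.star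

theorem IsAct.bact_one (h : IsAct L act) (p : X × Fr V) : bact act 1 p = p :=
  Prod.ext (h.one _) (frAct_one _)

theorem IsAct.bact_mul (h : IsAct L act) {u v : Matrix V V ℂ} (hu : u ∈ L) (hv : v ∈ L)
    (p : X × Fr V) : bact act (u * v) p = bact act u (bact act v p) :=
  Prod.ext (h.mul u hu v hv _) (frAct_mul _ _ _)

theorem IsAct.bact_star (h : IsAct L act) {u : Matrix V V ℂ} (hu : u ∈ L) (p : X × Fr V) :
    bact act (star u) (bact act u p) = p ∧ bact act u (bact act (star u) p) = p := by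
  rw [← h.bact_mul (h.grp.star u hu) hu, ← h.bact_mul hu (h.grp.star u hu), h.grp.star_mul hu,
    h.grp.mul_star hu, h.bact_one]
  exact ⟨rfl, rfl⟩

theorem IsAct.cont_bact (h : IsAct L act) :
    ContinuousOn (fun p : Matrix V V ℂ × (X × Fr V) => bact act p.1 p.2) (L ×ˢ univ) := by
  refine ContinuousOn.prodMk ?_ ?_
  · exact h.cont.comp (f := fun p : Matrix V V ℂ × (X × Fr V) => (p.1, p.2.1)) (by fun_prop)
      fun p hp => ⟨hp.1, trivial⟩
  · exact (continuous_frAct.comp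
      (f := fun p : Matrix V V ℂ × (X × Fr V) => (p.1, p.2.2)) (by fun_prop)).continuousOn

omit [DecidableEq V] [TopologicalSpace X] in
theorem BS_eq (S : Set X) (E : Set (Fr V)) : BS L act S E = BI L act (S ×ˢ E) := by
  ext q
  constructor
  · rintro ⟨x, hx, e, he, rfl⟩
    exact ⟨(x, e), ⟨hx, he⟩, rfl⟩
  · rintro ⟨p, hp, rfl⟩
    exact ⟨p.1, hp.1, p.2, hp.2, rfl⟩

theorem Inv.prod {S : Set X} {E : Set (Fr V)} (hS : InvX L act S) (hE : InvF L E) :
    Inv L act (S ×ˢ E) :=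
  fun u hu p hp => ⟨hS u hu p.1 hp.1, hE u hu p.2 hp.2⟩

theorem Inv.inter {P P' : Set (X × Fr V)} (h : Inv L act P) (h' : Inv L act P') :
    Inv L act (P ∩ P') :=
  fun u hu p hp => ⟨h u hu p hp.1, h' u hu p hp.2⟩

theorem Inv.diff (ha : IsAct L act) {P P' : Set (X × Fr V)} (h : Inv L act P) (h' : Inv L act P') :
    Inv L act (P \ P') := by
  refine fun u hu p hp => ⟨h u hu p hp.1, fun h1 => hp.2 ?_⟩
  have h2 := h' _ (ha.grp.star u hu) _ h1
  rwa [(ha.bact_star hu p).1] at h2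

theorem InvX.diff (ha : IsAct L act) {S S' : Set X} (h : InvX L act S) (h' : InvX L act S') :
    InvX L act (S \ S') := by
  refine fun u hu p hp => ⟨h u hu p hp.1, fun h1 => hp.2 ?_⟩
  have h2 := h' _ (ha.grp.star u hu) _ h1
  rwa [← ha.mul _ (ha.grp.star u hu) u hu, ha.grp.star_mul hu, ha.one] at h2

theorem Inv.mono {L₁ : Set (Matrix V V ℂ)} {P : Set (X × Fr V)} (h : Inv L act P) (hs : L₁ ⊆ L) :
    Inv L₁ act P :=
  fun u hu => h u (hs hu)

theorem IsAct.bmk_eq_iff (h : IsAct L act) {p q : X × Fr V} :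
    bmk L act p = bmk L act q ↔ ∃ u ∈ L, q = bact act u p := by
  have h1 : Equivalence fun p q : X × Fr V => ∃ u ∈ L, q = bact act u p := by
    refine ⟨fun p => ⟨1, h.grp.one, (h.bact_one p).symm⟩, ?_, ?_⟩
    · rintro p _ ⟨u, hu, rfl⟩
      exact ⟨star u, h.grp.star u hu, (h.bact_star hu p).1.symm⟩
    · rintro p _ _ ⟨u, hu, rfl⟩ ⟨v, hv, rfl⟩
      exact ⟨v * u, h.grp.mul v hv u hu, (h.bact_mul hv hu p).symm⟩
  exact Quot.eq.trans h1.eqvGen_iff

theorem bmk_bact {u : Matrix V V ℂ} (hu : u ∈ L) (p : X × Fr V) :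
    bmk L act (bact act u p) = bmk L act p :=
  (Quot.sound ⟨u, hu, rfl⟩ : bmk L act p = bmk L act (bact act u p)).symm

theorem bmk_out (q : Bor L act) : bmk L act (Quot.out q) = q :=
  Quot.out_eq q

theorem IsAct.exists_out (h : IsAct L act) (p : X × Fr V) :
    ∃ u ∈ L, Quot.out (bmk L act p) = bact act u p :=
  h.bmk_eq_iff.1 (bmk_out _).symm

theorem continuous_bmk : Continuous (bmk L act) :=
  continuous_quot_mk

theorem Top_quot : Topology.IsQuotientMap (bmk L act) := isQuotientMap_quot_mk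

theorem Top_cont_bact (h : IsAct L act) {u : Matrix V V ℂ} (hu : u ∈ L) :
    Continuous (bact act u) :=
  h.cont_bact.comp_continuous (f := fun p : X × Fr V => (u, p)) (by fun_prop)
    fun _ => ⟨hu, trivial⟩

theorem Top_cont_sub (h : IsAct L act) :
    Continuous fun p : L × (X × Fr V) => bact act p.1 p.2 :=
  h.cont_bact.comp_continuous (f := fun p : L × (X × Fr V) => ((p.1 : Matrix V V ℂ), p.2))
    (by fun_prop) fun p => ⟨p.1.2, trivial⟩

theorem Top_sat (h : IsAct L act) (P : Set (X × Fr V)) (q : X × Fr V) :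
    q ∈ bmk L act ⁻¹' (bmk L act '' P) ↔ ∃ u ∈ L, bact act u q ∈ P := by
  constructor
  · rintro ⟨p, hp, h1⟩
    obtain ⟨u, hu, rfl⟩ := h.bmk_eq_iff.1 h1.symm
    exact ⟨u, hu, hp⟩
  · rintro ⟨u, hu, h1⟩
    exact ⟨_, h1, bmk_bact hu q⟩

theorem IsAct.isOpenMap_bmk (h : IsAct L act) : IsOpenMap (bmk L act) := by
  intro O hO
  rw [← Top_quot.isOpen_preimage]
  have h1 : bmk L act ⁻¹' (bmk L act '' O) = ⋃ u ∈ L, bact act u ⁻¹' O := by
    ext q
    rw [Top_sat h]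
    simp
  rw [h1]
  exact isOpen_biUnion fun u hu => hO.preimage (Top_cont_bact h hu)

theorem IsAct.isClosedMap_bmk (h : IsAct L act) : IsClosedMap (bmk L act) := by
  intro F hF
  rw [← Top_quot.isClosed_preimage]
  have h0 : CompactSpace L := isCompact_iff_compactSpace.1 h.grp.isCompact
  have h1 : bmk L act ⁻¹' (bmk L act '' F) =
      Prod.snd '' ((fun p : L × (X × Fr V) => bact act p.1 p.2) ⁻¹' F) := by
    ext q
    rw [Top_sat h]
    constructor
    · rintro ⟨u, hu, h1⟩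
      exact ⟨(⟨u, hu⟩, q), h1, rfl⟩
    · rintro ⟨p, hp, rfl⟩
      exact ⟨p.1, p.1.2, hp⟩
  rw [h1]
  exact isClosedMap_snd_of_compactSpace _ (hF.preimage (Top_cont_sub h))

theorem IsAct.isCompact_preimage (h : IsAct L act) {C : Set (Bor L act)} (hC : IsCompact C) :
    IsCompact (bmk L act ⁻¹' C) := by
  refine IsProperMap.isCompact_preimage ?_ hC
  refine isProperMap_iff_isClosedMap_and_compact_fibers.2
    ⟨continuous_bmk, h.isClosedMap_bmk, fun q => ?_⟩
  have h1 : bmk L act ⁻¹' {q} = (fun u => bact act u (Quot.out q)) '' L := by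
    ext p
    constructor
    · intro hp
      obtain ⟨u, hu, h1⟩ := h.bmk_eq_iff.1 ((bmk_out q).trans (mem_singleton_iff.1 hp).symm)
      exact ⟨u, hu, h1.symm⟩
    · rintro ⟨u, hu, rfl⟩
      exact (bmk_bact hu _).trans (bmk_out q)
  rw [h1]
  exact h.grp.isCompact.image_of_continuousOn
    (h.cont_bact.comp (f := fun u : Matrix V V ℂ => (u, Quot.out q)) (by fun_prop)
      fun u hu => ⟨hu, trivial⟩)

theorem Top_t4 {A B : Type} [TopologicalSpace A] [TopologicalSpace B] [T4Space A] {π : A → B}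
    (hc : Continuous π) (hπ : IsClosedMap π) (hs : Function.Surjective π) : T4Space B := by
  have h1 : T1Space B := ⟨fun b => by
    obtain ⟨a, rfl⟩ := hs b
    rw [← image_singleton]
    exact hπ _ isClosed_singleton⟩
  have h2 : NormalSpace B := ⟨fun s t hs' ht hst => by
    obtain ⟨U, W, hU, hW, hsU, htW, hUW⟩ :=
      NormalSpace.normal _ _ (hs'.preimage hc) (ht.preimage hc) (hst.preimage π)
    refine ⟨(π '' Uᶜ)ᶜ, (π '' Wᶜ)ᶜ, (hπ _ hU.isClosed_compl).isOpen_compl,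
      (hπ _ hW.isClosed_compl).isOpen_compl, ?_, ?_, ?_⟩
    · rintro _ hb ⟨a, ha, rfl⟩
      exact ha (hsU hb)
    · rintro _ hb ⟨a, ha, rfl⟩
      exact ha (htW hb)
    · refine disjoint_left.2 fun b h3 h4 => ?_
      obtain ⟨a, rfl⟩ := hs b
      have h5 : a ∈ U := by
        by_contra h5
        exact h3 ⟨a, h5, rfl⟩
      have h6 : a ∈ W := by
        by_contra h6
        exact h4 ⟨a, h6, rfl⟩
      exact disjoint_left.1 hUW h5 h6⟩
  exact {}

theorem IsAct.nice [Nice X] (h : IsAct L act) : Nice (Bor L act) := by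
  have h1 : T4Space (Bor L act) := Top_t4 continuous_bmk h.isClosedMap_bmk Top_quot.surjective
  have h2 : SecondCountableTopology (Bor L act) :=
    Top_quot.secondCountableTopology h.isOpenMap_bmk
  exact ⟨TopologicalSpace.metrizableSpace_of_t3_secondCountable _, h2⟩

theorem IsAct.mem_BI (h : IsAct L act) {P : Set (X × Fr V)} (hP : Inv L act P) {p : X × Fr V} :
    bmk L act p ∈ BI L act P ↔ p ∈ P := by
  refine ⟨fun h1 => ?_, fun hp => ⟨p, hp, rfl⟩⟩
  obtain ⟨q, hq, h2⟩ := h1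
  obtain ⟨u, hu, rfl⟩ := h.bmk_eq_iff.1 h2
  exact hP u hu q hq

theorem IsAct.out_mem (h : IsAct L act) {P : Set (X × Fr V)} (hP : Inv L act P) {q : Bor L act} :
    q ∈ BI L act P ↔ Quot.out q ∈ P := by
  rw [← h.mem_BI hP, bmk_out]

theorem BI_mono {P P' : Set (X × Fr V)} (h : P' ⊆ P) : BI L act P' ⊆ BI L act P :=
  image_mono h

theorem IsAct.BI_inter (h : IsAct L act) (P : Set (X × Fr V)) {P' : Set (X × Fr V)}
    (hP' : Inv L act P') : BI L act (P ∩ P') = BI L act P ∩ BI L act P' := by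
  refine Subset.antisymm (image_inter_subset _ _ _) ?_
  rintro _ ⟨⟨p, hp, rfl⟩, h1⟩
  exact ⟨p, ⟨hp, (h.mem_BI hP').1 h1⟩, rfl⟩

theorem IsAct.BI_diff (h : IsAct L act) (P : Set (X × Fr V)) {P' : Set (X × Fr V)}
    (hP' : Inv L act P') : BI L act (P \ P') = BI L act P \ BI L act P' := by
  ext q
  constructor
  · rintro ⟨p, hp, rfl⟩
    exact ⟨⟨p, hp.1, rfl⟩, fun h1 => hp.2 ((h.mem_BI hP').1 h1)⟩
  · rintro ⟨⟨p, hp, rfl⟩, h1⟩
    exact ⟨p, ⟨hp, fun h2 => h1 ⟨p, h2, rfl⟩⟩, rfl⟩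

theorem Top_BI_inter (h : IsAct L act) {P : Set (X × Fr V)} (hP : Inv L act P)
    (F : Set (X × Fr V)) : BI L act (P ∩ F) = BI L act P ∩ bmk L act '' F := by
  rw [inter_comm P F, h.BI_inter F hP, inter_comm]
  rfl

theorem IsAct.lc_BI (h : IsAct L act) {P : Set (X × Fr V)} (hP : Inv L act P) (hl : LC P) :
    LC (BI L act P) := by
  rintro _ ⟨p, hp, rfl⟩
  obtain ⟨C, hC, hCP, hCp⟩ := hl p hp
  refine ⟨bmk L act '' C, hC.image continuous_bmk, image_mono hCP, ?_⟩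
  obtain ⟨O, hO, hpO, hOC⟩ := mem_nhdsWithin.1 hCp
  refine mem_nhdsWithin.2 ⟨bmk L act '' O, h.isOpenMap_bmk O hO, ⟨p, hpO, rfl⟩, ?_⟩
  rintro _ ⟨⟨o, ho, rfl⟩, h1⟩
  exact ⟨o, hOC ⟨ho, (h.mem_BI hP).1 h1⟩, rfl⟩

theorem IsAct.closedIn_BI (h : IsAct L act) {P P' : Set (X × Fr V)} (hP : Inv L act P)
    (hc : ClosedIn P' P) : ClosedIn (BI L act P') (BI L act P) := by
  obtain ⟨F, hF, rfl⟩ := hc
  exact ⟨_, h.isClosedMap_bmk F hF, Top_BI_inter h hP F⟩

theorem IsAct.openIn_BI (h : IsAct L act) {P P' : Set (X × Fr V)} (hP : Inv L act P)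
    (hc : OpenIn P' P) : OpenIn (BI L act P') (BI L act P) := by
  obtain ⟨F, hF, rfl⟩ := hc
  exact ⟨_, h.isOpenMap_bmk F hF, Top_BI_inter h hP F⟩

theorem IsAct.eq_BI_preimage (h : IsAct L act) {P : Set (X × Fr V)} (hP : Inv L act P)
    {O : Set (Bor L act)} (hO : O ⊆ BI L act P) :
    O = BI L act (P ∩ bmk L act ⁻¹' O) ∧ Inv L act (P ∩ bmk L act ⁻¹' O) := by
  constructor
  · rw [Top_BI_inter h hP, image_preimage_eq _ Top_quot.surjective]
    exact (inter_eq_right.2 hO).symm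
  · refine fun u hu p hp => ⟨hP u hu p hp.1, ?_⟩
    rw [mem_preimage, bmk_bact hu]
    exact hp.2

theorem isCompact_BI {P : Set (X × Fr V)} (hP : IsCompact P) : IsCompact (BI L act P) :=
  hP.image continuous_bmk

theorem IsAct.properOn_bmk (h : IsAct L act) {P D : Set (X × Fr V)} (hP : Inv L act P)
    (hD : ClosedIn D P) : ProperOn (bmk L act) D (BI L act P) := by
  refine ⟨continuous_bmk.continuousOn, fun p hp => ⟨p, hD.subset hp, rfl⟩, fun C hC hCP => ?_⟩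
  have h1 : bmk L act ⁻¹' C ⊆ P := fun p hp => (h.mem_BI hP).1 (hCP hp)
  have h2 := hD.inter_right (bmk L act ⁻¹' C)
  rw [inter_eq_right.2 h1] at h2
  exact h2.isCompact (h.isCompact_preimage hC) Subset.rfl inter_subset_right

theorem IsAct.blift_bmk (h : IsAct L act) {P : Set (X × Fr V)} {F : X × Fr V → Z}
    (hF : Desc L act P F) {p : X × Fr V} (hp : p ∈ P) : blift F (bmk L act p) = F p := by
  obtain ⟨u, hu, h1⟩ := h.exists_out p
  rw [blift, h1, hF u hu p hp]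

theorem Top_contOn {A B C : Type} [TopologicalSpace A] [TopologicalSpace B] [TopologicalSpace C]
    {π : A → B} (hπ : IsOpenMap π) {P : Set A} {Q : Set B} (hQ : ∀ b ∈ Q, ∃ a ∈ P, π a = b)
    (hP : ∀ a, π a ∈ Q → a ∈ P) {G : B → C} {F : A → C} (hG : ∀ a ∈ P, G (π a) = F a)
    (hc : ContinuousOn F P) : ContinuousOn G Q := by
  refine continuousOn_iff'.2 fun t ht => ?_
  obtain ⟨O, hO, h1⟩ := continuousOn_iff'.1 hc t ht
  refine ⟨π '' O, hπ O hO, ?_⟩
  ext b
  constructor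
  · rintro ⟨h2, hb⟩
    obtain ⟨a, ha, rfl⟩ := hQ b hb
    have h3 : a ∈ F ⁻¹' t ∩ P := ⟨by rw [mem_preimage, ← hG a ha]; exact h2, ha⟩
    rw [h1] at h3
    exact ⟨⟨a, h3.1, rfl⟩, hb⟩
  · rintro ⟨⟨a, ha, rfl⟩, hb⟩
    have h3 : a ∈ O ∩ P := ⟨ha, hP a hb⟩
    rw [← h1] at h3
    refine ⟨?_, hb⟩
    rw [mem_preimage, hG a h3.2]
    exact h3.1

theorem IsAct.continuousOn_blift (h : IsAct L act) {P : Set (X × Fr V)} (hP : Inv L act P)
    {F : X × Fr V → Z} (hF : Desc L act P F) (hc : ContinuousOn F P) :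
    ContinuousOn (blift F : Bor L act → Z) (BI L act P) :=
  Top_contOn h.isOpenMap_bmk (fun _ hb => hb) (fun _ ha => (h.mem_BI hP).1 ha)
    (fun _ ha => h.blift_bmk hF ha) hc

theorem IsAct.continuousOn_blift_param {W : Type} [TopologicalSpace W] (h : IsAct L act)
    {P : Set (X × Fr V)} (hP : Inv L act P) {B : Set W} {F : (X × Fr V) × W → Z}
    (hF : ∀ s ∈ B, Desc L act P fun p => F (p, s)) (hc : ContinuousOn F (P ×ˢ B)) :
    ContinuousOn (fun q : Bor L act × W => F (Quot.out q.1, q.2)) (BI L act P ×ˢ B) := by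
  refine Top_contOn (h.isOpenMap_bmk.prodMap (IsOpenMap.id (X := W))) ?_ ?_ ?_ hc
  · rintro ⟨_, s⟩ ⟨⟨p, hp, rfl⟩, hs⟩
    exact ⟨(p, s), ⟨hp, hs⟩, rfl⟩
  · exact fun a ha => ⟨(h.mem_BI hP).1 ha.1, ha.2⟩
  · exact fun a ha => h.blift_bmk (hF a.2 ha.2) ha.1

theorem IsAct.properOn_blift (h : IsAct L act) {P : Set (X × Fr V)} (hP : Inv L act P)
    {F : X × Fr V → Z} (hF : Desc L act P F) {B : Set Z} (hp : ProperOn F P B) :
    ProperOn (blift F : Bor L act → Z) (BI L act P) B := by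
  refine ⟨h.continuousOn_blift hP hF hp.1, fun q hq => hp.2.1 ((h.out_mem hP).1 hq),
    fun C hC hCB => ?_⟩
  have h1 : BI L act P ∩ (blift F : Bor L act → Z) ⁻¹' C = BI L act (P ∩ F ⁻¹' C) := by
    ext q
    constructor
    · rintro ⟨hq, h1⟩
      exact ⟨Quot.out q, ⟨(h.out_mem hP).1 hq, h1⟩, bmk_out q⟩
    · rintro ⟨p, hp, rfl⟩
      refine ⟨⟨p, hp.1, rfl⟩, ?_⟩
      rw [mem_preimage, h.blift_bmk hF hp.1]
      exact hp.2
  rw [h1]
  exact isCompact_BI (hp.2.2 C hC hCB)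

omit [DecidableEq V] [DecidableEq V'] [TopologicalSpace X] [TopologicalSpace X'] in
theorem bmap_eq_bmp (f : X → X') (g : Fr V → Fr V') :
    (bmap L' act' f g : Bor L act → Bor L' act') = bmp L' act' (Prod.map f g) := rfl
theorem EqvOn.of_map {act₁ : Matrix V V ℂ → X' → X'} {L₁ : Set (Matrix V V ℂ)} (hs : L ⊆ L₁)
    {P : Set (X × Fr V)} {f : X → X'} (hf : ∀ u ∈ L, ∀ p ∈ P, f (act u p.1) = act₁ u (f p.1)) :
    EqvOn L act L₁ act₁ P (Prod.map f id) :=
  fun u hu p hp => ⟨u, hs hu, Prod.ext (hf u hu p hp) rfl⟩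

theorem EqvOn.mono {P P₁ : Set (X × Fr V)} {F : X × Fr V → X' × Fr V'}
    (hF : EqvOn L act L' act' P F) (hs : P₁ ⊆ P) : EqvOn L act L' act' P₁ F :=
  fun u hu p hp => hF u hu p (hs hp)

theorem Top_desc {P : Set (X × Fr V)} {F : X × Fr V → X' × Fr V'}
    (hF : EqvOn L act L' act' P F) : Desc L act P (bmk L' act' ∘ F) := by
  intro u hu p hp
  obtain ⟨u', hu', h1⟩ := hF u hu p hp
  rw [Function.comp_apply, h1]
  exact bmk_bact hu' _

theorem IsAct.bmp_bmk (h : IsAct L act) {P : Set (X × Fr V)} {F : X × Fr V → X' × Fr V'}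
    (hF : EqvOn L act L' act' P F) {p : X × Fr V} (hp : p ∈ P) :
    bmp L' act' F (bmk L act p) = bmk L' act' (F p) :=
  h.blift_bmk (Top_desc hF) hp

theorem IsAct.continuousOn_bmp (h : IsAct L act) {P : Set (X × Fr V)} (hP : Inv L act P)
    {F : X × Fr V → X' × Fr V'} (hF : EqvOn L act L' act' P F) (hc : ContinuousOn F P) :
    ContinuousOn (bmp L' act' F : Bor L act → Bor L' act') (BI L act P) :=
  h.continuousOn_blift hP (Top_desc hF) (continuous_bmk.comp_continuousOn hc)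

theorem IsAct.mapsTo_bmp (h : IsAct L act) {P : Set (X × Fr V)} {P' : Set (X' × Fr V')}
    {F : X × Fr V → X' × Fr V'} (hF : EqvOn L act L' act' P F) (hm : MapsTo F P P') :
    MapsTo (bmp L' act' F : Bor L act → Bor L' act') (BI L act P) (BI L' act' P') := by
  rintro _ ⟨p, hp, rfl⟩
  rw [h.bmp_bmk hF hp]
  exact ⟨F p, hm hp, rfl⟩

theorem IsAct.image_bmp (h : IsAct L act) {P : Set (X × Fr V)} {F : X × Fr V → X' × Fr V'}
    (hF : EqvOn L act L' act' P F) :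
    (bmp L' act' F : Bor L act → Bor L' act') '' BI L act P = BI L' act' (F '' P) := by
  rw [BI, BI, image_image, image_image]
  exact image_congr fun p hp => h.bmp_bmk hF hp

theorem IsAct.inter_preimage_bmp (h : IsAct L act) (h' : IsAct L' act') {P : Set (X × Fr V)}
    {P' : Set (X' × Fr V')} (hP' : Inv L' act' P') {F : X × Fr V → X' × Fr V'}
    (hF : EqvOn L act L' act' P F) :
    BI L act P ∩ (bmp L' act' F : Bor L act → Bor L' act') ⁻¹' BI L' act' P' =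
      BI L act (P ∩ F ⁻¹' P') := by
  ext q
  constructor
  · rintro ⟨⟨p, hp, rfl⟩, h1⟩
    rw [mem_preimage, h.bmp_bmk hF hp, h'.mem_BI hP'] at h1
    exact ⟨p, ⟨hp, h1⟩, rfl⟩
  · rintro ⟨p, hp, rfl⟩
    refine ⟨⟨p, hp.1, rfl⟩, ?_⟩
    rw [mem_preimage, h.bmp_bmk hF hp.1]
    exact ⟨F p, hp.2, rfl⟩

theorem IsAct.properOn_bmp (h : IsAct L act) (h' : IsAct L' act') {P : Set (X × Fr V)}
    (hP : Inv L act P) {P' : Set (X' × Fr V')} (hP' : Inv L' act' P') {F : X × Fr V → X' × Fr V'}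
    (hF : EqvOn L act L' act' P F) (hp : ProperOn F P P') :
    ProperOn (bmp L' act' F : Bor L act → Bor L' act') (BI L act P) (BI L' act' P') :=
  h.properOn_blift hP (Top_desc hF) ((h'.properOn_bmk hP' (ClosedIn.refl P')).comp hp)

theorem IsAct.homeoOn_bmp (h : IsAct L act) (h' : IsAct L' act') {P : Set (X × Fr V)}
    (hP : Inv L act P) {P' : Set (X' × Fr V')} (hP' : Inv L' act' P') {F : X × Fr V → X' × Fr V'}
    {G : X' × Fr V' → X × Fr V} (hF : EqvOn L act L' act' P F) (hG : EqvOn L' act' L act P' G)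
    (hh : HomeoOn F G P P') :
    HomeoOn (bmp L' act' F : Bor L act → Bor L' act') (bmp L act G) (BI L act P) (BI L' act' P') := by
  obtain ⟨cF, cG, mF, mG, GF, FG⟩ := hh
  refine ⟨h.continuousOn_bmp hP hF cF, h'.continuousOn_bmp hP' hG cG, h.mapsTo_bmp hF mF,
    h'.mapsTo_bmp hG mG, ?_, ?_⟩
  · rintro _ ⟨p, hp, rfl⟩
    rw [h.bmp_bmk hF hp, h'.bmp_bmk hG (mF hp), GF p hp]
  · rintro _ ⟨p, hp, rfl⟩
    rw [h'.bmp_bmk hG hp, h.bmp_bmk hF (mG hp), FG p hp]

theorem IsAct.bmp_comp {V'' X'' : Type} [Fintype V''] [DecidableEq V'']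
    {L'' : Set (Matrix V'' V'' ℂ)} {act'' : Matrix V'' V'' ℂ → X'' → X''} (h : IsAct L act)
    (h' : IsAct L' act') {P : Set (X × Fr V)} {P' : Set (X' × Fr V')} {F : X × Fr V → X' × Fr V'}
    {G : X' × Fr V' → X'' × Fr V''} (hP : Inv L act P) (hG : EqvOn L' act' L'' act'' P' G)
    (hm : MapsTo F P P') :
    EqOn ((bmp L'' act'' G : Bor L' act' → _) ∘ (bmp L' act' F : Bor L act → _))
      (bmp L'' act'' (G ∘ F)) (BI L act P) := by
  intro q hq
  have h1 : F (Quot.out q) ∈ P' := hm ((h.out_mem hP).1 hq)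
  obtain ⟨u, hu, h2⟩ := h'.exists_out (F (Quot.out q))
  obtain ⟨u', hu', h3⟩ := hG u hu _ h1
  change bmk L'' act'' (G (Quot.out (bmk L' act' (F (Quot.out q))))) =
    bmk L'' act'' (G (F (Quot.out q)))
  rw [h2, h3]
  exact (Quot.sound ⟨u', hu', rfl⟩ : bmk L'' act'' _ = bmk L'' act'' _).symm

theorem bmp_id : (bmp L act id : Bor L act → Bor L act) = id :=
  funext bmk_out

theorem Top_homeo (h : IsAct L act) {P D : Set (X × Fr V)} (hP : Inv L act P) (hD : ClosedIn D P)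
    (hi : InjOn (bmk L act) D) : ∃ g, HomeoOn (bmk L act) g D (BI L act D) := by
  classical
  have hg : ∀ q : Bor L act, ∃ p, q ∈ BI L act D → p ∈ D ∧ bmk L act p = q := fun q => by
    by_cases hq : q ∈ BI L act D
    · obtain ⟨p, hp⟩ := hq
      exact ⟨p, fun _ => hp⟩
    · exact ⟨Quot.out q, fun h1 => absurd h1 hq⟩
  choose g hg using hg
  have hgp : ∀ p ∈ D, g (bmk L act p) = p := fun p hp =>
    hi (hg _ ⟨p, hp, rfl⟩).1 hp (hg _ ⟨p, hp, rfl⟩).2
  refine ⟨g, continuous_bmk.continuousOn, ?_, fun p hp => ⟨p, hp, rfl⟩, fun q hq => (hg q hq).1,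
    hgp, fun q hq => (hg q hq).2⟩
  refine continuousOn_iff_isClosed.2 fun t ht => ?_
  obtain ⟨F, hF, hDF⟩ := hD
  refine ⟨bmk L act '' (F ∩ t), h.isClosedMap_bmk _ (hF.inter ht), ?_⟩
  ext q
  constructor
  · rintro ⟨h1, hq⟩
    have h2 := (hg q hq).1
    rw [hDF] at h2
    exact ⟨⟨g q, ⟨h2.2, h1⟩, (hg q hq).2⟩, hq⟩
  · rintro ⟨⟨a, ha, rfl⟩, hq⟩
    have h1 : a ∈ P := (h.mem_BI hP).1 (BI_mono (hDF ▸ inter_subset_left) hq)
    have h2 : a ∈ D := hDF ▸ ⟨h1, ha.1⟩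
    refine ⟨?_, hq⟩
    rw [mem_preimage, hgp a h2]
    exact ha.2

theorem Top_homeoOn_comp {A B C : Type} [TopologicalSpace A] [TopologicalSpace B]
    [TopologicalSpace C] {f : B → C} {g : C → B} {f' : A → B} {g' : B → A} {S : Set A} {T : Set B}
    {U : Set C} (h : HomeoOn f g T U) (h' : HomeoOn f' g' S T) :
    HomeoOn (f ∘ f') (g' ∘ g) S U := by
  obtain ⟨c1, c2, m1, m2, e1, e2⟩ := h
  obtain ⟨c1', c2', m1', m2', e1', e2'⟩ := h'
  refine ⟨c1.comp c1' m1', c2'.comp c2 m2, m1.comp m1', m2'.comp m2, fun y hy => ?_,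
    fun y hy => ?_⟩
  · rw [Function.comp_apply, Function.comp_apply, e1 _ (m1' hy), e1' y hy]
  · rw [Function.comp_apply, Function.comp_apply, e2' _ (m2 hy), e2 y hy]

/-- Fibres of an induced map. -/
theorem IsAct.fibre_bmp [T1Space X'] (h : IsAct L act) (h' : IsAct L' act') {P : Set (X × Fr V)}
    (hP : Inv L act P) {F : X × Fr V → X' × Fr V'} (hF : EqvOn L act L' act' P F)
    (hc : ContinuousOn F P) (p' : X' × Fr V')
    (hlift : ∀ p ∈ P, ∀ u' ∈ L', F p = bact act' u' p' → ∃ u ∈ L, F (bact act u p) = p')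
    (hinj : ∀ p ∈ P, ∀ u ∈ L, F p = p' → F (bact act u p) = p' → bact act u p = p) :
    ∃ g, HomeoOn (bmk L act) g (P ∩ F ⁻¹' {p'})
      (BI L act P ∩ (bmp L' act' F : Bor L act → Bor L' act') ⁻¹' {bmk L' act' p'}) := by
  have h1 : ClosedIn (P ∩ F ⁻¹' {p'}) P :=
    ClosedIn.preimage (A := univ) ⟨{p'}, isClosed_singleton, (univ_inter _).symm⟩ hc
      (mapsTo_univ _ _)
  have h2 : InjOn (bmk L act) (P ∩ F ⁻¹' {p'}) := by
    intro p hp q hq hpq
    obtain ⟨u, hu, rfl⟩ := h.bmk_eq_iff.1 hpq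
    exact (hinj p hp.1 u hu hp.2 hq.2).symm
  have h3 : BI L act P ∩ (bmp L' act' F : Bor L act → Bor L' act') ⁻¹' {bmk L' act' p'} =
      BI L act (P ∩ F ⁻¹' {p'}) := by
    ext q
    constructor
    · rintro ⟨⟨p, hp, rfl⟩, h3⟩
      rw [mem_preimage, h.bmp_bmk hF hp, mem_singleton_iff] at h3
      obtain ⟨u', hu', h4⟩ := h'.bmk_eq_iff.1 h3.symm
      obtain ⟨u, hu, h5⟩ := hlift p hp u' hu' h4
      exact ⟨bact act u p, ⟨hP u hu p hp, h5⟩, bmk_bact hu p⟩
    · rintro ⟨p, hp, rfl⟩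
      refine ⟨⟨p, hp.1, rfl⟩, ?_⟩
      rw [mem_preimage, h.bmp_bmk hF hp.1, mem_singleton_iff, mem_singleton_iff.1 hp.2]
  rw [h3]
  exact Top_homeo h hP h1 h2

/-- Fibres of a map that keeps the group and the frame. -/
theorem IsAct.fibre_bmap [T1Space X'] {act₁ : Matrix V V ℂ → X' → X'} (h : IsAct L act)
    (h₁ : IsAct L act₁) {P : Set (X × Fr V)} (hP : Inv L act P) {f : X → X'}
    (hf : ∀ u ∈ L, ∀ p ∈ P, f (act u p.1) = act₁ u (f p.1))
    (hc : ContinuousOn (fun p : X × Fr V => f p.1) P) (y : X') (e : Fr V) (he : FreeOn L {e}) :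
    ∃ g, HomeoOn (fun x => bmk L act (x, e)) g {x | (x, e) ∈ P ∧ f x = y}
      (BI L act P ∩ (bmap L act₁ f id : Bor L act → Bor L act₁) ⁻¹' {bmk L act₁ (y, e)}) := by
  have h1 : ∀ u ∈ L, ∀ p ∈ P,
      Prod.map f id (bact act u p) = bact act₁ u (Prod.map f id p) :=
    fun u hu p hp => Prod.ext (hf u hu p hp) rfl
  obtain ⟨g, hg⟩ := h.fibre_bmp h₁ hP (EqvOn.of_map Subset.rfl hf)
    (hc.prodMk continuousOn_snd) (y, e)
    (fun p hp u hu h2 => ⟨star u, h.grp.star u hu, by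
      rw [h1 _ (h.grp.star u hu) p hp, h2, (h₁.bact_star hu _).1]⟩)
    (fun p hp u hu h2 h3 => by
      rw [h1 u hu p hp, h2] at h3
      rw [he u hu e rfl (congrArg Prod.snd h3), h.bact_one])
  have h2 : HomeoOn (fun x : X => (x, e)) Prod.fst {x | (x, e) ∈ P ∧ f x = y}
      (P ∩ Prod.map f id ⁻¹' {(y, e)}) := by
    refine ⟨by fun_prop, continuousOn_fst, fun x hx => ⟨hx.1, Prod.ext hx.2 rfl⟩, ?_,
      fun _ _ => rfl, ?_⟩
    · rintro ⟨x, e'⟩ ⟨h2, h3⟩
      obtain rfl : e' = e := congrArg Prod.snd h3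
      exact ⟨h2, congrArg Prod.fst h3⟩
    · rintro ⟨x, e'⟩ ⟨-, h3⟩
      obtain rfl : e' = e := congrArg Prod.snd h3
      rfl
  exact ⟨_, Top_homeoOn_comp hg h2⟩

/-- Induction from a subgroup: properness. -/
theorem IsAct.ind_proper (h : IsAct L act) {L₁ : Set (Matrix V V ℂ)} (h₁ : IsGrp L₁) (hs : L₁ ⊆ L)
    {P P₁ : Set (X × Fr V)} (hP : Inv L act P) (hP₁ : Inv L₁ act P₁) (hc : ClosedIn P₁ P) :
    ProperOn (bmap L act id id : Bor L₁ act → Bor L act) (BI L₁ act P₁) (BI L act P) :=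
  (h.mono h₁ hs).properOn_bmp h hP₁ hP (EqvOn.of_map hs fun _ _ _ _ => rfl) hc.properOn

/-- Induction from a subgroup: bijectivity. -/
theorem IsAct.ind_bijOn (h : IsAct L act) {L₁ : Set (Matrix V V ℂ)} (h₁ : IsGrp L₁) (hs : L₁ ⊆ L)
    {P₁ : Set (X × Fr V)} (hst : ∀ p ∈ P₁, ∀ u ∈ L, bact act u p ∈ P₁ →
      ∃ u₁ ∈ L₁, bact act u p = bact act u₁ p) :
    BijOn (bmap L act id id : Bor L₁ act → Bor L act) (BI L₁ act P₁) (BI L act P₁) := by
  have h0 := h.mono h₁ hs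
  have h1 : ∀ p, (bmap L act id id : Bor L₁ act → Bor L act) (bmk L₁ act p) = bmk L act p :=
    fun p => h0.bmp_bmk (P := univ) (EqvOn.of_map hs fun _ _ _ _ => rfl) trivial
  refine ⟨?_, ?_, ?_⟩
  · rintro _ ⟨p, hp, rfl⟩
    exact ⟨p, hp, (h1 p).symm⟩
  · rintro _ ⟨p, hp, rfl⟩ _ ⟨q, hq, rfl⟩ hpq
    rw [h1, h1] at hpq
    obtain ⟨u, hu, rfl⟩ := h.bmk_eq_iff.1 hpq
    obtain ⟨u₁, hu₁, h2⟩ := hst p hp u hu hq
    rw [h2, bmk_bact hu₁]
  · rintro _ ⟨p, hp, rfl⟩
    exact ⟨_, ⟨p, hp, rfl⟩, h1 p⟩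

theorem IsAct.toK_bmk (h : IsAct L act) {L₁ : Set (Matrix V V ℂ)} (h₁ : IsGrp L₁) (hs : L₁ ⊆ L)
    (p : X × Fr V) : (bmap L act id id : Bor L₁ act → Bor L act) (bmk L₁ act p) = bmk L act p :=
  (h.mono h₁ hs).bmp_bmk (P := univ) (EqvOn.of_map hs fun _ _ _ _ => rfl) trivial

theorem IsAct.toPt_bmk (h : IsAct L act) {L₁ : Set (Matrix V V ℂ)} (hs : L ⊆ L₁) (p : X × Fr V) :
    (bmap L₁ ptAct (fun _ => ()) id : Bor L act → Bor L₁ ptAct) (bmk L act p) =
      bmk L₁ ptAct ((), p.2) :=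
  h.bmp_bmk (P := univ) (EqvOn.of_map (f := fun _ => ()) hs fun _ _ _ _ => rfl) trivial

theorem IsAct.continuous_toPt (h : IsAct L act) {L₁ : Set (Matrix V V ℂ)} (hs : L ⊆ L₁) :
    Continuous (bmap L₁ ptAct (fun _ => ()) id : Bor L act → Bor L₁ ptAct) := by
  rw [Top_quot.continuous_iff]
  have h1 : (bmap L₁ ptAct (fun _ => ()) id : Bor L act → Bor L₁ ptAct) ∘ bmk L act =
      fun p => bmk L₁ ptAct ((), p.2) := funext (h.toPt_bmk hs)
  rw [h1]
  exact continuous_bmk.comp (by fun_prop)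

theorem IsAct.mapsTo_toPt (h : IsAct L act) {L₁ : Set (Matrix V V ℂ)} (hs : L ⊆ L₁)
    {P : Set (X × Fr V)} {E : Set (Fr V)} (hE : ∀ p ∈ P, p.2 ∈ E) :
    MapsTo (bmap L₁ ptAct (fun _ => ()) id : Bor L act → Bor L₁ ptAct) (BI L act P)
      (BS L₁ ptAct univ E) := by
  rintro _ ⟨p, hp, rfl⟩
  exact ⟨(), trivial, p.2, hE p hp, h.toPt_bmk hs p⟩

/-- Vanishing can be tested on the fibres over the frames. -/
theorem IsAct.vanish_fibres [Nice X] (h : IsAct L act) {S : Set X} (hS : InvX L act S)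
    {E : Set (Fr V)} (hE : InvF L E) (hf : FreeOn L E) (hlE : LC E) (hlS : LC S)
    (h0 : Subsingleton (Hc S)) : Subsingleton (Hc (BS L act S E)) := by
  have h1 := h.nice
  have hpt := isAct_pt h.grp
  have h2 := hpt.nice
  have hP := Inv.prod hS hE
  rw [BS_eq]
  refine vanish (h.lc_BI hP (hlS.prod hlE)) (h.continuous_toPt Subset.rfl).continuousOn fun b => ?_
  rcases eq_empty_or_nonempty (BI L act (S ×ˢ E) ∩
    (bmap L ptAct (fun _ => ()) id : Bor L act → Bor L ptAct) ⁻¹' {b}) with h3 | h3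
  · rw [h3]
    infer_instance
  · obtain ⟨_, ⟨p, hp, rfl⟩, h3⟩ := h3
    rw [mem_preimage, h.toPt_bmk Subset.rfl, mem_singleton_iff] at h3
    subst h3
    obtain ⟨g, hg⟩ := h.fibre_bmap hpt hP (f := fun _ => ()) (fun _ _ _ _ => rfl)
      continuousOn_const () p.2 fun u hu e he => hf u hu e (he ▸ hp.2)
    have h4 : {x | (x, p.2) ∈ S ×ˢ E ∧ () = ()} = S := by
      ext x
      exact ⟨fun hx => hx.1.1, fun hx => ⟨⟨hx, hp.2⟩, rfl⟩⟩
    rw [h4] at hg
    exact hg.symm.subsingleton h0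

end Pool.Agent.HK
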